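import Pool.Agent.TWO.Defs
import Pool.Agent.SLR.L3

set_option autoImplicit false

open PowerSeries Finset MeasureTheory Filter Topology

namespace Pool.Agent.TWO

section a1

private noncomputable def a1_X (a : Fin 2) (i : Fin 3) : MvPolynomial (Fin 2 × Fin 3) ℝ :=
  MvPolynomial.X (a, i)

private noncomputable def a1_D (a : Fin 2) (i : Fin 3) :
    Derivation ℝ (MvPolynomial (Fin 2 × Fin 3) ℝ) (MvPolynomial (Fin 2 × Fin 3) ℝ) :=
  MvPolynomial.pderiv (a, i)

private noncomputable def a1_p : MvPolynomial (Fin 2 × Fin 3) ℝ := ∑ i : Fin 3, a1_X 0 i * a1_X 0 i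
private noncomputable def a1_q : MvPolynomial (Fin 2 × Fin 3) ℝ := ∑ i : Fin 3, a1_X 0 i * a1_X 1 i
private noncomputable def a1_r : MvPolynomial (Fin 2 × Fin 3) ℝ := ∑ i : Fin 3, a1_X 1 i * a1_X 1 i

private theorem a1_D_X (a b : Fin 2) (i j : Fin 3) :
    a1_D a i (a1_X b j) = if a = b ∧ i = j then 1 else 0 := by
  unfold a1_D a1_X
  rw [MvPolynomial.pderiv_X, Pi.single_apply]
  simp only [Prod.mk.injEq]
  by_cases h : a = b ∧ i = j
  · rw [if_pos ⟨h.1.symm, h.2.symm⟩, if_pos h]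
  · rw [if_neg (fun h' => h ⟨h'.1.symm, h'.2.symm⟩), if_neg h]

private noncomputable def a1_dd (v w : Fin 2) :
    MvPolynomial (Fin 2 × Fin 3) ℝ →ₗ[ℝ] MvPolynomial (Fin 2 × Fin 3) ℝ :=
  ∑ i : Fin 3, (a1_D v i).toLinearMap ∘ₗ (a1_D w i).toLinearMap

private theorem a1_dd_apply (v w : Fin 2) (f : MvPolynomial (Fin 2 × Fin 3) ℝ) :
    a1_dd v w f = ∑ i : Fin 3, a1_D v i (a1_D w i f) := by
  unfold a1_dd
  simp only [LinearMap.sum_apply, LinearMap.comp_apply]
  rfl

private theorem a1_p0 (i : Fin 3) : a1_D 0 i a1_p = 2 * a1_X 0 i := by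
  unfold a1_p
  fin_cases i <;> simp [Fin.sum_univ_three, a1_D_X] <;> ring

private theorem a1_p1 (i : Fin 3) : a1_D 1 i a1_p = 0 := by
  unfold a1_p
  fin_cases i <;> simp [Fin.sum_univ_three, a1_D_X]

private theorem a1_q0 (i : Fin 3) : a1_D 0 i a1_q = a1_X 1 i := by
  unfold a1_q
  fin_cases i <;> simp [Fin.sum_univ_three, a1_D_X]

private theorem a1_q1 (i : Fin 3) : a1_D 1 i a1_q = a1_X 0 i := by
  unfold a1_q
  fin_cases i <;> simp [Fin.sum_univ_three, a1_D_X]

private theorem a1_r0 (i : Fin 3) : a1_D 0 i a1_r = 0 := by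
  unfold a1_r
  fin_cases i <;> simp [Fin.sum_univ_three, a1_D_X]

private theorem a1_r1 (i : Fin 3) : a1_D 1 i a1_r = 2 * a1_X 1 i := by
  unfold a1_r
  fin_cases i <;> simp [Fin.sum_univ_three, a1_D_X] <;> ring

/-- `n f ^ (n - 1)` -/
private noncomputable def a1_e (n : ℕ) (f : MvPolynomial (Fin 2 × Fin 3) ℝ) :
    MvPolynomial (Fin 2 × Fin 3) ℝ := (n : MvPolynomial (Fin 2 × Fin 3) ℝ) * f ^ (n - 1)

/-- `n (n - 1) f ^ (n - 2)` -/
private noncomputable def a1_ee (n : ℕ) (f : MvPolynomial (Fin 2 × Fin 3) ℝ) :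
    MvPolynomial (Fin 2 × Fin 3) ℝ := (n : MvPolynomial (Fin 2 × Fin 3) ℝ) *
      (((n - 1 : ℕ) : MvPolynomial (Fin 2 × Fin 3) ℝ) * f ^ (n - 1 - 1))

private theorem a1_pow (a : Fin 2) (i : Fin 3) (f : MvPolynomial (Fin 2 × Fin 3) ℝ) (n : ℕ) :
    a1_D a i (f ^ n) = a1_e n f * a1_D a i f := by
  unfold a1_D a1_e
  rw [MvPolynomial.pderiv_pow]

private theorem a1_De (a : Fin 2) (i : Fin 3) (f : MvPolynomial (Fin 2 × Fin 3) ℝ) (n : ℕ) :
    a1_D a i (a1_e n f) = a1_ee n f * a1_D a i f := by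
  unfold a1_e a1_ee
  rw [Derivation.leibniz, a1_pow, a1_e, smul_eq_mul, smul_eq_mul, Derivation.map_natCast, mul_zero,
    add_zero]
  ring

private theorem a1_e_mul (n : ℕ) (f : MvPolynomial (Fin 2 × Fin 3) ℝ) :
    a1_e n f * f = n * f ^ n := by
  unfold a1_e
  rcases n with _ | n
  · simp
  · rw [Nat.add_sub_cancel, pow_succ]
    ring

private theorem a1_ee_mul (n : ℕ) (f : MvPolynomial (Fin 2 × Fin 3) ℝ) :
    a1_ee n f * f = ((n : MvPolynomial (Fin 2 × Fin 3) ℝ) - 1) * a1_e n f := by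
  unfold a1_e a1_ee
  rcases n with _ | _ | n
  · simp
  · simp
  · rw [Nat.add_sub_cancel, Nat.add_sub_cancel]
    push_cast
    rw [pow_succ]
    ring

/-- the mixed operator on monomials -/
private theorem a1_dd01 (i k j : ℕ) :
    a1_dd 0 1 (a1_p ^ i * a1_q ^ k * a1_r ^ j) =
      (2 * i + 2 * j + k + 2 : MvPolynomial (Fin 2 × Fin 3) ℝ) *
        (a1_p ^ i * a1_e k a1_q * a1_r ^ j) +
      4 * (a1_e i a1_p * a1_q ^ (k + 1) * a1_e j a1_r) := by
  rw [a1_dd_apply]
  have e : ∀ x : Fin 3, a1_D 0 x (a1_D 1 x (a1_p ^ i * a1_q ^ k * a1_r ^ j)) =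
      2 * (a1_e i a1_p * a1_e k a1_q * a1_r ^ j) * (a1_X 0 x * a1_X 0 x) +
      a1_p ^ i * a1_ee k a1_q * a1_r ^ j * (a1_X 0 x * a1_X 1 x) +
      a1_p ^ i * a1_e k a1_q * a1_r ^ j +
      4 * (a1_e i a1_p * a1_q ^ k * a1_e j a1_r) * (a1_X 0 x * a1_X 1 x) +
      2 * (a1_p ^ i * a1_e k a1_q * a1_e j a1_r) * (a1_X 1 x * a1_X 1 x) := by
    intro x
    have h1 : a1_D 1 x (a1_p ^ i * a1_q ^ k * a1_r ^ j) =
        a1_p ^ i * a1_e k a1_q * a1_r ^ j * a1_X 0 x +
        2 * (a1_p ^ i * a1_q ^ k * a1_e j a1_r * a1_X 1 x) := by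
      simp only [Derivation.leibniz, smul_eq_mul, a1_pow, a1_p1, a1_q1, a1_r1]
      ring
    have h2 : a1_D 0 x (a1_X 0 x) = 1 := by rw [a1_D_X, if_pos ⟨rfl, rfl⟩]
    have h3 : a1_D 0 x (a1_X 1 x) = 0 := by rw [a1_D_X, if_neg (fun h => absurd h.1 (by decide))]
    have h4 : a1_D 0 x (2 : MvPolynomial (Fin 2 × Fin 3) ℝ) = 0 := by
      have := (a1_D 0 x).map_natCast 2
      exact_mod_cast this
    rw [h1, map_add]
    simp only [Derivation.leibniz, smul_eq_mul, a1_pow, a1_De, a1_p0, a1_q0, a1_r0, h2, h3, h4]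
    ring
  simp only [e, Finset.sum_add_distrib, ← Finset.mul_sum]
  rw [Finset.sum_const, Finset.card_univ, Fintype.card_fin]
  have f1 : ∑ x, a1_X 0 x * a1_X 0 x = a1_p := rfl
  have f2 : ∑ x, a1_X 0 x * a1_X 1 x = a1_q := rfl
  have f3 : ∑ x, a1_X 1 x * a1_X 1 x = a1_r := rfl
  rw [f1, f2, f3, pow_succ]
  simp only [nsmul_eq_mul]
  push_cast
  linear_combination (2 * a1_e k a1_q * a1_r ^ j) * a1_e_mul i a1_p +
    (a1_p ^ i * a1_r ^ j) * a1_ee_mul k a1_q + (2 * a1_p ^ i * a1_e k a1_q) * a1_e_mul j a1_r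

/-- the Laplacian in the first vector -/
private theorem a1_dd00 (i : ℕ) (g : MvPolynomial (Fin 2 × Fin 3) ℝ)
    (hg : ∀ x, a1_D 0 x g = 0) :
    a1_dd 0 0 (a1_p ^ i * g) =
      ((2 * i + 1) : MvPolynomial (Fin 2 × Fin 3) ℝ) * (2 * (a1_e i a1_p * g)) := by
  rw [a1_dd_apply]
  have e : ∀ x : Fin 3, a1_D 0 x (a1_D 0 x (a1_p ^ i * g)) =
      4 * (a1_ee i a1_p * g) * (a1_X 0 x * a1_X 0 x) + 2 * (a1_e i a1_p * g) := by
    intro x
    have h1 : a1_D 0 x (a1_p ^ i * g) = 2 * (a1_e i a1_p * g * a1_X 0 x) := by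
      simp only [Derivation.leibniz, smul_eq_mul, a1_pow, a1_p0, hg]
      ring
    have h2 : a1_D 0 x (a1_X 0 x) = 1 := by rw [a1_D_X, if_pos ⟨rfl, rfl⟩]
    have h4 : a1_D 0 x (2 : MvPolynomial (Fin 2 × Fin 3) ℝ) = 0 := by
      have := (a1_D 0 x).map_natCast 2
      exact_mod_cast this
    rw [h1]
    simp only [Derivation.leibniz, smul_eq_mul, a1_De, a1_p0, h2, h4, hg]
    ring
  simp only [e, Finset.sum_add_distrib, ← Finset.mul_sum]
  rw [Finset.sum_const, Finset.card_univ, Fintype.card_fin]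
  have f1 : ∑ x, a1_X 0 x * a1_X 0 x = a1_p := rfl
  rw [f1]
  simp only [nsmul_eq_mul]
  push_cast
  linear_combination (4 * g) * a1_ee_mul i a1_p

private theorem a1_dd11 (j : ℕ) (g : MvPolynomial (Fin 2 × Fin 3) ℝ)
    (hg : ∀ x, a1_D 1 x g = 0) :
    a1_dd 1 1 (g * a1_r ^ j) =
      ((2 * j + 1) : MvPolynomial (Fin 2 × Fin 3) ℝ) * (2 * (g * a1_e j a1_r)) := by
  rw [a1_dd_apply]
  have e : ∀ x : Fin 3, a1_D 1 x (a1_D 1 x (g * a1_r ^ j)) =
      4 * (g * a1_ee j a1_r) * (a1_X 1 x * a1_X 1 x) + 2 * (g * a1_e j a1_r) := by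
    intro x
    have h1 : a1_D 1 x (g * a1_r ^ j) = 2 * (g * a1_e j a1_r * a1_X 1 x) := by
      simp only [Derivation.leibniz, smul_eq_mul, a1_pow, a1_r1, hg]
      ring
    have h2 : a1_D 1 x (a1_X 1 x) = 1 := by rw [a1_D_X, if_pos ⟨rfl, rfl⟩]
    have h4 : a1_D 1 x (2 : MvPolynomial (Fin 2 × Fin 3) ℝ) = 0 := by
      have := (a1_D 1 x).map_natCast 2
      exact_mod_cast this
    rw [h1]
    simp only [Derivation.leibniz, smul_eq_mul, a1_De, a1_r1, h2, h4, hg]
    ring
  simp only [e, Finset.sum_add_distrib, ← Finset.mul_sum]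
  rw [Finset.sum_const, Finset.card_univ, Fintype.card_fin]
  have f1 : ∑ x, a1_X 1 x * a1_X 1 x = a1_r := rfl
  rw [f1]
  simp only [nsmul_eq_mul]
  push_cast
  linear_combination (4 * g) * a1_ee_mul j a1_r


private theorem a1_D_comm (a b : Fin 2) (i j : Fin 3) (f : MvPolynomial (Fin 2 × Fin 3) ℝ) :
    a1_D a i (a1_D b j f) = a1_D b j (a1_D a i f) := by
  induction f using MvPolynomial.induction_on with
  | C r =>
    unfold a1_D
    simp
  | add p q hp hq => simp only [map_add, hp, hq]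
  | mul_X p n hp =>
    obtain ⟨c, k⟩ := n
    have e : (MvPolynomial.X (c, k) : MvPolynomial (Fin 2 × Fin 3) ℝ) = a1_X c k := rfl
    have h1 : ∀ (a b : Fin 2) (i j : Fin 3), a1_D a i (a1_D b j (a1_X c k)) = 0 := by
      intro a b i j
      rw [a1_D_X]
      split_ifs
      · exact (a1_D a i).map_one_eq_zero
      · exact map_zero _
    rw [e]
    simp only [Derivation.leibniz, smul_eq_mul, map_add, h1, hp, mul_zero, zero_add]
    ring

private theorem a1_dd_comm (a b c d : Fin 2) : Commute (a1_dd a b) (a1_dd c d) := by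
  refine LinearMap.ext fun f => ?_
  rw [Module.End.mul_apply, Module.End.mul_apply]
  simp only [a1_dd_apply, map_sum]
  rw [Finset.sum_comm]
  refine Finset.sum_congr rfl fun i _ => Finset.sum_congr rfl fun j _ => ?_
  rw [a1_D_comm b c, a1_D_comm b d, a1_D_comm a c, a1_D_comm a d]

private theorem a1_dd10 : a1_dd 1 0 = a1_dd 0 1 := by
  refine LinearMap.ext fun f => ?_
  simp only [a1_dd_apply]
  exact Finset.sum_congr rfl fun i _ => a1_D_comm _ _ _ _ _

private theorem a1_const_p : MvPolynomial.constantCoeff a1_p = 0 := by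
  unfold a1_p a1_X
  simp

private theorem a1_const_q : MvPolynomial.constantCoeff a1_q = 0 := by
  unfold a1_q a1_X
  simp

private theorem a1_const_r : MvPolynomial.constantCoeff a1_r = 0 := by
  unfold a1_r a1_X
  simp

private theorem a1_dd01_smul (i k j : ℕ) :
    a1_dd 0 1 (a1_p ^ i * a1_q ^ k * a1_r ^ j) =
      ((2 * i + 2 * j + k + 2) * k : ℝ) • (a1_p ^ i * a1_q ^ (k - 1) * a1_r ^ j) +
      (4 * i * j : ℝ) • (a1_p ^ (i - 1) * a1_q ^ (k + 1) * a1_r ^ (j - 1)) := by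
  rw [a1_dd01, MvPolynomial.smul_eq_C_mul, MvPolynomial.smul_eq_C_mul]
  unfold a1_e
  have e2 : (MvPolynomial.C (2 : ℝ) : MvPolynomial (Fin 2 × Fin 3) ℝ) = 2 := rfl
  have e4 : (MvPolynomial.C (4 : ℝ) : MvPolynomial (Fin 2 × Fin 3) ℝ) = 4 := rfl
  simp only [map_mul, map_add, map_natCast, e2, e4]
  ring

private theorem a1_T (m : ℕ) : ∀ i k j : ℕ,
    MvPolynomial.constantCoeff ((a1_dd 0 1 ^ m) (a1_p ^ i * a1_q ^ k * a1_r ^ j)) =
      if 2 * i + k = m ∧ 2 * j + k = m then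
        ((m.factorial : ℝ) * ((m + 2).factorial : ℝ)) / (2 * ((i : ℝ) + 1)) else 0 := by
  induction m with
  | zero =>
    intro i k j
    rw [pow_zero, Module.End.one_apply, map_mul, map_mul, map_pow, map_pow, map_pow, a1_const_p,
      a1_const_q, a1_const_r]
    by_cases h : 2 * i + k = 0 ∧ 2 * j + k = 0
    · obtain ⟨h1, h2⟩ := h
      have hi : i = 0 := by omega
      have hk : k = 0 := by omega
      have hj : j = 0 := by omega
      subst hi hk hj
      simp [Nat.factorial]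
    · rw [if_neg h]
      have : i ≠ 0 ∨ k ≠ 0 ∨ j ≠ 0 := by omega
      rcases this with h | h | h
      · rw [zero_pow h]; ring
      · rw [zero_pow h]; ring
      · rw [zero_pow h]; ring
  | succ m ih =>
    intro i k j
    rw [pow_succ, Module.End.mul_apply, a1_dd01_smul, map_add, map_smul, map_smul, map_add,
      MvPolynomial.constantCoeff_smul, MvPolynomial.constantCoeff_smul, ih, ih, smul_eq_mul,
      smul_eq_mul]
    set F : ℝ := (m.factorial : ℝ) * ((m + 2).factorial : ℝ) with hF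
    have hF1 : ((m + 1).factorial : ℝ) * ((m + 1 + 2).factorial : ℝ) =
        F * (((m : ℝ) + 1) * ((m : ℝ) + 3)) := by
      rw [hF, show m + 1 + 2 = (m + 2) + 1 from rfl, Nat.factorial_succ m,
        Nat.factorial_succ (m + 2)]
      push_cast
      ring
    have c1 : ((2 * i + 2 * j + k + 2) * k : ℝ) *
        (if 2 * i + (k - 1) = m ∧ 2 * j + (k - 1) = m then F / (2 * ((i : ℝ) + 1)) else 0) =
        if 2 * i + k = m + 1 ∧ 2 * j + k = m + 1 then
          ((2 * i + 2 * j + k + 2) * k : ℝ) * (F / (2 * ((i : ℝ) + 1))) else 0 := by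
      rcases k with _ | k
      · simp
      · rw [Nat.add_sub_cancel]
        by_cases h : 2 * i + k = m ∧ 2 * j + k = m
        · rw [if_pos h, if_pos (by omega)]
        · rw [if_neg h, if_neg (by omega), mul_zero]
    have c2 : (4 * i * j : ℝ) *
        (if 2 * (i - 1) + (k + 1) = m ∧ 2 * (j - 1) + (k + 1) = m then
          F / (2 * (((i - 1 : ℕ) : ℝ) + 1)) else 0) =
        if 2 * i + k = m + 1 ∧ 2 * j + k = m + 1 then 2 * j * F else 0 := by
      rcases i with _ | i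
      · by_cases h : 2 * 0 + k = m + 1 ∧ 2 * j + k = m + 1
        · have hj : j = 0 := by omega
          subst hj
          simp
        · rw [if_neg h]
          simp
      · rcases j with _ | j
        · rw [if_neg (show ¬ (2 * (i + 1) + k = m + 1 ∧ 2 * 0 + k = m + 1) by omega)]
          simp
        · rw [Nat.add_sub_cancel, Nat.add_sub_cancel]
          by_cases h : 2 * i + (k + 1) = m ∧ 2 * j + (k + 1) = m
          · rw [if_pos h, if_pos (by omega)]
            have : (i : ℝ) + 1 ≠ 0 := by positivity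
            push_cast
            field_simp
            ring
          · rw [if_neg h, if_neg (by omega), mul_zero]
    rw [c1, c2, hF1]
    by_cases h : 2 * i + k = m + 1 ∧ 2 * j + k = m + 1
    · rw [if_pos h, if_pos h, if_pos h]
      obtain ⟨h1, h2⟩ := h
      have hij : i = j := by omega
      subst hij
      have hm : (m : ℝ) = 2 * i + k - 1 := by
        have : ((m + 1 : ℕ) : ℝ) = ((2 * i + k : ℕ) : ℝ) := by rw [h1]
        push_cast at this
        linarith
      have : (i : ℝ) + 1 ≠ 0 := by positivity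
      rw [hm]
      field_simp
      ring
    · rw [if_neg h, if_neg h, if_neg h, add_zero]

private theorem a1_nat (n l : ℕ) : (2 * n + 1).descFactorial (2 * (l + 1)) =
    (2 * (n - l)) * ((2 * (n - l) + 1) * (2 * n + 1).descFactorial (2 * l)) := by
  rw [show 2 * (l + 1) = 2 * l + 1 + 1 by ring, Nat.descFactorial_succ, Nat.descFactorial_succ]
  by_cases h : l ≤ n
  · rw [show 2 * n + 1 - (2 * l + 1) = 2 * (n - l) by omega,
      show 2 * n + 1 - 2 * l = 2 * (n - l) + 1 by omega]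
  · rw [Nat.descFactorial_of_lt (show 2 * n + 1 < 2 * l by omega)]
    simp

private theorem a1_A (α i j : ℕ) : (a1_dd 0 0 ^ α) (a1_p ^ i * a1_r ^ j) =
    ((2 * i + 1).descFactorial (2 * α) : ℝ) • (a1_p ^ (i - α) * a1_r ^ j) := by
  induction α with
  | zero => simp
  | succ α ih =>
    rw [pow_succ', Module.End.mul_apply, ih, map_smul, a1_dd00 _ _ (fun x => by
      rw [a1_pow, a1_r0, mul_zero]), a1_nat, MvPolynomial.smul_eq_C_mul,
      MvPolynomial.smul_eq_C_mul]
    unfold a1_e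
    have e1 : i - α - 1 = i - (α + 1) := by omega
    rw [e1]
    push_cast
    simp only [map_mul, map_add, map_natCast, map_one, map_ofNat]
    ring

private theorem a1_B (β i j : ℕ) : (a1_dd 1 1 ^ β) (a1_p ^ i * a1_r ^ j) =
    ((2 * j + 1).descFactorial (2 * β) : ℝ) • (a1_p ^ i * a1_r ^ (j - β)) := by
  induction β with
  | zero => simp
  | succ β ih =>
    rw [pow_succ', Module.End.mul_apply, ih, map_smul, a1_dd11 _ _ (fun x => by
      rw [a1_pow, a1_p1, mul_zero]), a1_nat, MvPolynomial.smul_eq_C_mul,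
      MvPolynomial.smul_eq_C_mul]
    unfold a1_e
    have e1 : j - β - 1 = j - (β + 1) := by omega
    rw [e1]
    push_cast
    simp only [map_mul, map_add, map_natCast, map_one, map_ofNat]
    ring


private theorem a1_const (m α β i j : ℕ) :
    MvPolynomial.constantCoeff ((a1_dd 0 1 ^ m) ((a1_dd 0 0 ^ α) ((a1_dd 1 1 ^ β)
      (a1_p ^ i * a1_r ^ j)))) =
      ((2 * j + 1).descFactorial (2 * β) : ℝ) * (((2 * i + 1).descFactorial (2 * α) : ℝ) *
        (if 2 * (i - α) = m ∧ 2 * (j - β) = m then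
        ((m.factorial : ℝ) * ((m + 2).factorial : ℝ)) / (2 * (((i - α : ℕ) : ℝ) + 1)) else 0)) := by
  have h := a1_T m (i - α) 0 (j - β)
  rw [pow_zero, mul_one] at h
  simp only [add_zero] at h
  rw [a1_B, map_smul, map_smul, MvPolynomial.constantCoeff_smul, a1_A, map_smul,
    MvPolynomial.constantCoeff_smul, h]
  rfl

private theorem a1_expand (a b c : ℝ) (i j : ℕ) :
    MvPolynomial.constantCoeff (((((2 * b) • a1_dd 0 1) + (a • a1_dd 0 0 + c • a1_dd 1 1)) ^ (i + j))
      (a1_p ^ i * a1_r ^ j)) =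
      ∑ m ∈ antidiagonal (i + j), ∑ s ∈ antidiagonal m.2,
        ((i + j).choose m.1 : ℝ) * ((2 * b) ^ m.1 * ((m.2.choose s.1 : ℝ) * (a ^ s.1 * (c ^ s.2 *
      (((2 * j + 1).descFactorial (2 * s.2) : ℝ) * (((2 * i + 1).descFactorial (2 * s.1) : ℝ) *
        (if 2 * (i - s.1) = m.1 ∧ 2 * (j - s.2) = m.1 then
        ((m.1.factorial : ℝ) * ((m.1 + 2).factorial : ℝ)) / (2 * (((i - s.1 : ℕ) : ℝ) + 1))
          else 0))))))) := by
  have hc1 : Commute (a • a1_dd 0 0) (c • a1_dd 1 1) :=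
    ((a1_dd_comm 0 0 1 1).smul_left a).smul_right c
  have hc2 : Commute ((2 * b) • a1_dd 0 1) (a • a1_dd 0 0 + c • a1_dd 1 1) :=
    (((a1_dd_comm 0 1 0 0).smul_left _).smul_right _).add_right
      (((a1_dd_comm 0 1 1 1).smul_left _).smul_right _)
  rw [hc2.add_pow', LinearMap.sum_apply, map_sum]
  refine Finset.sum_congr rfl fun m _ => ?_
  rw [LinearMap.smul_apply, Module.End.mul_apply, hc1.add_pow', LinearMap.sum_apply, map_sum,
    ← Nat.cast_smul_eq_nsmul ℝ, MvPolynomial.constantCoeff_smul, map_sum, smul_eq_mul,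
    Finset.mul_sum]
  refine Finset.sum_congr rfl fun s _ => ?_
  rw [← a1_const m.1 s.1 s.2 i j, smul_pow, smul_pow, smul_pow, LinearMap.smul_apply,
    LinearMap.smul_apply, Module.End.mul_apply, LinearMap.smul_apply, LinearMap.smul_apply,
    ← Nat.cast_smul_eq_nsmul ℝ]
  simp only [map_smul, MvPolynomial.constantCoeff_smul, smul_eq_mul]

private theorem a1_main (a b c : ℝ) (hb : b ≠ 0) (i j : ℕ) :
    MvPolynomial.constantCoeff (((((2 * b) • a1_dd 0 1) + (a • a1_dd 0 0 + c • a1_dd 1 1)) ^ (i + j))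
      (a1_p ^ i * a1_r ^ j)) / (i + j).factorial = H99.Spl.Mom a b c i j / (2 * b) := by
  rw [a1_expand, Finset.sum_sigma', eq_div_iff (by simpa using hb), div_mul_eq_mul_div,
    div_eq_iff (by positivity)]
  unfold H99.Spl.Mom
  rw [Finset.mul_sum, Finset.sum_mul, Finset.sum_mul, eq_comm]
  refine Finset.sum_of_injOn
    (fun e => (⟨(2 * e, i + j - 2 * e), (i - e, j - e)⟩ : (_ : ℕ × ℕ) × (ℕ × ℕ))) ?_ ?_ ?_ ?_
  · intro e _ e' _ h
    simp only [Sigma.mk.injEq, Prod.mk.injEq] at h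
    have := h.1.1
    omega
  · intro e he
    simp only [Finset.coe_range, Set.mem_Iio] at he
    simp only [Finset.coe_sigma, Set.mem_sigma_iff, Finset.mem_coe, HasAntidiagonal.mem_antidiagonal]
    constructor <;> omega
  · rintro ⟨m, s⟩ hms hn
    simp only [Finset.mem_sigma, HasAntidiagonal.mem_antidiagonal] at hms
    obtain ⟨h1, h2⟩ := hms
    by_cases hc : 2 * (i - s.1) = m.1 ∧ 2 * (j - s.2) = m.1
    · by_cases hs1 : s.1 ≤ i
      · by_cases hs2 : s.2 ≤ j
        · exfalso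
          apply hn
          refine ⟨i - s.1, ?_, ?_⟩
          · simp only [Finset.coe_range, Set.mem_Iio]
            omega
          · obtain ⟨m1, m2⟩ := m
            obtain ⟨s1, s2⟩ := s
            simp only at h1 h2 hs1 hs2
            have e1 : 2 * (i - s1) = m1 := hc.1
            have e2 : i + j - m1 = m2 := by omega
            have e3 : i - (i - s1) = s1 := by omega
            have e4 : j - (i - s1) = s2 := by omega
            simp only [e1, e2, e3, e4]
        · rw [Nat.descFactorial_of_lt (show 2 * j + 1 < 2 * s.2 by omega)]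
          simp
      · rw [Nat.descFactorial_of_lt (show 2 * i + 1 < 2 * s.1 by omega)]
        simp
    · simp only
      rw [if_neg hc]
      simp
  · intro e he
    rw [Finset.mem_range] at he
    simp only
    rw [if_pos (by omega)]
    have f1 := Nat.choose_mul_factorial_mul_factorial (show 2 * e ≤ i + j by omega)
    have f2 := Nat.choose_mul_factorial_mul_factorial (show i - e ≤ i + j - 2 * e by omega)
    have f3 := Nat.factorial_mul_descFactorial (show 2 * (i - e) ≤ 2 * i + 1 by omega)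
    have f4 := Nat.factorial_mul_descFactorial (show 2 * (j - e) ≤ 2 * j + 1 by omega)
    rw [show 2 * i + 1 - 2 * (i - e) = 2 * e + 1 by omega] at f3
    rw [show 2 * j + 1 - 2 * (j - e) = 2 * e + 1 by omega] at f4
    rw [show i + j - 2 * e - (i - e) = j - e by omega] at f2
    have e5 : i - (i - e) = e := by omega
    rw [e5]
    have f5 : ((2 * e + 2).factorial : ℝ) = 2 * ((e : ℝ) + 1) * ((2 * e + 1).factorial : ℝ) := by
      rw [Nat.factorial_succ (2 * e + 1)]
      push_cast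
      ring
    rw [f5]
    have g1 : (((i + j).factorial : ℕ) : ℝ) ≠ 0 := by positivity
    have g2 : ((((2 * e).factorial : ℕ) : ℝ)) ≠ 0 := by positivity
    have g3 : ((((i + j - 2 * e).factorial : ℕ) : ℝ)) ≠ 0 := by positivity
    have g4 : ((((i - e).factorial : ℕ) : ℝ)) ≠ 0 := by positivity
    have g5 : ((((j - e).factorial : ℕ) : ℝ)) ≠ 0 := by positivity
    have g6 : ((((2 * e + 1).factorial : ℕ) : ℝ)) ≠ 0 := by positivity
    have g7 : ((e : ℝ) + 1) ≠ 0 := by positivity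
    have k1 : ((i + j).choose (2 * e) : ℝ) =
        ((i + j).factorial : ℝ) / (((2 * e).factorial : ℝ) * ((i + j - 2 * e).factorial : ℝ)) := by
      rw [eq_div_iff (by positivity), ← mul_assoc]
      exact_mod_cast f1
    have k2 : ((i + j - 2 * e).choose (i - e) : ℝ) =
        ((i + j - 2 * e).factorial : ℝ) / (((i - e).factorial : ℝ) * ((j - e).factorial : ℝ)) := by
      rw [eq_div_iff (by positivity), ← mul_assoc]
      exact_mod_cast f2
    have k3 : ((2 * i + 1).descFactorial (2 * (i - e)) : ℝ) =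
        ((2 * i + 1).factorial : ℝ) / ((2 * e + 1).factorial : ℝ) := by
      rw [eq_div_iff (by positivity), mul_comm]
      exact_mod_cast f3
    have k4 : ((2 * j + 1).descFactorial (2 * (j - e)) : ℝ) =
        ((2 * j + 1).factorial : ℝ) / ((2 * e + 1).factorial : ℝ) := by
      rw [eq_div_iff (by positivity), mul_comm]
      exact_mod_cast f4
    rw [k1, k2, k3, k4]
    field_simp
    ring

end a1

theorem moment_two {D : OHT.Data (Fin 2)} (hD : D.IsSplice) (j : Fin 2 → ℕ) :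
    OHT.moment D j = H99.Spl.Mom (D.lk 0 0 : ℝ) (D.lk 0 1 : ℝ) (D.lk 1 1 : ℝ) (j 0) (j 1) /
      (2 * (D.lk 0 1 : ℝ)) := by
  have hb : (D.lk 0 1 : ℝ) ≠ 0 := by
    have := OHT.lk_pos hD 0 1
    positivity
  rw [← a1_main _ _ _ hb, SLR.wick hD j, Fin.sum_univ_two, Fin.prod_univ_two]
  have e0 : (OHG.nsq 0 : MvPolynomial (Fin 2 × Fin 3) ℝ) = a1_p := by
    unfold OHG.nsq a1_p a1_X
    simp only [sq]
  have e1 : (OHG.nsq 1 : MvPolynomial (Fin 2 × Fin 3) ℝ) = a1_r := by
    unfold OHG.nsq a1_r a1_X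
    simp only [sq]
  have e2 : GPC.lapM (Matrix.of fun v w => (D.lk v w : ℝ)) =
      ((2 * (D.lk 0 1 : ℝ)) • a1_dd 0 1) + ((D.lk 0 0 : ℝ) • a1_dd 0 0 +
        (D.lk 1 1 : ℝ) • a1_dd 1 1) := by
    unfold GPC.lapM
    rw [Fin.sum_univ_two, Fin.sum_univ_two, Fin.sum_univ_two]
    have h : ∀ v w : Fin 2, (∑ i : Fin 3, (MvPolynomial.pderiv (v, i)).toLinearMap ∘ₗ
        (MvPolynomial.pderiv (w, i)).toLinearMap :
        MvPolynomial (Fin 2 × Fin 3) ℝ →ₗ[ℝ] MvPolynomial (Fin 2 × Fin 3) ℝ) = a1_dd v w :=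
      fun v w => rfl
    simp only [h, Matrix.of_apply, a1_dd10, OHT.lk_comm hD 1 0]
    module
  rw [e0, e1, e2]

end Pool.Agent.TWO
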