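import Pool.Agent.TWO.Defs

set_option autoImplicit false

open PowerSeries Finset MeasureTheory Filter Topology

namespace Pool.Agent.TWO

private theorem a2_polar (p q : ℝ) :
    ∃ R φ : ℝ, R ^ 2 = p ^ 2 + q ^ 2 ∧ p = R * Real.sin φ ∧ q = R * Real.cos φ := by
  refine ⟨‖(⟨q, p⟩ : ℂ)‖, Complex.arg ⟨q, p⟩, ?_, ?_, ?_⟩
  · rw [Complex.sq_norm, Complex.normSq_mk]
    ring
  · rw [Complex.norm_mul_sin_arg]
  · rw [Complex.norm_mul_cos_arg]

private theorem a2_prod (k : ℕ) :
    ∏ i ∈ range k, ((2 * (i : ℝ) + 1) / (2 * i + 2)) =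
      (2 * k).factorial / (4 ^ k * (k.factorial : ℝ) ^ 2) := by
  induction k with
  | zero => simp
  | succ k ih =>
    rw [prod_range_succ, ih]
    have h1 : ((2 * (k + 1)).factorial : ℝ) = (2 * k + 2) * (2 * k + 1) * (2 * k).factorial := by
      have : 2 * (k + 1) = (2 * k + 1) + 1 := by ring
      rw [this, Nat.factorial_succ, Nat.factorial_succ]
      push_cast
      ring
    have h2 : ((k + 1).factorial : ℝ) = (k + 1) * k.factorial := by
      rw [Nat.factorial_succ]
      push_cast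
      ring
    have h3 : (k.factorial : ℝ) ≠ 0 := by positivity
    rw [h1, h2, pow_succ (4 : ℝ) k]
    field_simp
    ring

private theorem a2_sin (k : ℕ) :
    ∫ θ in (0 : ℝ)..2 * Real.pi, Real.sin θ ^ (2 * k) =
      2 * Real.pi * ((2 * k).factorial / (4 ^ k * (k.factorial : ℝ) ^ 2)) := by
  have hc : Continuous fun θ : ℝ => Real.sin θ ^ (2 * k) := Real.continuous_sin.pow _
  have h1 : ∫ θ in (0 : ℝ)..2 * Real.pi, Real.sin θ ^ (2 * k) =
      (∫ θ in (0 : ℝ)..Real.pi, Real.sin θ ^ (2 * k)) +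
        ∫ θ in Real.pi..2 * Real.pi, Real.sin θ ^ (2 * k) :=
    (intervalIntegral.integral_add_adjacent_intervals (hc.intervalIntegrable _ _)
      (hc.intervalIntegrable _ _)).symm
  have h2 : ∫ θ in Real.pi..2 * Real.pi, Real.sin θ ^ (2 * k) =
      ∫ θ in (0 : ℝ)..Real.pi, Real.sin θ ^ (2 * k) := by
    have h3 := intervalIntegral.integral_comp_add_right (a := (0 : ℝ)) (b := Real.pi)
      (fun θ => Real.sin θ ^ (2 * k)) Real.pi
    rw [zero_add, ← two_mul] at h3
    rw [← h3]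
    refine intervalIntegral.integral_congr fun θ _ => ?_
    simp only [Real.sin_add_pi]
    rw [neg_pow, pow_mul (-1 : ℝ) 2 k]
    norm_num
  rw [h1, h2, integral_sin_pow_even, a2_prod]
  ring

private theorem a2_lin (p q : ℝ) (k : ℕ) :
    ∫ θ in (0 : ℝ)..2 * Real.pi, (p * Real.cos θ + q * Real.sin θ) ^ (2 * k) =
      (p ^ 2 + q ^ 2) ^ k *
        (2 * Real.pi * ((2 * k).factorial / (4 ^ k * (k.factorial : ℝ) ^ 2))) := by
  obtain ⟨R, φ, hR, hp, hq⟩ := a2_polar p q
  rw [← a2_sin, ← hR, ← pow_mul]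
  have h1 : ∀ θ : ℝ, (p * Real.cos θ + q * Real.sin θ) ^ (2 * k) =
      R ^ (2 * k) * (fun x => Real.sin x ^ (2 * k)) (θ + φ) := by
    intro θ
    rw [hp, hq]
    simp only [Real.sin_add]
    rw [← mul_pow]
    congr 1
    ring
  simp only [h1]
  rw [intervalIntegral.integral_const_mul]
  congr 1
  rw [intervalIntegral.integral_comp_add_right (fun x => Real.sin x ^ (2 * k)) φ]
  have hper : Function.Periodic (fun x : ℝ => Real.sin x ^ (2 * k)) (2 * Real.pi) := by
    intro x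
    simp only [Real.sin_add_two_pi]
  have h2 := hper.intervalIntegral_add_eq φ 0
  rw [zero_add] at h2
  rw [zero_add, add_comm (2 * Real.pi) φ]
  exact h2

open Polynomial in
private theorem a2_coeff_sq (r s : ℕ) :
    ((1 + Polynomial.X ^ 2 : Polynomial ℝ) ^ r).coeff s =
      if Even s then (r.choose (s / 2) : ℝ) else 0 := by
  have h1 : (1 + Polynomial.X ^ 2 : Polynomial ℝ) ^ r =
      Polynomial.expand ℝ 2 ((1 + Polynomial.X) ^ r) := by
    rw [map_pow, map_add, map_one, Polynomial.expand_X]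
  rw [h1, Polynomial.coeff_expand (by norm_num)]
  by_cases hs : Even s
  · rw [if_pos hs, if_pos hs.two_dvd, Polynomial.coeff_one_add_X_pow]
  · rw [if_neg hs, if_neg (fun h => hs (even_iff_two_dvd.mpr h))]

private theorem a2_term (c : ℝ) (m s N : ℕ) (P : Polynomial ℝ) :
    ((Polynomial.C c * Polynomial.X) ^ m * P * (N : Polynomial ℝ)).coeff s =
      c ^ m * N * (if m ≤ s then P.coeff (s - m) else 0) := by
  have h1 : (Polynomial.C c * Polynomial.X) ^ m * P * (N : Polynomial ℝ) =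
      Polynomial.C (c ^ m * N) * (Polynomial.X ^ m * P) := by
    rw [mul_pow, Polynomial.C_mul, Polynomial.C_pow, ← Polynomial.C_eq_natCast]
    ring
  rw [h1, Polynomial.coeff_C_mul, Polynomial.coeff_X_pow_mul']

private theorem a2_coeff (ρ : ℝ) (i j : ℕ) :
    ((Polynomial.C (2 * ρ) * Polynomial.X + (1 + Polynomial.X ^ 2) : Polynomial ℝ) ^
        (i + j + 1)).coeff (2 * j + 1) =
      ((i + j + 1).factorial : ℝ) * ∑ e ∈ range (min i j + 1), (2 * ρ) ^ (2 * e + 1) /
        ((i - e).factorial * (2 * e + 1).factorial * (j - e).factorial) := by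
  rw [add_pow, Polynomial.finsetSum_coeff]
  simp only [a2_term, a2_coeff_sq]
  rw [← sum_subset (s₁ := (range (min i j + 1)).image (fun e => 2 * e + 1))]
  · rw [sum_image (fun a _ b _ h => by simpa using h), mul_sum]
    refine sum_congr rfl fun e he => ?_
    rw [mem_range] at he
    obtain ⟨i', rfl⟩ : ∃ i', i = i' + e := ⟨i - e, by omega⟩
    obtain ⟨j', rfl⟩ : ∃ j', j = j' + e := ⟨j - e, by omega⟩
    have e1 : i' + e + (j' + e) + 1 = (i' + j') + (2 * e + 1) := by omega
    have e2 : (i' + j') + (2 * e + 1) - (2 * e + 1) = i' + j' := by omega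
    have e3 : 2 * (j' + e) + 1 - (2 * e + 1) = 2 * j' := by omega
    rw [if_pos (by omega : 2 * e + 1 ≤ 2 * (j' + e) + 1), e1, e2, e3,
      if_pos (even_two_mul j'), Nat.mul_div_cancel_left j' (by norm_num), Nat.add_sub_cancel,
      Nat.add_sub_cancel]
    have h1 : (((i' + j') + (2 * e + 1)).choose (2 * e + 1) : ℝ) * (i' + j').factorial *
        (2 * e + 1).factorial = ((i' + j') + (2 * e + 1)).factorial := by
      exact_mod_cast Nat.add_choose_mul_factorial_mul_factorial (i' + j') (2 * e + 1)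
    have h2 : ((i' + j').choose j' : ℝ) * i'.factorial * j'.factorial = (i' + j').factorial := by
      exact_mod_cast Nat.add_choose_mul_factorial_mul_factorial i' j'
    rw [← h1, ← h2]
    have h3 : (i'.factorial : ℝ) ≠ 0 := by positivity
    have h4 : (j'.factorial : ℝ) ≠ 0 := by positivity
    have h5 : ((2 * e + 1).factorial : ℝ) ≠ 0 := by positivity
    field_simp
  · intro m hm
    rw [mem_image] at hm
    obtain ⟨e, he, rfl⟩ := hm
    rw [mem_range] at he ⊢
    omega
  · intro m hm hm'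
    rw [mem_range] at hm
    by_cases h1 : m ≤ 2 * j + 1
    · rw [if_pos h1]
      by_cases h2 : Even (2 * j + 1 - m)
      · rw [if_pos h2]
        obtain ⟨r, hr⟩ := h2
        obtain ⟨e, he⟩ : ∃ e, m = 2 * e + 1 := ⟨j - r, by omega⟩
        subst he
        have h3 : ¬ e < min i j + 1 := by
          intro h4
          exact hm' (mem_image.mpr ⟨e, mem_range.mpr h4, rfl⟩)
        rw [Nat.choose_eq_zero_of_lt (by omega : i + j + 1 - (2 * e + 1) <
          (2 * j + 1 - (2 * e + 1)) / 2)]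
        simp
      · rw [if_neg h2, mul_zero]
    · rw [if_neg h1, mul_zero]

private theorem a2_int {ρ σ : ℝ} (hρσ : ρ ^ 2 + σ ^ 2 = 1) (i j : ℕ) :
    ((2 * (i + j + 1)).choose (2 * j + 1) : ℝ) * (∫ θ in (0 : ℝ)..2 * Real.pi,
        Real.cos θ ^ (2 * i + 1) * (ρ * Real.cos θ + σ * Real.sin θ) ^ (2 * j + 1)) =
      (2 * Real.pi * ((2 * (i + j + 1)).factorial /
        (4 ^ (i + j + 1) * ((i + j + 1).factorial : ℝ) ^ 2))) *
      (((i + j + 1).factorial : ℝ) * ∑ e ∈ range (min i j + 1), (2 * ρ) ^ (2 * e + 1) /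
        ((i - e).factorial * (2 * e + 1).factorial * (j - e).factorial)) := by
  obtain ⟨k, hk⟩ : ∃ k, k = i + j + 1 := ⟨_, rfl⟩
  rw [← a2_coeff, ← hk]
  set J : ℕ → ℝ := fun m => ∫ θ in (0 : ℝ)..2 * Real.pi,
    Real.cos θ ^ (2 * k - m) * (ρ * Real.cos θ + σ * Real.sin θ) ^ m with hJ
  set c : ℝ := 2 * Real.pi * ((2 * k).factorial / (4 ^ k * (k.factorial : ℝ) ^ 2)) with hc
  have hpoly : (∑ m ∈ range (2 * k + 1), Polynomial.C (((2 * k).choose m : ℝ) * J m) *
      Polynomial.X ^ m) = Polynomial.C c *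
        (Polynomial.C (2 * ρ) * Polynomial.X + (1 + Polynomial.X ^ 2) : Polynomial ℝ) ^ k := by
    apply Polynomial.funext
    intro y
    rw [Polynomial.eval_finsetSum]
    simp only [Polynomial.eval_mul, Polynomial.eval_C, Polynomial.eval_pow, Polynomial.eval_X,
      Polynomial.eval_add, Polynomial.eval_one]
    have h1 := a2_lin (1 + y * ρ) (y * σ) k
    have h2 : (1 + y * ρ) ^ 2 + (y * σ) ^ 2 = 2 * ρ * y + (1 + y ^ 2) := by
      linear_combination y ^ 2 * hρσ
    rw [h2, ← hc] at h1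
    rw [mul_comm c, ← h1]
    have h3 : ∀ θ : ℝ, ((1 + y * ρ) * Real.cos θ + y * σ * Real.sin θ) ^ (2 * k) =
        ∑ m ∈ range (2 * k + 1), ((2 * k).choose m * y ^ m) *
          (Real.cos θ ^ (2 * k - m) * (ρ * Real.cos θ + σ * Real.sin θ) ^ m) := by
      intro θ
      have h4 : (1 + y * ρ) * Real.cos θ + y * σ * Real.sin θ =
          y * (ρ * Real.cos θ + σ * Real.sin θ) + Real.cos θ := by ring
      rw [h4, add_pow]
      refine sum_congr rfl fun m _ => ?_
      rw [mul_pow]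
      ring
    simp only [h3]
    rw [intervalIntegral.integral_finsetSum]
    · refine sum_congr rfl fun m _ => ?_
      rw [intervalIntegral.integral_const_mul]
      simp only [hJ]
      ring
    · intro m _
      apply Continuous.intervalIntegrable
      fun_prop
  have h5 := congrArg (fun P : Polynomial ℝ => P.coeff (2 * j + 1)) hpoly
  simp only [Polynomial.finsetSum_coeff, Polynomial.coeff_C_mul, Polynomial.coeff_X_pow,
    mul_ite, mul_one, mul_zero] at h5
  rw [sum_ite_eq, if_pos (mem_range.mpr (by omega))] at h5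
  have h6 : J (2 * j + 1) = ∫ θ in (0 : ℝ)..2 * Real.pi,
      Real.cos θ ^ (2 * i + 1) * (ρ * Real.cos θ + σ * Real.sin θ) ^ (2 * j + 1) := by
    simp only [hJ]
    rw [show 2 * k - (2 * j + 1) = 2 * i + 1 by omega]
  rw [← h6]
  exact h5

private theorem a2_mom {a b c ρ : ℝ} (ha : 0 < a) (hb : 0 < b)
    (hc : c = ρ * Real.sqrt (a * b)) (i j : ℕ) :
    H99.Spl.Mom a c b i j = (2 * i + 1).factorial * (2 * j + 1).factorial *
      (a ^ i * b ^ j * Real.sqrt (a * b)) * ∑ e ∈ range (min i j + 1), (2 * ρ) ^ (2 * e + 1) /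
        ((i - e).factorial * (2 * e + 1).factorial * (j - e).factorial) := by
  unfold H99.Spl.Mom
  rw [mul_assoc ((2 * i + 1).factorial * (2 * j + 1).factorial : ℝ)]
  congr 1
  rw [mul_sum]
  refine sum_congr rfl fun e he => ?_
  rw [mem_range] at he
  obtain ⟨i', rfl⟩ : ∃ i', i = i' + e := ⟨i - e, by omega⟩
  obtain ⟨j', rfl⟩ : ∃ j', j = j' + e := ⟨j - e, by omega⟩
  rw [Nat.add_sub_cancel, Nat.add_sub_cancel]
  have hs : Real.sqrt (a * b) * Real.sqrt (a * b) = a * b :=
    Real.mul_self_sqrt (mul_pos ha hb).le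
  have h1 : (2 * c) ^ (2 * e + 1) = (2 * ρ) ^ (2 * e + 1) * ((a * b) ^ e * Real.sqrt (a * b)) := by
    rw [hc, ← mul_assoc, mul_pow (2 * ρ) (Real.sqrt (a * b)), pow_succ (Real.sqrt (a * b)),
      pow_mul (Real.sqrt (a * b)), pow_two, hs]
  rw [h1, mul_pow a b e, pow_add a, pow_add b]
  ring

theorem mom_integral {a b c ρ σ : ℝ} (ha : 0 < a) (hb : 0 < b) (hρ : 0 < ρ)
    (hρσ : ρ ^ 2 + σ ^ 2 = 1) (hc : c = ρ * Real.sqrt (a * b)) (i j : ℕ) :
    H99.Spl.Mom a c b i j / (2 * c) = 4 ^ (i + j) * (i + j + 1).factorial * a ^ i * b ^ j /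
      (Real.pi * ρ) * ∫ θ in (0 : ℝ)..2 * Real.pi,
        Real.cos θ ^ (2 * i + 1) * (ρ * Real.cos θ + σ * Real.sin θ) ^ (2 * j + 1) := by
  have h1 := a2_int hρσ i j
  rw [a2_mom ha hb hc i j]
  generalize (∫ θ in (0 : ℝ)..2 * Real.pi,
    Real.cos θ ^ (2 * i + 1) * (ρ * Real.cos θ + σ * Real.sin θ) ^ (2 * j + 1)) = J at h1 ⊢
  generalize (∑ e ∈ range (min i j + 1), (2 * ρ) ^ (2 * e + 1) /
    (((i - e).factorial : ℝ) * (2 * e + 1).factorial * (j - e).factorial)) = S₀ at h1 ⊢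
  have hs0 : Real.sqrt (a * b) ≠ 0 := (Real.sqrt_pos.mpr (mul_pos ha hb)).ne'
  have h2 : ((2 * (i + j + 1)).choose (2 * j + 1) : ℝ) * (2 * j + 1).factorial *
      (2 * i + 1).factorial = (2 * (i + j + 1)).factorial := by
    have h3 := Nat.choose_mul_factorial_mul_factorial (n := 2 * (i + j + 1)) (k := 2 * j + 1)
      (by omega)
    rw [show 2 * (i + j + 1) - (2 * j + 1) = 2 * i + 1 by omega] at h3
    exact_mod_cast h3
  have hC : ((2 * (i + j + 1)).choose (2 * j + 1) : ℝ) ≠ 0 := by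
    have : 0 < (2 * (i + j + 1)).choose (2 * j + 1) := Nat.choose_pos (by omega)
    exact_mod_cast this.ne'
  have hk : ((i + j + 1).factorial : ℝ) ≠ 0 := by positivity
  have h4 : J = 2 * Real.pi * ((2 * j + 1).factorial * (2 * i + 1).factorial /
      (4 ^ (i + j + 1) * (i + j + 1).factorial)) * S₀ := by
    apply mul_left_cancel₀ hC
    rw [h1, ← h2]
    field_simp
  rw [h4, hc, pow_succ (4 : ℝ) (i + j)]
  have hpi := Real.pi_ne_zero
  field_simp
  ring

end Pool.Agent.TWO
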