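import Pool.Agent.TWO.Defs
import Pool.Agent.OHT.B5

set_option autoImplicit false

open PowerSeries Finset MeasureTheory Filter Topology

namespace Pool.Agent.TWO

/-- absolute convergence at `z` -/
private def a3_ac (z : ℂ) (f : ℝ⟦X⟧) : Prop := Summable fun j => ‖((coeff j f : ℝ) : ℂ) * z ^ j‖

/-- the value at `z` -/
private noncomputable def a3_ev (z : ℂ) (f : ℝ⟦X⟧) : ℂ := ∑' j, ((coeff j f : ℝ) : ℂ) * z ^ j

private theorem a3_conv (z : ℂ) (f g : ℝ⟦X⟧) (j : ℕ) :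
    ((coeff j (f * g) : ℝ) : ℂ) * z ^ j =
      ∑ p ∈ antidiagonal j, (((coeff p.1 f : ℝ) : ℂ) * z ^ p.1) *
        (((coeff p.2 g : ℝ) : ℂ) * z ^ p.2) := by
  rw [coeff_mul, Complex.ofReal_sum, Finset.sum_mul]
  refine Finset.sum_congr rfl fun p hp => ?_
  rw [← mem_antidiagonal.1 hp, pow_add, Complex.ofReal_mul]
  ring

private theorem a3_ac_mul {z : ℂ} {f g : ℝ⟦X⟧} (hf : a3_ac z f) (hg : a3_ac z g) :
    a3_ac z (f * g) := by
  have h := summable_norm_sum_mul_antidiagonal_of_summable_norm hf hg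
  refine h.congr fun j => ?_
  rw [a3_conv]

private theorem a3_ev_mul {z : ℂ} {f g : ℝ⟦X⟧} (hf : a3_ac z f) (hg : a3_ac z g) :
    a3_ev z (f * g) = a3_ev z f * a3_ev z g := by
  unfold a3_ev
  rw [tsum_mul_tsum_eq_tsum_sum_antidiagonal_of_summable_norm hf hg]
  exact tsum_congr fun j => a3_conv z f g j

private theorem a3_one_aux (z : ℂ) (j : ℕ) :
    ((coeff j (1 : ℝ⟦X⟧) : ℝ) : ℂ) * z ^ j = if j = 0 then 1 else 0 := by
  rw [coeff_one]
  split_ifs with h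
  · rw [h]
    simp
  · simp

private theorem a3_ac_one (z : ℂ) : a3_ac z 1 := by
  unfold a3_ac
  simp only [a3_one_aux]
  refine summable_of_ne_finset_zero (s := {0}) fun j hj => ?_
  rw [mem_singleton] at hj
  simp [hj]

private theorem a3_ev_one (z : ℂ) : a3_ev z 1 = 1 := by
  unfold a3_ev
  simp only [a3_one_aux]
  exact tsum_ite_eq 0 _

private theorem a3_pow {z : ℂ} {f : ℝ⟦X⟧} (hf : a3_ac z f) (m : ℕ) :
    a3_ac z (f ^ m) ∧ a3_ev z (f ^ m) = a3_ev z f ^ m := by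
  induction m with
  | zero => simpa using ⟨a3_ac_one z, a3_ev_one z⟩
  | succ m ih =>
    rw [pow_succ, pow_succ]
    exact ⟨a3_ac_mul ih.1 hf, by rw [a3_ev_mul ih.1 hf, ih.2]⟩

private theorem a3_prod {z : ℂ} (s : Finset ℕ) (f : ℕ → ℝ⟦X⟧) (hf : ∀ k ∈ s, a3_ac z (f k)) :
    a3_ac z (∏ k ∈ s, f k) ∧ a3_ev z (∏ k ∈ s, f k) = ∏ k ∈ s, a3_ev z (f k) := by
  induction s using Finset.induction_on with
  | empty => simpa using ⟨a3_ac_one z, a3_ev_one z⟩
  | insert a s ha ih =>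
    have h1 := ih fun k hk => hf k (mem_insert_of_mem hk)
    have h2 := hf a (mem_insert_self a s)
    rw [Finset.prod_insert ha, Finset.prod_insert ha]
    exact ⟨a3_ac_mul h2 h1.1, by rw [a3_ev_mul h2 h1.1, h1.2]⟩

private theorem a3_sum_of_hol {ρ r : ℝ} {f : ℝ⟦X⟧} (hf : H99.Seif.Hol ρ f) (hr0 : 0 ≤ r)
    (hr : r < ρ) : Summable fun m => |coeff m f| * r ^ m := by
  have hρ : 0 < ρ := lt_of_le_of_lt hr0 hr
  set r' : ℝ := (r + ρ) / 2 with hr'
  have h1 : r < r' := by rw [hr']; linarith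
  have h2 : r' < ρ := by rw [hr']; linarith
  have h3 : 0 < r' := lt_of_le_of_lt hr0 h1
  obtain ⟨C, hC⟩ := hf r' h3 h2
  have hq0 : 0 ≤ r / r' := div_nonneg hr0 h3.le
  have hq1 : r / r' < 1 := (div_lt_one h3).2 h1
  refine Summable.of_nonneg_of_le (fun m => by positivity) (fun m => ?_)
    ((summable_geometric_of_lt_one hq0 hq1).mul_left C)
  have h4 : r ^ m = r' ^ m * (r / r') ^ m := by
    rw [← mul_pow, mul_div_cancel₀ r h3.ne']
  rw [h4, ← mul_assoc]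
  exact mul_le_mul_of_nonneg_right (hC m) (by positivity)

private theorem a3_ac_of_hol {ρ : ℝ} {z : ℂ} {f : ℝ⟦X⟧} (hf : H99.Seif.Hol ρ f)
    (hz : ‖z‖ < ρ) : a3_ac z f := by
  refine (a3_sum_of_hol hf (norm_nonneg z) hz).congr fun j => ?_
  rw [norm_mul, norm_pow, Complex.norm_real, Real.norm_eq_abs]

private theorem a3_sinhc (k : ℕ) : OHT.sinhc k = H99.Seif.E k := by
  ext m
  simp only [OHT.sinhc, H99.Seif.E, coeff_mk]

private theorem a3_hol_sinhc {k : ℕ} (hk : 1 ≤ k) (ρ : ℝ) : H99.Seif.Hol ρ (OHT.sinhc k) := by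
  rw [a3_sinhc]
  exact H99.Seif.hol_E hk ρ

private theorem a3_inv : H99.Seif.Hol (4 * Real.pi ^ 2) ((OHT.sinhc 1)⁻¹) := by
  have h := H99.Seif.hol_inv 0
  rw [a3_sinhc]
  simpa using h

private theorem a3_const (k : ℕ) : constantCoeff (OHT.sinhc k) = 1 := by
  rw [← coeff_zero_eq_constantCoeff_apply]
  simp [OHT.sinhc]

private theorem a3_term (k : ℕ) (hk : 0 < k) (x : ℂ) (j : ℕ) :
    x / (2 * k) * (((coeff j (OHT.sinhc k) : ℝ) : ℂ) * (-x ^ 2) ^ j) =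
      (-1) ^ j * (x / (2 * k)) ^ (2 * j + 1) / ((2 * j + 1).factorial : ℂ) := by
  have hk' : (2 * (k : ℂ)) ≠ 0 := by
    have : (k : ℂ) ≠ 0 := by exact_mod_cast hk.ne'
    exact mul_ne_zero two_ne_zero this
  have hf : ((2 * j + 1).factorial : ℂ) ≠ 0 := by exact_mod_cast Nat.factorial_ne_zero _
  rw [OHT.sinhc, coeff_mk]
  push_cast
  have e : (-x ^ 2) ^ j = (-1) ^ j * x ^ (2 * j) := by
    rw [neg_pow, ← pow_mul]
  have h2k : ((2 * k : ℂ)) ^ (2 * j) ≠ 0 := pow_ne_zero _ hk'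
  rw [e, pow_succ, div_pow]
  field_simp

private theorem a3_sin (k : ℕ) (hk : 0 < k) (x : ℂ) :
    x / (2 * k) * a3_ev (-x ^ 2) (OHT.sinhc k) = Complex.sin (x / (2 * k)) := by
  rw [a3_ev, ← tsum_mul_left]
  simp only [a3_term k hk]
  exact (Complex.hasSum_sin _).tsum_eq

private theorem a3_nd_hol {X : Finset ℕ} (hX : IsLeaf X) :
    H99.Seif.Hol (4 * Real.pi ^ 2) (nd X) := by
  unfold nd
  refine H99.Seif.hol_mul (H99.Seif.hol_prod _ fun k hk => ?_) (H99.Seif.hol_pow a3_inv _)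
  exact a3_hol_sinhc (le_trans (by norm_num) (hX.two_le k hk)) _

theorem nd_zero (X : Finset ℕ) : coeff 0 (nd X) = 1 := by
  rw [coeff_zero_eq_constantCoeff_apply, nd, map_mul, map_pow, map_prod,
    PowerSeries.constantCoeff_inv]
  simp [a3_const]

theorem U_hasSum {X : Finset ℕ} (hX : IsLeaf X) {x : ℂ} (hx : ‖x‖ < 2 * Real.pi) :
    HasSum (fun i => (((-1) ^ i * coeff i (nd X) / (2 * Pr X) : ℝ) : ℂ) * x ^ (2 * i + 1))
      (U X x) := by
  have hpi := Real.pi_pos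
  have hz : ‖-x ^ 2‖ < 4 * Real.pi ^ 2 := by
    rw [norm_neg, norm_pow]
    have h0 := norm_nonneg x
    nlinarith
  have hac := a3_ac_of_hol (a3_nd_hol hX) hz
  have hs : HasSum (fun j => ((coeff j (nd X) : ℝ) : ℂ) * (-x ^ 2) ^ j) (a3_ev (-x ^ 2) (nd X)) :=
    (Summable.of_norm hac).hasSum
  have hs2 := hs.mul_left (x / (2 * Pr X))
  have hterm : (fun i => (((-1) ^ i * coeff i (nd X) / (2 * Pr X) : ℝ) : ℂ) * x ^ (2 * i + 1)) =
      fun i => x / (2 * Pr X) * (((coeff i (nd X) : ℝ) : ℂ) * (-x ^ 2) ^ i) := by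
    funext i
    have e : (-x ^ 2) ^ i = (-1) ^ i * x ^ (2 * i) := by
      rw [neg_pow, ← pow_mul]
    rw [e]
    push_cast
    ring
  rw [hterm]
  have hval : U X x = x / (2 * Pr X) * a3_ev (-x ^ 2) (nd X) := by
    have hcard := hX.card
    have hk0 : ∀ k ∈ X, 0 < k := fun k hk => by
      have := hX.two_le k hk
      omega
    rcases eq_or_ne x 0 with rfl | hx0
    · have hne : X.Nonempty := by
        rw [← Finset.card_pos]
        omega
      obtain ⟨p, hp⟩ := hne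
      have h0 : ∏ p ∈ X, Complex.sin ((0 : ℂ) / (2 * p)) = 0 :=
        Finset.prod_eq_zero hp (by simp)
      rw [U, h0]
      simp
    · have hprod := a3_prod (z := -x ^ 2) X OHT.sinhc fun k hk =>
        a3_ac_of_hol (a3_hol_sinhc (hk0 k hk) (4 * Real.pi ^ 2)) hz
      have hinv := a3_ac_of_hol a3_inv hz
      have h1 := a3_ac_of_hol (a3_hol_sinhc le_rfl (4 * Real.pi ^ 2)) hz
      have hmul : a3_ev (-x ^ 2) ((OHT.sinhc 1)⁻¹) * a3_ev (-x ^ 2) (OHT.sinhc 1) = 1 := by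
        rw [← a3_ev_mul hinv h1, PowerSeries.inv_mul_cancel _ (by rw [a3_const]; exact one_ne_zero),
          a3_ev_one]
      have hE1 : a3_ev (-x ^ 2) (OHT.sinhc 1) ≠ 0 := right_ne_zero_of_mul_eq_one hmul
      have hinv' : a3_ev (-x ^ 2) ((OHT.sinhc 1)⁻¹) = (a3_ev (-x ^ 2) (OHT.sinhc 1))⁻¹ :=
        eq_inv_of_mul_eq_one_left hmul
      have hpow := a3_pow hinv (dg X)
      have hnd : a3_ev (-x ^ 2) (nd X) = (∏ k ∈ X, a3_ev (-x ^ 2) (OHT.sinhc k)) *
          ((a3_ev (-x ^ 2) (OHT.sinhc 1))⁻¹) ^ dg X := by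
        rw [nd, a3_ev_mul hprod.1 hpow.1, hprod.2, hpow.2, hinv']
      have hsin : ∏ p ∈ X, Complex.sin (x / (2 * p)) =
          (∏ p ∈ X, x / (2 * (p : ℂ))) * ∏ p ∈ X, a3_ev (-x ^ 2) (OHT.sinhc p) := by
        rw [← Finset.prod_mul_distrib]
        exact Finset.prod_congr rfl fun p hp => (a3_sin p (hk0 p hp) x).symm
      have hsin1 : Complex.sin (x / 2) = x / 2 * a3_ev (-x ^ 2) (OHT.sinhc 1) := by
        have := a3_sin 1 one_pos x
        rw [Nat.cast_one, mul_one] at this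
        exact this.symm
      have hc : X.card = dg X + 1 := by
        unfold dg
        omega
      have hxp : ∏ p ∈ X, x / (2 * (p : ℂ)) = (x / 2) ^ dg X * (x / (2 * Pr X)) := by
        have : ∏ p ∈ X, x / (2 * (p : ℂ)) = (∏ _p ∈ X, x / 2) * ∏ p ∈ X, ((p : ℂ))⁻¹ := by
          rw [← Finset.prod_mul_distrib]
          refine Finset.prod_congr rfl fun p _ => ?_
          rw [← div_div, div_eq_mul_inv]
        rw [this, Finset.prod_const, hc, pow_succ, Finset.prod_inv_distrib, Pr]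
        push_cast
        rw [← div_div, div_eq_mul_inv (x / 2) (∏ i ∈ X, (i : ℂ))]
        ring
      have hx2 : (x / 2) ^ dg X ≠ 0 := pow_ne_zero _ (div_ne_zero hx0 two_ne_zero)
      have hE1p : a3_ev (-x ^ 2) (OHT.sinhc 1) ^ dg X ≠ 0 := pow_ne_zero _ hE1
      rw [U, hsin, hsin1, hnd, hxp, mul_pow, inv_pow]
      generalize ∏ p ∈ X, a3_ev (-x ^ 2) (OHT.sinhc p) = P
      generalize x / (2 * (Pr X : ℂ)) = A
      field_simp
  rw [hval]
  exact hs2

theorem nd_summable {X : Finset ℕ} (hX : IsLeaf X) {r : ℝ} (h0 : 0 ≤ r) (hr : r < 2 * Real.pi) :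
    Summable fun i => |coeff i (nd X)| * r ^ (2 * i) := by
  have hpi := Real.pi_pos
  have h1 : r ^ 2 < 4 * Real.pi ^ 2 := by nlinarith
  refine (a3_sum_of_hol (a3_nd_hol hX) (sq_nonneg r) h1).congr fun j => ?_
  rw [← pow_mul]

end Pool.Agent.TWO
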