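import Pool.Agent.TWO.Defs
import Pool.Agent.TWO.A3

set_option autoImplicit false

open PowerSeries Finset MeasureTheory Filter Topology

namespace Pool.Agent.TWO

theorem U_odd {X : Finset ℕ} (hX : IsLeaf X) (x : ℂ) : U X (-x) = -U X x := by
  have hc : X.card = dg X + 1 := by
    have := hX.card
    unfold dg
    omega
  unfold U
  have h1 : (∏ p ∈ X, Complex.sin (-x / (2 * p))) =
      (-1) ^ X.card * ∏ p ∈ X, Complex.sin (x / (2 * p)) := by
    rw [← Finset.prod_const, ← Finset.prod_mul_distrib]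
    refine Finset.prod_congr rfl fun p _ => ?_
    rw [neg_div, Complex.sin_neg]
    ring
  have h2 : Complex.sin (-x / 2) = -Complex.sin (x / 2) := by
    rw [neg_div, Complex.sin_neg]
  rw [h1, h2, hc, neg_pow (Complex.sin (x / 2)), pow_succ]
  rcases Nat.even_or_odd (dg X) with h | h
  · rw [h.neg_one_pow]
    ring
  · rw [h.neg_one_pow]
    simp [div_neg]

private theorem a4_sin_ne {x : ℂ} (hx : ‖x‖ < 2 * Real.pi) (h0 : x ≠ 0) :
    Complex.sin (x / 2) ≠ 0 := by
  intro h
  rw [Complex.sin_eq_zero_iff] at h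
  obtain ⟨k, hk⟩ := h
  have hx2 : x = (2 * k * Real.pi : ℝ) := by
    have : x = 2 * (x / 2) := by ring
    rw [this, hk]
    push_cast
    ring
  have hn : ‖x‖ = |2 * (k : ℝ) * Real.pi| := by
    rw [hx2, Complex.norm_real, Real.norm_eq_abs]
  rw [hn, abs_mul, abs_mul, abs_of_pos Real.pi_pos, abs_of_pos (by norm_num : (0 : ℝ) < 2)] at hx
  have hk1 : |(k : ℝ)| < 1 := by
    have hp := Real.pi_pos
    by_contra hcon
    push Not at hcon
    nlinarith
  have hk0 : k = 0 := by
    have : |k| < 1 := by exact_mod_cast hk1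
    exact Int.abs_lt_one_iff.mp this
  apply h0
  rw [hx2, hk0]
  simp

private theorem a4_analytic_of_ne {X : Finset ℕ} {x : ℂ} (hx : Complex.sin (x / 2) ≠ 0) :
    AnalyticAt ℂ (U X) x := by
  unfold U
  refine AnalyticAt.div ?_ ?_ (pow_ne_zero _ hx)
  · refine Finset.analyticAt_fun_prod _ fun p _ => ?_
    exact Complex.analyticAt_sin.comp_of_eq (analyticAt_id.div_const) rfl
  · exact (Complex.analyticAt_sin.comp_of_eq (analyticAt_id.div_const) rfl).pow _

private theorem a4_analytic_zero {X : Finset ℕ} (hX : IsLeaf X) : AnalyticAt ℂ (U X) 0 := by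
  classical
  let c : ℕ → ℂ := fun i => (((-1) ^ i * coeff i (nd X) / (2 * Pr X) : ℝ) : ℂ)
  let e : ℕ → ℂ := fun n => if n % 2 = 1 then c (n / 2) else 0
  refine ⟨FormalMultilinearSeries.ofScalars ℂ e, ?_⟩
  rw [hasFPowerSeriesAt_iff]
  have hball : Metric.ball (0 : ℂ) (2 * Real.pi) ∈ 𝓝 (0 : ℂ) :=
    Metric.ball_mem_nhds _ (by positivity)
  filter_upwards [hball] with z hz
  rw [mem_ball_zero_iff] at hz
  have h := U_hasSum hX hz
  rw [zero_add]
  have hinj : Function.Injective (fun i : ℕ => 2 * i + 1) := by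
    intro a b hab
    have hab' : 2 * a + 1 = 2 * b + 1 := hab
    omega
  rw [← hinj.hasSum_iff]
  · have hf : ((fun n => z ^ n • (FormalMultilinearSeries.ofScalars ℂ e).coeff n) ∘
        fun i : ℕ => 2 * i + 1) =
        fun i => (((-1) ^ i * coeff i (nd X) / (2 * Pr X) : ℝ) : ℂ) * z ^ (2 * i + 1) := by
      funext i
      change z ^ (2 * i + 1) • (FormalMultilinearSeries.ofScalars ℂ e).coeff (2 * i + 1) = _
      rw [FormalMultilinearSeries.coeff_ofScalars, smul_eq_mul]
      have h1 : (2 * i + 1) % 2 = 1 := by omega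
      have h2 : (2 * i + 1) / 2 = i := by omega
      simp only [e, c]
      rw [h1, h2]
      simp only [if_true]
      ring
    rw [hf]
    exact h
  · intro n hn
    have h1 : n % 2 ≠ 1 := by
      intro h1
      apply hn
      exact ⟨n / 2, show 2 * (n / 2) + 1 = n by omega⟩
    simp [FormalMultilinearSeries.coeff_ofScalars, e, h1]

theorem U_analytic {X : Finset ℕ} (hX : IsLeaf X) {x : ℂ}
    (hx : ‖x‖ < 2 * Real.pi ∨ Complex.sin (x / 2) ≠ 0) : AnalyticAt ℂ (U X) x := by
  rcases hx with hx | hx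
  · by_cases h0 : x = 0
    · rw [h0]
      exact a4_analytic_zero hX
    · exact a4_analytic_of_ne (a4_sin_ne hx h0)
  · exact a4_analytic_of_ne hx

theorem U_periodic {X : Finset ℕ} (hX : IsLeaf X) (m : ℕ) (x : ℂ) :
    U X (x + 4 * Real.pi * Pr X * m) = U X x := by
  have hP : Pr X = ((∏ p ∈ X, p : ℕ) : ℝ) := by
    unfold Pr
    push_cast
    rfl
  unfold U
  have h1 : ∀ p ∈ X, Complex.sin ((x + 4 * Real.pi * Pr X * m) / (2 * p)) =
      Complex.sin (x / (2 * p)) := by
    intro p hp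
    obtain ⟨q, hq⟩ := Finset.dvd_prod_of_mem (fun p : ℕ => p) hp
    have hp0 : (p : ℂ) ≠ 0 := by
      have := hX.two_le p hp
      exact_mod_cast (by omega : p ≠ 0)
    have e : (x + 4 * Real.pi * Pr X * m) / (2 * p) =
        x / (2 * p) + ((q * m : ℕ) : ℂ) * (2 * Real.pi) := by
      rw [hP, hq]
      push_cast
      field_simp
      ring
    rw [e, Complex.sin_add_nat_mul_two_pi]
  have h2 : Complex.sin ((x + 4 * Real.pi * Pr X * m) / 2) = Complex.sin (x / 2) := by
    have e : (x + 4 * Real.pi * Pr X * m) / 2 =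
        x / 2 + (((∏ p ∈ X, p) * m : ℕ) : ℂ) * (2 * Real.pi) := by
      rw [hP]
      push_cast
      ring
    rw [e, Complex.sin_add_nat_mul_two_pi]
  rw [Finset.prod_congr rfl h1, h2]

end Pool.Agent.TWO
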