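import Pool.Agent.TWO.Defs

set_option autoImplicit false

open PowerSeries Finset MeasureTheory Filter Topology

namespace Pool.Agent.TWO

private theorem a5_Pr_pos {X : Finset ℕ} (h : IsLeaf X) : 0 < Pr X :=
  Finset.prod_pos fun k hk => by
    have := h.two_le k hk
    exact_mod_cast (by omega : 0 < k)

theorem ok_facts {t : TD} (h : t.Ok) : 0 < t.a ∧ 0 < t.c ∧ 0 < t.rho ∧ t.rho < 1 ∧ 0 < t.sg ∧
    t.rho ^ 2 + t.sg ^ 2 = 1 ∧ t.c = t.rho * Real.sqrt (t.a * t.b) ∧ 0 < t.x0 ∧ 0 < t.om ∧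
    0 < t.mu ∧ t.mu < 1 ∧ Real.sqrt t.b * (t.rho * t.x0) = 2 * Real.pi * t.mu ∧
    t.om ^ 2 = t.b - t.c ^ 2 / t.a := by
  have hb : 0 < t.b := h.b_pos
  have hc : 0 < t.c := mul_pos (a5_Pr_pos h.X) (a5_Pr_pos h.Y)
  have hdet : t.c ^ 2 < t.a * t.b := h.det
  have hab : 0 < t.a * t.b := lt_trans (pow_pos hc 2) hdet
  have ha : 0 < t.a := (pos_iff_pos_of_mul_pos hab).2 hb
  have hs : 0 < Real.sqrt (t.a * t.b) := Real.sqrt_pos.2 hab
  have hsq : Real.sqrt (t.a * t.b) ^ 2 = t.a * t.b := Real.sq_sqrt hab.le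
  have hcs : t.c < Real.sqrt (t.a * t.b) := Real.lt_sqrt_of_sq_lt hdet
  have hrho : 0 < t.rho := div_pos hc hs
  have hrho1 : t.rho < 1 := (div_lt_one hs).2 hcs
  have hrho2 : t.rho ^ 2 < 1 := by
    have := mul_lt_mul'' hrho1 hrho1 hrho.le hrho.le
    nlinarith
  have h1 : 0 < 1 - t.rho ^ 2 := sub_pos.2 hrho2
  have hsg : 0 < t.sg := Real.sqrt_pos.2 h1
  have hsg2 : t.sg ^ 2 = 1 - t.rho ^ 2 := Real.sq_sqrt h1.le
  have hcr : t.c = t.rho * Real.sqrt (t.a * t.b) := (div_mul_cancel₀ _ hs.ne').symm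
  have hsa : 0 < Real.sqrt t.a := Real.sqrt_pos.2 ha
  have hsb : 0 < Real.sqrt t.b := Real.sqrt_pos.2 hb
  have hsab : Real.sqrt (t.a * t.b) = Real.sqrt t.a * Real.sqrt t.b := Real.sqrt_mul ha.le _
  have hsa2 : Real.sqrt t.a * Real.sqrt t.a = t.a := Real.mul_self_sqrt ha.le
  have hsb2 : Real.sqrt t.b ^ 2 = t.b := Real.sq_sqrt hb.le
  have hx0 : 0 < t.x0 := div_pos (mul_pos two_pos Real.pi_pos) hsa
  have hom : 0 < t.om := mul_pos hsb hsg
  have hmu : 0 < t.mu := div_pos hc ha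
  have hca : t.c < t.a := by
    have h2 : t.c ^ 2 < t.a ^ 2 := by
      have := mul_le_mul_of_nonneg_left h.le ha.le
      nlinarith
    exact lt_of_pow_lt_pow_left₀ 2 ha.le h2
  have hmu1 : t.mu < 1 := (div_lt_one ha).2 hca
  refine ⟨ha, hc, hrho, hrho1, hsg, by rw [hsg2]; ring, hcr, hx0, hom, hmu, hmu1, ?_, ?_⟩
  · have e1 : t.rho = t.c / (Real.sqrt t.a * Real.sqrt t.b) := by
      rw [← hsab]
      rfl
    have e2 : t.x0 = 2 * Real.pi / Real.sqrt t.a := rfl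
    have e3 : t.mu = t.c / (Real.sqrt t.a * Real.sqrt t.a) := by
      rw [hsa2]
      rfl
    rw [e1, e2, e3]
    field_simp
  · have e1 : t.om = Real.sqrt t.b * t.sg := rfl
    have e2 : t.rho ^ 2 = t.c ^ 2 / (t.a * t.b) := by
      rw [← hsq, ← div_pow]
      rfl
    rw [e1, mul_pow, hsg2, hsb2, e2]
    field_simp

end Pool.Agent.TWO
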