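import Pool.Agent.TWO.Defs
import Pool.Agent.TWO.A2
import Pool.Agent.TWO.A3
import Pool.Agent.TWO.A5

set_option autoImplicit false

open PowerSeries Finset MeasureTheory Filter Topology

namespace Pool.Agent.TWO

private theorem a6_congr {ι : Type} {f g : ι → ℂ} {s : ℂ} (h : HasSum f s)
    (e : ∀ i, f i = g i) : HasSum g s := by
  have e' : f = g := funext e
  rwa [e'] at h

/-- the coefficients -/
private noncomputable def a6_al (X : Finset ℕ) (i : ℕ) : ℝ :=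
  (-1) ^ i * coeff i (nd X) / (2 * Pr X)

private theorem a6_pt {X : Finset ℕ} (hX : IsLeaf X) {s y r : ℝ} (hs : 0 ≤ s) (hy : 0 ≤ y)
    (hr : |r| ≤ 1) (h : s * y < 2 * Real.pi) :
    HasSum (fun i => ((a6_al X i * (s * (y * r)) ^ (2 * i + 1) : ℝ) : ℂ))
      (U X ((s : ℂ) * ((y : ℂ) * (r : ℂ)))) := by
  have hn : ‖((s : ℂ) * ((y : ℂ) * (r : ℂ)))‖ < 2 * Real.pi := by
    rw [norm_mul, norm_mul, Complex.norm_real, Complex.norm_real, Complex.norm_real,
      Real.norm_eq_abs, Real.norm_eq_abs, Real.norm_eq_abs, abs_of_nonneg hs, abs_of_nonneg hy]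
    calc s * (y * |r|) ≤ s * (y * 1) :=
          mul_le_mul_of_nonneg_left (mul_le_mul_of_nonneg_left hr hy) hs
      _ = s * y := by rw [mul_one]
      _ < 2 * Real.pi := h
  have h1 := U_hasSum hX hn
  refine a6_congr h1 ?_
  intro i
  unfold a6_al
  push_cast
  ring

private theorem a6_bd (X : Finset ℕ) {s y r : ℝ} (hs : 0 ≤ s) (hy : 0 ≤ y) (hr : |r| ≤ 1)
    (i : ℕ) : |a6_al X i * (s * (y * r)) ^ (2 * i + 1)| ≤ |a6_al X i| * (s * y) ^ (2 * i + 1) := by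
  rw [abs_mul, abs_pow, abs_mul, abs_mul, abs_of_nonneg hs, abs_of_nonneg hy]
  refine mul_le_mul_of_nonneg_left (pow_le_pow_left₀ (by positivity) ?_ _) (abs_nonneg _)
  calc s * (y * |r|) ≤ s * (y * 1) :=
        mul_le_mul_of_nonneg_left (mul_le_mul_of_nonneg_left hr hy) hs
    _ = s * y := by rw [mul_one]

private theorem a6_sum {X : Finset ℕ} (hX : IsLeaf X) {r : ℝ} (h0 : 0 ≤ r)
    (hr : r < 2 * Real.pi) : Summable fun i => |a6_al X i| * r ^ (2 * i + 1) := by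
  have h1 := (nd_summable hX h0 hr).mul_left (r / |2 * Pr X|)
  refine h1.congr fun i => ?_
  have e : |a6_al X i| = |coeff i (nd X)| / |2 * Pr X| := by
    unfold a6_al
    rw [abs_div]
    congr 1
    rw [abs_mul, abs_pow, abs_neg, abs_one, one_pow, one_mul]
  rw [e, pow_succ]
  ring

private theorem a6_one {ρ σ : ℝ} (h : ρ ^ 2 + σ ^ 2 = 1) (θ : ℝ) :
    |ρ * Real.cos θ + σ * Real.sin θ| ≤ 1 := by
  rw [← sq_le_one_iff_abs_le_one]
  have h1 := Real.sin_sq_add_cos_sq θ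
  have h2 : (ρ * Real.cos θ + σ * Real.sin θ) ^ 2 + (ρ * Real.sin θ - σ * Real.cos θ) ^ 2 = 1 := by
    calc (ρ * Real.cos θ + σ * Real.sin θ) ^ 2 + (ρ * Real.sin θ - σ * Real.cos θ) ^ 2 =
          (ρ ^ 2 + σ ^ 2) * (Real.sin θ ^ 2 + Real.cos θ ^ 2) := by ring
      _ = 1 := by rw [h, h1, one_mul]
  have h3 := sq_nonneg (ρ * Real.sin θ - σ * Real.cos θ)
  linarith

/-- the double series -/
private theorem a6_double {X Y : Finset ℕ} (hX : IsLeaf X) (hY : IsLeaf Y) {s s' y ρ σ : ℝ}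
    (hs : 0 ≤ s) (hs' : 0 ≤ s') (hy : 0 ≤ y) (h : s * y < 2 * Real.pi)
    (h' : s' * y < 2 * Real.pi) (hρσ : ρ ^ 2 + σ ^ 2 = 1) :
    HasSum (fun p : ℕ × ℕ => ((∫ θ in (0 : ℝ)..2 * Real.pi,
        a6_al X p.1 * (s * (y * Real.cos θ)) ^ (2 * p.1 + 1) *
          (a6_al Y p.2 * (s' * (y * (ρ * Real.cos θ + σ * Real.sin θ))) ^ (2 * p.2 + 1)) : ℝ) : ℂ))
      (gI (fun x => U X (s * x)) (fun x => U Y (s' * x)) ρ σ y) := by
  have hsy : 0 ≤ s * y := mul_nonneg hs hy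
  have hsy' : 0 ≤ s' * y := mul_nonneg hs' hy
  have hsum : Summable fun p : ℕ × ℕ => (|a6_al X p.1| * (s * y) ^ (2 * p.1 + 1)) *
      (|a6_al Y p.2| * (s' * y) ^ (2 * p.2 + 1)) :=
    (a6_sum hX hsy h).mul_of_nonneg (a6_sum hY hsy' h')
      (fun i => mul_nonneg (abs_nonneg _) (pow_nonneg hsy _))
      (fun i => mul_nonneg (abs_nonneg _) (pow_nonneg hsy' _))
  have hbd : ∀ (p : ℕ × ℕ) (θ : ℝ),
      |a6_al X p.1 * (s * (y * Real.cos θ)) ^ (2 * p.1 + 1) *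
        (a6_al Y p.2 * (s' * (y * (ρ * Real.cos θ + σ * Real.sin θ))) ^ (2 * p.2 + 1))| ≤
      (|a6_al X p.1| * (s * y) ^ (2 * p.1 + 1)) *
        (|a6_al Y p.2| * (s' * y) ^ (2 * p.2 + 1)) := by
    intro p θ
    rw [abs_mul]
    exact mul_le_mul (a6_bd X hs hy (Real.abs_cos_le_one θ) p.1)
      (a6_bd Y hs' hy (a6_one hρσ θ) p.2) (abs_nonneg _)
      (mul_nonneg (abs_nonneg _) (pow_nonneg hsy _))
  have h1 := intervalIntegral.hasSum_integral_of_dominated_convergence (μ := volume)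
    (a := 0) (b := 2 * Real.pi)
    (F := fun (p : ℕ × ℕ) (θ : ℝ) =>
      ((a6_al X p.1 * (s * (y * Real.cos θ)) ^ (2 * p.1 + 1) *
        (a6_al Y p.2 * (s' * (y * (ρ * Real.cos θ + σ * Real.sin θ))) ^ (2 * p.2 + 1)) : ℝ) : ℂ))
    (f := fun θ => U X ((s : ℂ) * ((y : ℂ) * (Real.cos θ : ℂ))) *
      U Y ((s' : ℂ) * ((y : ℂ) * ((ρ * Real.cos θ + σ * Real.sin θ : ℝ) : ℂ))))
    (fun p _ => (|a6_al X p.1| * (s * y) ^ (2 * p.1 + 1)) *
      (|a6_al Y p.2| * (s' * y) ^ (2 * p.2 + 1)))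
    (fun p => by
      refine Continuous.aestronglyMeasurable ?_
      refine Complex.continuous_ofReal.comp ?_
      fun_prop)
    (fun p => Eventually.of_forall fun θ _ => by
      rw [Complex.norm_real, Real.norm_eq_abs]
      exact hbd p θ)
    (Eventually.of_forall fun θ _ => hsum)
    (continuous_const.intervalIntegrable _ _)
    (Eventually.of_forall fun θ _ => by
      have h2 := a6_pt hX hs hy (Real.abs_cos_le_one θ) h
      have h3 := a6_pt hY hs' hy (a6_one hρσ θ) h'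
      have h4 : Summable fun p : ℕ × ℕ =>
          ((a6_al X p.1 * (s * (y * Real.cos θ)) ^ (2 * p.1 + 1) : ℝ) : ℂ) *
          ((a6_al Y p.2 * (s' * (y * (ρ * Real.cos θ + σ * Real.sin θ))) ^ (2 * p.2 + 1) : ℝ) :
            ℂ) := by
        refine Summable.of_norm_bounded hsum fun p => ?_
        rw [← Complex.ofReal_mul, Complex.norm_real, Real.norm_eq_abs]
        exact hbd p θ
      have h5 := h2.mul h3 h4
      refine a6_congr h5 ?_
      intro p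
      exact (Complex.ofReal_mul _ _).symm)
  unfold gI
  have e : (fun θ : ℝ => U X ((s : ℂ) * ((y : ℂ) * (Real.cos θ : ℂ))) *
      U Y ((s' : ℂ) * ((y : ℂ) * ((ρ * Real.cos θ + σ * Real.sin θ : ℝ) : ℂ)))) =
      fun θ : ℝ => U X ((s : ℂ) * ((y : ℂ) * (Real.cos θ : ℂ))) *
        U Y ((s' : ℂ) * ((y : ℂ) * ((ρ : ℂ) * (Real.cos θ : ℂ) + (σ : ℂ) * (Real.sin θ : ℂ)))) := by
    funext θ
    rw [Complex.ofReal_add, Complex.ofReal_mul, Complex.ofReal_mul]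
  rw [e] at h1
  refine a6_congr h1 ?_
  intro p
  exact intervalIntegral.integral_ofReal

/-- one term -/
private theorem a6_term {t : TD} (h : t.Ok) (y : ℝ) (i j : ℕ) :
    (∫ θ in (0 : ℝ)..2 * Real.pi,
        a6_al t.X i * (Real.sqrt t.a * (y * Real.cos θ)) ^ (2 * i + 1) *
          (a6_al t.Y j * (Real.sqrt t.b *
            (y * (t.rho * Real.cos θ + t.sg * Real.sin θ))) ^ (2 * j + 1))) =
      Real.pi / 4 * (-1) ^ (i + j) / (4 ^ (i + j) * (i + j + 1).factorial) *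
        (coeff i (nd t.X) * coeff j (nd t.Y) *
          (H99.Spl.Mom t.a t.c t.b i j / (2 * t.c))) * y ^ (2 * (i + j) + 2) := by
  obtain ⟨ha, hc, hρ, -, -, hρσ, hcρ, -⟩ := ok_facts h
  have hb := h.b_pos
  have hm := mom_integral ha hb hρ hρσ hcρ i j
  have hpi := Real.pi_pos
  obtain ⟨I, hI⟩ : ∃ I : ℝ, I = ∫ θ in (0 : ℝ)..2 * Real.pi,
    Real.cos θ ^ (2 * i + 1) * (t.rho * Real.cos θ + t.sg * Real.sin θ) ^ (2 * j + 1) := ⟨_, rfl⟩
  rw [← hI] at hm
  have hXY : Pr t.X * Pr t.Y = t.c := rfl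
  have hX0 : Pr t.X ≠ 0 := by
    intro h0
    rw [h0, zero_mul] at hXY
    exact hc.ne hXY
  have hY0 : Pr t.Y ≠ 0 := by
    intro h0
    rw [h0, mul_zero] at hXY
    exact hc.ne hXY
  have e1 : (∫ θ in (0 : ℝ)..2 * Real.pi,
        a6_al t.X i * (Real.sqrt t.a * (y * Real.cos θ)) ^ (2 * i + 1) *
          (a6_al t.Y j * (Real.sqrt t.b *
            (y * (t.rho * Real.cos θ + t.sg * Real.sin θ))) ^ (2 * j + 1))) =
      (a6_al t.X i * a6_al t.Y j * Real.sqrt t.a ^ (2 * i + 1) * Real.sqrt t.b ^ (2 * j + 1) *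
        y ^ (2 * (i + j) + 2)) * I := by
    rw [hI, ← intervalIntegral.integral_const_mul]
    refine intervalIntegral.integral_congr fun θ _ => ?_
    show a6_al t.X i * (Real.sqrt t.a * (y * Real.cos θ)) ^ (2 * i + 1) *
          (a6_al t.Y j * (Real.sqrt t.b *
            (y * (t.rho * Real.cos θ + t.sg * Real.sin θ))) ^ (2 * j + 1)) =
      (a6_al t.X i * a6_al t.Y j * Real.sqrt t.a ^ (2 * i + 1) * Real.sqrt t.b ^ (2 * j + 1) *
        y ^ (2 * (i + j) + 2)) *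
        (Real.cos θ ^ (2 * i + 1) * (t.rho * Real.cos θ + t.sg * Real.sin θ) ^ (2 * j + 1))
    rw [mul_pow, mul_pow, mul_pow, mul_pow]
    ring
  have e2 : Real.sqrt t.a ^ (2 * i + 1) = t.a ^ i * Real.sqrt t.a := by
    rw [pow_succ, pow_mul, Real.sq_sqrt ha.le]
  have e3 : Real.sqrt t.b ^ (2 * j + 1) = t.b ^ j * Real.sqrt t.b := by
    rw [pow_succ, pow_mul, Real.sq_sqrt hb.le]
  have e4 : t.rho * (Real.sqrt t.a * Real.sqrt t.b) = t.c := by
    rw [← Real.sqrt_mul ha.le]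
    exact hcρ.symm
  rw [e1, e2, e3, hm]
  unfold a6_al
  have hfac : ((i + j + 1).factorial : ℝ) ≠ 0 := by positivity
  have hsa : 0 < Real.sqrt t.a := Real.sqrt_pos.2 ha
  have hsb : 0 < Real.sqrt t.b := Real.sqrt_pos.2 hb
  have e5 : Real.sqrt t.a * Real.sqrt t.b = Pr t.X * Pr t.Y / t.rho := by
    rw [hXY, ← e4]
    field_simp
  have e6 : (-1 : ℝ) ^ i * coeff i (nd t.X) / (2 * Pr t.X) *
      ((-1) ^ j * coeff j (nd t.Y) / (2 * Pr t.Y)) * (t.a ^ i * Real.sqrt t.a) *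
      (t.b ^ j * Real.sqrt t.b) * y ^ (2 * (i + j) + 2) * I =
      (-1 : ℝ) ^ (i + j) * coeff i (nd t.X) * coeff j (nd t.Y) * t.a ^ i * t.b ^ j *
        y ^ (2 * (i + j) + 2) * I / (4 * (Pr t.X * Pr t.Y)) *
        (Real.sqrt t.a * Real.sqrt t.b) := by
    rw [pow_add]
    field_simp
    ring
  rw [e6, e5]
  field_simp
  try ring

theorem gI_hasSum {t : TD} (h : t.Ok) {y : ℝ} (hy : 0 ≤ y) (hy' : y < t.x0) :
    HasSum (fun k => ((Real.pi / 4 * (-1) ^ k / (4 ^ k * (k + 1).factorial) * coeff k t.ser *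
      y ^ (2 * k + 2) : ℝ) : ℂ))
      (gI (fun x => U t.X (Real.sqrt t.a * x)) (fun x => U t.Y (Real.sqrt t.b * x)) t.rho t.sg y) := by
  obtain ⟨ha, -, -, -, -, hρσ, -⟩ := ok_facts h
  have hsa : 0 < Real.sqrt t.a := Real.sqrt_pos.2 ha
  have h1 : Real.sqrt t.a * y < 2 * Real.pi := by
    unfold TD.x0 at hy'
    rw [lt_div_iff₀ hsa] at hy'
    linarith
  have h2 : Real.sqrt t.b * y < 2 * Real.pi :=
    lt_of_le_of_lt (mul_le_mul_of_nonneg_right (Real.sqrt_le_sqrt h.le) hy) h1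
  have h3 := a6_double h.X h.Y hsa.le (Real.sqrt_nonneg t.b) hy h1 h2 hρσ
  have h4 := (Finset.HasAntidiagonal.sigmaAntidiagonalEquivProd (A := ℕ)).hasSum_iff.mpr h3
  have h5 := h4.sigma (g := fun k => ((Real.pi / 4 * (-1) ^ k / (4 ^ k * (k + 1).factorial) *
    coeff k t.ser * y ^ (2 * k + 2) : ℝ) : ℂ)) (fun k => by
      have h6 := hasSum_fintype (fun c : antidiagonal k =>
        ((fun p : ℕ × ℕ => ((∫ θ in (0 : ℝ)..2 * Real.pi,
        a6_al t.X p.1 * (Real.sqrt t.a * (y * Real.cos θ)) ^ (2 * p.1 + 1) *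
          (a6_al t.Y p.2 * (Real.sqrt t.b *
            (y * (t.rho * Real.cos θ + t.sg * Real.sin θ))) ^ (2 * p.2 + 1)) : ℝ) : ℂ)) ∘
          (Finset.HasAntidiagonal.sigmaAntidiagonalEquivProd (A := ℕ))) ⟨k, c⟩)
      have e : ∑ c : antidiagonal k, ((fun p : ℕ × ℕ => ((∫ θ in (0 : ℝ)..2 * Real.pi,
        a6_al t.X p.1 * (Real.sqrt t.a * (y * Real.cos θ)) ^ (2 * p.1 + 1) *
          (a6_al t.Y p.2 * (Real.sqrt t.b *
            (y * (t.rho * Real.cos θ + t.sg * Real.sin θ))) ^ (2 * p.2 + 1)) : ℝ) : ℂ)) ∘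
          (Finset.HasAntidiagonal.sigmaAntidiagonalEquivProd (A := ℕ))) ⟨k, c⟩ =
          ((Real.pi / 4 * (-1) ^ k / (4 ^ k * (k + 1).factorial) *
            coeff k t.ser * y ^ (2 * k + 2) : ℝ) : ℂ) := by
        have e1 : ∀ c : antidiagonal k, ((fun p : ℕ × ℕ => ((∫ θ in (0 : ℝ)..2 * Real.pi,
          a6_al t.X p.1 * (Real.sqrt t.a * (y * Real.cos θ)) ^ (2 * p.1 + 1) *
            (a6_al t.Y p.2 * (Real.sqrt t.b *
              (y * (t.rho * Real.cos θ + t.sg * Real.sin θ))) ^ (2 * p.2 + 1)) : ℝ) : ℂ)) ∘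
            (Finset.HasAntidiagonal.sigmaAntidiagonalEquivProd (A := ℕ))) ⟨k, c⟩ =
            (fun p : ℕ × ℕ => ((Real.pi / 4 * (-1) ^ k / (4 ^ k * (k + 1).factorial) *
              (coeff p.1 (nd t.X) * coeff p.2 (nd t.Y) *
                (H99.Spl.Mom t.a t.c t.b p.1 p.2 / (2 * t.c))) * y ^ (2 * k + 2) : ℝ) : ℂ)) c := by
          rintro ⟨⟨i, j⟩, hc⟩
          have hk : i + j = k := mem_antidiagonal.1 hc
          have e2 := a6_term h y i j
          rw [hk] at e2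
          show ((∫ θ in (0 : ℝ)..2 * Real.pi,
            a6_al t.X i * (Real.sqrt t.a * (y * Real.cos θ)) ^ (2 * i + 1) *
            (a6_al t.Y j * (Real.sqrt t.b *
              (y * (t.rho * Real.cos θ + t.sg * Real.sin θ))) ^ (2 * j + 1)) : ℝ) : ℂ) = _
          rw [e2]
        rw [Finset.sum_congr rfl fun c _ => e1 c]
        rw [Finset.sum_coe_sort (antidiagonal k) (fun p : ℕ × ℕ =>
          ((Real.pi / 4 * (-1) ^ k / (4 ^ k * (k + 1).factorial) *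
              (coeff p.1 (nd t.X) * coeff p.2 (nd t.Y) *
                (H99.Spl.Mom t.a t.c t.b p.1 p.2 / (2 * t.c))) * y ^ (2 * k + 2) : ℝ) : ℂ)),
          ← Complex.ofReal_sum, ← Finset.sum_mul, ← Finset.mul_sum]
        have e3 : coeff k t.ser = ∑ x ∈ antidiagonal k, coeff x.1 (nd t.X) *
            coeff x.2 (nd t.Y) * (H99.Spl.Mom t.a t.c t.b x.1 x.2 / (2 * t.c)) :=
          coeff_mk _ _
        rw [e3]
      rw [e] at h6
      exact h6)
  exact h5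

end Pool.Agent.TWO
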