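import Pool.Agent.TWO.Defs

set_option autoImplicit false

open PowerSeries Finset MeasureTheory Filter Topology

namespace Pool.Agent.TWO

private theorem b1_exp_sum (θ : ℝ) :
    Complex.exp (θ * Complex.I) + (Complex.exp (θ * Complex.I))⁻¹ = 2 * (Real.cos θ : ℂ) := by
  rw [← Complex.exp_neg, Complex.ofReal_cos, Complex.cos]
  have : -((θ : ℂ) * Complex.I) = -(θ : ℂ) * Complex.I := by ring
  rw [this]
  ring

/-- The Poisson integral for a complex parameter. -/
private theorem b1_poisson {w : ℂ} (hw : ‖w‖ < 1) :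
    ∫ θ in (0 : ℝ)..2 * Real.pi, (1 + w ^ 2 - 2 * w * (Real.cos θ : ℂ))⁻¹ =
      2 * Real.pi / (1 - w ^ 2) := by
  have hne : ∀ z ∈ Metric.closedBall (0 : ℂ) 1, 1 - w * z ≠ 0 := by
    intro z hz h0
    have h1 : w * z = 1 := by linear_combination -h0
    have h2 : ‖w * z‖ < 1 := by
      rw [norm_mul]
      have h3 : ‖z‖ ≤ 1 := by simpa using hz
      calc ‖w‖ * ‖z‖ ≤ ‖w‖ * 1 := by gcongr
        _ < 1 := by linarith
    rw [h1] at h2
    norm_num at h2
  have hd : DifferentiableOn ℂ (fun z : ℂ => (1 - w * z)⁻¹) (Metric.closedBall 0 1) := by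
    intro z hz
    apply DifferentiableAt.differentiableWithinAt
    exact DifferentiableAt.inv (by fun_prop) (hne z hz)
  have hc := hd.circleIntegral_sub_inv_smul (w := w) (by simpa using hw)
  unfold circleIntegral at hc
  have hcongr : ∫ θ in (0 : ℝ)..2 * Real.pi,
      deriv (circleMap 0 1) θ • ((circleMap 0 1 θ - w)⁻¹ • (1 - w * circleMap 0 1 θ)⁻¹) =
      ∫ θ in (0 : ℝ)..2 * Real.pi, Complex.I * (1 + w ^ 2 - 2 * w * (Real.cos θ : ℂ))⁻¹ := by
    apply intervalIntegral.integral_congr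
    intro θ _
    simp only [deriv_circleMap, smul_eq_mul]
    have hz : circleMap 0 1 θ = Complex.exp (θ * Complex.I) := by simp [circleMap]
    rw [hz]
    set z : ℂ := Complex.exp (θ * Complex.I) with hzdef
    have hz0 : z ≠ 0 := Complex.exp_ne_zero _
    have hs : z + z⁻¹ = 2 * (Real.cos θ : ℂ) := b1_exp_sum θ
    have hfac : 1 + w ^ 2 - 2 * w * (Real.cos θ : ℂ) = z⁻¹ * (z - w) * (1 - w * z) := by
      have : z⁻¹ * (z - w) * (1 - w * z) = z⁻¹ * z - w * (z⁻¹ * z) * z - w * z⁻¹ +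
        w ^ 2 * (z⁻¹ * z) := by ring
      rw [this, inv_mul_cancel₀ hz0]
      linear_combination w * hs
    rw [hfac, mul_inv, mul_inv, inv_inv]
    ring
  rw [hcongr, intervalIntegral.integral_const_mul] at hc
  have hI := Complex.I_ne_zero
  have h3 : Complex.I * (∫ θ in (0 : ℝ)..2 * Real.pi, (1 + w ^ 2 - 2 * w * (Real.cos θ : ℂ))⁻¹) =
      Complex.I * (2 * Real.pi / (1 - w ^ 2)) := by
    rw [hc, smul_eq_mul]
    rw [div_eq_mul_inv, ← pow_two]
    ring
  exact mul_left_cancel₀ hI h3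

theorem int_one {y : ℝ} {Z : ℂ} (h : |y| < ‖Z‖) :
    ∫ θ in (0 : ℝ)..2 * Real.pi, (Z - (y : ℂ) * (Real.cos θ : ℂ))⁻¹ =
      2 * Real.pi / eta ((y : ℂ) ^ 2) Z := by
  have hZ : Z ≠ 0 := by
    intro h0
    rw [h0, norm_zero] at h
    exact absurd h (not_lt.mpr (abs_nonneg y))
  have hZn : 0 < ‖Z‖ := norm_pos_iff.mpr hZ
  set u : ℂ := (y : ℂ) ^ 2 / Z ^ 2 with hu
  have hu1 : ‖u‖ < 1 := by
    rw [hu, norm_div, norm_pow, norm_pow, Complex.norm_real, Real.norm_eq_abs,
      div_lt_one (by positivity)]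
    exact pow_lt_pow_left₀ h (abs_nonneg y) (by norm_num)
  have hre : 0 < (1 - u).re := by
    have := Complex.re_le_norm u
    simp only [Complex.sub_re, Complex.one_re]
    linarith
  have h1u : 1 - u ≠ 0 := by
    intro h0
    rw [h0] at hre
    simp at hre
  set r : ℂ := (1 - u) ^ (1 / 2 : ℂ) with hr
  have hr2 : r ^ 2 = 1 - u := by
    rw [hr, ← Complex.cpow_nat_mul]
    norm_num
  have hrre : 0 < r.re := by
    rw [hr, Complex.cpow_def_of_ne_zero h1u, Complex.exp_re]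
    apply mul_pos (Real.exp_pos _)
    apply Real.cos_pos_of_mem_Ioo
    have him : (Complex.log (1 - u) * (1 / 2 : ℂ)).im = Complex.arg (1 - u) / 2 := by
      have : (1 / 2 : ℂ) = ((1 / 2 : ℝ) : ℂ) := by norm_num
      rw [this, Complex.im_mul_ofReal, Complex.log_im]
      ring
    rw [him]
    have ha := (Complex.abs_arg_lt_pi_div_two_iff.mpr (Or.inl hre))
    rw [abs_lt] at ha
    constructor <;> linarith [ha.1, ha.2, Real.pi_pos]
  have hr1 : 1 < ‖1 + r‖ := by
    have := Complex.re_le_norm (1 + r)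
    simp only [Complex.add_re, Complex.one_re] at this
    linarith
  have hr10 : 1 + r ≠ 0 := by
    intro h0
    rw [h0, norm_zero] at hr1
    linarith
  have hr0 : r ≠ 0 := by
    intro h0
    rw [h0] at hrre
    simp at hrre
  set w : ℂ := (y : ℂ) / (Z * (1 + r)) with hw
  have hw1 : ‖w‖ < 1 := by
    rw [hw, norm_div, norm_mul, Complex.norm_real, Real.norm_eq_abs, div_lt_one (by positivity)]
    calc |y| < ‖Z‖ := h
      _ = ‖Z‖ * 1 := (mul_one _).symm
      _ ≤ ‖Z‖ * ‖1 + r‖ := by gcongr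
  have hyw : (y : ℂ) = w * (Z * (1 + r)) := by
    rw [hw]
    field_simp
  have hy2 : (y : ℂ) ^ 2 = Z ^ 2 * (1 - r ^ 2) := by
    rw [hr2, hu]
    field_simp
    ring
  have hw2 : w ^ 2 * (1 + r) = 1 - r := by
    have h4 : Z ^ 2 * (1 + r) * (w ^ 2 * (1 + r)) = Z ^ 2 * (1 + r) * (1 - r) := by
      rw [hyw] at hy2
      linear_combination hy2
    exact mul_left_cancel₀ (mul_ne_zero (pow_ne_zero 2 hZ) hr10) h4
  have hcongr : ∫ θ in (0 : ℝ)..2 * Real.pi, (Z - (y : ℂ) * (Real.cos θ : ℂ))⁻¹ =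
      ∫ θ in (0 : ℝ)..2 * Real.pi, (Z * (1 + r) / 2)⁻¹ *
        (1 + w ^ 2 - 2 * w * (Real.cos θ : ℂ))⁻¹ := by
    apply intervalIntegral.integral_congr
    intro θ _
    simp only
    rw [← mul_inv]
    congr 1
    linear_combination (-(Real.cos θ : ℂ)) * hyw - Z / 2 * hw2
  rw [hcongr, intervalIntegral.integral_const_mul, b1_poisson hw1]
  have h1w : (1 - w ^ 2) * (1 + r) = 2 * r := by linear_combination -hw2
  have h1w0 : 1 - w ^ 2 ≠ 0 := by
    intro h0
    rw [h0, zero_mul] at h1w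
    exact (mul_ne_zero two_ne_zero hr0) h1w.symm
  have heta : eta ((y : ℂ) ^ 2) Z = Z * r := rfl
  rw [heta]
  have h5 : Z * r = Z * (1 + r) / 2 * (1 - w ^ 2) := by linear_combination -(Z / 2) * h1w
  rw [h5]
  field_simp

end Pool.Agent.TWO
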