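import Pool.Agent.TWO.Defs
import Pool.Agent.TWO.B1

set_option autoImplicit false

open PowerSeries Finset MeasureTheory Filter Topology

namespace Pool.Agent.TWO

private theorem B2_ne {y : ℝ} {Z : ℂ} (h : |y| < ‖Z‖) (θ : ℝ) :
    Z - (y : ℂ) * (Real.cos θ : ℂ) ≠ 0 := by
  intro h0
  rw [sub_eq_zero] at h0
  rw [h0, norm_mul, Complex.norm_real, Complex.norm_real, Real.norm_eq_abs, Real.norm_eq_abs] at h
  have h1 := Real.abs_cos_le_one θ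
  have h2 := mul_le_mul_of_nonneg_left h1 (abs_nonneg y)
  linarith

private theorem B2_cont {y : ℝ} {Z : ℂ} (h : |y| < ‖Z‖) :
    Continuous fun θ : ℝ => (Z - (y : ℂ) * (Real.cos θ : ℂ))⁻¹ := by
  refine Continuous.inv₀ ?_ (B2_ne h)
  fun_prop

private theorem B2_sin {y : ℝ} {Z : ℂ} :
    ∫ θ in (0 : ℝ)..2 * Real.pi, ((y : ℂ) * (Real.sin θ : ℂ)) *
      (Z - (y : ℂ) * (Real.cos θ : ℂ))⁻¹ = 0 := by
  have h1 := intervalIntegral.integral_comp_sub_left (a := 0) (b := 2 * Real.pi)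
    (fun θ : ℝ => ((y : ℂ) * (Real.sin θ : ℂ)) * (Z - (y : ℂ) * (Real.cos θ : ℂ))⁻¹)
    (2 * Real.pi)
  rw [sub_self, sub_zero] at h1
  have h2 : ∀ θ : ℝ, ((y : ℂ) * (Real.sin (2 * Real.pi - θ) : ℂ)) *
      (Z - (y : ℂ) * (Real.cos (2 * Real.pi - θ) : ℂ))⁻¹ =
      -(((y : ℂ) * (Real.sin θ : ℂ)) * (Z - (y : ℂ) * (Real.cos θ : ℂ))⁻¹) := by
    intro θ
    rw [Real.sin_two_pi_sub, Real.cos_two_pi_sub]
    push_cast
    ring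
  simp only [h2, intervalIntegral.integral_neg] at h1
  set I := ∫ θ in (0 : ℝ)..2 * Real.pi, ((y : ℂ) * (Real.sin θ : ℂ)) *
      (Z - (y : ℂ) * (Real.cos θ : ℂ))⁻¹
  have h3 : (2 : ℂ) * I = 0 := by linear_combination (-1 : ℂ) * h1
  simpa using h3

private theorem B2_gen {y : ℝ} {Z : ℂ} (h : |y| < ‖Z‖) (a b c : ℂ) :
    ∫ θ in (0 : ℝ)..2 * Real.pi, (a + b * ((y : ℂ) * (Real.cos θ : ℂ)) +
      c * ((y : ℂ) * (Real.sin θ : ℂ))) * (Z - (y : ℂ) * (Real.cos θ : ℂ))⁻¹ =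
      -(2 * Real.pi * b) + (a + b * Z) * (2 * Real.pi / eta ((y : ℂ) ^ 2) Z) := by
  have h1 : ∀ θ : ℝ, (a + b * ((y : ℂ) * (Real.cos θ : ℂ)) +
      c * ((y : ℂ) * (Real.sin θ : ℂ))) * (Z - (y : ℂ) * (Real.cos θ : ℂ))⁻¹ =
      (-b + (a + b * Z) * (Z - (y : ℂ) * (Real.cos θ : ℂ))⁻¹) +
      c * (((y : ℂ) * (Real.sin θ : ℂ)) * (Z - (y : ℂ) * (Real.cos θ : ℂ))⁻¹) := by
    intro θ
    have h2 := mul_inv_cancel₀ (B2_ne h θ)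
    linear_combination (-b) * h2
  simp only [h1]
  have hc := B2_cont h
  have hc1 : Continuous fun θ : ℝ => -b + (a + b * Z) * (Z - (y : ℂ) * (Real.cos θ : ℂ))⁻¹ :=
    continuous_const.add (continuous_const.mul hc)
  have hc2 : Continuous fun θ : ℝ => c * (((y : ℂ) * (Real.sin θ : ℂ)) *
      (Z - (y : ℂ) * (Real.cos θ : ℂ))⁻¹) := by
    refine continuous_const.mul (Continuous.mul ?_ hc)
    fun_prop
  have hc3 : Continuous fun θ : ℝ => (a + b * Z) * (Z - (y : ℂ) * (Real.cos θ : ℂ))⁻¹ :=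
    continuous_const.mul hc
  rw [intervalIntegral.integral_add (hc1.intervalIntegrable _ _) (hc2.intervalIntegrable _ _),
    intervalIntegral.integral_add (continuous_const.intervalIntegrable _ _)
      (hc3.intervalIntegrable _ _), intervalIntegral.integral_const_mul,
    intervalIntegral.integral_const_mul, B2_sin, int_one h, intervalIntegral.integral_const,
    sub_zero, mul_zero, add_zero, Complex.real_smul]
  push_cast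
  ring

private theorem B2_eta {y : ℝ} {Z : ℂ} (h : |y| < ‖Z‖) :
    eta ((y : ℂ) ^ 2) Z ^ 2 = Z ^ 2 - (y : ℂ) ^ 2 := by
  have hZ : Z ≠ 0 := by
    rintro rfl
    rw [norm_zero] at h
    exact absurd h (not_lt.2 (abs_nonneg y))
  unfold eta
  rw [mul_pow, ← Complex.cpow_nat_mul]
  have h1 : ((2 : ℕ) : ℂ) * (1 / 2 : ℂ) = 1 := by norm_num
  rw [h1, Complex.cpow_one]
  field_simp

private theorem B2_NN {ρ σ y : ℝ} (hρσ : ρ ^ 2 + σ ^ 2 = 1) {X Z : ℂ} (hX : |y| < ‖X‖)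
    (hD : X ^ 2 - 2 * ρ * X * Z + Z ^ 2 - (σ : ℂ) ^ 2 * (y : ℂ) ^ 2 ≠ 0) :
    NN (fun w => (Z - w)⁻¹) ρ σ ((y : ℂ) ^ 2) X =
      2 * (Z - ρ * X) / (X ^ 2 - 2 * ρ * X * Z + Z ^ 2 - (σ : ℂ) ^ 2 * (y : ℂ) ^ 2) /
        eta ((y : ℂ) ^ 2) X := by
  have he := B2_eta hX
  have hrs : (ρ : ℂ) ^ 2 + (σ : ℂ) ^ 2 = 1 := by exact_mod_cast hρσ
  have hI : Complex.I ^ 2 = -1 := Complex.I_sq
  have hprod : (Z - (ρ * X + Complex.I * σ * eta ((y : ℂ) ^ 2) X)) *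
      (Z - (ρ * X - Complex.I * σ * eta ((y : ℂ) ^ 2) X)) =
      X ^ 2 - 2 * ρ * X * Z + Z ^ 2 - (σ : ℂ) ^ 2 * (y : ℂ) ^ 2 := by
    linear_combination (σ : ℂ) ^ 2 * he + X ^ 2 * hrs -
      (σ : ℂ) ^ 2 * eta ((y : ℂ) ^ 2) X ^ 2 * hI
  have h1 : Z - (ρ * X + Complex.I * σ * eta ((y : ℂ) ^ 2) X) ≠ 0 := by
    intro h0
    rw [h0, zero_mul] at hprod
    exact hD hprod.symm
  have h2 : Z - (ρ * X - Complex.I * σ * eta ((y : ℂ) ^ 2) X) ≠ 0 := by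
    intro h0
    rw [h0, mul_zero] at hprod
    exact hD hprod.symm
  unfold NN
  congr 1
  rw [← hprod]
  field_simp
  ring

private theorem B2_angle {ρ σ : ℝ} (hρσ : ρ ^ 2 + σ ^ 2 = 1) :
    ∃ t : ℝ, Real.cos t = ρ ∧ Real.sin t = σ := by
  have hn : ‖(⟨ρ, σ⟩ : ℂ)‖ = 1 := by
    have h1 : ‖(⟨ρ, σ⟩ : ℂ)‖ ^ 2 = 1 := by
      rw [← Complex.normSq_eq_norm_sq, Complex.normSq_mk]
      linarith
    have h2 := norm_nonneg (⟨ρ, σ⟩ : ℂ)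
    nlinarith
  refine ⟨Complex.arg ⟨ρ, σ⟩, ?_, ?_⟩
  · have := Complex.norm_mul_cos_arg (⟨ρ, σ⟩ : ℂ)
    rwa [hn, one_mul] at this
  · have := Complex.norm_mul_sin_arg (⟨ρ, σ⟩ : ℂ)
    rwa [hn, one_mul] at this

theorem int_two {ρ σ y : ℝ} (hρσ : ρ ^ 2 + σ ^ 2 = 1) {X Z : ℂ} (hX : |y| < ‖X‖) (hZ : |y| < ‖Z‖)
    (hD : X ^ 2 - 2 * ρ * X * Z + Z ^ 2 - (σ : ℂ) ^ 2 * (y : ℂ) ^ 2 ≠ 0) :
    ∫ θ in (0 : ℝ)..2 * Real.pi, (X - (y : ℂ) * (Real.cos θ : ℂ))⁻¹ *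
      (Z - (y : ℂ) * (ρ * (Real.cos θ : ℂ) + σ * (Real.sin θ : ℂ)))⁻¹ =
      Real.pi * (NN (fun w => (Z - w)⁻¹) ρ σ ((y : ℂ) ^ 2) X +
        NN (fun w => (X - w)⁻¹) ρ σ ((y : ℂ) ^ 2) Z) := by
  obtain ⟨t, hct, hst⟩ := B2_angle hρσ
  have hrs : (ρ : ℂ) ^ 2 + (σ : ℂ) ^ 2 = 1 := by exact_mod_cast hρσ
  set D : ℂ := X ^ 2 - 2 * ρ * X * Z + Z ^ 2 - (σ : ℂ) ^ 2 * (y : ℂ) ^ 2 with hDdef
  have hD' : Z ^ 2 - 2 * ρ * Z * X + X ^ 2 - (σ : ℂ) ^ 2 * (y : ℂ) ^ 2 ≠ 0 := by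
    intro h0
    apply hD
    rw [← h0]
    ring
  have hN1 := B2_NN hρσ hX hD
  have hN2 := B2_NN hρσ hZ hD'
  -- the second linear form is a rotated cosine
  have hw : ∀ θ : ℝ, (ρ : ℂ) * (Real.cos θ : ℂ) + σ * (Real.sin θ : ℂ) =
      (Real.cos (θ - t) : ℂ) := by
    intro θ
    rw [Real.cos_sub, hct, hst]
    push_cast
    ring
  have hs : ∀ θ : ℝ, (Real.cos θ : ℂ) = ρ * (Real.cos (θ - t) : ℂ) - σ * (Real.sin (θ - t) : ℂ) := by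
    intro θ
    rw [Real.cos_sub, Real.sin_sub, hct, hst]
    push_cast
    linear_combination (-(Complex.cos θ)) * hrs
  have hint : ∀ θ : ℝ, (X - (y : ℂ) * (Real.cos θ : ℂ))⁻¹ *
      (Z - (y : ℂ) * (ρ * (Real.cos θ : ℂ) + σ * (Real.sin θ : ℂ)))⁻¹ =
      D⁻¹ * ((Z + (-ρ) * ((y : ℂ) * (Real.cos θ : ℂ)) + σ * ((y : ℂ) * (Real.sin θ : ℂ))) *
        (X - (y : ℂ) * (Real.cos θ : ℂ))⁻¹ +
      (X - 2 * ρ * Z + ρ * ((y : ℂ) * (Real.cos (θ - t) : ℂ)) +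
        (-σ) * ((y : ℂ) * (Real.sin (θ - t) : ℂ))) *
        (Z - (y : ℂ) * (Real.cos (θ - t) : ℂ))⁻¹) := by
    intro θ
    have hne1 := B2_ne hX θ
    have hne2 := B2_ne hZ (θ - t)
    rw [← hw] at hne2 ⊢
    have h3 : X - 2 * ρ * Z + ρ * ((y : ℂ) * (ρ * (Real.cos θ : ℂ) + σ * (Real.sin θ : ℂ))) +
        (-σ) * ((y : ℂ) * (Real.sin (θ - t) : ℂ)) = X - 2 * ρ * Z + y * (Real.cos θ : ℂ) := by
      rw [hw]
      linear_combination (-(y : ℂ)) * hs θ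
    rw [h3]
    have hcs : (Real.cos θ : ℂ) ^ 2 + (Real.sin θ : ℂ) ^ 2 = 1 := by
      exact_mod_cast Real.cos_sq_add_sin_sq θ
    have h4 : (Z + (-ρ) * ((y : ℂ) * (Real.cos θ : ℂ)) + σ * ((y : ℂ) * (Real.sin θ : ℂ))) *
        (Z - (y : ℂ) * (ρ * (Real.cos θ : ℂ) + σ * (Real.sin θ : ℂ))) +
        (X - 2 * ρ * Z + y * (Real.cos θ : ℂ)) * (X - (y : ℂ) * (Real.cos θ : ℂ)) = D := by
      rw [hDdef]
      linear_combination (y : ℂ) ^ 2 * (Real.cos θ : ℂ) ^ 2 * hrs -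
        (σ : ℂ) ^ 2 * (y : ℂ) ^ 2 * hcs
    have h5 := mul_inv_cancel₀ hne1
    have h6 := mul_inv_cancel₀ hne2
    have h7 := inv_mul_cancel₀ hD
    set A := X - (y : ℂ) * (Real.cos θ : ℂ)
    set B := Z - (y : ℂ) * (ρ * (Real.cos θ : ℂ) + σ * (Real.sin θ : ℂ))
    rw [← h4] at h7 ⊢
    rw [h4] at h7 ⊢
    have h8 : A⁻¹ * B⁻¹ = D⁻¹ * (D * (A⁻¹ * B⁻¹)) := by rw [← mul_assoc, h7, one_mul]
    rw [h8]
    congr 1
    rw [← h4]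
    field_simp
  simp only [hint]
  rw [intervalIntegral.integral_const_mul]
  have hc1 : Continuous fun θ : ℝ => (Z + (-ρ) * ((y : ℂ) * (Real.cos θ : ℂ)) +
      σ * ((y : ℂ) * (Real.sin θ : ℂ))) * (X - (y : ℂ) * (Real.cos θ : ℂ))⁻¹ := by
    refine Continuous.mul ?_ (B2_cont hX)
    fun_prop
  have hc2 : Continuous fun θ : ℝ => (X - 2 * ρ * Z + ρ * ((y : ℂ) * (Real.cos θ : ℂ)) +
        (-σ) * ((y : ℂ) * (Real.sin θ : ℂ))) * (Z - (y : ℂ) * (Real.cos θ : ℂ))⁻¹ := by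
    refine Continuous.mul ?_ (B2_cont hZ)
    fun_prop
  have hc3 : Continuous fun θ : ℝ => (X - 2 * ρ * Z + ρ * ((y : ℂ) * (Real.cos (θ - t) : ℂ)) +
        (-σ) * ((y : ℂ) * (Real.sin (θ - t) : ℂ))) * (Z - (y : ℂ) * (Real.cos (θ - t) : ℂ))⁻¹ :=
    hc2.comp (continuous_id.sub continuous_const)
  rw [intervalIntegral.integral_add (hc1.intervalIntegrable _ _) (hc3.intervalIntegrable _ _)]
  have hshift : ∫ θ in (0 : ℝ)..2 * Real.pi, (X - 2 * ρ * Z + ρ * ((y : ℂ) * (Real.cos (θ - t) : ℂ)) +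
        (-σ) * ((y : ℂ) * (Real.sin (θ - t) : ℂ))) *
        (Z - (y : ℂ) * (Real.cos (θ - t) : ℂ))⁻¹ =
      ∫ θ in (0 : ℝ)..2 * Real.pi, (X - 2 * ρ * Z + ρ * ((y : ℂ) * (Real.cos θ : ℂ)) +
        (-σ) * ((y : ℂ) * (Real.sin θ : ℂ))) * (Z - (y : ℂ) * (Real.cos θ : ℂ))⁻¹ := by
    rw [intervalIntegral.integral_comp_sub_right (fun θ : ℝ =>
      (X - 2 * ρ * Z + ρ * ((y : ℂ) * (Real.cos θ : ℂ)) +
        (-σ) * ((y : ℂ) * (Real.sin θ : ℂ))) * (Z - (y : ℂ) * (Real.cos θ : ℂ))⁻¹) t]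
    have hper : Function.Periodic (fun θ : ℝ =>
      (X - 2 * ρ * Z + ρ * ((y : ℂ) * (Real.cos θ : ℂ)) +
        (-σ) * ((y : ℂ) * (Real.sin θ : ℂ))) * (Z - (y : ℂ) * (Real.cos θ : ℂ))⁻¹)
        (2 * Real.pi) := by
      intro θ
      simp only [Real.cos_add_two_pi, Real.sin_add_two_pi]
    have h9 := hper.intervalIntegral_add_eq (0 - t) 0
    rw [zero_add] at h9
    rw [← h9]
    congr 1
    ring
  rw [hshift, B2_gen hX, B2_gen hZ, hN1, hN2]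
  have hDD : Z ^ 2 - 2 * ρ * Z * X + X ^ 2 - (σ : ℂ) ^ 2 * (y : ℂ) ^ 2 = D := by
    rw [hDdef]
    ring
  rw [hDD]
  simp only [div_eq_mul_inv]
  ring

end Pool.Agent.TWO
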