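import Pool.Agent.TWO.Defs

set_option autoImplicit false

open PowerSeries Finset MeasureTheory Filter Topology

namespace Pool.Agent.TWO

private theorem b3_nhds {a b : ℝ} {u : ℝ → ℂ}
    (hu : ContinuousOn u (Set.Icc a b)) {X₀ : ℂ} (hX : ∀ t ∈ Set.Icc a b, X₀ ≠ u t) :
    ∃ δ > 0, ∀ X ∈ Metric.ball X₀ δ, ∀ t ∈ Set.Icc a b, δ ≤ ‖X - u t‖ := by
  have hK : IsCompact (u '' Set.Icc a b) := isCompact_Icc.image_of_continuousOn hu
  have hV : (u '' Set.Icc a b)ᶜ ∈ 𝓝 X₀ := by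
    apply hK.isClosed.isOpen_compl.mem_nhds
    rintro ⟨t, ht, h⟩
    exact hX t ht h.symm
  obtain ⟨ε, hε, hball⟩ := Metric.mem_nhds_iff.1 hV
  refine ⟨ε / 2, by positivity, fun X hXb t ht => ?_⟩
  by_contra hlt
  have h1 : u t ∈ Metric.ball X₀ ε := by
    rw [Metric.mem_ball, dist_eq_norm] at *
    calc ‖u t - X₀‖ = ‖(X - X₀) - (X - u t)‖ := by congr 1; ring
      _ ≤ ‖X - X₀‖ + ‖X - u t‖ := norm_sub_le _ _
      _ < ε / 2 + ε / 2 := add_lt_add hXb (not_le.1 hlt)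
      _ = ε := by ring
  exact hball h1 ⟨t, ht, rfl⟩

private theorem b3_cont {a b : ℝ} {φ u : ℝ → ℂ} (hφ : ContinuousOn φ (Set.Icc a b))
    (hu : ContinuousOn u (Set.Icc a b)) {X : ℂ} (hX : ∀ t ∈ Set.Icc a b, X ≠ u t) (j : ℕ) :
    ContinuousOn (fun t => φ t * (X - u t)⁻¹ ^ (j + 1)) (Set.Icc a b) := by
  apply hφ.mul
  apply ContinuousOn.pow
  apply ContinuousOn.inv₀ (continuousOn_const.sub hu)
  intro t ht
  exact sub_ne_zero.2 (hX t ht)

private theorem b3_deriv {a b : ℝ} (hab : a ≤ b) {φ u : ℝ → ℂ} (hφ : ContinuousOn φ (Set.Icc a b))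
    (hu : ContinuousOn u (Set.Icc a b)) {X₀ : ℂ} (hX : ∀ t ∈ Set.Icc a b, X₀ ≠ u t) (j : ℕ) :
    HasDerivAt (fun X => ∫ t in a..b, φ t * (X - u t)⁻¹ ^ (j + 1))
      (-((j : ℂ) + 1) * ∫ t in a..b, φ t * (X₀ - u t)⁻¹ ^ (j + 1 + 1)) X₀ := by
  obtain ⟨δ, hδ, hb⟩ := b3_nhds hu hX
  obtain ⟨C, hC⟩ := isCompact_Icc.exists_bound_of_continuousOn hφ
  have hI : Set.uIoc a b ⊆ Set.Icc a b := by
    rw [Set.uIoc_of_le hab]
    exact Set.Ioc_subset_Icc_self
  have hne : ∀ X ∈ Metric.ball X₀ δ, ∀ t ∈ Set.Icc a b, X - u t ≠ 0 := by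
    intro X hXb t ht h0
    have := hb X hXb t ht
    rw [h0, norm_zero] at this
    linarith
  have hne' : ∀ X ∈ Metric.ball X₀ δ, ∀ t ∈ Set.Icc a b, X ≠ u t := fun X hXb t ht =>
    sub_ne_zero.1 (hne X hXb t ht)
  have hmeas : ∀ X ∈ Metric.ball X₀ δ, ∀ k : ℕ, AEStronglyMeasurable
      (fun t => φ t * (X - u t)⁻¹ ^ (k + 1)) (volume.restrict (Set.uIoc a b)) := by
    intro X hXb k
    exact ((b3_cont hφ hu (hne' X hXb) k).aestronglyMeasurable measurableSet_Icc).mono_measure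
      (Measure.restrict_mono hI le_rfl)
  have hmem : X₀ ∈ Metric.ball X₀ δ := Metric.mem_ball_self hδ
  have key := intervalIntegral.hasDerivAt_integral_of_dominated_loc_of_deriv_le
    (μ := volume) (a := a) (b := b) (x₀ := X₀) (s := Metric.ball X₀ δ)
    (F := fun X t => φ t * (X - u t)⁻¹ ^ (j + 1))
    (F' := fun X t => -((j : ℂ) + 1) * (φ t * (X - u t)⁻¹ ^ (j + 1 + 1)))
    (bound := fun _ => ((j : ℝ) + 1) * (|C| * δ⁻¹ ^ (j + 1 + 1)))
    (Metric.ball_mem_nhds X₀ hδ)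
    (by
      filter_upwards [Metric.ball_mem_nhds X₀ hδ] with X hXb
      exact hmeas X hXb j)
    (by
      apply ContinuousOn.intervalIntegrable
      rw [Set.uIcc_of_le hab]
      exact b3_cont hφ hu hX j)
    ((hmeas X₀ hmem (j + 1)).const_mul _)
    (by
      refine Eventually.of_forall fun t ht X hXb => ?_
      have ht' := hI ht
      rw [norm_mul, norm_mul, norm_pow, norm_inv, norm_neg]
      have h1 : ‖(j : ℂ) + 1‖ ≤ (j : ℝ) + 1 := by
        calc ‖(j : ℂ) + 1‖ ≤ ‖(j : ℂ)‖ + ‖(1 : ℂ)‖ := norm_add_le _ _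
          _ = (j : ℝ) + 1 := by rw [Complex.norm_natCast, norm_one]
      have h2 : ‖φ t‖ ≤ |C| := (hC t ht').trans (le_abs_self C)
      have h3 : ‖X - u t‖⁻¹ ≤ δ⁻¹ := inv_anti₀ hδ (hb X hXb t ht')
      gcongr)
    intervalIntegrable_const
    (by
      refine Eventually.of_forall fun t ht X hXb => ?_
      have ht' := hI ht
      have h0 := hne X hXb t ht'
      have h1 : HasDerivAt (fun X : ℂ => X - u t) 1 X := (hasDerivAt_id X).sub_const _
      have h2 : HasDerivAt (fun X : ℂ => (X - u t)⁻¹) (-1 / (X - u t) ^ 2) X := h1.fun_inv h0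
      have h3 : HasDerivAt (fun X : ℂ => (X - u t)⁻¹ ^ (j + 1))
          (((j + 1 : ℕ) : ℂ) * (X - u t)⁻¹ ^ j * (-1 / (X - u t) ^ 2)) X := h2.fun_pow (j + 1)
      have h4 := h3.const_mul (φ t)
      have e : -((j : ℂ) + 1) * (φ t * (X - u t)⁻¹ ^ (j + 1 + 1)) =
          φ t * (((j + 1 : ℕ) : ℂ) * (X - u t)⁻¹ ^ j * (-1 / (X - u t) ^ 2)) := by
        rw [pow_succ, pow_succ, div_eq_mul_inv, ← inv_pow]
        push_cast
        ring
      rw [e]
      exact h4)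
  have h := key.2
  rw [intervalIntegral.integral_const_mul] at h
  exact h

theorem iter_cauchy {a b : ℝ} (hab : a ≤ b) {φ u : ℝ → ℂ} (hφ : ContinuousOn φ (Set.Icc a b))
    (hu : ContinuousOn u (Set.Icc a b)) {X₀ : ℂ} (hX : ∀ t ∈ Set.Icc a b, X₀ ≠ u t) (j : ℕ) :
    iteratedDeriv j (fun X => ∫ t in a..b, φ t * (X - u t)⁻¹) X₀ =
      (-1) ^ j * (j.factorial : ℂ) * ∫ t in a..b, φ t * (X₀ - u t)⁻¹ ^ (j + 1) := by
  induction j generalizing X₀ with
  | zero => simp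
  | succ j ih =>
    rw [iteratedDeriv_succ]
    obtain ⟨δ, hδ, hb⟩ := b3_nhds hu hX
    have hev : iteratedDeriv j (fun X => ∫ t in a..b, φ t * (X - u t)⁻¹) =ᶠ[𝓝 X₀]
        fun X => (-1) ^ j * (j.factorial : ℂ) * ∫ t in a..b, φ t * (X - u t)⁻¹ ^ (j + 1) := by
      filter_upwards [Metric.ball_mem_nhds X₀ hδ] with X hXb
      apply ih
      intro t ht h0
      have := hb X hXb t ht
      rw [h0, sub_self, norm_zero] at this
      linarith
    rw [hev.deriv_eq, ((b3_deriv hab hφ hu hX j).const_mul _).deriv, Nat.factorial_succ, pow_succ]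
    push_cast
    ring

theorem analytic_cauchy {a b : ℝ} (hab : a ≤ b) {φ u : ℝ → ℂ} (hφ : ContinuousOn φ (Set.Icc a b))
    (hu : ContinuousOn u (Set.Icc a b)) {X₀ : ℂ} (hX : ∀ t ∈ Set.Icc a b, X₀ ≠ u t) :
    AnalyticAt ℂ (fun X => ∫ t in a..b, φ t * (X - u t)⁻¹) X₀ := by
  obtain ⟨δ, hδ, hb⟩ := b3_nhds hu hX
  have hd : DifferentiableOn ℂ (fun X => ∫ t in a..b, φ t * (X - u t)⁻¹) (Metric.ball X₀ δ) := by
    intro X hXb
    have h1 : ∀ t ∈ Set.Icc a b, X ≠ u t := by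
      intro t ht h0
      have := hb X hXb t ht
      rw [h0, sub_self, norm_zero] at this
      linarith
    have h2 := b3_deriv hab hφ hu h1 0
    simp only [zero_add, pow_one] at h2
    exact h2.differentiableAt.differentiableWithinAt
  exact hd.analyticAt (Metric.ball_mem_nhds X₀ hδ)

end Pool.Agent.TWO
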