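import Pool.Agent.TWO.Defs
import Pool.Agent.TWO.B3

set_option autoImplicit false

open PowerSeries Finset MeasureTheory Filter Topology

namespace Pool.Agent.TWO

theorem iter_circle {φ : ℂ → ℂ} {x₀ : ℂ} {r R : ℝ} (hr : 0 < r) (hR : r < R)
    (hφ : DifferentiableOn ℂ φ (Metric.ball x₀ R)) (j : ℕ) :
    iteratedDeriv j φ x₀ = (j.factorial : ℂ) / (2 * Real.pi * Complex.I) *
      ∮ z in C(x₀, r), φ z * (z - x₀)⁻¹ ^ (j + 1) := by
  have h1 : DifferentiableOn ℂ φ (Metric.closedBall x₀ r) :=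
    hφ.mono (Metric.closedBall_subset_ball hR)
  have h2 := h1.circleIntegral_one_div_sub_center_pow_smul hr j
  have h3 : (∮ z in C(x₀, r), φ z * (z - x₀)⁻¹ ^ (j + 1)) =
      ∮ z in C(x₀, r), (1 / (z - x₀) ^ (j + 1)) • φ z := by
    congr 1
    funext z
    rw [smul_eq_mul, one_div, inv_pow, mul_comm]
  rw [h3, h2, smul_eq_mul]
  have hj : (j.factorial : ℂ) ≠ 0 := by exact_mod_cast j.factorial_ne_zero
  have hpi : (2 * (Real.pi : ℂ) * Complex.I) ≠ 0 := by
    simp [Real.pi_ne_zero]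
  field_simp

theorem iter_comm {g u : ℂ → ℂ} {x₀ Z₀ : ℂ} (hg : AnalyticAt ℂ g x₀) (hu : AnalyticAt ℂ u x₀)
    (hZ : Z₀ ≠ u x₀) (j k : ℕ) :
    iteratedDeriv k (fun Z => iteratedDeriv j (fun X => g X * (Z - u X)⁻¹) x₀) Z₀ =
      (-1) ^ k * (k.factorial : ℂ) *
        iteratedDeriv j (fun X => g X * (Z₀ - u X)⁻¹ ^ (k + 1)) x₀ := by
  obtain ⟨δ, hδ0, hδ⟩ : ∃ δ : ℝ, 0 < δ ∧ δ < dist (u x₀) Z₀ :=
    exists_between (dist_pos.2 (Ne.symm hZ))
  have e1 : ∀ᶠ z in 𝓝 x₀, δ < dist (u z) Z₀ := by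
    have hc : ContinuousAt (fun z => dist (u z) Z₀) x₀ :=
      hu.continuousAt.dist continuousAt_const
    exact hc.eventually (lt_mem_nhds hδ)
  obtain ⟨R, hR, hball⟩ := Metric.eventually_nhds_iff_ball.1
    (e1.and (hg.eventually_analyticAt.and hu.eventually_analyticAt))
  have hr : 0 < R / 2 := by linarith
  have hrR : R / 2 < R := by linarith
  have hne : ∀ Z ∈ Metric.ball Z₀ δ, ∀ z ∈ Metric.ball x₀ R, Z ≠ u z := by
    intro Z hZm z hz h
    have h1 := (hball z hz).1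
    rw [← h] at h1
    exact absurd (Metric.mem_ball.1 hZm) (not_lt.2 h1.le)
  have hdiff : ∀ Z ∈ Metric.ball Z₀ δ, ∀ n : ℕ,
      DifferentiableOn ℂ (fun X => g X * (Z - u X)⁻¹ ^ n) (Metric.ball x₀ R) := by
    intro Z hZm n z hz
    have h1 := (hball z hz).2.1.differentiableAt
    have h2 := (hball z hz).2.2.differentiableAt
    have h3 : Z - u z ≠ 0 := sub_ne_zero.2 (hne Z hZm z hz)
    exact (h1.mul (((differentiableAt_const Z).sub h2).inv h3 |>.pow n)).differentiableWithinAt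
  have hmem : ∀ t : ℝ, circleMap x₀ (R / 2) t ∈ Metric.ball x₀ R := by
    intro t
    have h1 : circleMap x₀ (R / 2) t ∈ Metric.closedBall x₀ (R / 2) :=
      circleMap_mem_closedBall x₀ hr.le t
    exact Metric.closedBall_subset_ball hrR h1
  set φ : ℝ → ℂ := fun t => (j.factorial : ℂ) / (2 * Real.pi * Complex.I) *
    (deriv (circleMap x₀ (R / 2)) t * (g (circleMap x₀ (R / 2) t) *
      (circleMap x₀ (R / 2) t - x₀)⁻¹ ^ (j + 1))) with hφ
  set w : ℝ → ℂ := fun t => u (circleMap x₀ (R / 2) t) with hw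
  have hpi : (0 : ℝ) ≤ 2 * Real.pi := Real.two_pi_pos.le
  have hwc : Continuous w := by
    refine continuous_iff_continuousAt.2 fun t => ?_
    exact ContinuousAt.comp (g := u) (hball _ (hmem t)).2.2.continuousAt
      (continuous_circleMap x₀ (R / 2)).continuousAt
  have hφc : Continuous φ := by
    refine continuous_const.mul (Continuous.mul ?_ (Continuous.mul ?_ ?_))
    · have : deriv (circleMap x₀ (R / 2)) = fun t => circleMap 0 (R / 2) t * Complex.I := by
        funext t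
        exact deriv_circleMap x₀ (R / 2) t
      rw [this]
      exact (continuous_circleMap 0 (R / 2)).mul continuous_const
    · refine continuous_iff_continuousAt.2 fun t => ?_
      exact ContinuousAt.comp (g := g) (hball _ (hmem t)).2.1.continuousAt
        (continuous_circleMap x₀ (R / 2)).continuousAt
    · refine Continuous.pow (Continuous.inv₀
        ((continuous_circleMap x₀ (R / 2)).sub continuous_const) fun t => ?_) _
      exact sub_ne_zero.2 (circleMap_ne_center hr.ne')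
  have hcirc : ∀ Z ∈ Metric.ball Z₀ δ, ∀ n : ℕ,
      iteratedDeriv j (fun X => g X * (Z - u X)⁻¹ ^ n) x₀ =
        ∫ t in (0 : ℝ)..2 * Real.pi, φ t * (Z - w t)⁻¹ ^ n := by
    intro Z hZm n
    rw [iter_circle hr hrR (hdiff Z hZm n) j, circleIntegral, ← intervalIntegral.integral_const_mul]
    refine intervalIntegral.integral_congr fun t _ => ?_
    simp only [hφ, hw, smul_eq_mul]
    ring
  have hZ0 : Z₀ ∈ Metric.ball Z₀ δ := Metric.mem_ball_self hδ0
  have hev : (fun Z => iteratedDeriv j (fun X => g X * (Z - u X)⁻¹) x₀) =ᶠ[𝓝 Z₀]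
      fun Z => ∫ t in (0 : ℝ)..2 * Real.pi, φ t * (Z - w t)⁻¹ := by
    filter_upwards [Metric.ball_mem_nhds Z₀ hδ0] with Z hZm
    have h1 := hcirc Z hZm 1
    simpa only [pow_one] using h1
  rw [hev.iteratedDeriv_eq k, iter_cauchy hpi hφc.continuousOn hwc.continuousOn
    (fun t _ => hne Z₀ hZ0 _ (hmem t)) k, hcirc Z₀ hZ0 (k + 1)]

end Pool.Agent.TWO
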