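import Pool.Agent.TWO.Defs

set_option autoImplicit false

open PowerSeries Finset MeasureTheory Filter Topology

namespace Pool.Agent.TWO

private theorem b5_hasDeriv {a b : ℝ} (hab : a ≤ b) {F : ℂ → ℝ → ℂ} {y₀ : ℂ} {ε : ℝ} (hε : 0 < ε)
    (hF : ContinuousOn (fun p : ℂ × ℝ => F p.1 p.2) (Metric.ball y₀ ε ×ˢ Set.Icc a b))
    (hd : ∀ t ∈ Set.Icc a b, DifferentiableOn ℂ (fun y => F y t) (Metric.ball y₀ ε))
    {y : ℂ} (hy : y ∈ Metric.ball y₀ (ε / 8)) :
    HasDerivAt (fun y => ∫ t in a..b, F y t) (∫ t in a..b, deriv (fun y => F y t) y) y := by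
  have hcomp : IsCompact (Metric.closedBall y₀ (ε / 2) ×ˢ Set.Icc a b) :=
    (isCompact_closedBall y₀ (ε / 2)).prod isCompact_Icc
  have hsub : Metric.closedBall y₀ (ε / 2) ⊆ Metric.ball y₀ ε :=
    Metric.closedBall_subset_ball (by linarith)
  have hF' : ContinuousOn (fun p : ℂ × ℝ => F p.1 p.2)
      (Metric.closedBall y₀ (ε / 2) ×ˢ Set.Icc a b) :=
    hF.mono (Set.prod_mono hsub subset_rfl)
  obtain ⟨C, hC⟩ := hcomp.exists_bound_of_continuousOn hF'
  have hslice : ∀ z ∈ Metric.ball y₀ ε, ContinuousOn (fun t => F z t) (Set.Icc a b) := by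
    intro z hz
    have h1 : ContinuousOn (fun t : ℝ => ((z, t) : ℂ × ℝ)) (Set.Icc a b) :=
      (Continuous.prodMk_right z).continuousOn
    exact hF.comp h1 fun t ht => ⟨hz, ht⟩
  have huIoc : Set.uIoc a b ⊆ Set.Icc a b := by
    rw [Set.uIoc_of_le hab]
    exact Set.Ioc_subset_Icc_self
  have hmeas : ∀ z ∈ Metric.ball y₀ ε,
      AEStronglyMeasurable (fun t => F z t) (volume.restrict (Set.uIoc a b)) := by
    intro z hz
    exact ((hslice z hz).mono huIoc).aestronglyMeasurable measurableSet_uIoc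
  have hyε : y ∈ Metric.ball y₀ ε := Metric.ball_subset_ball (by linarith) hy
  have hdat : ∀ t ∈ Set.Icc a b, ∀ z ∈ Metric.ball y₀ ε,
      HasDerivAt (fun y => F y t) (deriv (fun y => F y t) z) z := by
    intro t ht z hz
    exact ((hd t ht).differentiableAt (Metric.isOpen_ball.mem_nhds hz)).hasDerivAt
  have hs : Metric.ball y (ε / 8) ∈ 𝓝 y := Metric.ball_mem_nhds y (by linarith)
  have hsy : Metric.ball y (ε / 8) ⊆ Metric.ball y₀ (ε / 4) := by
    intro z hz
    have h1 := Metric.mem_ball.1 hz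
    have h2 := Metric.mem_ball.1 hy
    rw [Metric.mem_ball]
    linarith [dist_triangle z y y₀]
  have hsy' : Metric.ball y (ε / 8) ⊆ Metric.ball y₀ ε :=
    hsy.trans (Metric.ball_subset_ball (by linarith))
  have hbound : ∀ t ∈ Set.Icc a b, ∀ z ∈ Metric.ball y (ε / 8),
      ‖deriv (fun y => F y t) z‖ ≤ C / (ε / 4) := by
    intro t ht z hz
    have hz4 := hsy hz
    have hcb : Metric.closedBall z (ε / 4) ⊆ Metric.closedBall y₀ (ε / 2) := by
      intro w hw
      have h1 := Metric.mem_closedBall.1 hw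
      have h2 := Metric.mem_ball.1 hz4
      rw [Metric.mem_closedBall]
      linarith [dist_triangle w z y₀]
    refine Complex.norm_deriv_le_of_forall_mem_sphere_norm_le (by linarith) ?_ ?_
    · refine DifferentiableOn.diffContOnCl ?_
      rw [closure_ball z (by linarith : ε / 4 ≠ 0)]
      exact (hd t ht).mono (hcb.trans hsub)
    · intro w hw
      exact hC (w, t) ⟨hcb (Metric.sphere_subset_closedBall hw), ht⟩
  have hmeas' : AEStronglyMeasurable (fun t => deriv (fun y => F y t) y)
      (volume.restrict (Set.uIoc a b)) := by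
    set h : ℕ → ℂ := fun n => ((ε / 2 / (n + 2) : ℝ) : ℂ) with hh
    have hn0 : ∀ n, h n ≠ 0 := by
      intro n
      have h1 : (0 : ℝ) < ε / 2 / (n + 2) := by positivity
      exact Complex.ofReal_ne_zero.2 h1.ne'
    have hnb : ∀ n, ‖h n‖ ≤ ε / 4 := by
      intro n
      rw [hh]
      have h1 : (0 : ℝ) < ε / 2 / (n + 2) := by positivity
      rw [Complex.norm_real, Real.norm_of_nonneg h1.le, div_le_iff₀ (by positivity)]
      have : (0 : ℝ) ≤ n := Nat.cast_nonneg n
      nlinarith
    have hlim : Tendsto h atTop (𝓝[≠] 0) := by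
      rw [tendsto_nhdsWithin_iff]
      refine ⟨?_, Eventually.of_forall fun n => hn0 n⟩
      have h1 : Tendsto (fun n : ℕ => (ε / 2 / (n + 2) : ℝ)) atTop (𝓝 0) := by
        refine Tendsto.div_atTop tendsto_const_nhds ?_
        exact tendsto_atTop_add_const_right _ _ tendsto_natCast_atTop_atTop
      have h2 := (Complex.continuous_ofReal.tendsto (0 : ℝ)).comp h1
      exact h2
    refine aestronglyMeasurable_of_tendsto_ae (u := (atTop : Filter ℕ))
      (f := fun n t => (h n)⁻¹ • (F (y + h n) t - F y t)) ?_ ?_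
    · intro n
      have hyn : y + h n ∈ Metric.ball y₀ ε := by
        rw [Metric.mem_ball]
        have h2 := Metric.mem_ball.1 hy
        have h3 : dist (y + h n) y = ‖h n‖ := by simp [dist_eq_norm]
        have h4 := hnb n
        linarith [dist_triangle (y + h n) y y₀]
      have h5 := (hmeas _ hyn).sub (hmeas _ hyε)
      exact h5.const_smul ((h n)⁻¹)
    · refine (ae_restrict_iff' measurableSet_uIoc).2 (Eventually.of_forall fun t ht => ?_)
      have h1 := (hdat t (huIoc ht) y hyε).tendsto_slope_zero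
      exact h1.comp hlim
  exact (intervalIntegral.hasDerivAt_integral_of_dominated_loc_of_deriv_le
    (F' := fun z t => deriv (fun y => F y t) z) (bound := fun _ => C / (ε / 4)) hs
    (by
      filter_upwards [hs] with z hz
      exact hmeas z (hsy' hz))
    (((hslice y hyε).intervalIntegrable_of_Icc hab))
    hmeas'
    (Eventually.of_forall fun t ht z hz => hbound t (huIoc ht) z hz)
    intervalIntegrable_const
    (Eventually.of_forall fun t ht z hz => hdat t (huIoc ht) z (hsy' hz))).2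

theorem analytic_int {a b : ℝ} (hab : a ≤ b) {F : ℂ → ℝ → ℂ} {y₀ : ℂ} {ε : ℝ} (hε : 0 < ε)
    (hF : ContinuousOn (fun p : ℂ × ℝ => F p.1 p.2) (Metric.ball y₀ ε ×ˢ Set.Icc a b))
    (hd : ∀ t ∈ Set.Icc a b, DifferentiableOn ℂ (fun y => F y t) (Metric.ball y₀ ε)) :
    AnalyticAt ℂ (fun y => ∫ t in a..b, F y t) y₀ := by
  have h1 : DifferentiableOn ℂ (fun y => ∫ t in a..b, F y t) (Metric.ball y₀ (ε / 8)) :=
    fun y hy => (b5_hasDeriv hab hε hF hd hy).differentiableAt.differentiableWithinAt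
  exact h1.analyticAt (Metric.ball_mem_nhds y₀ (by linarith))

end Pool.Agent.TWO
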