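import Pool.Agent.TWO.Defs
import Pool.Agent.TWO.B2
import Pool.Agent.TWO.B3
import Pool.Agent.TWO.B4
import Pool.Agent.TWO.B5

set_option autoImplicit false

open PowerSeries Finset MeasureTheory Filter Topology

namespace Pool.Agent.TWO

/-- the circle of radius `r` -/
private noncomputable def b6z (r t : ℝ) : ℂ := circleMap 0 r t

/-- the density of the Cauchy integral -/
private noncomputable def b6c (f : ℂ → ℂ) (r t : ℝ) : ℂ :=
  (2 * Real.pi * Complex.I)⁻¹ * (b6z r t * Complex.I * f (b6z r t))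

private theorem b6z_norm {r : ℝ} (hr : 0 < r) (t : ℝ) : ‖b6z r t‖ = r := by
  unfold b6z
  rw [norm_circleMap_zero, abs_of_pos hr]

private theorem b6z_ne {r : ℝ} (hr : 0 < r) (t : ℝ) : b6z r t ≠ 0 := by
  intro h
  have := b6z_norm hr t
  rw [h, norm_zero] at this
  linarith

private theorem b6z_cont (r : ℝ) : Continuous (b6z r) := continuous_circleMap 0 r

private theorem b6c_cont {f : ℂ → ℂ} {r R : ℝ} (hr : 0 < r) (hR : r < R)
    (hf : DifferentiableOn ℂ f (Metric.ball 0 R)) : Continuous (b6c f r) := by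
  unfold b6c
  refine continuous_const.mul (((b6z_cont r).mul continuous_const).mul ?_)
  refine hf.continuousOn.comp_continuous (b6z_cont r) fun t => ?_
  rw [Metric.mem_ball, dist_zero_right, b6z_norm hr]
  exact hR

private theorem b6_cauchy {f : ℂ → ℂ} {r R : ℝ} (hR : r < R)
    (hf : DifferentiableOn ℂ f (Metric.ball 0 R)) {w : ℂ} (hw : ‖w‖ < r) :
    ∫ t in (0 : ℝ)..2 * Real.pi, b6c f r t * (b6z r t - w)⁻¹ = f w := by
  have h1 : DiffContOnCl ℂ f (Metric.ball 0 r) := by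
    have hr : r ≠ 0 := by
      have := norm_nonneg w
      intro h
      linarith
    refine DifferentiableOn.diffContOnCl ?_
    rw [closure_ball 0 hr]
    exact hf.mono (Metric.closedBall_subset_ball hR)
  have h2 := h1.two_pi_i_inv_smul_circleIntegral_sub_inv_smul (w := w)
    (by rw [Metric.mem_ball, dist_zero_right]; exact hw)
  rw [← h2]
  unfold circleIntegral
  rw [smul_eq_mul, ← intervalIntegral.integral_const_mul]
  refine intervalIntegral.integral_congr fun t _ => ?_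
  simp only [b6c, b6z, deriv_circleMap, smul_eq_mul]
  ring

private theorem b6_slit {s Z : ℂ} (h : ‖s‖ < ‖Z‖ ^ 2) : 1 - s / Z ^ 2 ∈ Complex.slitPlane := by
  left
  have hZ : 0 < ‖Z‖ ^ 2 := (norm_nonneg s).trans_lt h
  have h1 : ‖s / Z ^ 2‖ < 1 := by
    rw [norm_div, norm_pow, div_lt_one hZ]
    exact h
  have h2 : (s / Z ^ 2).re ≤ ‖s / Z ^ 2‖ := Complex.re_le_norm _
  rw [Complex.sub_re, Complex.one_re]
  linarith

private theorem b6_eta_sq {s Z : ℂ} (hZ : Z ≠ 0) : eta s Z ^ 2 = Z ^ 2 - s := by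
  unfold eta
  have h : ((1 - s / Z ^ 2) ^ (1 / 2 : ℂ)) ^ 2 = 1 - s / Z ^ 2 := by
    have := Complex.cpow_nat_inv_pow (1 - s / Z ^ 2) (n := 2) (by norm_num)
    rw [show ((1 : ℂ) / 2) = ((2 : ℕ) : ℂ)⁻¹ by norm_num]
    exact this
  rw [mul_pow, h]
  field_simp

private theorem b6_eta_ne {s Z : ℂ} (h : ‖s‖ < ‖Z‖ ^ 2) : eta s Z ≠ 0 := by
  have hZ : Z ≠ 0 := by
    rintro rfl
    rw [norm_zero] at h
    have := norm_nonneg s
    linarith
  intro h0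
  have h1 := b6_eta_sq (s := s) hZ
  rw [h0] at h1
  have h2 : s = Z ^ 2 := by
    have : (0 : ℂ) ^ 2 = 0 := by norm_num
    rw [this] at h1
    exact (sub_eq_zero.1 h1.symm).symm
  rw [h2, norm_pow] at h
  exact lt_irrefl _ h

private theorem b6_D {ρ σ : ℝ} (hρσ : ρ ^ 2 + σ ^ 2 = 1) {s Z : ℂ} (hZ : Z ≠ 0) (X : ℂ) :
    (X - (ρ * Z + Complex.I * σ * eta s Z)) * (X - (ρ * Z - Complex.I * σ * eta s Z)) =
      X ^ 2 - 2 * ρ * X * Z + Z ^ 2 - (σ : ℂ) ^ 2 * s := by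
  have h1 := b6_eta_sq (s := s) hZ
  have h2 : (ρ : ℂ) ^ 2 + (σ : ℂ) ^ 2 = 1 := by exact_mod_cast hρσ
  have h3 : Complex.I ^ 2 = -1 := Complex.I_sq
  have e : (X - (ρ * Z + Complex.I * σ * eta s Z)) * (X - (ρ * Z - Complex.I * σ * eta s Z)) =
      X ^ 2 - 2 * ρ * X * Z + (ρ : ℂ) ^ 2 * Z ^ 2 - Complex.I ^ 2 * (σ : ℂ) ^ 2 * eta s Z ^ 2 := by
    ring
  rw [e, h1, h3]
  linear_combination Z ^ 2 * h2

private theorem b6_norm {ρ σ r : ℝ} (hρ : 0 ≤ ρ) (hσ : 0 ≤ σ) {s X : ℂ} (hX : X ≠ 0)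
    (h1 : ρ * ‖X‖ < r) (h2 : σ ^ 2 * ‖X ^ 2 - s‖ < (r - ρ * ‖X‖) ^ 2) :
    ‖ρ * X + Complex.I * σ * eta s X‖ < r ∧ ‖ρ * X - Complex.I * σ * eta s X‖ < r := by
  have e1 : ‖eta s X‖ ^ 2 = ‖X ^ 2 - s‖ := by rw [← norm_pow, b6_eta_sq hX]
  have e2 : σ * ‖eta s X‖ < r - ρ * ‖X‖ := by
    have : (σ * ‖eta s X‖) ^ 2 < (r - ρ * ‖X‖) ^ 2 := by rw [mul_pow, e1]; exact h2
    exact lt_of_pow_lt_pow_left₀ 2 (by linarith) this
  have e3 : ‖(ρ : ℂ) * X‖ = ρ * ‖X‖ := by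
    rw [norm_mul, Complex.norm_real, Real.norm_of_nonneg hρ]
  have e4 : ‖Complex.I * σ * eta s X‖ = σ * ‖eta s X‖ := by
    rw [norm_mul, norm_mul, Complex.norm_I, one_mul, Complex.norm_real, Real.norm_of_nonneg hσ]
  constructor
  · refine (norm_add_le _ _).trans_lt ?_
    rw [e3, e4]
    linarith
  · refine (norm_sub_le _ _).trans_lt ?_
    rw [e3, e4]
    linarith

/-- the point of the ellipse -/
private noncomputable def b6w (ρ σ y θ : ℝ) : ℂ :=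
  (y : ℂ) * (ρ * (Real.cos θ : ℂ) + σ * (Real.sin θ : ℂ))

private theorem b6w_cont (ρ σ y : ℝ) : Continuous (b6w ρ σ y) := by
  unfold b6w
  fun_prop

private theorem b6w_norm {ρ σ : ℝ} (hρσ : ρ ^ 2 + σ ^ 2 = 1) (y θ : ℝ) : ‖b6w ρ σ y θ‖ ≤ |y| := by
  unfold b6w
  have h : (ρ * (Real.cos θ : ℂ) + σ * (Real.sin θ : ℂ)) =
      ((ρ * Real.cos θ + σ * Real.sin θ : ℝ) : ℂ) := by push_cast; rfl
  rw [h, norm_mul, Complex.norm_real, Complex.norm_real, Real.norm_eq_abs, Real.norm_eq_abs]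
  have h1 : (ρ * Real.cos θ + σ * Real.sin θ) ^ 2 ≤ 1 := by
    have h2 := Real.sin_sq_add_cos_sq θ
    nlinarith [sq_nonneg (ρ * Real.sin θ - σ * Real.cos θ)]
  have h3 : |ρ * Real.cos θ + σ * Real.sin θ| ≤ 1 := (sq_le_one_iff_abs_le_one _).1 h1
  have h4 := abs_nonneg y
  nlinarith

private theorem b6_cos (y θ : ℝ) {X : ℂ} (hX : |y| < ‖X‖) :
    X - (y : ℂ) * (Real.cos θ : ℂ) ≠ 0 := by
  intro h
  have h1 : X = (y : ℂ) * (Real.cos θ : ℂ) := sub_eq_zero.1 h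
  rw [h1, norm_mul, Complex.norm_real, Complex.norm_real, Real.norm_eq_abs, Real.norm_eq_abs] at hX
  have h2 := Real.abs_cos_le_one θ
  have h3 := abs_nonneg y
  nlinarith

private theorem b6_sub {r : ℝ} (hr : 0 < r) {w : ℂ} (hw : ‖w‖ < r) (t : ℝ) :
    b6z r t - w ≠ 0 := by
  intro h
  have h1 : b6z r t = w := sub_eq_zero.1 h
  have h2 := b6z_norm hr t
  rw [h1] at h2
  linarith

/-- the main formula -/
private theorem b6_main {ρ σ r R y : ℝ} (hρ : 0 < ρ) (hσ : 0 < σ) (hρσ : ρ ^ 2 + σ ^ 2 = 1)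
    (hr : 0 < r) (hR : r < R) {f : ℂ → ℂ} (hf : DifferentiableOn ℂ f (Metric.ball 0 R))
    {X : ℂ} (hy : |y| < r) (hX : |y| < ‖X‖) (h1 : ρ * ‖X‖ < r)
    (h2 : σ ^ 2 * ‖X ^ 2 - (y : ℂ) ^ 2‖ < (r - ρ * ‖X‖) ^ 2) :
    ∫ θ in (0 : ℝ)..2 * Real.pi, (X - (y : ℂ) * (Real.cos θ : ℂ))⁻¹ * f (b6w ρ σ y θ) =
      Real.pi * (NN f ρ σ ((y : ℂ) ^ 2) X +
        ∫ t in (0 : ℝ)..2 * Real.pi, b6c f r t *
          NN (fun w => (X - w)⁻¹) ρ σ ((y : ℂ) ^ 2) (b6z r t)) := by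
  have hX0 : X ≠ 0 := by
    intro h
    rw [h, norm_zero] at hX
    have := abs_nonneg y
    linarith
  obtain ⟨hu1, hu2⟩ := b6_norm (s := (y : ℂ) ^ 2) hρ.le hσ.le hX0 h1 h2
  have hcc := b6c_cont hr hR hf
  -- step 1: Cauchy formula
  have s1 : ∀ θ : ℝ, (X - (y : ℂ) * (Real.cos θ : ℂ))⁻¹ * f (b6w ρ σ y θ) =
      ∫ t in (0 : ℝ)..2 * Real.pi, (X - (y : ℂ) * (Real.cos θ : ℂ))⁻¹ *
        (b6c f r t * (b6z r t - b6w ρ σ y θ)⁻¹) := by
    intro θ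
    rw [intervalIntegral.integral_const_mul,
      b6_cauchy hR hf ((b6w_norm hρσ y θ).trans_lt hy)]
  rw [intervalIntegral.integral_congr fun θ _ => s1 θ]
  rw [intervalIntegral_intervalIntegral_swap]
  · -- inner integral
    have s2 : ∀ t : ℝ, ∫ θ in (0 : ℝ)..2 * Real.pi, (X - (y : ℂ) * (Real.cos θ : ℂ))⁻¹ *
        (b6c f r t * (b6z r t - b6w ρ σ y θ)⁻¹) =
        Real.pi * (b6c f r t * NN (fun w => (b6z r t - w)⁻¹) ρ σ ((y : ℂ) ^ 2) X +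
        b6c f r t * NN (fun w => (X - w)⁻¹) ρ σ ((y : ℂ) ^ 2) (b6z r t)) := by
      intro t
      have hD : X ^ 2 - 2 * ρ * X * (b6z r t) + (b6z r t) ^ 2 - (σ : ℂ) ^ 2 * (y : ℂ) ^ 2 ≠ 0 := by
        have e := b6_D (s := (y : ℂ) ^ 2) hρσ hX0 (b6z r t)
        have e' : X ^ 2 - 2 * ρ * X * (b6z r t) + (b6z r t) ^ 2 - (σ : ℂ) ^ 2 * (y : ℂ) ^ 2 =
            (b6z r t) ^ 2 - 2 * ρ * (b6z r t) * X + X ^ 2 - (σ : ℂ) ^ 2 * (y : ℂ) ^ 2 := by ring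
        rw [e', ← e]
        exact mul_ne_zero (b6_sub hr hu1 t) (b6_sub hr hu2 t)
      have e := int_two (y := y) hρσ hX (by rw [b6z_norm hr]; exact hy) hD
      have e2 : ∫ θ in (0 : ℝ)..2 * Real.pi, (X - (y : ℂ) * (Real.cos θ : ℂ))⁻¹ *
          (b6c f r t * (b6z r t - b6w ρ σ y θ)⁻¹) = b6c f r t *
          ∫ θ in (0 : ℝ)..2 * Real.pi, (X - (y : ℂ) * (Real.cos θ : ℂ))⁻¹ *
          (b6z r t - (y : ℂ) * (ρ * (Real.cos θ : ℂ) + σ * (Real.sin θ : ℂ)))⁻¹ := by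
        rw [← intervalIntegral.integral_const_mul]
        refine intervalIntegral.integral_congr fun θ _ => ?_
        simp only [b6w]
        ring
      rw [e2, e]
      ring
    rw [intervalIntegral.integral_congr fun t _ => s2 t, intervalIntegral.integral_const_mul]
    congr 1
    have c1 : Continuous fun t => b6c f r t *
        NN (fun w => (b6z r t - w)⁻¹) ρ σ ((y : ℂ) ^ 2) X := by
      unfold NN
      refine hcc.mul (Continuous.div_const (Continuous.add ?_ ?_) _)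
      · exact ((b6z_cont r).sub continuous_const).inv₀ fun t => b6_sub hr hu1 t
      · exact ((b6z_cont r).sub continuous_const).inv₀ fun t => b6_sub hr hu2 t
    have hys : ∀ t, ‖(y : ℂ) ^ 2‖ < ‖b6z r t‖ ^ 2 := by
      intro t
      rw [b6z_norm hr, norm_pow, Complex.norm_real, Real.norm_eq_abs]
      exact pow_lt_pow_left₀ hy (abs_nonneg y) (by norm_num)
    have ce : Continuous fun t => eta ((y : ℂ) ^ 2) (b6z r t) := by
      unfold eta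
      refine (b6z_cont r).mul ?_
      refine continuous_iff_continuousAt.2 fun t => ?_
      refine ContinuousAt.cpow ?_ continuousAt_const (b6_slit (hys t))
      exact continuousAt_const.sub (continuousAt_const.div ((b6z_cont r).continuousAt.pow 2)
        (pow_ne_zero 2 (b6z_ne hr t)))
    have hne : ∀ t, (X - (ρ * b6z r t + Complex.I * σ * eta ((y : ℂ) ^ 2) (b6z r t))) *
        (X - (ρ * b6z r t - Complex.I * σ * eta ((y : ℂ) ^ 2) (b6z r t))) ≠ 0 := by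
      intro t
      rw [b6_D hρσ (b6z_ne hr t)]
      have e := b6_D (s := (y : ℂ) ^ 2) hρσ hX0 (b6z r t)
      have e' : X ^ 2 - 2 * ρ * X * (b6z r t) + (b6z r t) ^ 2 - (σ : ℂ) ^ 2 * (y : ℂ) ^ 2 =
          (b6z r t) ^ 2 - 2 * ρ * (b6z r t) * X + X ^ 2 - (σ : ℂ) ^ 2 * (y : ℂ) ^ 2 := by ring
      rw [e', ← e]
      exact mul_ne_zero (b6_sub hr hu1 t) (b6_sub hr hu2 t)
    have c2 : Continuous fun t => b6c f r t *
        NN (fun w => (X - w)⁻¹) ρ σ ((y : ℂ) ^ 2) (b6z r t) := by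
      unfold NN
      refine hcc.mul (Continuous.div (Continuous.add ?_ ?_) ce fun t => b6_eta_ne (hys t))
      · exact (continuous_const.sub ((continuous_const.mul (b6z_cont r)).add
          (continuous_const.mul ce))).inv₀ fun t => left_ne_zero_of_mul (hne t)
      · exact (continuous_const.sub ((continuous_const.mul (b6z_cont r)).sub
          (continuous_const.mul ce))).inv₀ fun t => right_ne_zero_of_mul (hne t)
    rw [intervalIntegral.integral_add (c1.intervalIntegrable _ _) (c2.intervalIntegrable _ _)]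
    congr 1
    -- the Cauchy formula at the two points
    have c3 : Continuous fun t => b6c f r t * (b6z r t -
        (ρ * X + Complex.I * σ * eta ((y : ℂ) ^ 2) X))⁻¹ :=
      hcc.mul (((b6z_cont r).sub continuous_const).inv₀ fun t => b6_sub hr hu1 t)
    have c4 : Continuous fun t => b6c f r t * (b6z r t -
        (ρ * X - Complex.I * σ * eta ((y : ℂ) ^ 2) X))⁻¹ :=
      hcc.mul (((b6z_cont r).sub continuous_const).inv₀ fun t => b6_sub hr hu2 t)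
    have e3 : ∀ t, b6c f r t * NN (fun w => (b6z r t - w)⁻¹) ρ σ ((y : ℂ) ^ 2) X =
        (b6c f r t * (b6z r t - (ρ * X + Complex.I * σ * eta ((y : ℂ) ^ 2) X))⁻¹ +
        b6c f r t * (b6z r t - (ρ * X - Complex.I * σ * eta ((y : ℂ) ^ 2) X))⁻¹) /
        eta ((y : ℂ) ^ 2) X := by
      intro t
      unfold NN
      ring
    rw [intervalIntegral.integral_congr fun t _ => e3 t, intervalIntegral.integral_div,
      intervalIntegral.integral_add (c3.intervalIntegrable _ _) (c4.intervalIntegrable _ _),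
      b6_cauchy hR hf hu1, b6_cauchy hR hf hu2]
    rfl
  · -- integrability
    refine ContinuousOn.integrableOn_compact (K := Set.uIcc (0 : ℝ) (2 * Real.pi) ×ˢ
      Set.uIcc (0 : ℝ) (2 * Real.pi)) (isCompact_uIcc.prod isCompact_uIcc) ?_ |>.mono_set
      (Set.prod_mono Set.uIoc_subset_uIcc Set.uIoc_subset_uIcc)
    refine Continuous.continuousOn ?_
    unfold Function.uncurry
    refine Continuous.mul ?_ (Continuous.mul ?_ ?_)
    · refine (continuous_const.sub (continuous_const.mul ?_)).inv₀ fun p => b6_cos y _ hX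
      exact Complex.continuous_ofReal.comp (Real.continuous_cos.comp continuous_fst)
    · exact hcc.comp continuous_snd
    · refine (((b6z_cont r).comp continuous_snd).sub ((b6w_cont ρ σ y).comp
        continuous_fst)).inv₀ fun p => ?_
      exact b6_sub hr ((b6w_norm hρσ y _).trans_lt hy) _

/-- the two points of the circle -/
private noncomputable def b6u (ρ σ : ℝ) (s : ℂ) (r t : ℝ) : ℂ :=
  ρ * b6z r t + Complex.I * σ * eta s (b6z r t)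

private noncomputable def b6v (ρ σ : ℝ) (s : ℂ) (r t : ℝ) : ℂ :=
  ρ * b6z r t - Complex.I * σ * eta s (b6z r t)

/-- the integrand of the analytic part -/
private noncomputable def b6F (f : ℂ → ℂ) (ρ σ x₀ r : ℝ) (j : ℕ) (y : ℂ) (t : ℝ) : ℂ :=
  b6c f r t / eta (y ^ 2) (b6z r t) * (((x₀ : ℂ) - b6u ρ σ (y ^ 2) r t)⁻¹ ^ (j + 1) +
    ((x₀ : ℂ) - b6v ρ σ (y ^ 2) r t)⁻¹ ^ (j + 1))

/-- the conditions on `y` -/
private def b6G (ρ σ x₀ r : ℝ) (y : ℂ) : Prop :=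
  ‖y‖ < r ∧ σ ^ 2 * ‖(x₀ : ℂ) ^ 2 - y ^ 2‖ < (r - ρ * x₀) ^ 2

private theorem b6_ne {ρ σ x₀ r : ℝ} (hρ : 0 < ρ) (hσ : 0 < σ) (hρσ : ρ ^ 2 + σ ^ 2 = 1)
    (hx : 0 < x₀) (hr : x₀ < r) {y : ℂ} (h : b6G ρ σ x₀ r y) (t : ℝ) :
    ‖y ^ 2‖ < ‖b6z r t‖ ^ 2 ∧ (x₀ : ℂ) - b6u ρ σ (y ^ 2) r t ≠ 0 ∧
      (x₀ : ℂ) - b6v ρ σ (y ^ 2) r t ≠ 0 := by
  obtain ⟨h1, h2⟩ := h
  have hr0 : 0 < r := hx.trans hr
  have hρ1 : ρ < 1 := by nlinarith
  have hx0 : (x₀ : ℂ) ≠ 0 := by exact_mod_cast hx.ne'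
  have hn : ‖(x₀ : ℂ)‖ = x₀ := by rw [Complex.norm_real, Real.norm_of_nonneg hx.le]
  have h3 : ρ * ‖(x₀ : ℂ)‖ < r := by rw [hn]; nlinarith
  obtain ⟨hu1, hu2⟩ := b6_norm (s := y ^ 2) hρ.le hσ.le hx0 h3 (by rw [hn]; exact h2)
  refine ⟨?_, ?_⟩
  · rw [b6z_norm hr0, norm_pow]
    exact pow_lt_pow_left₀ h1 (norm_nonneg y) (by norm_num)
  · have hne : ((x₀ : ℂ) - (ρ * b6z r t + Complex.I * σ * eta (y ^ 2) (b6z r t))) *
        ((x₀ : ℂ) - (ρ * b6z r t - Complex.I * σ * eta (y ^ 2) (b6z r t))) ≠ 0 := by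
      rw [b6_D hρσ (b6z_ne hr0 t)]
      have e := b6_D (s := y ^ 2) hρσ hx0 (b6z r t)
      have e' : (x₀ : ℂ) ^ 2 - 2 * ρ * x₀ * (b6z r t) + (b6z r t) ^ 2 - (σ : ℂ) ^ 2 * y ^ 2 =
          (b6z r t) ^ 2 - 2 * ρ * (b6z r t) * x₀ + (x₀ : ℂ) ^ 2 - (σ : ℂ) ^ 2 * y ^ 2 := by ring
      rw [e', ← e]
      exact mul_ne_zero (b6_sub hr0 hu1 t) (b6_sub hr0 hu2 t)
    exact ⟨left_ne_zero_of_mul hne, right_ne_zero_of_mul hne⟩

private theorem b6_etaC {r : ℝ} (hr : 0 < r) {S : Set (ℂ × ℝ)}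
    (hS : ∀ p ∈ S, ‖p.1 ^ 2‖ < ‖b6z r p.2‖ ^ 2) :
    ContinuousOn (fun p : ℂ × ℝ => eta (p.1 ^ 2) (b6z r p.2)) S := by
  unfold eta
  have hz : Continuous fun p : ℂ × ℝ => b6z r p.2 := (b6z_cont r).comp continuous_snd
  refine hz.continuousOn.mul ?_
  refine ContinuousOn.cpow ?_ continuousOn_const fun p hp => b6_slit (hS p hp)
  refine continuousOn_const.sub (ContinuousOn.div ?_ ?_ fun p _ => pow_ne_zero 2 (b6z_ne hr _))
  · exact (continuous_fst.pow 2).continuousOn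
  · exact (hz.pow 2).continuousOn

private theorem b6_analytic {ρ σ x₀ r R : ℝ} (hρ : 0 < ρ) (hσ : 0 < σ) (hρσ : ρ ^ 2 + σ ^ 2 = 1)
    (hx : 0 < x₀) (hr : x₀ < r) (hR : r < R) {f : ℂ → ℂ}
    (hf : DifferentiableOn ℂ f (Metric.ball 0 R)) (j : ℕ) {ε : ℝ} (hε : 0 < ε)
    (hG : ∀ y ∈ Metric.ball (x₀ : ℂ) ε, b6G ρ σ x₀ r y) :
    AnalyticAt ℂ (fun y => ∫ t in (0 : ℝ)..2 * Real.pi, b6F f ρ σ x₀ r j y t) x₀ := by
  have hr0 : 0 < r := hx.trans hr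
  have hcc := b6c_cont hr0 hR hf
  have hzc := b6z_cont r
  refine analytic_int (by positivity) hε ?_ ?_
  · have ce := b6_etaC hr0 (S := Metric.ball (x₀ : ℂ) ε ×ˢ Set.Icc 0 (2 * Real.pi))
      fun p hp => (b6_ne hρ hσ hρσ hx hr (hG p.1 hp.1) p.2).1
    have cz : ContinuousOn (fun p : ℂ × ℝ => b6z r p.2)
        (Metric.ball (x₀ : ℂ) ε ×ˢ Set.Icc 0 (2 * Real.pi)) :=
      (hzc.comp continuous_snd).continuousOn
    have cc : ContinuousOn (fun p : ℂ × ℝ => b6c f r p.2)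
        (Metric.ball (x₀ : ℂ) ε ×ˢ Set.Icc 0 (2 * Real.pi)) :=
      (hcc.comp continuous_snd).continuousOn
    unfold b6F b6u b6v
    refine ContinuousOn.mul (cc.div ce fun p hp =>
      b6_eta_ne (b6_ne hρ hσ hρσ hx hr (hG p.1 hp.1) p.2).1) (ContinuousOn.add ?_ ?_)
    · refine ContinuousOn.pow (ContinuousOn.inv₀ (continuousOn_const.sub
        ((continuousOn_const.mul cz).add (continuousOn_const.mul ce))) fun p hp => ?_) _
      exact (b6_ne hρ hσ hρσ hx hr (hG p.1 hp.1) p.2).2.1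
    · refine ContinuousOn.pow (ContinuousOn.inv₀ (continuousOn_const.sub
        ((continuousOn_const.mul cz).sub (continuousOn_const.mul ce))) fun p hp => ?_) _
      exact (b6_ne hρ hσ hρσ hx hr (hG p.1 hp.1) p.2).2.2
  · intro t _
    have de : DifferentiableOn ℂ (fun y : ℂ => eta (y ^ 2) (b6z r t))
        (Metric.ball (x₀ : ℂ) ε) := by
      unfold eta
      refine DifferentiableOn.const_mul ?_ _
      intro y hy
      refine DifferentiableWithinAt.cpow ?_ (differentiableWithinAt_const _)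
        (b6_slit (b6_ne hρ hσ hρσ hx hr (hG y hy) t).1)
      fun_prop
    unfold b6F b6u b6v
    refine DifferentiableOn.mul ((differentiableOn_const _).div de fun y hy =>
      b6_eta_ne (b6_ne hρ hσ hρσ hx hr (hG y hy) t).1) (DifferentiableOn.add ?_ ?_)
    · refine DifferentiableOn.pow (DifferentiableOn.inv ((differentiableOn_const _).sub
        ((differentiableOn_const _).add (de.const_mul _))) fun y hy => ?_) _
      exact (b6_ne hρ hσ hρσ hx hr (hG y hy) t).2.1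
    · refine DifferentiableOn.pow (DifferentiableOn.inv ((differentiableOn_const _).sub
        ((differentiableOn_const _).sub (de.const_mul _))) fun y hy => ?_) _
      exact (b6_ne hρ hσ hρσ hx hr (hG y hy) t).2.2

theorem int_reg {ρ σ x₀ R : ℝ} (hρ : 0 < ρ) (hσ : 0 < σ) (hρσ : ρ ^ 2 + σ ^ 2 = 1) (hx : 0 < x₀)
    (hR : x₀ < R) {f : ℂ → ℂ} (hf : DifferentiableOn ℂ f (Metric.ball 0 R)) (j : ℕ) :
    ∃ A : ℂ → ℂ, AnalyticAt ℂ A x₀ ∧ ∃ ε > 0, ∀ y : ℝ, x₀ - ε < y → y < x₀ →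
      ∫ θ in (0 : ℝ)..2 * Real.pi, ((x₀ : ℂ) - (y : ℂ) * (Real.cos θ : ℂ))⁻¹ ^ (j + 1) *
        f ((y : ℂ) * (ρ * (Real.cos θ : ℂ) + σ * (Real.sin θ : ℂ))) =
      A y + Real.pi * ((-1) ^ j / (j.factorial : ℂ)) *
        iteratedDeriv j (NN f ρ σ ((y : ℂ) ^ 2)) x₀ := by
  obtain ⟨r, hr1, hr2⟩ := exists_between hR
  have hr0 : 0 < r := hx.trans hr1
  have hρ1 : ρ < 1 := by nlinarith
  have hρx : ρ * x₀ < r := by nlinarith
  have hn : ‖(x₀ : ℂ)‖ = x₀ := by rw [Complex.norm_real, Real.norm_of_nonneg hx.le]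
  have hcc := b6c_cont hr0 hr2 hf
  have hzc := b6z_cont r
  -- the radius
  have hopen : IsOpen {y : ℂ | b6G ρ σ x₀ r y} := by
    have h1 : IsOpen {y : ℂ | ‖y‖ < r} := isOpen_lt continuous_norm continuous_const
    have h2 : IsOpen {y : ℂ | σ ^ 2 * ‖(x₀ : ℂ) ^ 2 - y ^ 2‖ < (r - ρ * x₀) ^ 2} :=
      isOpen_lt (by fun_prop) continuous_const
    exact h1.inter h2
  obtain ⟨ε₀, hε₀, hball⟩ := Metric.isOpen_iff.1 hopen (x₀ : ℂ) (by
    refine ⟨by rw [hn]; exact hr1, ?_⟩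
    rw [sub_self, norm_zero, mul_zero]
    have : 0 < r - ρ * x₀ := by linarith
    positivity)
  obtain ⟨ε, hεdef⟩ : ∃ ε, ε = min ε₀ x₀ := ⟨_, rfl⟩
  have hε : 0 < ε := by rw [hεdef]; exact lt_min hε₀ hx
  have hG : ∀ y ∈ Metric.ball (x₀ : ℂ) ε, b6G ρ σ x₀ r y := fun y hy =>
    hball (Metric.ball_subset_ball (by rw [hεdef]; exact min_le_left _ _) hy)
  refine ⟨fun y => Real.pi * ∫ t in (0 : ℝ)..2 * Real.pi, b6F f ρ σ x₀ r j y t,
    analyticAt_const.mul (b6_analytic hρ hσ hρσ hx hr1 hr2 hf j hε hG), ε, hε, ?_⟩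
  intro y hy1 hy2
  have hy0 : 0 < y := by
    have : ε ≤ x₀ := by rw [hεdef]; exact min_le_right _ _
    linarith
  have hyabs : |y| = y := abs_of_pos hy0
  have hyG : b6G ρ σ x₀ r (y : ℂ) := by
    refine hG _ ?_
    rw [Metric.mem_ball, Complex.dist_eq, ← Complex.ofReal_sub, Complex.norm_real,
      Real.norm_eq_abs, abs_lt]
    constructor <;> linarith
  have hyr : |y| < r := by rw [hyabs]; linarith
  have hne := fun t => b6_ne hρ hσ hρσ hx hr1 hyG t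
  -- continuity of the points
  have ce : Continuous fun t : ℝ => eta ((y : ℂ) ^ 2) (b6z r t) := by
    have h1 := b6_etaC hr0 (S := {((y : ℂ))} ×ˢ Set.univ) fun p hp => by
      have : p.1 = (y : ℂ) := hp.1
      rw [this]
      exact (hne p.2).1
    have h2 : Continuous fun t : ℝ => ((y : ℂ), t) := by fun_prop
    exact h1.comp_continuous h2 fun t => ⟨rfl, trivial⟩
  have cu : Continuous fun t : ℝ => b6u ρ σ ((y : ℂ) ^ 2) r t := by
    unfold b6u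
    exact (continuous_const.mul hzc).add (continuous_const.mul ce)
  have cv : Continuous fun t : ℝ => b6v ρ σ ((y : ℂ) ^ 2) r t := by
    unfold b6v
    exact (continuous_const.mul hzc).sub (continuous_const.mul ce)
  have cφ : Continuous fun t : ℝ => b6c f r t / eta ((y : ℂ) ^ 2) (b6z r t) :=
    hcc.div ce fun t => b6_eta_ne (hne t).1
  have cw : Continuous fun θ : ℝ => (Real.pi : ℂ)⁻¹ * f (b6w ρ σ y θ) := by
    refine continuous_const.mul (hf.continuousOn.comp_continuous (b6w_cont ρ σ y) fun θ => ?_)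
    rw [Metric.mem_ball, dist_zero_right]
    exact (b6w_norm hρσ y θ).trans_lt (hyr.trans hr2)
  have cc : Continuous fun θ : ℝ => (y : ℂ) * (Real.cos θ : ℂ) := by fun_prop
  have hcos : ∀ θ : ℝ, (x₀ : ℂ) ≠ (y : ℂ) * (Real.cos θ : ℂ) := fun θ =>
    sub_ne_zero.1 (b6_cos y θ (by rw [hn, hyabs]; exact hy2))
  have hpi : (0 : ℝ) ≤ 2 * Real.pi := by positivity
  have hpc : (Real.pi : ℂ) ≠ 0 := by exact_mod_cast Real.pi_ne_zero
  -- the formula near `x₀`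
  have hev : ∀ᶠ X : ℂ in 𝓝 (x₀ : ℂ), |y| < ‖X‖ ∧ ρ * ‖X‖ < r ∧
      σ ^ 2 * ‖X ^ 2 - (y : ℂ) ^ 2‖ < (r - ρ * ‖X‖) ^ 2 ∧ ∀ t : ℝ,
        X - b6u ρ σ ((y : ℂ) ^ 2) r t ≠ 0 ∧ X - b6v ρ σ ((y : ℂ) ^ 2) r t ≠ 0 := by
    have e1 : ∀ᶠ X : ℂ in 𝓝 (x₀ : ℂ), |y| < ‖X‖ :=
      (isOpen_lt continuous_const continuous_norm).mem_nhds (by
        show |y| < ‖(x₀ : ℂ)‖
        rw [hn, hyabs]; exact hy2)
    have e2 : ∀ᶠ X : ℂ in 𝓝 (x₀ : ℂ), ρ * ‖X‖ < r :=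
      (isOpen_lt (continuous_const.mul continuous_norm) continuous_const).mem_nhds (by
        show ρ * ‖(x₀ : ℂ)‖ < r
        rw [hn]; exact hρx)
    have e3 : ∀ᶠ X : ℂ in 𝓝 (x₀ : ℂ), σ ^ 2 * ‖X ^ 2 - (y : ℂ) ^ 2‖ < (r - ρ * ‖X‖) ^ 2 :=
      (isOpen_lt (by fun_prop) (by fun_prop)).mem_nhds (by
        show σ ^ 2 * ‖(x₀ : ℂ) ^ 2 - (y : ℂ) ^ 2‖ < (r - ρ * ‖(x₀ : ℂ)‖) ^ 2
        rw [hn]; exact hyG.2)
    filter_upwards [e1, e2, e3] with X h1 h2 h3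
    refine ⟨h1, h2, h3, fun t => ?_⟩
    have hX0 : X ≠ 0 := by
      intro h
      rw [h, norm_zero] at h1
      have := abs_nonneg y
      linarith
    obtain ⟨hu1, hu2⟩ := b6_norm (s := (y : ℂ) ^ 2) hρ.le hσ.le hX0 h2 h3
    have hne' : (X - (ρ * b6z r t + Complex.I * σ * eta ((y : ℂ) ^ 2) (b6z r t))) *
        (X - (ρ * b6z r t - Complex.I * σ * eta ((y : ℂ) ^ 2) (b6z r t))) ≠ 0 := by
      rw [b6_D hρσ (b6z_ne hr0 t)]
      have e := b6_D (s := (y : ℂ) ^ 2) hρσ hX0 (b6z r t)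
      have e' : X ^ 2 - 2 * ρ * X * (b6z r t) + (b6z r t) ^ 2 - (σ : ℂ) ^ 2 * (y : ℂ) ^ 2 =
          (b6z r t) ^ 2 - 2 * ρ * (b6z r t) * X + X ^ 2 - (σ : ℂ) ^ 2 * (y : ℂ) ^ 2 := by ring
      rw [e', ← e]
      exact mul_ne_zero (b6_sub hr0 hu1 t) (b6_sub hr0 hu2 t)
    exact ⟨left_ne_zero_of_mul hne', right_ne_zero_of_mul hne'⟩
  have hNN : NN f ρ σ ((y : ℂ) ^ 2) =ᶠ[𝓝 (x₀ : ℂ)]
      ((fun X => ∫ θ in (0 : ℝ)..2 * Real.pi, (Real.pi : ℂ)⁻¹ * f (b6w ρ σ y θ) *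
        (X - (y : ℂ) * (Real.cos θ : ℂ))⁻¹) -
      (fun X => ∫ t in (0 : ℝ)..2 * Real.pi, b6c f r t / eta ((y : ℂ) ^ 2) (b6z r t) *
        (X - b6u ρ σ ((y : ℂ) ^ 2) r t)⁻¹)) -
      (fun X => ∫ t in (0 : ℝ)..2 * Real.pi, b6c f r t / eta ((y : ℂ) ^ 2) (b6z r t) *
        (X - b6v ρ σ ((y : ℂ) ^ 2) r t)⁻¹) := by
    filter_upwards [hev] with X hX
    obtain ⟨h1, h2, h3, h4⟩ := hX
    have hm := b6_main hρ hσ hρσ hr0 hr2 hf hyr h1 h2 h3
    have f1 : ∫ θ in (0 : ℝ)..2 * Real.pi, (Real.pi : ℂ)⁻¹ * f (b6w ρ σ y θ) *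
        (X - (y : ℂ) * (Real.cos θ : ℂ))⁻¹ = (Real.pi : ℂ)⁻¹ *
        ∫ θ in (0 : ℝ)..2 * Real.pi, (X - (y : ℂ) * (Real.cos θ : ℂ))⁻¹ * f (b6w ρ σ y θ) := by
      rw [← intervalIntegral.integral_const_mul]
      refine intervalIntegral.integral_congr fun θ _ => ?_
      ring
    have g1 : Continuous fun t => b6c f r t / eta ((y : ℂ) ^ 2) (b6z r t) *
        (X - b6u ρ σ ((y : ℂ) ^ 2) r t)⁻¹ :=
      cφ.mul ((continuous_const.sub cu).inv₀ fun t => (h4 t).1)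
    have g2 : Continuous fun t => b6c f r t / eta ((y : ℂ) ^ 2) (b6z r t) *
        (X - b6v ρ σ ((y : ℂ) ^ 2) r t)⁻¹ :=
      cφ.mul ((continuous_const.sub cv).inv₀ fun t => (h4 t).2)
    have f2 : ∫ t in (0 : ℝ)..2 * Real.pi, b6c f r t *
        NN (fun w => (X - w)⁻¹) ρ σ ((y : ℂ) ^ 2) (b6z r t) =
        (∫ t in (0 : ℝ)..2 * Real.pi, b6c f r t / eta ((y : ℂ) ^ 2) (b6z r t) *
          (X - b6u ρ σ ((y : ℂ) ^ 2) r t)⁻¹) +
        ∫ t in (0 : ℝ)..2 * Real.pi, b6c f r t / eta ((y : ℂ) ^ 2) (b6z r t) *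
          (X - b6v ρ σ ((y : ℂ) ^ 2) r t)⁻¹ := by
      rw [← intervalIntegral.integral_add (g1.intervalIntegrable _ _)
        (g2.intervalIntegrable _ _)]
      refine intervalIntegral.integral_congr fun t _ => ?_
      simp only [NN, b6u, b6v]
      ring
    simp only [Pi.sub_apply]
    rw [f1, hm, f2, ← mul_assoc, inv_mul_cancel₀ hpc, one_mul]
    ring
  have i1 := iter_cauchy hpi cw.continuousOn cc.continuousOn (X₀ := (x₀ : ℂ))
    (fun θ _ => hcos θ) j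
  have i2 := iter_cauchy hpi cφ.continuousOn cu.continuousOn (X₀ := (x₀ : ℂ))
    (fun t _ => sub_ne_zero.1 (hne t).2.1) j
  have i3 := iter_cauchy hpi cφ.continuousOn cv.continuousOn (X₀ := (x₀ : ℂ))
    (fun t _ => sub_ne_zero.1 (hne t).2.2) j
  have a1 := analytic_cauchy hpi cw.continuousOn cc.continuousOn (X₀ := (x₀ : ℂ))
    (fun θ _ => hcos θ)
  have a2 := analytic_cauchy hpi cφ.continuousOn cu.continuousOn (X₀ := (x₀ : ℂ))
    (fun t _ => sub_ne_zero.1 (hne t).2.1)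
  have a3 := analytic_cauchy hpi cφ.continuousOn cv.continuousOn (X₀ := (x₀ : ℂ))
    (fun t _ => sub_ne_zero.1 (hne t).2.2)
  rw [hNN.iteratedDeriv_eq j, iteratedDeriv_sub (a1.sub a2).contDiffAt a3.contDiffAt,
    iteratedDeriv_sub a1.contDiffAt a2.contDiffAt, i1, i2, i3]
  have k1 : ∫ θ in (0 : ℝ)..2 * Real.pi, (Real.pi : ℂ)⁻¹ * f (b6w ρ σ y θ) *
      ((x₀ : ℂ) - (y : ℂ) * (Real.cos θ : ℂ))⁻¹ ^ (j + 1) = (Real.pi : ℂ)⁻¹ *
      ∫ θ in (0 : ℝ)..2 * Real.pi, ((x₀ : ℂ) - (y : ℂ) * (Real.cos θ : ℂ))⁻¹ ^ (j + 1) *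
        f ((y : ℂ) * (ρ * (Real.cos θ : ℂ) + σ * (Real.sin θ : ℂ))) := by
    rw [← intervalIntegral.integral_const_mul]
    refine intervalIntegral.integral_congr fun θ _ => ?_
    simp only [b6w]
    ring
  have g1 : Continuous fun t => b6c f r t / eta ((y : ℂ) ^ 2) (b6z r t) *
      ((x₀ : ℂ) - b6u ρ σ ((y : ℂ) ^ 2) r t)⁻¹ ^ (j + 1) :=
    cφ.mul (((continuous_const.sub cu).inv₀ fun t => (hne t).2.1).pow _)
  have g2 : Continuous fun t => b6c f r t / eta ((y : ℂ) ^ 2) (b6z r t) *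
      ((x₀ : ℂ) - b6v ρ σ ((y : ℂ) ^ 2) r t)⁻¹ ^ (j + 1) :=
    cφ.mul (((continuous_const.sub cv).inv₀ fun t => (hne t).2.2).pow _)
  have k2 : ∫ t in (0 : ℝ)..2 * Real.pi, b6F f ρ σ x₀ r j y t =
      (∫ t in (0 : ℝ)..2 * Real.pi, b6c f r t / eta ((y : ℂ) ^ 2) (b6z r t) *
        ((x₀ : ℂ) - b6u ρ σ ((y : ℂ) ^ 2) r t)⁻¹ ^ (j + 1)) +
      ∫ t in (0 : ℝ)..2 * Real.pi, b6c f r t / eta ((y : ℂ) ^ 2) (b6z r t) *
        ((x₀ : ℂ) - b6v ρ σ ((y : ℂ) ^ 2) r t)⁻¹ ^ (j + 1) := by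
    rw [← intervalIntegral.integral_add (g1.intervalIntegrable _ _) (g2.intervalIntegrable _ _)]
    refine intervalIntegral.integral_congr fun t _ => ?_
    simp only [b6F]
    ring
  rw [k1]
  simp only
  rw [k2]
  have hfac : (j.factorial : ℂ) ≠ 0 := by exact_mod_cast j.factorial_ne_zero
  have hsgn : ((-1 : ℂ) ^ j) * (-1) ^ j = 1 := by
    rw [← mul_pow]; norm_num
  generalize (∫ θ in (0 : ℝ)..2 * Real.pi, ((x₀ : ℂ) - (y : ℂ) * (Real.cos θ : ℂ))⁻¹ ^ (j + 1) *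
        f ((y : ℂ) * (ρ * (Real.cos θ : ℂ) + σ * (Real.sin θ : ℂ)))) = Ia
  generalize (∫ t in (0 : ℝ)..2 * Real.pi, b6c f r t / eta ((y : ℂ) ^ 2) (b6z r t) *
        ((x₀ : ℂ) - b6u ρ σ ((y : ℂ) ^ 2) r t)⁻¹ ^ (j + 1)) = Ib
  generalize (∫ t in (0 : ℝ)..2 * Real.pi, b6c f r t / eta ((y : ℂ) ^ 2) (b6z r t) *
        ((x₀ : ℂ) - b6v ρ σ ((y : ℂ) ^ 2) r t)⁻¹ ^ (j + 1)) = Ic
  generalize ((-1 : ℂ) ^ j) = sg at hsgn ⊢
  field_simp
  linear_combination (-(Ia - Real.pi * Ib - Real.pi * Ic)) * hsgn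

end Pool.Agent.TWO
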