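import Pool.Agent.TWO.Defs
import Pool.Agent.TWO.B2
import Pool.Agent.TWO.B3
import Pool.Agent.TWO.B4

set_option autoImplicit false

open PowerSeries Finset MeasureTheory Filter Topology

namespace Pool.Agent.TWO

private theorem ip_an {Z₀ x₀ : ℂ} (j : ℕ) : ∀ F : ℂ × ℂ → ℂ, AnalyticAt ℂ F (Z₀, x₀) →
    AnalyticAt ℂ (fun Z => iteratedDeriv j (fun X => F (Z, X)) x₀) Z₀ := by
  induction j with
  | zero =>
    intro F hF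
    simp only [iteratedDeriv_zero]
    have h1 : AnalyticAt ℂ (fun Z : ℂ => (Z, x₀)) Z₀ := by fun_prop
    exact AnalyticAt.comp (g := F) hF h1
  | succ n ih =>
    intro F hF
    have h2 : AnalyticAt ℂ (fun p => fderiv ℂ F p ((0 : ℂ), (1 : ℂ))) (Z₀, x₀) :=
      ((ContinuousLinearMap.apply ℂ ℂ ((0 : ℂ), (1 : ℂ))).analyticAt _).comp hF.fderiv
    have hev : ∀ᶠ p in 𝓝 (Z₀, x₀), DifferentiableAt ℂ F p :=
      hF.eventually_analyticAt.mono fun p hp => hp.differentiableAt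
    rw [nhds_prod_eq] at hev
    refine (ih _ h2).congr ?_
    filter_upwards [hev.curry] with Z hZ
    rw [iteratedDeriv_succ']
    apply Filter.EventuallyEq.iteratedDeriv_eq
    filter_upwards [hZ] with X hX
    have h3 : HasDerivAt (fun X : ℂ => (Z, X)) ((0 : ℂ), (1 : ℂ)) X :=
      (hasDerivAt_const X Z).prodMk (hasDerivAt_id X)
    exact (hX.hasFDerivAt.comp_hasDerivAt X h3).deriv.symm

private theorem ip_eta {x₀ y : ℝ} (hy : 0 < y) (hyx : y < x₀) :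
    AnalyticAt ℂ (eta ((y : ℂ) ^ 2)) x₀ ∧ eta ((y : ℂ) ^ 2) x₀ ≠ 0 ∧
      (eta ((y : ℂ) ^ 2) x₀) ^ 2 = (x₀ : ℂ) ^ 2 - (y : ℂ) ^ 2 := by
  have hx : 0 < x₀ := hy.trans hyx
  have hx0 : (x₀ : ℂ) ≠ 0 := by exact_mod_cast hx.ne'
  have hpos : 0 < 1 - y ^ 2 / x₀ ^ 2 := by
    rw [sub_pos, div_lt_one (by positivity)]
    exact pow_lt_pow_left₀ hyx hy.le two_ne_zero
  have e : (1 - (y : ℂ) ^ 2 / (x₀ : ℂ) ^ 2) = ((1 - y ^ 2 / x₀ ^ 2 : ℝ) : ℂ) := by push_cast; ring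
  have hs : (1 - (y : ℂ) ^ 2 / (x₀ : ℂ) ^ 2) ∈ Complex.slitPlane := by
    rw [e]; exact Complex.ofReal_mem_slitPlane.mpr hpos
  have hne : (1 - (y : ℂ) ^ 2 / (x₀ : ℂ) ^ 2) ≠ 0 := Complex.slitPlane_ne_zero hs
  refine ⟨?_, ?_, ?_⟩
  · unfold eta
    refine analyticAt_id.mul (AnalyticAt.cpow ?_ analyticAt_const hs)
    refine analyticAt_const.sub (analyticAt_const.div (analyticAt_id.pow 2) ?_)
    simpa using hx.ne'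
  · unfold eta
    refine mul_ne_zero hx0 ?_
    rw [Complex.cpow_def_of_ne_zero hne]
    exact Complex.exp_ne_zero _
  · unfold eta
    rw [mul_pow, sq ((1 - (y : ℂ) ^ 2 / (x₀ : ℂ) ^ 2) ^ (1 / 2 : ℂ)), ← Complex.cpow_add _ _ hne]
    norm_num
    field_simp

private theorem ip_sub {c : ℂ} (w : ℂ) (hc : ‖w‖ < ‖c‖) : c - w ≠ 0 := by
  intro h
  rw [sub_eq_zero] at h
  rw [h] at hc
  exact lt_irrefl _ hc

private theorem ip_cos (y θ : ℝ) : ‖(y : ℂ) * (Real.cos θ : ℂ)‖ ≤ |y| := by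
  rw [norm_mul, Complex.norm_real, Complex.norm_real, Real.norm_eq_abs, Real.norm_eq_abs]
  exact mul_le_of_le_one_right (abs_nonneg _) (Real.abs_cos_le_one θ)

private theorem ip_rot {ρ σ : ℝ} (hρσ : ρ ^ 2 + σ ^ 2 = 1) (y θ : ℝ) :
    ‖(y : ℂ) * (ρ * (Real.cos θ : ℂ) + σ * (Real.sin θ : ℂ))‖ ≤ |y| := by
  have e : (ρ * (Real.cos θ : ℂ) + σ * (Real.sin θ : ℂ)) =
      ((ρ * Real.cos θ + σ * Real.sin θ : ℝ) : ℂ) := by push_cast; ring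
  rw [e, norm_mul, Complex.norm_real, Complex.norm_real, Real.norm_eq_abs, Real.norm_eq_abs]
  refine mul_le_of_le_one_right (abs_nonneg _) ?_
  rw [abs_le_one_iff_mul_self_le_one]
  nlinarith [Real.sin_sq_add_cos_sq θ, sq_nonneg (ρ * Real.sin θ - σ * Real.cos θ)]

private theorem ip_inv (a : ℂ) {Z₀ : ℂ} (g : ℂ) (h : Z₀ ≠ a) (k : ℕ) :
    iteratedDeriv k (fun Z => g * (Z - a)⁻¹) Z₀ =
      (-1) ^ k * (k.factorial : ℂ) * (g * (Z₀ - a)⁻¹ ^ (k + 1)) := by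
  have := iter_comm (g := fun _ => g) (u := fun _ => a) (x₀ := 0) (Z₀ := Z₀) analyticAt_const
    analyticAt_const h 0 k
  simpa only [iteratedDeriv_zero] using this

private theorem ip_main {ρ σ x₀ y : ℝ} (hρσ : ρ ^ 2 + σ ^ 2 = 1) (hy : 0 < y) (hyx : y < x₀)
    (hD : (x₀ : ℂ) ^ 2 - 2 * ρ * x₀ * x₀ + (x₀ : ℂ) ^ 2 - (σ : ℂ) ^ 2 * (y : ℂ) ^ 2 ≠ 0)
    (j k : ℕ) :
    ∫ θ in (0 : ℝ)..2 * Real.pi, ((x₀ : ℂ) - (y : ℂ) * (Real.cos θ : ℂ))⁻¹ ^ (j + 1) *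
        ((x₀ : ℂ) - (y : ℂ) * (ρ * (Real.cos θ : ℂ) + σ * (Real.sin θ : ℂ)))⁻¹ ^ (k + 1) =
      Real.pi * ((-1) ^ j / (j.factorial : ℂ)) *
        iteratedDeriv j (NN (fun w => ((x₀ : ℂ) - w)⁻¹ ^ (k + 1)) ρ σ ((y : ℂ) ^ 2)) x₀ +
      Real.pi * ((-1) ^ k / (k.factorial : ℂ)) *
        iteratedDeriv k (NN (fun w => ((x₀ : ℂ) - w)⁻¹ ^ (j + 1)) ρ σ ((y : ℂ) ^ 2)) x₀ := by
  have hx : 0 < x₀ := hy.trans hyx
  obtain ⟨hea, he0, hesq⟩ := ip_eta hy hyx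
  set et : ℂ → ℂ := eta ((y : ℂ) ^ 2) with het
  set up : ℂ → ℂ := fun X => ρ * X + Complex.I * σ * et X with hup
  set um : ℂ → ℂ := fun X => ρ * X - Complex.I * σ * et X with hum
  have hupa : AnalyticAt ℂ up x₀ := by
    have := hea
    exact (analyticAt_const.mul analyticAt_id).add ((analyticAt_const).mul hea)
  have huma : AnalyticAt ℂ um x₀ := (analyticAt_const.mul analyticAt_id).sub
    ((analyticAt_const).mul hea)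
  have hprod : ((x₀ : ℂ) - up x₀) * ((x₀ : ℂ) - um x₀) =
      (x₀ : ℂ) ^ 2 - 2 * ρ * x₀ * x₀ + (x₀ : ℂ) ^ 2 - (σ : ℂ) ^ 2 * (y : ℂ) ^ 2 := by
    have e1 : ((x₀ : ℂ) - up x₀) * ((x₀ : ℂ) - um x₀) = ((x₀ : ℂ) - ρ * x₀) ^ 2 -
        Complex.I ^ 2 * σ ^ 2 * (et x₀) ^ 2 := by
      simp only [hup, hum]; ring
    have e2 : (ρ : ℂ) ^ 2 + (σ : ℂ) ^ 2 = 1 := by exact_mod_cast hρσ
    rw [e1, hesq, Complex.I_sq]
    linear_combination (x₀ : ℂ) ^ 2 * e2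
  have hne : ((x₀ : ℂ) - up x₀) * ((x₀ : ℂ) - um x₀) ≠ 0 := by rw [hprod]; exact hD
  have hpx : (x₀ : ℂ) ≠ up x₀ := sub_ne_zero.mp (left_ne_zero_of_mul hne)
  have hmx : (x₀ : ℂ) ≠ um x₀ := sub_ne_zero.mp (right_ne_zero_of_mul hne)
  have hNN : ∀ (h : ℂ → ℂ) (X : ℂ), NN h ρ σ ((y : ℂ) ^ 2) X = (h (up X) + h (um X)) / et X :=
    fun h X => rfl
  have hab : (0 : ℝ) ≤ 2 * Real.pi := by positivity
  set u : ℝ → ℂ := fun θ => (y : ℂ) * (Real.cos θ : ℂ) with hu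
  set v : ℝ → ℂ := fun θ => (y : ℂ) * (ρ * (Real.cos θ : ℂ) + σ * (Real.sin θ : ℂ)) with hv
  have huc : Continuous u := by
    simp only [hu]; exact continuous_const.mul (Complex.continuous_ofReal.comp Real.continuous_cos)
  have hvc : Continuous v := by
    simp only [hv]
    exact continuous_const.mul ((continuous_const.mul
      (Complex.continuous_ofReal.comp Real.continuous_cos)).add (continuous_const.mul
      (Complex.continuous_ofReal.comp Real.continuous_sin)))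
  have hu0 : ∀ {X : ℂ}, |y| < ‖X‖ → ∀ θ, X - u θ ≠ 0 := fun hX θ =>
    ip_sub _ ((ip_cos y θ).trans_lt hX)
  have hv0 : ∀ {X : ℂ}, |y| < ‖X‖ → ∀ θ, X - v θ ≠ 0 := fun hX θ =>
    ip_sub _ ((ip_rot hρσ y θ).trans_lt hX)
  have hx0n : |y| < ‖(x₀ : ℂ)‖ := by
    rw [Complex.norm_real, Real.norm_eq_abs, abs_of_pos hy, abs_of_pos hx]; exact hyx
  -- the neighbourhoods
  have ev1 : ∀ᶠ p : ℂ × ℂ in 𝓝 ((x₀ : ℂ), (x₀ : ℂ)), |y| < ‖p.2‖ ∧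
      p.2 ^ 2 - 2 * ρ * p.2 * p.1 + p.1 ^ 2 - (σ : ℂ) ^ 2 * (y : ℂ) ^ 2 ≠ 0 := by
    refine Filter.Eventually.and ?_ ?_
    · exact (continuous_snd.norm).continuousAt.eventually (lt_mem_nhds hx0n)
    · have hc : Continuous fun p : ℂ × ℂ =>
        p.2 ^ 2 - 2 * ρ * p.2 * p.1 + p.1 ^ 2 - (σ : ℂ) ^ 2 * (y : ℂ) ^ 2 := by fun_prop
      exact hc.continuousAt.eventually_ne hD
  rw [nhds_prod_eq] at ev1
  have ev1' := ev1.curry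
  have ev2 : ∀ᶠ Z : ℂ in 𝓝 (x₀ : ℂ), |y| < ‖Z‖ :=
    continuous_norm.continuousAt.eventually (lt_mem_nhds hx0n)
  have ev3 : ∀ᶠ Z : ℂ in 𝓝 (x₀ : ℂ), Z ≠ up x₀ := eventually_ne_nhds hpx
  have ev4 : ∀ᶠ Z : ℂ in 𝓝 (x₀ : ℂ), Z ≠ um x₀ := eventually_ne_nhds hmx
  have ev5 : ∀ᶠ Z : ℂ in 𝓝 (x₀ : ℂ), up Z ≠ x₀ := hupa.continuousAt.eventually_ne hpx.symm
  have ev6 : ∀ᶠ Z : ℂ in 𝓝 (x₀ : ℂ), um Z ≠ x₀ := huma.continuousAt.eventually_ne hmx.symm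
  have gea : AnalyticAt ℂ (fun X => (et X)⁻¹) x₀ := hea.inv he0
  -- the first identity
  have key : ∀ᶠ Z : ℂ in 𝓝 (x₀ : ℂ),
      (-1) ^ j * (j.factorial : ℂ) * ∫ θ in (0 : ℝ)..2 * Real.pi,
        ((x₀ : ℂ) - u θ)⁻¹ ^ (j + 1) * (Z - v θ)⁻¹ =
      Real.pi * (iteratedDeriv j (fun X => (et X)⁻¹ * (Z - up X)⁻¹) x₀ +
        iteratedDeriv j (fun X => (et X)⁻¹ * (Z - um X)⁻¹) x₀) +
      Real.pi * ((-1) ^ j * (j.factorial : ℂ)) *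
        NN (fun w => ((x₀ : ℂ) - w)⁻¹ ^ (j + 1)) ρ σ ((y : ℂ) ^ 2) Z := by
    filter_upwards [ev1', ev2, ev3, ev4, ev5, ev6] with Z h1 h2 h3 h4 h5 h6
    have hL := iter_cauchy hab (φ := fun θ => (Z - v θ)⁻¹) (u := u)
      (((continuous_const.sub hvc).inv₀ (hv0 h2)).continuousOn) huc.continuousOn (X₀ := (x₀ : ℂ))
      (fun t _ => sub_ne_zero.mp (hu0 hx0n t)) j
    have hL' : ∫ θ in (0 : ℝ)..2 * Real.pi, ((x₀ : ℂ) - u θ)⁻¹ ^ (j + 1) * (Z - v θ)⁻¹ =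
        ∫ θ in (0 : ℝ)..2 * Real.pi, (Z - v θ)⁻¹ * ((x₀ : ℂ) - u θ)⁻¹ ^ (j + 1) := by
      simp only [mul_comm]
    rw [hL', ← hL]
    have hE : (fun X => ∫ θ in (0 : ℝ)..2 * Real.pi, (Z - v θ)⁻¹ * (X - u θ)⁻¹) =ᶠ[𝓝 (x₀ : ℂ)]
        fun X => (Real.pi : ℂ) * (((et X)⁻¹ * (Z - up X)⁻¹ + (et X)⁻¹ * (Z - um X)⁻¹) +
          ((et Z)⁻¹ * (X - up Z)⁻¹ + (et Z)⁻¹ * (X - um Z)⁻¹)) := by
      filter_upwards [h1] with X hX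
      have := int_two (y := y) hρσ (X := X) (Z := Z) hX.1 h2 hX.2
      simp only [hNN] at this
      calc ∫ θ in (0 : ℝ)..2 * Real.pi, (Z - v θ)⁻¹ * (X - u θ)⁻¹
          = ∫ θ in (0 : ℝ)..2 * Real.pi, (X - (y : ℂ) * (Real.cos θ : ℂ))⁻¹ *
            (Z - (y : ℂ) * (ρ * (Real.cos θ : ℂ) + σ * (Real.sin θ : ℂ)))⁻¹ := by
            refine intervalIntegral.integral_congr fun θ _ => ?_
            simp only [hu, hv]; ring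
        _ = _ := this
        _ = _ := by ring
    rw [hE.iteratedDeriv_eq]
    have a1 : AnalyticAt ℂ (fun X => (et X)⁻¹ * (Z - up X)⁻¹) x₀ :=
      gea.mul ((analyticAt_const.sub hupa).inv (sub_ne_zero.mpr h3))
    have a2 : AnalyticAt ℂ (fun X => (et X)⁻¹ * (Z - um X)⁻¹) x₀ :=
      gea.mul ((analyticAt_const.sub huma).inv (sub_ne_zero.mpr h4))
    have a3 : AnalyticAt ℂ (fun X : ℂ => (et Z)⁻¹ * (X - up Z)⁻¹) x₀ :=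
      analyticAt_const.mul ((analyticAt_id.sub analyticAt_const).inv (sub_ne_zero.mpr h5.symm))
    have a4 : AnalyticAt ℂ (fun X : ℂ => (et Z)⁻¹ * (X - um Z)⁻¹) x₀ :=
      analyticAt_const.mul ((analyticAt_id.sub analyticAt_const).inv (sub_ne_zero.mpr h6.symm))
    rw [iteratedDeriv_const_mul_field]
    have s1 := iteratedDeriv_add (n := j) (a1.add a2).contDiffAt (a3.add a4).contDiffAt
    have s2 := iteratedDeriv_add (n := j) a1.contDiffAt a2.contDiffAt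
    have s3 := iteratedDeriv_add (n := j) a3.contDiffAt a4.contDiffAt
    have s4 := ip_inv (up Z) (et Z)⁻¹ (Z₀ := (x₀ : ℂ)) h5.symm j
    have s5 := ip_inv (um Z) (et Z)⁻¹ (Z₀ := (x₀ : ℂ)) h6.symm j
    have s0 : iteratedDeriv j (fun X => ((et X)⁻¹ * (Z - up X)⁻¹ + (et X)⁻¹ * (Z - um X)⁻¹) +
          ((et Z)⁻¹ * (X - up Z)⁻¹ + (et Z)⁻¹ * (X - um Z)⁻¹)) (x₀ : ℂ) =
        (iteratedDeriv j (fun X => (et X)⁻¹ * (Z - up X)⁻¹) (x₀ : ℂ) +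
          iteratedDeriv j (fun X => (et X)⁻¹ * (Z - um X)⁻¹) (x₀ : ℂ)) +
        (iteratedDeriv j (fun X => (et Z)⁻¹ * (X - up Z)⁻¹) (x₀ : ℂ) +
          iteratedDeriv j (fun X => (et Z)⁻¹ * (X - um Z)⁻¹) (x₀ : ℂ)) := by
      rw [← s2, ← s3]; exact s1
    rw [s0, s4, s5, hNN]
    ring
  -- the second differentiation
  have hL2 := iter_cauchy hab (φ := fun θ => ((x₀ : ℂ) - u θ)⁻¹ ^ (j + 1)) (u := v)
      ((((continuous_const.sub huc).inv₀ (hu0 hx0n)).pow _).continuousOn) hvc.continuousOn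
      (X₀ := (x₀ : ℂ)) (fun t _ => sub_ne_zero.mp (hv0 hx0n t)) k
  have hder := Filter.EventuallyEq.iteratedDeriv_eq k key
  rw [iteratedDeriv_const_mul_field, hL2] at hder
  have b1 : AnalyticAt ℂ (fun Z => iteratedDeriv j (fun X => (et X)⁻¹ * (Z - up X)⁻¹) (x₀ : ℂ))
      (x₀ : ℂ) := by
    refine ip_an j (fun p : ℂ × ℂ => (et p.2)⁻¹ * (p.1 - up p.2)⁻¹) ?_
    have c1 : AnalyticAt ℂ (fun p : ℂ × ℂ => et p.2) ((x₀ : ℂ), (x₀ : ℂ)) :=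
      AnalyticAt.comp (g := et) hea analyticAt_snd
    have c2 : AnalyticAt ℂ (fun p : ℂ × ℂ => up p.2) ((x₀ : ℂ), (x₀ : ℂ)) :=
      AnalyticAt.comp (g := up) hupa analyticAt_snd
    exact (c1.inv he0).mul ((analyticAt_fst.sub c2).inv (sub_ne_zero.mpr hpx))
  have b2 : AnalyticAt ℂ (fun Z => iteratedDeriv j (fun X => (et X)⁻¹ * (Z - um X)⁻¹) (x₀ : ℂ))
      (x₀ : ℂ) := by
    refine ip_an j (fun p : ℂ × ℂ => (et p.2)⁻¹ * (p.1 - um p.2)⁻¹) ?_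
    have c1 : AnalyticAt ℂ (fun p : ℂ × ℂ => et p.2) ((x₀ : ℂ), (x₀ : ℂ)) :=
      AnalyticAt.comp (g := et) hea analyticAt_snd
    have c2 : AnalyticAt ℂ (fun p : ℂ × ℂ => um p.2) ((x₀ : ℂ), (x₀ : ℂ)) :=
      AnalyticAt.comp (g := um) huma analyticAt_snd
    exact (c1.inv he0).mul ((analyticAt_fst.sub c2).inv (sub_ne_zero.mpr hmx))
  have b3 : AnalyticAt ℂ (NN (fun w => ((x₀ : ℂ) - w)⁻¹ ^ (j + 1)) ρ σ ((y : ℂ) ^ 2)) (x₀ : ℂ) := by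
    have : NN (fun w => ((x₀ : ℂ) - w)⁻¹ ^ (j + 1)) ρ σ ((y : ℂ) ^ 2) = fun X =>
        (((x₀ : ℂ) - up X)⁻¹ ^ (j + 1) + ((x₀ : ℂ) - um X)⁻¹ ^ (j + 1)) / et X := by
      funext X; rw [hNN]
    rw [this]
    exact ((((analyticAt_const.sub hupa).inv (sub_ne_zero.mpr hpx)).pow _).add
      (((analyticAt_const.sub huma).inv (sub_ne_zero.mpr hmx)).pow _)).div hea he0
  have t1 := iteratedDeriv_add (n := k)
    ((analyticAt_const (v := (Real.pi : ℂ))).mul (b1.add b2)).contDiffAt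
    ((analyticAt_const (v := (Real.pi : ℂ) * ((-1) ^ j * (j.factorial : ℂ)))).mul b3).contDiffAt
  have t2 := iteratedDeriv_add (n := k) b1.contDiffAt b2.contDiffAt
  have t3 := iter_comm gea hupa hpx j k
  have t4 := iter_comm gea huma hmx j k
  have t0 : iteratedDeriv k (fun Z => Real.pi * (iteratedDeriv j (fun X => (et X)⁻¹ *
        (Z - up X)⁻¹) (x₀ : ℂ) + iteratedDeriv j (fun X => (et X)⁻¹ * (Z - um X)⁻¹) (x₀ : ℂ)) +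
      Real.pi * ((-1) ^ j * (j.factorial : ℂ)) *
        NN (fun w => ((x₀ : ℂ) - w)⁻¹ ^ (j + 1)) ρ σ ((y : ℂ) ^ 2) Z) (x₀ : ℂ) =
      Real.pi * (iteratedDeriv k (fun Z => iteratedDeriv j (fun X => (et X)⁻¹ *
        (Z - up X)⁻¹) (x₀ : ℂ)) (x₀ : ℂ) + iteratedDeriv k (fun Z => iteratedDeriv j
        (fun X => (et X)⁻¹ * (Z - um X)⁻¹) (x₀ : ℂ)) (x₀ : ℂ)) +
      Real.pi * ((-1) ^ j * (j.factorial : ℂ)) *
        iteratedDeriv k (NN (fun w => ((x₀ : ℂ) - w)⁻¹ ^ (j + 1)) ρ σ ((y : ℂ) ^ 2)) (x₀ : ℂ) := by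
    rw [← t2]
    have w1 := iteratedDeriv_const_mul_field (𝕜 := ℂ) (n := k) (x := (x₀ : ℂ)) (Real.pi : ℂ)
      ((fun Z => iteratedDeriv j (fun X => (et X)⁻¹ * (Z - up X)⁻¹) (x₀ : ℂ)) +
        fun Z => iteratedDeriv j (fun X => (et X)⁻¹ * (Z - um X)⁻¹) (x₀ : ℂ))
    have w2 := iteratedDeriv_const_mul_field (𝕜 := ℂ) (n := k) (x := (x₀ : ℂ))
      ((Real.pi : ℂ) * ((-1) ^ j * (j.factorial : ℂ)))
      (NN (fun w => ((x₀ : ℂ) - w)⁻¹ ^ (j + 1)) ρ σ ((y : ℂ) ^ 2))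
    rw [← w1, ← w2]
    exact t1
  rw [t0, t3, t4] at hder
  -- the last derivative in the first variable
  have c1 : AnalyticAt ℂ (fun X => (et X)⁻¹ * ((x₀ : ℂ) - up X)⁻¹ ^ (k + 1)) x₀ :=
    gea.mul (((analyticAt_const.sub hupa).inv (sub_ne_zero.mpr hpx)).pow _)
  have c2 : AnalyticAt ℂ (fun X => (et X)⁻¹ * ((x₀ : ℂ) - um X)⁻¹ ^ (k + 1)) x₀ :=
    gea.mul (((analyticAt_const.sub huma).inv (sub_ne_zero.mpr hmx)).pow _)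
  have r1 : iteratedDeriv j (NN (fun w => ((x₀ : ℂ) - w)⁻¹ ^ (k + 1)) ρ σ ((y : ℂ) ^ 2)) (x₀ : ℂ) =
      iteratedDeriv j (fun X => (et X)⁻¹ * ((x₀ : ℂ) - up X)⁻¹ ^ (k + 1)) (x₀ : ℂ) +
      iteratedDeriv j (fun X => (et X)⁻¹ * ((x₀ : ℂ) - um X)⁻¹ ^ (k + 1)) (x₀ : ℂ) := by
    rw [← iteratedDeriv_add (n := j) c1.contDiffAt c2.contDiffAt]
    congr 1
    funext X
    rw [hNN]
    simp only [Pi.add_apply]
    ring
  rw [r1]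
  have hj : (j.factorial : ℂ) ≠ 0 := by exact_mod_cast j.factorial_ne_zero
  have hk : (k.factorial : ℂ) ≠ 0 := by exact_mod_cast k.factorial_ne_zero
  have hj1 : ((-1 : ℂ) ^ j) * (-1) ^ j = 1 := by rw [← mul_pow]; norm_num
  have hk1 : ((-1 : ℂ) ^ k) * (-1) ^ k = 1 := by rw [← mul_pow]; norm_num
  have hgoal : ((-1) ^ j * (j.factorial : ℂ)) * ((-1) ^ k * (k.factorial : ℂ)) *
      ∫ θ in (0 : ℝ)..2 * Real.pi, ((x₀ : ℂ) - u θ)⁻¹ ^ (j + 1) * ((x₀ : ℂ) - v θ)⁻¹ ^ (k + 1) =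
      Real.pi * ((-1) ^ k * (k.factorial : ℂ)) *
        (iteratedDeriv j (fun X => (et X)⁻¹ * ((x₀ : ℂ) - up X)⁻¹ ^ (k + 1)) (x₀ : ℂ) +
          iteratedDeriv j (fun X => (et X)⁻¹ * ((x₀ : ℂ) - um X)⁻¹ ^ (k + 1)) (x₀ : ℂ)) +
      Real.pi * ((-1) ^ j * (j.factorial : ℂ)) *
        iteratedDeriv k (NN (fun w => ((x₀ : ℂ) - w)⁻¹ ^ (j + 1)) ρ σ ((y : ℂ) ^ 2)) (x₀ : ℂ) := by
    linear_combination hder
  have hfac : ((-1) ^ j * (j.factorial : ℂ)) * ((-1) ^ k * (k.factorial : ℂ)) ≠ 0 :=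
    mul_ne_zero (mul_ne_zero (pow_ne_zero _ (by norm_num)) hj)
      (mul_ne_zero (pow_ne_zero _ (by norm_num)) hk)
  refine mul_left_cancel₀ hfac (hgoal.trans ?_)
  have e1 : (j.factorial : ℂ) * (j.factorial : ℂ)⁻¹ = 1 := mul_inv_cancel₀ hj
  have e2 : (k.factorial : ℂ) * (k.factorial : ℂ)⁻¹ = 1 := mul_inv_cancel₀ hk
  generalize iteratedDeriv j (fun X => (et X)⁻¹ * ((x₀ : ℂ) - up X)⁻¹ ^ (k + 1)) (x₀ : ℂ) +
          iteratedDeriv j (fun X => (et X)⁻¹ * ((x₀ : ℂ) - um X)⁻¹ ^ (k + 1)) (x₀ : ℂ) = A'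
  generalize iteratedDeriv k (NN (fun w => ((x₀ : ℂ) - w)⁻¹ ^ (j + 1)) ρ σ ((y : ℂ) ^ 2))
    (x₀ : ℂ) = B'
  linear_combination -(Real.pi : ℂ) * ((-1) ^ k * (k.factorial : ℂ)) * A' *
      (hj1 * ((j.factorial : ℂ) * (j.factorial : ℂ)⁻¹) + e1) -
    (Real.pi : ℂ) * ((-1) ^ j * (j.factorial : ℂ)) * B' *
      (hk1 * ((k.factorial : ℂ) * (k.factorial : ℂ)⁻¹) + e2)

theorem int_pol {ρ σ x₀ s : ℝ} (hρ : 0 < ρ) (hσ : 0 < σ) (hρσ : ρ ^ 2 + σ ^ 2 = 1) (hx : 0 < x₀)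
    (hs : s = 1 ∨ s = -1) (j k : ℕ) : ∃ ε > 0, ∀ y : ℝ, x₀ - ε < y → y < x₀ →
      ∫ θ in (0 : ℝ)..2 * Real.pi, ((x₀ : ℂ) - (y : ℂ) * (Real.cos θ : ℂ))⁻¹ ^ (j + 1) *
        ((x₀ : ℂ) - s * ((y : ℂ) * (ρ * (Real.cos θ : ℂ) + σ * (Real.sin θ : ℂ))))⁻¹ ^ (k + 1) =
      Real.pi * ((-1) ^ j / (j.factorial : ℂ)) *
        iteratedDeriv j (NN (fun w => ((x₀ : ℂ) - s * w)⁻¹ ^ (k + 1)) ρ σ ((y : ℂ) ^ 2)) x₀ +
      Real.pi * ((-1) ^ k / (k.factorial : ℂ)) *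
        iteratedDeriv k (NN (fun w => ((x₀ : ℂ) - s * w)⁻¹ ^ (j + 1)) ρ σ ((y : ℂ) ^ 2)) x₀ := by
  refine ⟨x₀, hx, fun y hy hyx => ?_⟩
  have hy0 : 0 < y := by linarith
  have hρ1 : ρ < 1 := by nlinarith
  have hyy : y ^ 2 < x₀ ^ 2 := pow_lt_pow_left₀ hyx hy0.le two_ne_zero
  rcases hs with rfl | rfl
  · have hD : (x₀ : ℂ) ^ 2 - 2 * ρ * x₀ * x₀ + (x₀ : ℂ) ^ 2 - (σ : ℂ) ^ 2 * (y : ℂ) ^ 2 ≠ 0 := by
      have h1 : 0 < x₀ ^ 2 - 2 * ρ * x₀ * x₀ + x₀ ^ 2 - σ ^ 2 * y ^ 2 := by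
        have e : x₀ ^ 2 - 2 * ρ * x₀ * x₀ + x₀ ^ 2 - σ ^ 2 * y ^ 2 =
            (1 - ρ) * (2 * x₀ ^ 2 - (1 + ρ) * y ^ 2) := by
          have : σ ^ 2 = 1 - ρ ^ 2 := by linarith
          rw [this]; ring
        rw [e]
        refine mul_pos (by linarith) ?_
        nlinarith [sq_nonneg y]
      exact_mod_cast h1.ne'
    have := ip_main hρσ hy0 hyx hD j k
    simpa only [Complex.ofReal_one, one_mul] using this
  · have hD : (x₀ : ℂ) ^ 2 - 2 * ((-ρ : ℝ) : ℂ) * x₀ * x₀ + (x₀ : ℂ) ^ 2 -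
        ((-σ : ℝ) : ℂ) ^ 2 * (y : ℂ) ^ 2 ≠ 0 := by
      have h1 : 0 < x₀ ^ 2 - 2 * (-ρ) * x₀ * x₀ + x₀ ^ 2 - (-σ) ^ 2 * y ^ 2 := by
        have e : x₀ ^ 2 - 2 * (-ρ) * x₀ * x₀ + x₀ ^ 2 - (-σ) ^ 2 * y ^ 2 =
            (1 + ρ) * (2 * x₀ ^ 2 - (1 - ρ) * y ^ 2) := by
          have : (-σ) ^ 2 = 1 - ρ ^ 2 := by rw [neg_sq]; linarith
          rw [this]; ring
        rw [e]
        refine mul_pos (by linarith) ?_
        nlinarith [sq_nonneg y]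
      exact_mod_cast h1.ne'
    have hρσ' : (-ρ) ^ 2 + (-σ) ^ 2 = 1 := by rw [neg_sq, neg_sq]; exact hρσ
    have := ip_main hρσ' hy0 hyx hD j k
    have hN : ∀ n : ℕ, NN (fun w => ((x₀ : ℂ) - w)⁻¹ ^ n) ((-ρ : ℝ)) ((-σ : ℝ)) ((y : ℂ) ^ 2) =
        NN (fun w => ((x₀ : ℂ) - ((-1 : ℝ) : ℂ) * w)⁻¹ ^ n) ρ σ ((y : ℂ) ^ 2) := by
      intro n
      funext Z
      unfold NN
      have e1 : (x₀ : ℂ) - (((-ρ : ℝ) : ℂ) * Z + Complex.I * ((-σ : ℝ) : ℂ) *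
          eta ((y : ℂ) ^ 2) Z) = (x₀ : ℂ) - ((-1 : ℝ) : ℂ) * (ρ * Z + Complex.I * σ *
          eta ((y : ℂ) ^ 2) Z) := by push_cast; ring
      have e2 : (x₀ : ℂ) - (((-ρ : ℝ) : ℂ) * Z - Complex.I * ((-σ : ℝ) : ℂ) *
          eta ((y : ℂ) ^ 2) Z) = (x₀ : ℂ) - ((-1 : ℝ) : ℂ) * (ρ * Z - Complex.I * σ *
          eta ((y : ℂ) ^ 2) Z) := by push_cast; ring
      simp only [e1, e2]
    rw [hN, hN] at this
    rw [← this]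
    refine intervalIntegral.integral_congr fun θ _ => ?_
    congr 3
    push_cast
    ring

end Pool.Agent.TWO
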