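import Pool.Agent.TWO.Defs
import Pool.Agent.TWO.B6
import Pool.Agent.TWO.B7
import Pool.Agent.TWO.B5

set_option autoImplicit false

open PowerSeries Finset MeasureTheory Filter Topology

namespace Pool.Agent.TWO

private theorem lf_cos (y : ℂ) (θ : ℝ) : ‖y * (Real.cos θ : ℂ)‖ ≤ ‖y‖ := by
  rw [norm_mul, Complex.norm_real, Real.norm_eq_abs]
  exact mul_le_of_le_one_right (norm_nonneg _) (Real.abs_cos_le_one θ)

private theorem lf_rot {ρ σ : ℝ} (hρσ : ρ ^ 2 + σ ^ 2 = 1) (y : ℂ) (θ : ℝ) :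
    ‖y * (ρ * (Real.cos θ : ℂ) + σ * (Real.sin θ : ℂ))‖ ≤ ‖y‖ := by
  have e : (ρ * (Real.cos θ : ℂ) + σ * (Real.sin θ : ℂ)) =
      ((ρ * Real.cos θ + σ * Real.sin θ : ℝ) : ℂ) := by push_cast; ring
  rw [e, norm_mul, Complex.norm_real, Real.norm_eq_abs]
  refine mul_le_of_le_one_right (norm_nonneg _) ?_
  rw [abs_le_one_iff_mul_self_le_one]
  nlinarith [Real.sin_sq_add_cos_sq θ, sq_nonneg (ρ * Real.sin θ - σ * Real.cos θ)]

private theorem lf_shift (H : ℂ → ℂ → ℂ) (ρ σ : ℝ) (y : ℂ) :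
    ∫ θ in (0 : ℝ)..2 * Real.pi, H (y * (Real.cos θ : ℂ))
      (y * (ρ * (Real.cos θ : ℂ) + σ * (Real.sin θ : ℂ))) =
    ∫ θ in (0 : ℝ)..2 * Real.pi, H (-(y * (Real.cos θ : ℂ)))
      (-(y * (ρ * (Real.cos θ : ℂ) + σ * (Real.sin θ : ℂ)))) := by
  set Φ : ℝ → ℂ := fun θ => H (y * (Real.cos θ : ℂ))
      (y * (ρ * (Real.cos θ : ℂ) + σ * (Real.sin θ : ℂ))) with hΦ
  have hper : Function.Periodic Φ (2 * Real.pi) := by
    intro θ
    simp only [hΦ, Real.cos_add_two_pi, Real.sin_add_two_pi]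
  have h1 : ∫ θ in (0 : ℝ)..2 * Real.pi, Φ (θ + Real.pi) = ∫ θ in (0 : ℝ)..2 * Real.pi, Φ θ := by
    rw [intervalIntegral.integral_comp_add_right]
    have := hper.intervalIntegral_add_eq Real.pi 0
    rw [zero_add] at this
    rw [zero_add, add_comm (2 * Real.pi) Real.pi]
    exact this
  rw [← h1]
  refine intervalIntegral.integral_congr fun θ _ => ?_
  simp only [hΦ, Real.cos_add_pi, Real.sin_add_pi]
  congr 1
  · push_cast; ring
  · push_cast; ring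

private theorem lf_swap (H : ℂ → ℂ → ℂ) {ρ σ : ℝ} (hρσ : ρ ^ 2 + σ ^ 2 = 1) (y : ℂ) :
    ∫ θ in (0 : ℝ)..2 * Real.pi, H (y * (Real.cos θ : ℂ))
      (y * (ρ * (Real.cos θ : ℂ) + σ * (Real.sin θ : ℂ))) =
    ∫ θ in (0 : ℝ)..2 * Real.pi, H (y * (ρ * (Real.cos θ : ℂ) + σ * (Real.sin θ : ℂ)))
      (y * (Real.cos θ : ℂ)) := by
  obtain ⟨t, ht1, ht2⟩ : ∃ t : ℝ, Real.cos t = ρ ∧ Real.sin t = σ := by
    have hn : ‖(⟨ρ, σ⟩ : ℂ)‖ = 1 := by
      have h2 : ‖(⟨ρ, σ⟩ : ℂ)‖ ^ 2 = 1 := by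
        rw [← Complex.normSq_eq_norm_sq, Complex.normSq_mk]; linarith
      have h3 := norm_nonneg (⟨ρ, σ⟩ : ℂ)
      nlinarith
    refine ⟨Complex.arg ⟨ρ, σ⟩, ?_, ?_⟩
    · have h0 : (⟨ρ, σ⟩ : ℂ) ≠ 0 := by
        intro h; rw [h] at hn; simp at hn
      rw [Complex.cos_arg h0, hn]; simp
    · rw [Complex.sin_arg, hn]; simp
  set Φ : ℝ → ℂ := fun θ => H (y * (Real.cos θ : ℂ))
      (y * (ρ * (Real.cos θ : ℂ) + σ * (Real.sin θ : ℂ))) with hΦ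
  have hper : Function.Periodic Φ (2 * Real.pi) := by
    intro θ
    simp only [hΦ, Real.cos_add_two_pi, Real.sin_add_two_pi]
  have h1 : ∫ θ in (0 : ℝ)..2 * Real.pi, Φ (t - θ) = ∫ θ in (0 : ℝ)..2 * Real.pi, Φ θ := by
    rw [intervalIntegral.integral_comp_sub_left]
    have := hper.intervalIntegral_add_eq (t - 2 * Real.pi) 0
    rw [zero_add, sub_add_cancel] at this
    rw [sub_zero]
    exact this
  rw [← h1]
  refine intervalIntegral.integral_congr fun θ _ => ?_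
  simp only [hΦ]
  have c1 : Real.cos (t - θ) = ρ * Real.cos θ + σ * Real.sin θ := by
    rw [Real.cos_sub, ht1, ht2]
  have c2 : ρ * Real.cos (t - θ) + σ * Real.sin (t - θ) = Real.cos θ := by
    rw [Real.cos_sub, Real.sin_sub, ht1, ht2]
    linear_combination Real.cos θ * hρσ
  have c1' : (Real.cos (t - θ) : ℂ) = ρ * (Real.cos θ : ℂ) + σ * (Real.sin θ : ℂ) := by
    exact_mod_cast congrArg (fun x : ℝ => (x : ℂ)) c1
  have c2' : ρ * (Real.cos (t - θ) : ℂ) + σ * (Real.sin (t - θ) : ℂ) = (Real.cos θ : ℂ) := by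
    exact_mod_cast congrArg (fun x : ℝ => (x : ℂ)) c2
  rw [c2', c1']

private theorem lf_symm (f g : ℂ → ℂ) {ρ σ : ℝ} (hρσ : ρ ^ 2 + σ ^ 2 = 1) (y : ℂ) :
    gI f g ρ σ y = gI g f ρ σ y := by
  unfold gI
  rw [lf_swap (fun a b => f a * g b) hρσ y]
  simp only [mul_comm]

private theorem lf_cc {h : ℂ → ℂ} {R : ℝ} (hh : ContinuousOn h (Metric.ball 0 R)) {y : ℂ}
    (hy : ‖y‖ < R) : Continuous fun θ : ℝ => h (y * (Real.cos θ : ℂ)) := by
  refine hh.comp_continuous (continuous_const.mul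
    (Complex.continuous_ofReal.comp Real.continuous_cos)) fun θ => ?_
  rw [mem_ball_zero_iff]
  exact (lf_cos y θ).trans_lt hy

private theorem lf_cw {h : ℂ → ℂ} {R : ℝ} (hh : ContinuousOn h (Metric.ball 0 R)) {y : ℂ}
    (hy : ‖y‖ < R) {ρ σ : ℝ} (hρσ : ρ ^ 2 + σ ^ 2 = 1) :
    Continuous fun θ : ℝ => h (y * (ρ * (Real.cos θ : ℂ) + σ * (Real.sin θ : ℂ))) := by
  refine hh.comp_continuous (continuous_const.mul ((continuous_const.mul
    (Complex.continuous_ofReal.comp Real.continuous_cos)).add (continuous_const.mul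
    (Complex.continuous_ofReal.comp Real.continuous_sin)))) fun θ => ?_
  rw [mem_ball_zero_iff]
  exact (lf_rot hρσ y θ).trans_lt hy

/-- Linearity in the function of the second variable. -/
private theorem lf_lin {φ : ℝ → ℂ} (hφ : Continuous φ) {ρ σ x₀ : ℝ} (hρσ : ρ ^ 2 + σ ^ 2 = 1)
    {y : ℂ} (hy : ‖y‖ < x₀) {g h : ℂ → ℂ} {p : ℕ → ℂ → ℂ} {n : ℕ} {c : ℕ → ℂ}
    (hh : ContinuousOn h (Metric.ball 0 x₀)) (hp : ∀ i, ContinuousOn (p i) (Metric.ball 0 x₀))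
    (hg : ∀ x ∈ Metric.ball (0 : ℂ) x₀, g x = h x + ∑ i ∈ range n, c i * p i x) :
    ∫ θ in (0 : ℝ)..2 * Real.pi, φ θ * g (y * (ρ * (Real.cos θ : ℂ) + σ * (Real.sin θ : ℂ))) =
      (∫ θ in (0 : ℝ)..2 * Real.pi, φ θ * h (y * (ρ * (Real.cos θ : ℂ) + σ * (Real.sin θ : ℂ)))) +
      ∑ i ∈ range n, c i * ∫ θ in (0 : ℝ)..2 * Real.pi, φ θ *
        p i (y * (ρ * (Real.cos θ : ℂ) + σ * (Real.sin θ : ℂ))) := by
  have e1 : ∫ θ in (0 : ℝ)..2 * Real.pi, φ θ *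
      g (y * (ρ * (Real.cos θ : ℂ) + σ * (Real.sin θ : ℂ))) =
      ∫ θ in (0 : ℝ)..2 * Real.pi, (φ θ * h (y * (ρ * (Real.cos θ : ℂ) + σ * (Real.sin θ : ℂ))) +
        ∑ i ∈ range n, c i * (φ θ * p i (y * (ρ * (Real.cos θ : ℂ) + σ * (Real.sin θ : ℂ))))) := by
    refine intervalIntegral.integral_congr fun θ _ => ?_
    have hm : y * (ρ * (Real.cos θ : ℂ) + σ * (Real.sin θ : ℂ)) ∈ Metric.ball (0 : ℂ) x₀ := by
      rw [mem_ball_zero_iff]; exact (lf_rot hρσ y θ).trans_lt hy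
    simp only [hg _ hm]
    rw [mul_add, Finset.mul_sum]
    congr 1
    refine Finset.sum_congr rfl fun i _ => ?_
    ring
  have i1 : IntervalIntegrable (fun θ : ℝ => φ θ *
      h (y * (ρ * (Real.cos θ : ℂ) + σ * (Real.sin θ : ℂ)))) volume 0 (2 * Real.pi) :=
    (hφ.mul (lf_cw hh hy hρσ)).intervalIntegrable _ _
  have i2 : ∀ i, IntervalIntegrable (fun θ : ℝ => c i * (φ θ *
      p i (y * (ρ * (Real.cos θ : ℂ) + σ * (Real.sin θ : ℂ))))) volume 0 (2 * Real.pi) := fun i =>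
    (continuous_const.mul (hφ.mul (lf_cw (hp i) hy hρσ))).intervalIntegrable _ _
  rw [e1, intervalIntegral.integral_add i1, intervalIntegral.integral_finsetSum fun i _ => i2 i]
  · congr 1
    refine Finset.sum_congr rfl fun i _ => ?_
    rw [intervalIntegral.integral_const_mul]
  · have := IntervalIntegrable.sum (range n) (fun i _ => i2 i)
    simpa only [Finset.sum_fn] using this

private theorem lf_eta {x₀ y : ℝ} (hy : 0 < y) (hyx : y < x₀) :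
    AnalyticAt ℂ (eta ((y : ℂ) ^ 2)) x₀ ∧ eta ((y : ℂ) ^ 2) x₀ ≠ 0 ∧
      ∃ η : ℝ, eta ((y : ℂ) ^ 2) x₀ = η ∧ η ^ 2 = x₀ ^ 2 - y ^ 2 := by
  have hx : 0 < x₀ := hy.trans hyx
  have hx0 : (x₀ : ℂ) ≠ 0 := by exact_mod_cast hx.ne'
  have hpos : 0 < 1 - y ^ 2 / x₀ ^ 2 := by
    rw [sub_pos, div_lt_one (by positivity)]
    exact pow_lt_pow_left₀ hyx hy.le two_ne_zero
  have e : (1 - (y : ℂ) ^ 2 / (x₀ : ℂ) ^ 2) = ((1 - y ^ 2 / x₀ ^ 2 : ℝ) : ℂ) := by push_cast; ring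
  have hs : (1 - (y : ℂ) ^ 2 / (x₀ : ℂ) ^ 2) ∈ Complex.slitPlane := by
    rw [e]; exact Complex.ofReal_mem_slitPlane.mpr hpos
  have hne : (1 - (y : ℂ) ^ 2 / (x₀ : ℂ) ^ 2) ≠ 0 := Complex.slitPlane_ne_zero hs
  refine ⟨?_, ?_, x₀ * (1 - y ^ 2 / x₀ ^ 2) ^ (1 / 2 : ℝ), ?_, ?_⟩
  · unfold eta
    refine analyticAt_id.mul (AnalyticAt.cpow ?_ analyticAt_const hs)
    refine analyticAt_const.sub (analyticAt_const.div (analyticAt_id.pow 2) ?_)
    simpa using hx.ne'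
  · unfold eta
    refine mul_ne_zero hx0 ?_
    rw [Complex.cpow_def_of_ne_zero hne]
    exact Complex.exp_ne_zero _
  · unfold eta
    rw [e, Complex.ofReal_mul, Complex.ofReal_cpow hpos.le]
    norm_num
  · rw [mul_pow, ← Real.rpow_natCast ((1 - y ^ 2 / x₀ ^ 2) ^ (1 / 2 : ℝ)) 2,
      ← Real.rpow_mul hpos.le]
    norm_num
    field_simp

/-- The two points of the circle are in the disc. -/
private theorem lf_pts {ρ σ x₀ y : ℝ} (hσ : 0 < σ) (hρσ : ρ ^ 2 + σ ^ 2 = 1) (hy : 0 < y)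
    (hyx : y < x₀) :
    (ρ * x₀ + Complex.I * σ * eta ((y : ℂ) ^ 2) x₀) ∈ Metric.ball (0 : ℂ) x₀ ∧
      (ρ * x₀ - Complex.I * σ * eta ((y : ℂ) ^ 2) x₀) ∈ Metric.ball (0 : ℂ) x₀ := by
  have hx : 0 < x₀ := hy.trans hyx
  obtain ⟨-, -, η, h1, h2⟩ := lf_eta hy hyx
  have key : ∀ s : ℝ, s ^ 2 = 1 → ((ρ : ℂ) * x₀ + s * (Complex.I * σ * (η : ℂ))) ∈
      Metric.ball (0 : ℂ) x₀ := by
    intro s hs
    rw [mem_ball_zero_iff]
    have e : ‖(ρ : ℂ) * x₀ + s * (Complex.I * σ * (η : ℂ))‖ ^ 2 = x₀ ^ 2 - σ ^ 2 * y ^ 2 := by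
      have : (ρ : ℂ) * x₀ + s * (Complex.I * σ * (η : ℂ)) = ⟨ρ * x₀, s * σ * η⟩ := by
        apply Complex.ext
        · simp
        · simp; ring
      rw [this, ← Complex.normSq_eq_norm_sq, Complex.normSq_mk]
      have e2 : (s * σ * η) * (s * σ * η) = s ^ 2 * σ ^ 2 * η ^ 2 := by ring
      rw [e2, hs, h2]
      linear_combination x₀ ^ 2 * hρσ
    have h3 : 0 < σ ^ 2 * y ^ 2 := by positivity
    nlinarith [norm_nonneg ((ρ : ℂ) * x₀ + s * (Complex.I * σ * (η : ℂ)))]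
  rw [h1]
  constructor
  · have := key 1 (by norm_num)
    simpa using this
  · have := key (-1) (by norm_num)
    have e : (ρ : ℂ) * x₀ + ((-1 : ℝ) : ℂ) * (Complex.I * σ * (η : ℂ)) =
        ρ * x₀ - Complex.I * σ * (η : ℂ) := by push_cast; ring
    rwa [e] at this

private theorem lf_NNan {ρ σ x₀ y : ℝ} (hσ : 0 < σ) (hρσ : ρ ^ 2 + σ ^ 2 = 1) (hy : 0 < y)
    (hyx : y < x₀) {h : ℂ → ℂ} (hh : DifferentiableOn ℂ h (Metric.ball 0 x₀)) :
    AnalyticAt ℂ (NN h ρ σ ((y : ℂ) ^ 2)) x₀ := by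
  obtain ⟨h1, h2, -⟩ := lf_eta hy hyx
  obtain ⟨h3, h4⟩ := lf_pts hσ hρσ hy hyx
  have a1 : AnalyticAt ℂ h (ρ * x₀ + Complex.I * σ * eta ((y : ℂ) ^ 2) x₀) :=
    hh.analyticAt (Metric.isOpen_ball.mem_nhds h3)
  have a2 : AnalyticAt ℂ h (ρ * x₀ - Complex.I * σ * eta ((y : ℂ) ^ 2) x₀) :=
    hh.analyticAt (Metric.isOpen_ball.mem_nhds h4)
  have b1 : AnalyticAt ℂ (fun Z : ℂ => ρ * Z + Complex.I * σ * eta ((y : ℂ) ^ 2) Z) x₀ :=
    (analyticAt_const.mul analyticAt_id).add (analyticAt_const.mul h1)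
  have b2 : AnalyticAt ℂ (fun Z : ℂ => ρ * Z - Complex.I * σ * eta ((y : ℂ) ^ 2) Z) x₀ :=
    (analyticAt_const.mul analyticAt_id).sub (analyticAt_const.mul h1)
  have c1 := AnalyticAt.comp (g := h) (f := fun Z : ℂ => ρ * Z + Complex.I * σ *
    eta ((y : ℂ) ^ 2) Z) (x := (x₀ : ℂ)) a1 b1
  have c2 := AnalyticAt.comp (g := h) (f := fun Z : ℂ => ρ * Z - Complex.I * σ *
    eta ((y : ℂ) ^ 2) Z) (x := (x₀ : ℂ)) a2 b2
  exact (c1.add c2).div h1 h2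

private theorem lf_D {ρ σ x₀ y : ℝ} (hσ : 0 < σ) (hρσ : ρ ^ 2 + σ ^ 2 = 1) (hy : 0 < y)
    (hyx : y < x₀) {g h : ℂ → ℂ} {p : ℕ → ℂ → ℂ} {n : ℕ} {c : ℕ → ℂ}
    (hh : DifferentiableOn ℂ h (Metric.ball 0 x₀))
    (hp : ∀ i, DifferentiableOn ℂ (p i) (Metric.ball 0 x₀))
    (hg : ∀ x ∈ Metric.ball (0 : ℂ) x₀, g x = h x + ∑ i ∈ range n, c i * p i x) (j : ℕ) :
    iteratedDeriv j (NN g ρ σ ((y : ℂ) ^ 2)) x₀ =
      iteratedDeriv j (NN h ρ σ ((y : ℂ) ^ 2)) x₀ +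
        ∑ i ∈ range n, c i * iteratedDeriv j (NN (p i) ρ σ ((y : ℂ) ^ 2)) x₀ := by
  obtain ⟨h1, h2, -⟩ := lf_eta hy hyx
  obtain ⟨h3, h4⟩ := lf_pts hσ hρσ hy hyx
  have b1 : AnalyticAt ℂ (fun Z : ℂ => ρ * Z + Complex.I * σ * eta ((y : ℂ) ^ 2) Z) x₀ :=
    (analyticAt_const.mul analyticAt_id).add (analyticAt_const.mul h1)
  have b2 : AnalyticAt ℂ (fun Z : ℂ => ρ * Z - Complex.I * σ * eta ((y : ℂ) ^ 2) Z) x₀ :=
    (analyticAt_const.mul analyticAt_id).sub (analyticAt_const.mul h1)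
  have ev1 : ∀ᶠ Z : ℂ in 𝓝 (x₀ : ℂ), (ρ * Z + Complex.I * σ * eta ((y : ℂ) ^ 2) Z) ∈
      Metric.ball (0 : ℂ) x₀ := b1.continuousAt.eventually (Metric.isOpen_ball.mem_nhds h3)
  have ev2 : ∀ᶠ Z : ℂ in 𝓝 (x₀ : ℂ), (ρ * Z - Complex.I * σ * eta ((y : ℂ) ^ 2) Z) ∈
      Metric.ball (0 : ℂ) x₀ := b2.continuousAt.eventually (Metric.isOpen_ball.mem_nhds h4)
  have hE : NN g ρ σ ((y : ℂ) ^ 2) =ᶠ[𝓝 (x₀ : ℂ)] fun Z => NN h ρ σ ((y : ℂ) ^ 2) Z +
      ∑ i ∈ range n, c i * NN (p i) ρ σ ((y : ℂ) ^ 2) Z := by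
    filter_upwards [ev1, ev2] with Z hZ1 hZ2
    unfold NN
    rw [hg _ hZ1, hg _ hZ2]
    have : ∀ i, c i * ((p i (ρ * Z + Complex.I * σ * eta ((y : ℂ) ^ 2) Z) +
        p i (ρ * Z - Complex.I * σ * eta ((y : ℂ) ^ 2) Z)) / eta ((y : ℂ) ^ 2) Z) =
        (c i * p i (ρ * Z + Complex.I * σ * eta ((y : ℂ) ^ 2) Z) +
        c i * p i (ρ * Z - Complex.I * σ * eta ((y : ℂ) ^ 2) Z)) / eta ((y : ℂ) ^ 2) Z := by
      intro i; ring
    simp only [this]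
    rw [← Finset.sum_div, Finset.sum_add_distrib]
    ring
  rw [hE.iteratedDeriv_eq]
  have a0 := lf_NNan hσ hρσ hy hyx hh
  have ai : ∀ i, AnalyticAt ℂ (fun Z => c i * NN (p i) ρ σ ((y : ℂ) ^ 2) Z) x₀ := fun i =>
    analyticAt_const.mul (lf_NNan hσ hρσ hy hyx (hp i))
  have as : AnalyticAt ℂ (fun Z => ∑ i ∈ range n, c i * NN (p i) ρ σ ((y : ℂ) ^ 2) Z) x₀ :=
    Finset.analyticAt_fun_sum _ fun i _ => ai i
  have t1 := iteratedDeriv_add (n := j) a0.contDiffAt as.contDiffAt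
  have t2 := iteratedDeriv_fun_sum (I := range n) (n := j) (fun i _ => (ai i).contDiffAt)
  refine t1.trans ?_
  rw [t2]
  congr 1
  refine Finset.sum_congr rfl fun i _ => ?_
  rw [iteratedDeriv_const_mul_field]

/-- The odd polar part. -/
private noncomputable def lf_p (x₀ : ℝ) (j : ℕ) (w : ℂ) : ℂ :=
  ((x₀ : ℂ) - w)⁻¹ ^ (j + 1) - ((x₀ : ℂ) + w)⁻¹ ^ (j + 1)

private theorem lf_q {x₀ s : ℝ} (hs : s = 1 ∨ s = -1) (j : ℕ) :
    DifferentiableOn ℂ (fun w : ℂ => ((x₀ : ℂ) - s * w)⁻¹ ^ (j + 1)) (Metric.ball 0 x₀) := by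
  intro w hw
  rw [mem_ball_zero_iff] at hw
  have hne : (x₀ : ℂ) - s * w ≠ 0 := by
    intro h
    rw [sub_eq_zero] at h
    have h1 : ‖(x₀ : ℂ)‖ = ‖w‖ := by
      rw [h, norm_mul]
      rcases hs with rfl | rfl <;> simp
    have h2 : x₀ ≤ ‖(x₀ : ℂ)‖ := by rw [Complex.norm_real]; exact le_abs_self _
    linarith
  have d1 : DifferentiableAt ℂ (fun w : ℂ => (x₀ : ℂ) - s * w) w := by fun_prop
  exact ((d1.inv hne).pow _).differentiableWithinAt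

private theorem lf_p_eq (x₀ : ℝ) (j : ℕ) (w : ℂ) : lf_p x₀ j w =
    (fun w : ℂ => ((x₀ : ℂ) - ((1 : ℝ) : ℂ) * w)⁻¹ ^ (j + 1)) w -
      (fun w : ℂ => ((x₀ : ℂ) - ((-1 : ℝ) : ℂ) * w)⁻¹ ^ (j + 1)) w := by
  simp [lf_p]

private theorem lf_p_diff (x₀ : ℝ) (j : ℕ) : DifferentiableOn ℂ (lf_p x₀ j) (Metric.ball 0 x₀) := by
  have := (lf_q (x₀ := x₀) (s := 1) (Or.inl rfl) j).sub (lf_q (x₀ := x₀) (s := -1) (Or.inr rfl) j)
  refine this.congr fun w _ => ?_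
  rw [lf_p_eq]; rfl

private theorem lf_p_odd (x₀ : ℝ) (j : ℕ) (w : ℂ) : lf_p x₀ j (-w) = -lf_p x₀ j w := by
  unfold lf_p
  rw [sub_neg_eq_add, ← sub_eq_add_neg]; ring

/-- The Cauchy integral. -/
private noncomputable def lf_E (x₀ ρ σ : ℝ) (j : ℕ) (h : ℂ → ℂ) (y : ℝ) : ℂ :=
  ∫ θ in (0 : ℝ)..2 * Real.pi, ((x₀ : ℂ) - (y : ℂ) * (Real.cos θ : ℂ))⁻¹ ^ (j + 1) *
        h ((y : ℂ) * (ρ * (Real.cos θ : ℂ) + σ * (Real.sin θ : ℂ)))

private theorem lf_norm {x₀ y : ℝ} (hy : 0 < y) (hyx : y < x₀) : ‖(y : ℂ)‖ < x₀ := by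
  rw [Complex.norm_real, Real.norm_eq_abs, abs_of_pos hy]; exact hyx

private theorem lf_cq {x₀ s : ℝ} (hs : s = 1 ∨ s = -1) (j : ℕ) {y : ℝ} (hy : 0 < y)
    (hyx : y < x₀) :
    Continuous fun θ : ℝ => ((x₀ : ℂ) - s * ((y : ℂ) * (Real.cos θ : ℂ)))⁻¹ ^ (j + 1) :=
  lf_cc (lf_q hs j).continuousOn (lf_norm hy hyx)

private theorem lf_cq1 {x₀ : ℝ} (j : ℕ) {y : ℝ} (hy : 0 < y) (hyx : y < x₀) :
    Continuous fun θ : ℝ => ((x₀ : ℂ) - (y : ℂ) * (Real.cos θ : ℂ))⁻¹ ^ (j + 1) := by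
  have := lf_cq (x₀ := x₀) (s := 1) (Or.inl rfl) j hy hyx
  simpa only [Complex.ofReal_one, one_mul] using this

private theorem lf_cq2 {x₀ : ℝ} (j : ℕ) {y : ℝ} (hy : 0 < y) (hyx : y < x₀) :
    Continuous fun θ : ℝ => ((x₀ : ℂ) + (y : ℂ) * (Real.cos θ : ℂ))⁻¹ ^ (j + 1) := by
  have := lf_cq (x₀ := x₀) (s := -1) (Or.inr rfl) j hy hyx
  simpa only [Complex.ofReal_neg, Complex.ofReal_one, neg_mul, one_mul, sub_neg_eq_add] using this

/-- The integral against the odd polar part. -/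
private theorem lf_gIp {ρ σ x₀ y : ℝ} (hρσ : ρ ^ 2 + σ ^ 2 = 1) (hy : 0 < y) (hyx : y < x₀)
    {h : ℂ → ℂ} (hh : ContinuousOn h (Metric.ball 0 x₀))
    (ho : ∀ x ∈ Metric.ball (0 : ℂ) x₀, h (-x) = -h x) (j : ℕ) :
    gI (lf_p x₀ j) h ρ σ y = 2 * lf_E x₀ ρ σ j h y := by
  have hn := lf_norm hy hyx
  have c1 := lf_cq1 (x₀ := x₀) j hy hyx
  have c2 := lf_cq2 (x₀ := x₀) j hy hyx
  have c3 := lf_cw hh hn hρσ
  have e1 : gI (lf_p x₀ j) h ρ σ y = lf_E x₀ ρ σ j h y -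
      ∫ θ in (0 : ℝ)..2 * Real.pi, ((x₀ : ℂ) + (y : ℂ) * (Real.cos θ : ℂ))⁻¹ ^ (j + 1) *
        h ((y : ℂ) * (ρ * (Real.cos θ : ℂ) + σ * (Real.sin θ : ℂ))) := by
    unfold gI lf_E
    have i1 : IntervalIntegrable (fun θ : ℝ => ((x₀ : ℂ) - (y : ℂ) * (Real.cos θ : ℂ))⁻¹ ^ (j + 1) *
        h ((y : ℂ) * (ρ * (Real.cos θ : ℂ) + σ * (Real.sin θ : ℂ)))) volume 0 (2 * Real.pi) :=
      (c1.mul c3).intervalIntegrable _ _
    have i2 : IntervalIntegrable (fun θ : ℝ => ((x₀ : ℂ) + (y : ℂ) * (Real.cos θ : ℂ))⁻¹ ^ (j + 1) *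
        h ((y : ℂ) * (ρ * (Real.cos θ : ℂ) + σ * (Real.sin θ : ℂ)))) volume 0 (2 * Real.pi) :=
      (c2.mul c3).intervalIntegrable _ _
    rw [← intervalIntegral.integral_sub i1 i2]
    refine intervalIntegral.integral_congr fun θ _ => ?_
    simp only [lf_p]
    ring
  have e2 : ∫ θ in (0 : ℝ)..2 * Real.pi, ((x₀ : ℂ) + (y : ℂ) * (Real.cos θ : ℂ))⁻¹ ^ (j + 1) *
        h ((y : ℂ) * (ρ * (Real.cos θ : ℂ) + σ * (Real.sin θ : ℂ))) = -lf_E x₀ ρ σ j h y := by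
    rw [lf_shift (fun a b => ((x₀ : ℂ) + a)⁻¹ ^ (j + 1) * h b) ρ σ (y : ℂ)]
    unfold lf_E
    rw [← intervalIntegral.integral_neg]
    refine intervalIntegral.integral_congr fun θ _ => ?_
    have hm : (y : ℂ) * (ρ * (Real.cos θ : ℂ) + σ * (Real.sin θ : ℂ)) ∈
        Metric.ball (0 : ℂ) x₀ := by
      rw [mem_ball_zero_iff]; exact (lf_rot hρσ _ θ).trans_lt hn
    simp only [ho _ hm, ← sub_eq_add_neg]
    ring
  rw [e1, e2]
  ring

private theorem lf_Ep {ρ σ x₀ y : ℝ} (hσ : 0 < σ) (hρσ : ρ ^ 2 + σ ^ 2 = 1) (hy : 0 < y)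
    (hyx : y < x₀) (j k : ℕ)
    (h1 : ∫ θ in (0 : ℝ)..2 * Real.pi, ((x₀ : ℂ) - (y : ℂ) * (Real.cos θ : ℂ))⁻¹ ^ (j + 1) *
        ((x₀ : ℂ) - ((1 : ℝ) : ℂ) * ((y : ℂ) * (ρ * (Real.cos θ : ℂ) +
          σ * (Real.sin θ : ℂ))))⁻¹ ^ (k + 1) =
      Real.pi * ((-1) ^ j / (j.factorial : ℂ)) *
        iteratedDeriv j (NN (fun w => ((x₀ : ℂ) - ((1 : ℝ) : ℂ) * w)⁻¹ ^ (k + 1)) ρ σ
          ((y : ℂ) ^ 2)) x₀ +
      Real.pi * ((-1) ^ k / (k.factorial : ℂ)) *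
        iteratedDeriv k (NN (fun w => ((x₀ : ℂ) - ((1 : ℝ) : ℂ) * w)⁻¹ ^ (j + 1)) ρ σ
          ((y : ℂ) ^ 2)) x₀)
    (h2 : ∫ θ in (0 : ℝ)..2 * Real.pi, ((x₀ : ℂ) - (y : ℂ) * (Real.cos θ : ℂ))⁻¹ ^ (j + 1) *
        ((x₀ : ℂ) - ((-1 : ℝ) : ℂ) * ((y : ℂ) * (ρ * (Real.cos θ : ℂ) +
          σ * (Real.sin θ : ℂ))))⁻¹ ^ (k + 1) =
      Real.pi * ((-1) ^ j / (j.factorial : ℂ)) *
        iteratedDeriv j (NN (fun w => ((x₀ : ℂ) - ((-1 : ℝ) : ℂ) * w)⁻¹ ^ (k + 1)) ρ σ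
          ((y : ℂ) ^ 2)) x₀ +
      Real.pi * ((-1) ^ k / (k.factorial : ℂ)) *
        iteratedDeriv k (NN (fun w => ((x₀ : ℂ) - ((-1 : ℝ) : ℂ) * w)⁻¹ ^ (j + 1)) ρ σ
          ((y : ℂ) ^ 2)) x₀) :
    lf_E x₀ ρ σ j (lf_p x₀ k) y =
      Real.pi * ((-1) ^ j / (j.factorial : ℂ)) *
        iteratedDeriv j (NN (lf_p x₀ k) ρ σ ((y : ℂ) ^ 2)) x₀ +
      Real.pi * ((-1) ^ k / (k.factorial : ℂ)) *
        iteratedDeriv k (NN (lf_p x₀ j) ρ σ ((y : ℂ) ^ 2)) x₀ := by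
  have hn := lf_norm hy hyx
  have hg : ∀ (k : ℕ), ∀ x ∈ Metric.ball (0 : ℂ) x₀, lf_p x₀ k x =
      (fun w : ℂ => ((x₀ : ℂ) - ((1 : ℝ) : ℂ) * w)⁻¹ ^ (k + 1)) x +
      ∑ i ∈ range 1, (fun _ : ℕ => (-1 : ℂ)) i * (fun (_ : ℕ) (w : ℂ) =>
        ((x₀ : ℂ) - ((-1 : ℝ) : ℂ) * w)⁻¹ ^ (k + 1)) i x := by
    intro k x _
    rw [lf_p_eq, Finset.sum_range_one]
    ring
  have d1 := fun k => lf_q (x₀ := x₀) (s := 1) (Or.inl rfl) k
  have d2 := fun k => lf_q (x₀ := x₀) (s := -1) (Or.inr rfl) k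
  have e0 := lf_lin (lf_cq1 (x₀ := x₀) j hy hyx) hρσ hn (g := lf_p x₀ k) (n := 1)
    (c := fun _ => (-1 : ℂ)) (d1 k).continuousOn (fun _ => (d2 k).continuousOn) (hg k)
  have e1 := lf_D hσ hρσ hy hyx (g := lf_p x₀ k) (n := 1) (c := fun _ => (-1 : ℂ)) (d1 k)
    (fun _ => d2 k) (hg k) j
  have e2 := lf_D hσ hρσ hy hyx (g := lf_p x₀ j) (n := 1) (c := fun _ => (-1 : ℂ)) (d1 j)
    (fun _ => d2 j) (hg j) k
  rw [Finset.sum_range_one] at e0 e1 e2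
  unfold lf_E
  rw [e0, e1, e2, h1, h2]
  ring

private theorem lf_ev {x₀ : ℝ} {p : ℝ → Prop} :
    (∃ ε > 0, ∀ y : ℝ, x₀ - ε < y → y < x₀ → p y) ↔ ∀ᶠ y in 𝓝[<] x₀, p y := by
  constructor
  · rintro ⟨ε, hε, h⟩
    filter_upwards [Ioo_mem_nhdsLT (show x₀ - ε < x₀ by linarith)] with y hy
    exact h y hy.1 hy.2
  · intro h
    obtain ⟨l, hl, h2⟩ := mem_nhdsLT_iff_exists_Ioo_subset.mp h
    refine ⟨x₀ - l, sub_pos.mpr hl, fun y h3 h4 => h2 ⟨by linarith, h4⟩⟩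

theorem local_form {ρ σ x₀ : ℝ} (hρ : 0 < ρ) (hσ : 0 < σ) (hρσ : ρ ^ 2 + σ ^ 2 = 1) (hx : 0 < x₀)
    {d e : ℕ} {A B : ℕ → ℂ} {r f r' g : ℂ → ℂ} (hf : Prof x₀ d A r f) (hg : Prof x₀ e B r' g) :
    ∃ P : ℂ → ℂ, AnalyticAt ℂ P x₀ ∧ ∃ ε > 0, ∀ y : ℝ, x₀ - ε < y → y < x₀ →
      gI f g ρ σ y = P y + 2 * Real.pi * Lf d A x₀ (NN g ρ σ ((y : ℂ) ^ 2)) +
        2 * Real.pi * Lf e B x₀ (NN f ρ σ ((y : ℂ) ^ 2)) := by
  obtain ⟨R, hR, hrd, hfe⟩ := hf.form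
  obtain ⟨R', hR', hrd', hge⟩ := hg.form
  have hsub : Metric.ball (0 : ℂ) x₀ ⊆ Metric.ball 0 R := Metric.ball_subset_ball hR.le
  have hsub' : Metric.ball (0 : ℂ) x₀ ⊆ Metric.ball 0 R' := Metric.ball_subset_ball hR'.le
  have hne : ∀ x ∈ Metric.ball (0 : ℂ) x₀, x ≠ x₀ ∧ x ≠ -x₀ := by
    intro x hxm
    rw [mem_ball_zero_iff] at hxm
    constructor
    · rintro rfl
      rw [Complex.norm_real, Real.norm_eq_abs, abs_of_pos hx] at hxm
      exact lt_irrefl _ hxm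
    · rintro rfl
      rw [norm_neg, Complex.norm_real, Real.norm_eq_abs, abs_of_pos hx] at hxm
      exact lt_irrefl _ hxm
  have hfF : ∀ x ∈ Metric.ball (0 : ℂ) x₀, f x = r x + ∑ j ∈ range d, A j * lf_p x₀ j x :=
    fun x hxm => hfe x (hsub hxm) (hne x hxm).1 (hne x hxm).2
  have hgG : ∀ x ∈ Metric.ball (0 : ℂ) x₀, g x = r' x + ∑ j ∈ range e, B j * lf_p x₀ j x :=
    fun x hxm => hge x (hsub' hxm) (hne x hxm).1 (hne x hxm).2
  have hrx : DifferentiableOn ℂ r (Metric.ball 0 x₀) := hrd.mono hsub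
  have hrx' : DifferentiableOn ℂ r' (Metric.ball 0 x₀) := hrd'.mono hsub'
  have hgc : ContinuousOn g (Metric.ball 0 x₀) := by
    have : ContinuousOn (fun x => r' x + ∑ j ∈ range e, B j * lf_p x₀ j x) (Metric.ball 0 x₀) :=
      hrx'.continuousOn.add (continuousOn_finsetSum _ fun i _ =>
        continuousOn_const.mul (lf_p_diff x₀ i).continuousOn)
    exact this.congr hgG
  have hgo : ∀ x ∈ Metric.ball (0 : ℂ) x₀, g (-x) = -g x := by
    intro x hxm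
    have hxm' : -x ∈ Metric.ball (0 : ℂ) x₀ := by
      rw [mem_ball_zero_iff, norm_neg]; exact mem_ball_zero_iff.mp hxm
    rw [hgG _ hxm', hgG _ hxm, hg.odd, neg_add, ← Finset.sum_neg_distrib]
    congr 1
    refine Finset.sum_congr rfl fun i _ => ?_
    rw [lf_p_odd]; ring
  choose Ar hAr hIr using fun j => int_reg hρ hσ hρσ hx hR hrd j
  choose Ar' hAr' hIr' using fun j => int_reg hρ hσ hρσ hx hR' hrd' j
  have hI1 := fun j k => int_pol hρ hσ hρσ hx (s := 1) (Or.inl rfl) j k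
  have hI2 := fun j k => int_pol hρ hσ hρσ hx (s := -1) (Or.inr rfl) j k
  simp only [lf_ev] at hIr hIr' hI1 hI2 ⊢
  refine ⟨fun y => gI r' r ρ σ y + 2 * ∑ j ∈ range d, A j * Ar' j y +
    2 * ∑ k ∈ range e, B k * Ar k y, ?_, ?_⟩
  · refine AnalyticAt.fun_add (AnalyticAt.fun_add ?_ ?_) ?_
    · set R₀ := min R R' with hR₀
      have hR₀x : x₀ < R₀ := lt_min hR hR'
      have hsubR : Metric.ball (0 : ℂ) R₀ ⊆ Metric.ball 0 R :=
        Metric.ball_subset_ball (min_le_left _ _)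
      have hsubR' : Metric.ball (0 : ℂ) R₀ ⊆ Metric.ball 0 R' :=
        Metric.ball_subset_ball (min_le_right _ _)
      have hyn : ∀ y ∈ Metric.ball (x₀ : ℂ) (R₀ - x₀), ‖y‖ < R₀ := by
        intro y hy
        rw [Metric.mem_ball, dist_eq_norm] at hy
        calc ‖y‖ = ‖(y - x₀) + x₀‖ := by rw [sub_add_cancel]
          _ ≤ ‖y - x₀‖ + ‖(x₀ : ℂ)‖ := norm_add_le _ _
          _ < (R₀ - x₀) + x₀ := by
              rw [Complex.norm_real, Real.norm_eq_abs, abs_of_pos hx]; linarith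
          _ = R₀ := by ring
      refine analytic_int (a := 0) (b := 2 * Real.pi) (by positivity)
        (F := fun y θ => r' (y * Real.cos θ) * r (y * (ρ * Real.cos θ + σ * Real.sin θ)))
        (sub_pos.mpr hR₀x) ?_ ?_
      · have m1 : Set.MapsTo (fun p : ℂ × ℝ => p.1 * (Real.cos p.2 : ℂ))
            (Metric.ball (x₀ : ℂ) (R₀ - x₀) ×ˢ Set.Icc 0 (2 * Real.pi)) (Metric.ball 0 R') := by
          rintro ⟨y, θ⟩ ⟨h1, -⟩
          refine hsubR' ?_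
          rw [mem_ball_zero_iff]
          exact (lf_cos y θ).trans_lt (hyn y h1)
        have m2 : Set.MapsTo (fun p : ℂ × ℝ => p.1 * (ρ * (Real.cos p.2 : ℂ) +
            σ * (Real.sin p.2 : ℂ))) (Metric.ball (x₀ : ℂ) (R₀ - x₀) ×ˢ Set.Icc 0 (2 * Real.pi))
            (Metric.ball 0 R) := by
          rintro ⟨y, θ⟩ ⟨h1, -⟩
          refine hsubR ?_
          rw [mem_ball_zero_iff]
          exact (lf_rot hρσ y θ).trans_lt (hyn y h1)
        have c1 : Continuous (fun p : ℂ × ℝ => p.1 * (Real.cos p.2 : ℂ)) :=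
          continuous_fst.mul (Complex.continuous_ofReal.comp
            (Real.continuous_cos.comp continuous_snd))
        have c2 : Continuous (fun p : ℂ × ℝ => p.1 * (ρ * (Real.cos p.2 : ℂ) +
            σ * (Real.sin p.2 : ℂ))) :=
          continuous_fst.mul ((continuous_const.mul (Complex.continuous_ofReal.comp
            (Real.continuous_cos.comp continuous_snd))).add (continuous_const.mul
            (Complex.continuous_ofReal.comp (Real.continuous_sin.comp continuous_snd))))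
        exact (hrd'.continuousOn.comp c1.continuousOn m1).mul
          (hrd.continuousOn.comp c2.continuousOn m2)
      · intro θ _
        have m1 : Set.MapsTo (fun y : ℂ => y * (Real.cos θ : ℂ))
            (Metric.ball (x₀ : ℂ) (R₀ - x₀)) (Metric.ball 0 R') := by
          intro y h1
          refine hsubR' ?_
          rw [mem_ball_zero_iff]
          exact (lf_cos y θ).trans_lt (hyn y h1)
        have m2 : Set.MapsTo (fun y : ℂ => y * (ρ * (Real.cos θ : ℂ) +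
            σ * (Real.sin θ : ℂ))) (Metric.ball (x₀ : ℂ) (R₀ - x₀)) (Metric.ball 0 R) := by
          intro y h1
          refine hsubR ?_
          rw [mem_ball_zero_iff]
          exact (lf_rot hρσ y θ).trans_lt (hyn y h1)
        exact (hrd'.comp (differentiable_id.mul_const _).differentiableOn m1).mul
          (hrd.comp (differentiable_id.mul_const _).differentiableOn m2)
    · exact analyticAt_const.mul (Finset.analyticAt_fun_sum _ fun j _ =>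
        analyticAt_const.mul (hAr' j))
    · exact analyticAt_const.mul (Finset.analyticAt_fun_sum _ fun j _ =>
        analyticAt_const.mul (hAr j))
  · have v0 : ∀ᶠ y in 𝓝[<] x₀, 0 < y ∧ y < x₀ := by
      filter_upwards [Ioo_mem_nhdsLT hx] with y hy using ⟨hy.1, hy.2⟩
    have v1 := (Filter.eventually_all_finset (range e)).mpr fun k _ => hIr k
    have v2 := (Filter.eventually_all_finset (range d)).mpr fun j _ => hIr' j
    have v3 := (Filter.eventually_all_finset (range d)).mpr fun j _ =>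
      (Filter.eventually_all_finset (range e)).mpr fun k _ => hI1 j k
    have v4 := (Filter.eventually_all_finset (range d)).mpr fun j _ =>
      (Filter.eventually_all_finset (range e)).mpr fun k _ => hI2 j k
    filter_upwards [v0, v1, v2, v3, v4] with y w0 w1 w2 w3 w4
    obtain ⟨hy, hyx⟩ := w0
    have hn := lf_norm hy hyx
    have hpc : ∀ i, ContinuousOn (lf_p x₀ i) (Metric.ball 0 x₀) := fun i =>
      (lf_p_diff x₀ i).continuousOn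
    -- expansion of the integral
    have s1 : gI f g ρ σ y = gI g r ρ σ y + ∑ j ∈ range d, A j * gI g (lf_p x₀ j) ρ σ y := by
      rw [lf_symm f g hρσ]
      exact lf_lin (lf_cc hgc hn) hρσ hn hrx.continuousOn hpc hfF
    have s2 : gI g r ρ σ y = gI r r' ρ σ y + ∑ k ∈ range e, B k * gI r (lf_p x₀ k) ρ σ y := by
      rw [lf_symm g r hρσ]
      exact lf_lin (lf_cc hrx.continuousOn hn) hρσ hn hrx'.continuousOn hpc hgG
    have s3 : ∀ k, gI r (lf_p x₀ k) ρ σ y = 2 * lf_E x₀ ρ σ k r y := by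
      intro k
      rw [lf_symm r _ hρσ]
      exact lf_gIp hρσ hy hyx hrx.continuousOn (fun x _ => hf.odd x) k
    have s4 : ∀ j, gI g (lf_p x₀ j) ρ σ y = 2 * lf_E x₀ ρ σ j g y := by
      intro j
      rw [lf_symm g _ hρσ]
      exact lf_gIp hρσ hy hyx hgc hgo j
    have s5 : ∀ j, lf_E x₀ ρ σ j g y = lf_E x₀ ρ σ j r' y +
        ∑ k ∈ range e, B k * lf_E x₀ ρ σ j (lf_p x₀ k) y := by
      intro j
      exact lf_lin (lf_cq1 (x₀ := x₀) j hy hyx) hρσ hn hrx'.continuousOn hpc hgG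
    have s6 : ∀ j ∈ range d, ∀ k ∈ range e, lf_E x₀ ρ σ j (lf_p x₀ k) y =
        Real.pi * ((-1) ^ j / (j.factorial : ℂ)) *
          iteratedDeriv j (NN (lf_p x₀ k) ρ σ ((y : ℂ) ^ 2)) x₀ +
        Real.pi * ((-1) ^ k / (k.factorial : ℂ)) *
          iteratedDeriv k (NN (lf_p x₀ j) ρ σ ((y : ℂ) ^ 2)) x₀ := fun j hj k hk =>
      lf_Ep hσ hρσ hy hyx j k (w3 j hj k hk) (w4 j hj k hk)
    have s7 : ∀ k ∈ range e, lf_E x₀ ρ σ k r y = Ar k y +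
        Real.pi * ((-1) ^ k / (k.factorial : ℂ)) *
          iteratedDeriv k (NN r ρ σ ((y : ℂ) ^ 2)) x₀ := fun k hk => w1 k hk
    have s8 : ∀ j ∈ range d, lf_E x₀ ρ σ j r' y = Ar' j y +
        Real.pi * ((-1) ^ j / (j.factorial : ℂ)) *
          iteratedDeriv j (NN r' ρ σ ((y : ℂ) ^ 2)) x₀ := fun j hj => w2 j hj
    have t1 := fun j => lf_D hσ hρσ hy hyx hrx' (lf_p_diff x₀) hgG j
    have t2 := fun k => lf_D hσ hρσ hy hyx hrx (lf_p_diff x₀) hfF k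
    set pj : ℕ → ℂ := fun j => Real.pi * ((-1) ^ j / (j.factorial : ℂ)) with hpj
    set D : ℕ → (ℂ → ℂ) → ℂ := fun j h => iteratedDeriv j (NN h ρ σ ((y : ℂ) ^ 2)) x₀ with hD
    have q1 : ∑ k ∈ range e, B k * gI r (lf_p x₀ k) ρ σ y = 2 * ∑ k ∈ range e, B k * Ar k y +
        ∑ k ∈ range e, 2 * (B k * (pj k * D k r)) := by
      rw [Finset.mul_sum, ← Finset.sum_add_distrib]
      refine Finset.sum_congr rfl fun k hk => ?_
      rw [s3 k, s7 k hk]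
      simp only [hpj, hD]
      ring
    have q2 : ∑ j ∈ range d, A j * gI g (lf_p x₀ j) ρ σ y = 2 * ∑ j ∈ range d, A j * Ar' j y +
        ∑ j ∈ range d, 2 * (A j * (pj j * D j r')) +
        ∑ j ∈ range d, ∑ k ∈ range e, 2 * (A j * B k * pj j * D j (lf_p x₀ k)) +
        ∑ j ∈ range d, ∑ k ∈ range e, 2 * (A j * B k * pj k * D k (lf_p x₀ j)) := by
      rw [Finset.mul_sum, ← Finset.sum_add_distrib, ← Finset.sum_add_distrib,
        ← Finset.sum_add_distrib]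
      refine Finset.sum_congr rfl fun j hj => ?_
      rw [s4 j, s5 j, s8 j hj, add_assoc (2 * (A j * Ar' j y) + 2 * (A j * (pj j * D j r'))),
        ← Finset.sum_add_distrib]
      have : ∑ k ∈ range e, (2 * (A j * B k * pj j * D j (lf_p x₀ k)) +
          2 * (A j * B k * pj k * D k (lf_p x₀ j))) =
          2 * A j * ∑ k ∈ range e, B k * lf_E x₀ ρ σ j (lf_p x₀ k) y := by
        rw [Finset.mul_sum]
        refine Finset.sum_congr rfl fun k hk => ?_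
        rw [s6 j hj k hk]
        simp only [hpj, hD]
        ring
      rw [this]
      simp only [hpj, hD]
      ring
    have q3 : 2 * Real.pi * Lf d A x₀ (NN g ρ σ ((y : ℂ) ^ 2)) =
        ∑ j ∈ range d, 2 * (A j * (pj j * D j r')) +
        ∑ j ∈ range d, ∑ k ∈ range e, 2 * (A j * B k * pj j * D j (lf_p x₀ k)) := by
      unfold Lf
      rw [Finset.mul_sum, ← Finset.sum_add_distrib]
      refine Finset.sum_congr rfl fun j hj => ?_
      rw [t1 j]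
      have : ∑ k ∈ range e, 2 * (A j * B k * pj j * D j (lf_p x₀ k)) =
          2 * A j * pj j * ∑ k ∈ range e, B k *
            iteratedDeriv j (NN (lf_p x₀ k) ρ σ ((y : ℂ) ^ 2)) x₀ := by
        rw [Finset.mul_sum]
        refine Finset.sum_congr rfl fun k hk => ?_
        simp only [hD]
        ring
      rw [this]
      simp only [hpj, hD]
      ring
    have q4 : 2 * Real.pi * Lf e B x₀ (NN f ρ σ ((y : ℂ) ^ 2)) =
        ∑ k ∈ range e, 2 * (B k * (pj k * D k r)) +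
        ∑ k ∈ range e, ∑ j ∈ range d, 2 * (A j * B k * pj k * D k (lf_p x₀ j)) := by
      unfold Lf
      rw [Finset.mul_sum, ← Finset.sum_add_distrib]
      refine Finset.sum_congr rfl fun k hk => ?_
      rw [t2 k]
      have : ∑ j ∈ range d, 2 * (A j * B k * pj k * D k (lf_p x₀ j)) =
          2 * B k * pj k * ∑ j ∈ range d, A j *
            iteratedDeriv k (NN (lf_p x₀ j) ρ σ ((y : ℂ) ^ 2)) x₀ := by
        rw [Finset.mul_sum]
        refine Finset.sum_congr rfl fun j hj => ?_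
        simp only [hD]
        ring
      rw [this]
      simp only [hpj, hD]
      ring
    have q5 : ∑ k ∈ range e, ∑ j ∈ range d, 2 * (A j * B k * pj k * D k (lf_p x₀ j)) =
        ∑ j ∈ range d, ∑ k ∈ range e, 2 * (A j * B k * pj k * D k (lf_p x₀ j)) := Finset.sum_comm
    rw [s1, s2, lf_symm r r' hρσ, q1, q2, q3, q4, q5]
    ring

end Pool.Agent.TWO
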