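import Pool.Agent.TWO.Defs

set_option autoImplicit false

open PowerSeries Finset MeasureTheory Filter Topology

namespace Pool.Agent.TWO

/-- The first shift of the coefficients. -/
private noncomputable def c1_a (C : ℕ → ℕ → Polynomial ℂ) : ℕ → ℕ → Polynomial ℂ
  | 0, _ => 0
  | 1, _ => 0
  | k + 2, i => - (Polynomial.C (k : ℂ)) * Polynomial.X * C k i

/-- The second shift of the coefficients. -/
private noncomputable def c1_b (ρ : ℝ) (C : ℕ → ℕ → Polynomial ℂ) : ℕ → ℕ → Polynomial ℂ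
  | _, 0 => 0
  | k, i + 1 => Polynomial.C (ρ : ℂ) * C k i

/-- The third shift of the coefficients. -/
private noncomputable def c1_c (σ : ℝ) (C : ℕ → ℕ → Polynomial ℂ) : ℕ → ℕ → Polynomial ℂ
  | 0, _ => 0
  | _ + 1, 0 => 0
  | k + 1, i + 1 => Polynomial.C (Complex.I * (σ : ℂ)) * Polynomial.X * C k i

/-- The coefficients of the derivative. -/
private noncomputable def c1_s (ρ σ : ℝ) (C : ℕ → ℕ → Polynomial ℂ) (k i : ℕ) : Polynomial ℂ :=
  Polynomial.derivative (C k i) + c1_a C k i + c1_b ρ C k i + c1_c σ C k i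

/-- The coefficients of the iterated derivatives. -/
private noncomputable def c1_C (ρ σ : ℝ) : ℕ → ℕ → ℕ → Polynomial ℂ
  | 0 => fun k i => if k = 1 ∧ i = 0 then 1 else 0
  | m + 1 => c1_s ρ σ (c1_C ρ σ m)

private lemma c1_sum_big (K I : ℕ) (a : ℕ → ℕ → ℂ) (h : ∀ k i, K ≤ k ∨ I ≤ i → a k i = 0) :
    ∑ k ∈ range (K + 2), ∑ i ∈ range (I + 1), a k i = ∑ k ∈ range K, ∑ i ∈ range I, a k i := by
  have h1 : ∀ k, ∑ i ∈ range (I + 1), a k i = ∑ i ∈ range I, a k i := by
    intro k
    rw [Finset.sum_range_succ, h k I (Or.inr le_rfl), add_zero]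
  simp only [h1]
  rw [Finset.sum_range_succ, Finset.sum_range_succ]
  rw [Finset.sum_eq_zero (s := range I) (f := fun i => a K i) (fun i _ => h K i (Or.inl le_rfl)),
    Finset.sum_eq_zero (s := range I) (f := fun i => a (K + 1) i)
      (fun i _ => h (K + 1) i (Or.inl (Nat.le_succ K)))]
  ring

private lemma c1_sum_step (ρ σ : ℝ) (C : ℕ → ℕ → Polynomial ℂ) (K I : ℕ)
    (h : ∀ k i, K ≤ k ∨ I ≤ i → C k i = 0) (F : ℕ → ℕ → ℂ) (Z : ℂ) :
    ∑ k ∈ range (K + 2), ∑ i ∈ range (I + 1), (c1_s ρ σ C k i).eval Z * F k i =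
      ∑ k ∈ range K, ∑ i ∈ range I,
        ((Polynomial.derivative (C k i)).eval Z * F k i +
          (C k i).eval Z * (-(k : ℂ) * Z * F (k + 2) i + ρ * F k (i + 1) +
            Complex.I * σ * Z * F (k + 1) (i + 1))) := by
  have e1 : ∑ k ∈ range (K + 2), ∑ i ∈ range (I + 1),
      (Polynomial.derivative (C k i)).eval Z * F k i =
      ∑ k ∈ range K, ∑ i ∈ range I, (Polynomial.derivative (C k i)).eval Z * F k i :=
    c1_sum_big K I _ (fun k i hk => by rw [h k i hk]; simp)
  have e2 : ∑ k ∈ range (K + 2), ∑ i ∈ range (I + 1), (c1_a C k i).eval Z * F k i =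
      ∑ k ∈ range K, ∑ i ∈ range I, (C k i).eval Z * (-(k : ℂ) * Z * F (k + 2) i) := by
    rw [Finset.sum_range_succ', Finset.sum_range_succ']
    have : ∀ k, ∑ i ∈ range (I + 1), (c1_a C (k + 1 + 1) i).eval Z * F (k + 1 + 1) i =
        ∑ i ∈ range I, (C k i).eval Z * (-(k : ℂ) * Z * F (k + 2) i) := by
      intro k
      rw [Finset.sum_range_succ]
      simp only [c1_a]
      rw [h k I (Or.inr le_rfl)]
      simp only [mul_zero, Polynomial.eval_zero, zero_mul, add_zero]
      refine Finset.sum_congr rfl fun i _ => ?_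
      simp only [Polynomial.eval_mul, Polynomial.eval_neg, Polynomial.eval_C, Polynomial.eval_X]
      ring
    simp only [this]
    simp [c1_a]
  have e3 : ∑ k ∈ range (K + 2), ∑ i ∈ range (I + 1), (c1_b ρ C k i).eval Z * F k i =
      ∑ k ∈ range K, ∑ i ∈ range I, (C k i).eval Z * (ρ * F k (i + 1)) := by
    have : ∀ k, ∑ i ∈ range (I + 1), (c1_b ρ C k i).eval Z * F k i =
        ∑ i ∈ range I, (C k i).eval Z * (ρ * F k (i + 1)) := by
      intro k
      rw [Finset.sum_range_succ']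
      simp only [c1_b, Polynomial.eval_zero, zero_mul, add_zero]
      refine Finset.sum_congr rfl fun i _ => ?_
      simp only [Polynomial.eval_mul, Polynomial.eval_C]
      ring
    simp only [this]
    rw [Finset.sum_range_succ, Finset.sum_range_succ]
    rw [Finset.sum_eq_zero (s := range I) (f := fun i => (C K i).eval Z * (ρ * F K (i + 1)))
        (fun i _ => by rw [h K i (Or.inl le_rfl)]; simp),
      Finset.sum_eq_zero (s := range I)
        (f := fun i => (C (K + 1) i).eval Z * (ρ * F (K + 1) (i + 1)))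
        (fun i _ => by rw [h (K + 1) i (Or.inl (Nat.le_succ K))]; simp)]
    ring
  have e4 : ∑ k ∈ range (K + 2), ∑ i ∈ range (I + 1), (c1_c σ C k i).eval Z * F k i =
      ∑ k ∈ range K, ∑ i ∈ range I,
        (C k i).eval Z * (Complex.I * σ * Z * F (k + 1) (i + 1)) := by
    rw [Finset.sum_range_succ']
    have : ∀ k, ∑ i ∈ range (I + 1), (c1_c σ C (k + 1) i).eval Z * F (k + 1) i =
        ∑ i ∈ range I, (C k i).eval Z * (Complex.I * σ * Z * F (k + 1) (i + 1)) := by
      intro k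
      rw [Finset.sum_range_succ']
      simp only [c1_c, Polynomial.eval_zero, zero_mul, add_zero]
      refine Finset.sum_congr rfl fun i _ => ?_
      simp only [Polynomial.eval_mul, Polynomial.eval_C, Polynomial.eval_X]
      ring
    simp only [this]
    rw [Finset.sum_range_succ]
    rw [Finset.sum_eq_zero (s := range I)
        (f := fun i => (C K i).eval Z * (Complex.I * σ * Z * F (K + 1) (i + 1)))
        (fun i _ => by rw [h K i (Or.inl le_rfl)]; simp)]
    simp [c1_c]
  calc ∑ k ∈ range (K + 2), ∑ i ∈ range (I + 1), (c1_s ρ σ C k i).eval Z * F k i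
      = ∑ k ∈ range (K + 2), ∑ i ∈ range (I + 1),
          ((Polynomial.derivative (C k i)).eval Z * F k i + (c1_a C k i).eval Z * F k i +
            (c1_b ρ C k i).eval Z * F k i + (c1_c σ C k i).eval Z * F k i) := by
        refine Finset.sum_congr rfl fun k _ => Finset.sum_congr rfl fun i _ => ?_
        simp only [c1_s, Polynomial.eval_add]
        ring
    _ = _ := by
        simp only [Finset.sum_add_distrib]
        rw [e1, e2, e3, e4]
        simp only [← Finset.sum_add_distrib]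
        refine Finset.sum_congr rfl fun k _ => Finset.sum_congr rfl fun i _ => ?_
        ring

private lemma c1_C_zero (ρ σ : ℝ) (m k i : ℕ) (h : 2 * m + 2 ≤ k ∨ m + 1 ≤ i) :
    c1_C ρ σ m k i = 0 := by
  induction m generalizing k i with
  | zero =>
    simp only [c1_C]
    rw [if_neg]
    rintro ⟨h1, h2⟩
    omega
  | succ m ih =>
    simp only [c1_C, c1_s]
    rw [ih k i (by omega)]
    have h1 : c1_a (c1_C ρ σ m) k i = 0 := by
      match k with
      | 0 => rfl
      | 1 => rfl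
      | k + 2 =>
        simp only [c1_a]
        rw [ih k i (by omega)]
        simp
    have h2 : c1_b ρ (c1_C ρ σ m) k i = 0 := by
      match i with
      | 0 => rfl
      | i + 1 =>
        simp only [c1_b]
        rw [ih k i (by omega)]
        simp
    have h3 : c1_c σ (c1_C ρ σ m) k i = 0 := by
      match k, i with
      | 0, _ => rfl
      | _ + 1, 0 => rfl
      | k + 1, i + 1 =>
        simp only [c1_c]
        rw [ih k i (by omega)]
        simp
    rw [h1, h2, h3]
    simp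

private lemma c1_C_top (ρ σ : ℝ) (m i : ℕ) :
    c1_C ρ σ m (2 * m + 1) i =
      if i = 0 then Polynomial.C ((-1) ^ m * ((2 * m - 1).doubleFactorial : ℂ)) * Polynomial.X ^ m
      else 0 := by
  induction m with
  | zero =>
    simp [c1_C]
  | succ m ih =>
    have h0 : 2 * (m + 1) + 1 = (2 * m + 1) + 2 := by ring
    rw [h0]
    simp only [c1_C, c1_s]
    rw [c1_C_zero ρ σ m (2 * m + 1 + 2) i (by omega)]
    have h2 : c1_b ρ (c1_C ρ σ m) (2 * m + 1 + 2) i = 0 := by
      match i with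
      | 0 => rfl
      | i + 1 =>
        simp only [c1_b]
        rw [c1_C_zero ρ σ m _ i (by omega)]
        simp
    have h3 : c1_c σ (c1_C ρ σ m) (2 * m + 1 + 2) i = 0 := by
      match i with
      | 0 => rfl
      | i + 1 =>
        simp only [c1_c]
        rw [c1_C_zero ρ σ m _ i (by omega)]
        simp
    have h4 : (2 * (m + 1) - 1).doubleFactorial = (2 * m + 1) * (2 * m - 1).doubleFactorial := by
      rcases m with _ | m
      · rfl
      · have : 2 * (m + 1 + 1) - 1 = (2 * m + 1) + 2 := by omega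
        rw [this, Nat.doubleFactorial_add_two]
        have : 2 * (m + 1) - 1 = 2 * m + 1 := by omega
        rw [this]
        ring
    rw [h2, h3]
    simp only [c1_a, ih]
    split_ifs with hi
    · rw [h4]
      simp only [Polynomial.derivative_zero, zero_add, add_zero, Nat.cast_mul, Polynomial.C_mul,
        Polynomial.C_pow, Polynomial.C_neg, Polynomial.C_1]
      push_cast
      ring
    · simp

private lemma c1_an {f : ℂ → ℂ} {x : ℂ} (hf : AnalyticAt ℂ f x) (i : ℕ) :
    AnalyticAt ℂ (iteratedDeriv i f) x := by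
  induction i with
  | zero => simpa using hf
  | succ i ih => rw [iteratedDeriv_succ]; exact ih.deriv

private lemma c1_iter (ρ σ : ℝ) (x : ℂ) (η f : ℂ → ℂ) (hη : η x ≠ 0)
    (hd : ∀ᶠ Z in 𝓝 x, HasDerivAt η (Z / η Z) Z)
    (hf : AnalyticAt ℂ f (ρ * x + Complex.I * σ * η x)) (m : ℕ) :
    iteratedDeriv m (fun Z => f (ρ * Z + Complex.I * σ * η Z) / η Z) =ᶠ[𝓝 x]
      fun Z => ∑ k ∈ range (2 * m + 2), ∑ i ∈ range (m + 1), (c1_C ρ σ m k i).eval Z *
        ((η Z)⁻¹ ^ k * iteratedDeriv i f (ρ * Z + Complex.I * σ * η Z)) := by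
  have hc : ContinuousAt η x := hd.self_of_nhds.continuousAt
  have hne : ∀ᶠ Z in 𝓝 x, η Z ≠ 0 := hc.eventually_ne hη
  have hfa : ∀ᶠ Z in 𝓝 x, AnalyticAt ℂ f (ρ * Z + Complex.I * σ * η Z) := by
    have h1 : ContinuousAt (fun Z : ℂ => (ρ : ℂ) * Z + Complex.I * σ * η Z) x := by
      fun_prop
    exact h1.eventually hf.eventually_analyticAt
  induction m with
  | zero =>
    refine Eventually.of_forall fun Z => ?_
    simp [c1_C, Finset.sum_range_succ]
    ring
  | succ m ih =>
    rw [iteratedDeriv_succ]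
    refine (ih.deriv).trans ?_
    filter_upwards [hd, hne, hfa] with Z h1 h2 h3
    have hu : HasDerivAt (fun Z : ℂ => (ρ : ℂ) * Z + Complex.I * σ * η Z)
        (ρ + Complex.I * σ * (Z / η Z)) Z := by
      have := ((hasDerivAt_id' Z).const_mul (ρ : ℂ)).fun_add (h1.const_mul (Complex.I * σ))
      simpa using this
    have hterm : ∀ k i, HasDerivAt (fun Z => (c1_C ρ σ m k i).eval Z *
        ((η Z)⁻¹ ^ k * iteratedDeriv i f (ρ * Z + Complex.I * σ * η Z)))
        ((Polynomial.derivative (c1_C ρ σ m k i)).eval Z *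
          ((η Z)⁻¹ ^ k * iteratedDeriv i f (ρ * Z + Complex.I * σ * η Z)) +
          (c1_C ρ σ m k i).eval Z * (-(k : ℂ) * Z * ((η Z)⁻¹ ^ (k + 2) *
            iteratedDeriv i f (ρ * Z + Complex.I * σ * η Z)) +
            ρ * ((η Z)⁻¹ ^ k * iteratedDeriv (i + 1) f (ρ * Z + Complex.I * σ * η Z)) +
            Complex.I * σ * Z * ((η Z)⁻¹ ^ (k + 1) *
              iteratedDeriv (i + 1) f (ρ * Z + Complex.I * σ * η Z)))) Z := by
      intro k i
      have hp : HasDerivAt (fun Z => (c1_C ρ σ m k i).eval Z)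
          ((Polynomial.derivative (c1_C ρ σ m k i)).eval Z) Z :=
        Polynomial.hasDerivAt _ Z
      have hi : HasDerivAt (fun Z => (η Z)⁻¹) (-(Z / η Z) / η Z ^ 2) Z := h1.inv h2
      have hk : HasDerivAt (fun Z => (η Z)⁻¹ ^ k) (-(k : ℂ) * Z * (η Z)⁻¹ ^ (k + 2)) Z := by
        have := hi.pow k
        refine (this.congr_deriv ?_)
        rcases k with _ | k
        · simp
        · simp only [Nat.add_sub_cancel, Nat.cast_add, Nat.cast_one, div_eq_mul_inv, ← inv_pow]
          ring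
      have hfi : HasDerivAt (iteratedDeriv i f)
          (iteratedDeriv (i + 1) f (ρ * Z + Complex.I * σ * η Z))
          (ρ * Z + Complex.I * σ * η Z) := by
        rw [iteratedDeriv_succ]
        exact (c1_an h3 i).differentiableAt.hasDerivAt
      have hcomp := hfi.comp Z hu
      have := hp.mul (hk.mul hcomp)
      refine this.congr_deriv ?_
      simp only [Function.comp_apply, Pi.mul_apply]
      have h4 : (η Z)⁻¹ ^ (k + 1) = (η Z)⁻¹ ^ k * (η Z)⁻¹ := pow_succ _ _
      rw [h4, div_eq_mul_inv]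
      ring
    have hsum : HasDerivAt (fun Z => ∑ k ∈ range (2 * m + 2), ∑ i ∈ range (m + 1),
        (c1_C ρ σ m k i).eval Z *
        ((η Z)⁻¹ ^ k * iteratedDeriv i f (ρ * Z + Complex.I * σ * η Z)))
        (∑ k ∈ range (2 * m + 2), ∑ i ∈ range (m + 1),
          ((Polynomial.derivative (c1_C ρ σ m k i)).eval Z *
          ((η Z)⁻¹ ^ k * iteratedDeriv i f (ρ * Z + Complex.I * σ * η Z)) +
          (c1_C ρ σ m k i).eval Z * (-(k : ℂ) * Z * ((η Z)⁻¹ ^ (k + 2) *
            iteratedDeriv i f (ρ * Z + Complex.I * σ * η Z)) +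
            ρ * ((η Z)⁻¹ ^ k * iteratedDeriv (i + 1) f (ρ * Z + Complex.I * σ * η Z)) +
            Complex.I * σ * Z * ((η Z)⁻¹ ^ (k + 1) *
              iteratedDeriv (i + 1) f (ρ * Z + Complex.I * σ * η Z))))) Z := by
      refine HasDerivAt.fun_sum fun k _ => HasDerivAt.fun_sum fun i _ => hterm k i
    rw [hsum.deriv]
    have := c1_sum_step ρ σ (c1_C ρ σ m) (2 * m + 2) (m + 1)
      (fun k i h => c1_C_zero ρ σ m k i h)
      (fun k i => (η Z)⁻¹ ^ k * iteratedDeriv i f (ρ * Z + Complex.I * σ * η Z)) Z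
    rw [← this]
    rfl

theorem iter_NN (ρ σ x₀ : ℝ) (hx : 0 < x₀) : ∃ cf : ℕ → ℕ → ℕ → ℂ,
    (∀ m i, cf m (2 * m + 1) i =
      if i = 0 then (-1) ^ m * ((2 * m - 1).doubleFactorial : ℂ) * (x₀ : ℂ) ^ m else 0) ∧
    ∀ (f : ℂ → ℂ) (q : ℂ), 0 < q.re → AnalyticAt ℂ f (ρ * x₀ + Complex.I * σ * q) →
      AnalyticAt ℂ f (ρ * x₀ - Complex.I * σ * q) → ∀ m,
      iteratedDeriv m (NN f ρ σ ((x₀ : ℂ) ^ 2 - q ^ 2)) x₀ =
        ∑ k ∈ range (2 * m + 2), ∑ i ∈ range (m + 1), cf m k i *
          (q⁻¹ ^ k * iteratedDeriv i f (ρ * x₀ + Complex.I * σ * q) -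
            (-q)⁻¹ ^ k * iteratedDeriv i f (ρ * x₀ - Complex.I * σ * q)) := by
  refine ⟨fun m k i => (c1_C ρ σ m k i).eval (x₀ : ℂ), ?_, ?_⟩
  · intro m i
    simp only [c1_C_top]
    split_ifs with hi
    · simp
    · simp
  intro f q hq hf1 hf2 m
  have hx' : (x₀ : ℂ) ≠ 0 := by exact_mod_cast hx.ne'
  have hq0 : q ≠ 0 := by
    rintro rfl
    simp at hq
  set s : ℂ := (x₀ : ℂ) ^ 2 - q ^ 2 with hs
  have hbase : 1 - s / (x₀ : ℂ) ^ 2 = (q / x₀) ^ 2 := by
    rw [hs]
    field_simp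
    ring
  have hre : 0 < (q / x₀).re := by
    rw [Complex.div_ofReal_re]
    positivity
  have hsl : 1 - s / (x₀ : ℂ) ^ 2 ∈ Complex.slitPlane := by
    rw [hbase, Complex.mem_slitPlane_iff]
    by_contra hcon
    push Not at hcon
    obtain ⟨h1, h2⟩ := hcon
    have h3 : ((q / (x₀ : ℂ)) ^ 2).im = 2 * (q / x₀).re * (q / x₀).im := by
      rw [sq, Complex.mul_im]; ring
    have h4 : ((q / (x₀ : ℂ)) ^ 2).re = (q / x₀).re ^ 2 - (q / x₀).im ^ 2 := by
      rw [sq, Complex.mul_re]; ring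
    rw [h3] at h2
    have h5 : (q / (x₀ : ℂ)).im = 0 := by
      rcases mul_eq_zero.mp h2 with h | h
      · exfalso; linarith
      · exact h
    rw [h4, h5] at h1
    nlinarith
  have hval : eta s x₀ = q := by
    unfold eta
    rw [hbase]
    have h1 : ((q / (x₀ : ℂ)) ^ 2) ^ (1 / 2 : ℂ) = q / x₀ := by
      have := Complex.pow_cpow_nat_inv (x := q / (x₀ : ℂ)) (n := 2) two_ne_zero ?_ ?_
      · simpa using this
      · have h2 := Complex.abs_arg_lt_pi_div_two_iff.mpr (Or.inl hre)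
        rw [abs_lt] at h2
        have := h2.1
        push_cast
        linarith
      · have h2 := Complex.abs_arg_lt_pi_div_two_iff.mpr (Or.inl hre)
        rw [abs_lt] at h2
        have := h2.2
        push_cast
        linarith
    rw [h1]
    field_simp
  have hd : ∀ᶠ Z in 𝓝 (x₀ : ℂ), HasDerivAt (eta s) (Z / eta s Z) Z := by
    have hcont : ContinuousAt (fun Z : ℂ => 1 - s / Z ^ 2) x₀ := by
      have : ((x₀ : ℂ)) ^ 2 ≠ 0 := pow_ne_zero 2 hx'
      fun_prop (disch := assumption)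
    have hsl' : ∀ᶠ Z in 𝓝 (x₀ : ℂ), 1 - s / Z ^ 2 ∈ Complex.slitPlane :=
      hcont.eventually (Complex.isOpen_slitPlane.mem_nhds hsl)
    have hne : ∀ᶠ Z in 𝓝 (x₀ : ℂ), Z ≠ 0 := (continuousAt_id).eventually_ne hx'
    filter_upwards [hsl', hne] with Z h1 h2
    have hw : 1 - s / Z ^ 2 ≠ 0 := Complex.slitPlane_ne_zero h1
    have hb : HasDerivAt (fun Z : ℂ => 1 - s / Z ^ 2) (2 * s / Z ^ 3) Z := by
      have h3 : HasDerivAt (fun Z : ℂ => Z ^ 2) (2 * Z) Z := by
        simpa using hasDerivAt_pow 2 Z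
      have h4 := ((hasDerivAt_const Z s).div h3 (pow_ne_zero 2 h2)).const_sub 1
      refine h4.congr_deriv ?_
      field_simp
      ring
    have hc2 := hb.cpow_const (c := (1 / 2 : ℂ)) h1
    have hprod := (hasDerivAt_id Z).mul hc2
    have heq : eta s = (id : ℂ → ℂ) * fun Z : ℂ => (1 - s / Z ^ 2) ^ (1 / 2 : ℂ) := by
      funext Z
      rfl
    rw [heq]
    refine hprod.congr_deriv ?_
    have hsq : ((1 - s / Z ^ 2) ^ (1 / 2 : ℂ)) * ((1 - s / Z ^ 2) ^ (1 / 2 : ℂ)) =
        1 - s / Z ^ 2 := by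
      rw [← Complex.cpow_add _ _ hw]
      norm_num
    have hsub : (1 - s / Z ^ 2) ^ ((1 / 2 : ℂ) - 1) =
        ((1 - s / Z ^ 2) ^ (1 / 2 : ℂ)) / (1 - s / Z ^ 2) := by
      rw [Complex.cpow_sub _ _ hw, Complex.cpow_one]
    have hne2 : (1 - s / Z ^ 2) ^ (1 / 2 : ℂ) ≠ 0 := by
      intro h
      rw [h] at hsq
      apply hw
      rw [← hsq]
      ring
    simp only [Pi.mul_apply, id]
    rw [hsub]
    set w := (1 - s / Z ^ 2) ^ (1 / 2 : ℂ) with hwdef
    rw [← hsq]
    have hs2 : s = Z ^ 2 - Z ^ 2 * (w * w) := by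
      rw [hsq]
      field_simp
      ring
    rw [hs2]
    field_simp
    ring
  have hne0 : eta s x₀ ≠ 0 := by rw [hval]; exact hq0
  -- the two branches
  have hA := c1_iter ρ σ (x₀ : ℂ) (eta s) f hne0 hd (by rw [hval]; exact hf1) m
  have hd' : ∀ᶠ Z in 𝓝 (x₀ : ℂ), HasDerivAt (fun Z => - eta s Z) (Z / (- eta s Z)) Z := by
    filter_upwards [hd] with Z h
    have := h.fun_neg
    refine this.congr_deriv ?_
    rw [div_neg]
  have hB := c1_iter ρ σ (x₀ : ℂ) (fun Z => - eta s Z) f (neg_ne_zero.mpr hne0) hd'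
    (by
      rw [hval]
      have : (ρ : ℂ) * x₀ + Complex.I * σ * (-q) = ρ * x₀ - Complex.I * σ * q := by ring
      rw [this]; exact hf2) m
  have hNN : NN f ρ σ s = fun Z => f (ρ * Z + Complex.I * σ * eta s Z) / eta s Z -
      f (ρ * Z + Complex.I * σ * (- eta s Z)) / (- eta s Z) := by
    funext Z
    unfold NN
    have : (ρ : ℂ) * Z + Complex.I * σ * (- eta s Z) = ρ * Z - Complex.I * σ * eta s Z := by ring
    rw [this, add_div, div_neg]
    ring
  have hetaA : AnalyticAt ℂ (eta s) x₀ := by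
    have : DifferentiableOn ℂ (eta s) {Z | HasDerivAt (eta s) (Z / eta s Z) Z} :=
      fun Z hZ => hZ.differentiableAt.differentiableWithinAt
    exact this.analyticAt hd
  have hcA : AnalyticAt ℂ (fun Z => f (ρ * Z + Complex.I * σ * eta s Z) / eta s Z) x₀ := by
    refine AnalyticAt.div ?_ hetaA hne0
    have hin : AnalyticAt ℂ (fun Z : ℂ => (ρ : ℂ) * Z + Complex.I * σ * eta s Z) x₀ := by
      fun_prop
    exact AnalyticAt.fun_comp (by rw [hval]; exact hf1) hin
  have hcB : AnalyticAt ℂ (fun Z => f (ρ * Z + Complex.I * σ * (- eta s Z)) / (- eta s Z)) x₀ := by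
    refine AnalyticAt.div ?_ hetaA.fun_neg (neg_ne_zero.mpr hne0)
    have hin : AnalyticAt ℂ (fun Z : ℂ => (ρ : ℂ) * Z + Complex.I * σ * (- eta s Z)) x₀ := by
      fun_prop
    refine AnalyticAt.fun_comp ?_ hin
    rw [hval]
    have : (ρ : ℂ) * x₀ + Complex.I * σ * (-q) = ρ * x₀ - Complex.I * σ * q := by ring
    rw [this]; exact hf2
  rw [hNN, iteratedDeriv_fun_sub hcA.contDiffAt hcB.contDiffAt, hA.self_of_nhds, hB.self_of_nhds]
  simp only [hval]
  rw [← Finset.sum_sub_distrib]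
  refine Finset.sum_congr rfl fun k _ => ?_
  rw [← Finset.sum_sub_distrib]
  refine Finset.sum_congr rfl fun i _ => ?_
  have : (ρ : ℂ) * x₀ + Complex.I * σ * (-q) = ρ * x₀ - Complex.I * σ * q := by ring
  rw [this]
  ring

end Pool.Agent.TWO
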