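import Pool.Agent.TWO.Defs
import Pool.Agent.TWO.A4
import Pool.Agent.TWO.A3

set_option autoImplicit false

open PowerSeries Finset MeasureTheory Filter Topology

namespace Pool.Agent.TWO

private lemma c2_dslope {F : ℂ → ℂ} (hF : AnalyticAt ℂ F 0) : AnalyticAt ℂ (dslope F 0) 0 := by
  obtain ⟨p, hp⟩ := hF
  exact ⟨_, hp.has_fpower_series_dslope_fslope⟩

private lemma c2_dslope_mul (F : ℂ → ℂ) (w : ℂ) : F w = F 0 + w * dslope F 0 w := by
  have := sub_smul_dslope F 0 w
  simp only [sub_zero, smul_eq_mul] at this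
  rw [this]
  ring

private lemma c2_taylor (d : ℕ) : ∀ (F : ℂ → ℂ), AnalyticAt ℂ F 0 → ∃ (h : ℕ → ℂ) (K : ℂ → ℂ),
    AnalyticAt ℂ K 0 ∧ (0 < d → h 0 = F 0) ∧
      ∀ w, F w = ∑ i ∈ range d, h i * w ^ i + w ^ d * K w := by
  induction d with
  | zero =>
    intro F hF
    exact ⟨fun _ => 0, F, hF, fun h => absurd h (lt_irrefl 0), fun w => by simp⟩
  | succ d ih =>
    intro F hF
    obtain ⟨h, K, hK, -, hs⟩ := ih (dslope F 0) (c2_dslope hF)
    refine ⟨fun i => Nat.casesOn i (F 0) h, K, hK, fun _ => rfl, fun w => ?_⟩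
    rw [Finset.sum_range_succ']
    have := c2_dslope_mul F w
    rw [this, hs w]
    change _ = ∑ i ∈ range d, h i * w ^ (i + 1) + F 0 * w ^ 0 + w ^ (d + 1) * K w
    rw [mul_add, Finset.mul_sum]
    have : ∑ i ∈ range d, w * (h i * w ^ i) = ∑ i ∈ range d, h i * w ^ (i + 1) :=
      Finset.sum_congr rfl fun i _ => by ring
    rw [this]
    ring

private lemma c2_local {X : Finset ℕ} (hX : IsLeaf X) {L : ℝ} (hL : 0 < L) :
    ∃ (A : ℕ → ℂ) (K : ℂ → ℂ), AnalyticAt ℂ K 0 ∧
      A (dg X - 1) = ((be X * (2 / L) ^ dg X : ℝ) : ℂ) ∧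
      ∀ᶠ w in 𝓝 (0 : ℂ), w ≠ 0 → U X (L * (((2 * Real.pi / L : ℝ) : ℂ) - w)) =
        ∑ j ∈ range (dg X), A j * w⁻¹ ^ (j + 1) + K w := by
  have hd : 0 < dg X := by
    have := hX.card
    unfold dg
    omega
  have hL' : (L : ℂ) ≠ 0 := by exact_mod_cast hL.ne'
  set d := dg X with hdd
  set x₀ : ℂ := ((2 * Real.pi / L : ℝ) : ℂ) with hx₀
  have hLx : (L : ℂ) * x₀ = 2 * Real.pi := by
    rw [hx₀]
    push_cast
    field_simp
  -- the function sin (L w / 2) / w
  set T : ℂ → ℂ := dslope (fun w : ℂ => Complex.sin (L * w / 2)) 0 with hT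
  have hsinA : AnalyticAt ℂ (fun w : ℂ => Complex.sin (L * w / 2)) 0 := by fun_prop
  have hTA : AnalyticAt ℂ T 0 := c2_dslope hsinA
  have hT0 : T 0 = L / 2 := by
    rw [hT, dslope_same]
    have h1 : HasDerivAt (fun w : ℂ => (L : ℂ) * w / 2) ((L : ℂ) / 2) 0 := by
      have := ((hasDerivAt_id' (0 : ℂ)).const_mul (L : ℂ)).div_const 2
      simpa using this
    have h2 := h1.csin
    rw [h2.deriv]
    simp
  have hTne : T 0 ≠ 0 := by
    rw [hT0]
    exact div_ne_zero hL' two_ne_zero
  have hTmul : ∀ w : ℂ, Complex.sin (L * w / 2) = w * T w := by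
    intro w
    have := c2_dslope_mul (fun w : ℂ => Complex.sin (L * w / 2)) w
    simp only [mul_zero, zero_div, Complex.sin_zero, zero_add] at this
    exact this
  set H : ℂ → ℂ := fun w => (∏ p ∈ X, Complex.sin (L * (x₀ - w) / (2 * p))) / T w ^ d with hH
  have hHA : AnalyticAt ℂ H 0 := by
    refine AnalyticAt.fun_div ?_ (hTA.fun_pow d) (pow_ne_zero d hTne)
    refine Finset.analyticAt_fun_prod X fun p _ => ?_
    fun_prop
  have hH0 : H 0 = ((be X * (2 / L) ^ d : ℝ) : ℂ) := by
    simp only [hH, sub_zero, hT0]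
    unfold be
    push_cast
    rw [div_eq_mul_inv]
    congr 1
    · refine Finset.prod_congr rfl fun p _ => ?_
      rw [hLx]
      congr 1
      rw [mul_div_mul_left _ _ (two_ne_zero)]
    · rw [← inv_pow]
      congr 1
      rw [inv_div]
  obtain ⟨h, K, hK, h0, hs⟩ := c2_taylor d H hHA
  refine ⟨fun j => h (d - 1 - j), K, hK, ?_, ?_⟩
  · simp only [Nat.sub_self]
    rw [h0 hd, hH0]
  · filter_upwards [hTA.continuousAt.eventually_ne hTne] with w hw hw0
    have hU : U X (L * (x₀ - w)) = H w / w ^ d := by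
      unfold U
      simp only [hH]
      have h1 : Complex.sin (L * (x₀ - w) / 2) = w * T w := by
        rw [← hTmul w]
        have : (L : ℂ) * (x₀ - w) / 2 = Real.pi - L * w / 2 := by
          rw [mul_sub, hLx]; ring
        rw [this, Complex.sin_pi_sub]
      rw [h1, mul_pow, div_div, mul_comm (w ^ dg X)]
    rw [hU, hs w, add_div, Finset.sum_div]
    congr 1
    · rw [← Finset.sum_range_reflect]
      refine Finset.sum_congr rfl fun j hj => ?_
      have hj' : j < d := Finset.mem_range.mp hj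
      rw [mul_div_assoc]
      congr 1
      rw [div_eq_iff (pow_ne_zero d hw0)]
      have h5 : w ^ d = w ^ (j + 1) * w ^ (d - 1 - j) := by
        rw [← pow_add]
        congr 1
        omega
      rw [h5, ← mul_assoc, ← mul_pow, inv_mul_cancel₀ hw0, one_pow, one_mul]
    · field_simp

theorem prof_top {X : Finset ℕ} (hX : IsLeaf X) {L : ℝ} (hL : 0 < L) : ∃ (A : ℕ → ℂ) (r : ℂ → ℂ),
    Prof (2 * Real.pi / L) (dg X) A r (fun x => U X (L * x)) ∧
      A (dg X - 1) = ((be X * (2 / L) ^ dg X : ℝ) : ℂ) := by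
  classical
  obtain ⟨A, K, hK, hA, hev⟩ := c2_local hX hL
  have hL' : (L : ℂ) ≠ 0 := by exact_mod_cast hL.ne'
  have hx0pos : 0 < 2 * Real.pi / L := by positivity
  set x₁ : ℝ := 2 * Real.pi / L with hx₁
  set x₀ : ℂ := (x₁ : ℂ) with hx₀
  have hx0 : x₀ ≠ 0 := by
    rw [hx₀]
    exact_mod_cast hx0pos.ne'
  have hne : x₀ ≠ -x₀ := by
    intro h
    apply hx0
    have : (2 : ℂ) * x₀ = 0 := by linear_combination h
    simpa using this
  have hLx : (L : ℂ) * x₀ = 2 * Real.pi := by
    rw [hx₀, hx₁]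
    push_cast
    field_simp
  set d := dg X with hd
  set P : ℂ → ℂ := fun x => ∑ j ∈ range d, A j * ((x₀ - x)⁻¹ ^ (j + 1) - (x₀ + x)⁻¹ ^ (j + 1))
    with hP
  set c : ℂ := K 0 + ∑ j ∈ range d, A j * (x₀ + x₀)⁻¹ ^ (j + 1) with hc
  set r : ℂ → ℂ := fun x => if x = x₀ then c else if x = -x₀ then -c else U X (L * x) - P x with hr
  have hPodd : ∀ x, P (-x) = - P x := by
    intro x
    simp only [hP]
    rw [← Finset.sum_neg_distrib]
    refine Finset.sum_congr rfl fun j _ => ?_
    rw [sub_neg_eq_add, ← sub_eq_add_neg]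
    ring
  have hrodd : ∀ x, r (-x) = - r x := by
    intro x
    simp only [hr]
    by_cases h1 : x = x₀
    · rw [if_neg (by rw [h1]; exact hne.symm), if_pos (by rw [h1]), if_pos h1]
    · by_cases h2 : x = -x₀
      · rw [if_pos (by rw [h2, neg_neg]), if_neg h1, if_pos h2, neg_neg]
      · rw [if_neg (fun h => h2 (by rw [← h, neg_neg])), if_neg (fun h => h1 (neg_injective h)),
          if_neg h1, if_neg h2, hPodd, mul_neg, U_odd hX]
        ring
  have hr₀ : AnalyticAt ℂ r x₀ := by
    have hcont : Tendsto (fun x : ℂ => x₀ - x) (𝓝 x₀) (𝓝 0) := by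
      have : ContinuousAt (fun x : ℂ => x₀ - x) x₀ := by fun_prop
      simpa [ContinuousAt] using this
    have h1 : ∀ᶠ x in 𝓝 x₀, (x₀ - x) ≠ 0 → U X (L * (x₀ - (x₀ - x))) =
        ∑ j ∈ range d, A j * (x₀ - x)⁻¹ ^ (j + 1) + K (x₀ - x) := hcont.eventually hev
    have h2 : ∀ᶠ x in 𝓝 x₀, x ≠ -x₀ := (continuousAt_id).eventually_ne hne
    have h3 : r =ᶠ[𝓝 x₀] fun x => K (x₀ - x) + ∑ j ∈ range d, A j * (x₀ + x)⁻¹ ^ (j + 1) := by
      filter_upwards [h1, h2] with x hx1 hx2
      simp only [hr]
      by_cases hx : x = x₀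
      · rw [if_pos hx, hx, sub_self, hc]
      · rw [if_neg hx, if_neg hx2]
        have := hx1 (sub_ne_zero.mpr (Ne.symm hx))
        rw [sub_sub_cancel] at this
        rw [this]
        simp only [hP, mul_sub, Finset.sum_sub_distrib]
        ring
    refine AnalyticAt.congr ?_ h3.symm
    refine AnalyticAt.fun_add ?_ ?_
    · refine AnalyticAt.fun_comp (g := K) (f := fun x => x₀ - x) ?_ ?_
      · simpa using hK
      · fun_prop
    · refine Finset.analyticAt_fun_sum _ fun j _ => ?_
      refine analyticAt_const.fun_mul ((AnalyticAt.fun_inv ?_ ?_).fun_pow _)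
      · fun_prop
      · intro h
        apply hx0
        have : (2 : ℂ) * x₀ = 0 := by linear_combination h
        simpa using this
  have hr₁ : AnalyticAt ℂ r (-x₀) := by
    have h1 : r = fun x => - r (-x) := by
      funext x
      rw [hrodd x, neg_neg]
    rw [h1]
    refine AnalyticAt.fun_neg ?_
    refine AnalyticAt.fun_comp (g := r) (f := fun x => -x) ?_ ?_
    · simpa using hr₀
    · fun_prop
  refine ⟨A, r, ⟨hrodd, 2 * x₁, ?_, ?_, ?_⟩, hA⟩
  · linarith
  · intro x hx
    rw [Metric.mem_ball, dist_zero_right] at hx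
    refine DifferentiableAt.differentiableWithinAt (AnalyticAt.differentiableAt ?_)
    by_cases hx1 : x = x₀
    · rw [hx1]; exact hr₀
    by_cases hx2 : x = -x₀
    · rw [hx2]; exact hr₁
    have h1 : ∀ᶠ y in 𝓝 x, y ≠ x₀ := (continuousAt_id).eventually_ne hx1
    have h2 : ∀ᶠ y in 𝓝 x, y ≠ -x₀ := (continuousAt_id).eventually_ne hx2
    have h3 : r =ᶠ[𝓝 x] fun x => U X (L * x) - P x := by
      filter_upwards [h1, h2] with y hy1 hy2
      simp only [hr]
      rw [if_neg hy1, if_neg hy2]
    refine AnalyticAt.congr ?_ h3.symm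
    refine AnalyticAt.fun_sub ?_ ?_
    · refine AnalyticAt.fun_comp (g := U X) (f := fun x => (L : ℂ) * x) ?_ ?_
      · apply U_analytic hX
        by_cases hs : Complex.sin ((L : ℂ) * x / 2) = 0
        · left
          rw [Complex.sin_eq_zero_iff] at hs
          obtain ⟨k, hk⟩ := hs
          have hLxk : (L : ℂ) * x = k * (2 * Real.pi) := by linear_combination 2 * hk
          have hxk : x = k * x₀ := by
            have : (L : ℂ) * x = L * (k * x₀) := by
              rw [hLxk]
              linear_combination (-(k : ℂ)) * hLx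
            exact mul_left_cancel₀ hL' this
          have hnorm : ‖x‖ = |(k : ℝ)| * x₁ := by
            rw [hxk, norm_mul, hx₀, Complex.norm_real, Real.norm_of_nonneg hx0pos.le]
            congr 1
            have : ((k : ℂ)) = (((k : ℝ)) : ℂ) := by push_cast; rfl
            rw [this, Complex.norm_real]
            rfl
          rw [hnorm] at hx
          have hk2 : |(k : ℝ)| < 2 := lt_of_mul_lt_mul_right hx hx0pos.le
          have hk3 : |k| < 2 := by
            have : ((|k| : ℤ) : ℝ) < 2 := by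
              rw [Int.cast_abs]; exact hk2
            exact_mod_cast this
          have hk4 : k = 0 := by
            rw [abs_lt] at hk3
            have h1 : k ≠ 1 := by
              rintro rfl
              apply hx1
              rw [hxk]
              simp
            have h2 : k ≠ -1 := by
              rintro rfl
              apply hx2
              rw [hxk]
              simp
            omega
          rw [hLxk, hk4]
          simp [Real.pi_pos]
        · right
          exact hs
      · fun_prop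
    · simp only [hP]
      refine Finset.analyticAt_fun_sum _ fun j _ => ?_
      refine analyticAt_const.fun_mul (((AnalyticAt.fun_inv ?_ ?_).fun_pow _).fun_sub
        ((AnalyticAt.fun_inv ?_ ?_).fun_pow _))
      · fun_prop
      · exact sub_ne_zero.mpr (Ne.symm hx1)
      · fun_prop
      · intro h
        apply hx2
        linear_combination h
  · intro x _ hx1 hx2
    simp only [hr]
    rw [if_neg hx1, if_neg hx2]
    simp only [hP]
    ring

theorem prof_reg {X : Finset ℕ} (hX : IsLeaf X) {L x₀ : ℝ} (hL : 0 < L) (hx : 0 < x₀)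
    (h : L * x₀ < 2 * Real.pi) :
    Prof x₀ 0 (fun _ => 0) (fun x => U X (L * x)) (fun x => U X (L * x)) := by
  refine ⟨fun x => ?_, 2 * Real.pi / L, ?_, ?_, ?_⟩
  · rw [mul_neg, U_odd hX]
  · rw [lt_div_iff₀ hL]
    linarith
  · intro x hx'
    rw [Metric.mem_ball, dist_zero_right, lt_div_iff₀ hL] at hx'
    refine DifferentiableAt.differentiableWithinAt (AnalyticAt.differentiableAt ?_)
    refine AnalyticAt.fun_comp (g := U X) (f := fun x => (L : ℂ) * x) ?_ ?_
    · apply U_analytic hX
      left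
      rw [norm_mul, Complex.norm_real, Real.norm_of_nonneg hL.le]
      linarith
    · fun_prop
  · intro x _ _ _
    simp

end Pool.Agent.TWO
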