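import Pool.Agent.TWO.Defs

set_option autoImplicit false

open PowerSeries Finset MeasureTheory Filter Topology

namespace Pool.Agent.TWO

private theorem C3_sq (K : ℕ) : ((-1 : ℂ) ^ K) * (-1) ^ K = 1 := by
  rw [← mul_pow]
  norm_num

private theorem C3_parity (G G' : ℂ → ℂ) (K K' : ℕ) (q : ℂ) :
    (-q) ^ K' * (G (-q) - (-1) ^ K * G (- -q)) - (-q) ^ K * (G' (-q) - (-1) ^ K' * G' (- -q)) =
      -(-1) ^ (K + K') * (q ^ K' * (G q - (-1) ^ K * G (-q)) -
        q ^ K * (G' q - (-1) ^ K' * G' (-q))) := by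
  have ha := C3_sq K
  have hb := C3_sq K'
  rw [neg_neg, neg_pow q K, neg_pow q K', pow_add]
  linear_combination (-((-1) ^ K' * q ^ K' * G (-q))) * ha + ((-1) ^ K * q ^ K * G' (-q)) * hb

private theorem C3_form {G : ℂ → ℂ} {K : ℕ} {q : ℂ} (hq : q ≠ 0) :
    q ^ K * (G q / q ^ K - G (-q) / (-q) ^ K) = G q - (-1) ^ K * G (-q) := by
  have ha := C3_sq K
  have hqK : q ^ K ≠ 0 := pow_ne_zero K hq
  have ha0 : ((-1 : ℂ) ^ K) ≠ 0 := pow_ne_zero K (by norm_num)
  have e1 : G (-q) / (-q) ^ K = (-1) ^ K * G (-q) / q ^ K := by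
    rw [neg_pow, div_eq_div_iff (mul_ne_zero ha0 hqK) hqK]
    linear_combination (-(G (-q) * q ^ K)) * ha
  rw [e1]
  field_simp

theorem odd_unique {x₀ : ℝ} (hx : 0 < x₀) {O O' P P' : ℂ → ℂ} (hO : OddPart O) (hO' : OddPart O')
    (hP : AnalyticAt ℂ P x₀) (hP' : AnalyticAt ℂ P' x₀) {ε : ℝ} (hε : 0 < ε)
    (h : ∀ y : ℝ, x₀ - ε < y → y < x₀ → P y + O (Real.sqrt (x₀ ^ 2 - y ^ 2)) =
      P' y + O' (Real.sqrt (x₀ ^ 2 - y ^ 2))) : ∀ q : ℂ, 0 < q.re → O q = O' q := by
  obtain ⟨G, K, hG, ε₁, hε₁, hGO⟩ := hO.near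
  obtain ⟨G', K', hG', ε₂, hε₂, hGO'⟩ := hO'.near
  have hx0 : (x₀ : ℂ) ≠ 0 := by exact_mod_cast hx.ne'
  -- the square root
  set w : ℂ → ℂ := fun q => x₀ * (1 - (q / x₀) ^ 2) ^ (1 / 2 : ℂ) with hw
  have hw0 : w 0 = x₀ := by simp [hw]
  have hwA : AnalyticAt ℂ w 0 := by
    apply AnalyticAt.mul analyticAt_const
    apply AnalyticAt.cpow
    · fun_prop (disch := exact hx0)
    · exact analyticAt_const
    · simp [Complex.one_mem_slitPlane]
  have hwe : ∀ q, w (-q) = w q := by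
    intro q
    simp only [hw]
    rw [neg_div, neg_sq]
  set h1 : ℂ → ℂ := fun q => P' (w q) - P (w q) with hh
  have hh1 : AnalyticAt ℂ h1 0 := by
    apply AnalyticAt.sub
    · exact AnalyticAt.fun_comp (by rw [hw0]; exact hP') hwA
    · exact AnalyticAt.fun_comp (by rw [hw0]; exact hP) hwA
  set A : ℂ → ℂ := fun q => q ^ K' * (G q - (-1) ^ K * G (-q)) -
    q ^ K * (G' q - (-1) ^ K' * G' (-q)) with hAdef
  have hneg : AnalyticAt ℂ (fun q : ℂ => -q) 0 := analyticAt_id.neg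
  have hGn : AnalyticAt ℂ (fun q => G (-q)) 0 :=
    AnalyticAt.fun_comp (g := G) (f := fun q : ℂ => -q) (by simpa using hG) hneg
  have hGn' : AnalyticAt ℂ (fun q => G' (-q)) 0 :=
    AnalyticAt.fun_comp (g := G') (f := fun q : ℂ => -q) (by simpa using hG') hneg
  have hA : AnalyticAt ℂ A 0 := by
    apply AnalyticAt.sub
    · exact (analyticAt_id.pow K').mul (hG.sub (analyticAt_const.mul hGn))
    · exact (analyticAt_id.pow K).mul (hG'.sub (analyticAt_const.mul hGn'))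
  have hAneg : ∀ q, A (-q) = -(-1) ^ (K + K') * A q := fun q => C3_parity G G' K K' q
  have hAO : ∀ q : ℂ, 0 < q.re → ‖q‖ < ε₁ → ‖q‖ < ε₂ → A q = q ^ (K + K') * (O q - O' q) := by
    intro q hq h1 h2
    have hq0 : q ≠ 0 := by
      rintro rfl
      simp at hq
    rw [hGO q hq h1, hGO' q hq h2]
    have f1 := C3_form (G := G) (K := K) hq0
    have f2 := C3_form (G := G') (K := K') hq0
    rw [hAdef, pow_add]
    simp only
    rw [← f1, ← f2]
    ring
  -- equality on small positive reals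
  obtain ⟨r, hr0, hrx, hr1, hr2, hrε⟩ : ∃ r : ℝ, 0 < r ∧ r < x₀ ∧ r < ε₁ ∧ r < ε₂ ∧
      r < ε := by
    refine ⟨min (min x₀ ε) (min ε₁ ε₂) / 2, by positivity, ?_, ?_, ?_, ?_⟩
    all_goals
      have m1 : min (min x₀ ε) (min ε₁ ε₂) ≤ min x₀ ε := min_le_left _ _
      have m2 : min (min x₀ ε) (min ε₁ ε₂) ≤ min ε₁ ε₂ := min_le_right _ _
      have m3 : min x₀ ε ≤ x₀ := min_le_left _ _
      have m4 : min x₀ ε ≤ ε := min_le_right _ _
      have m5 : min ε₁ ε₂ ≤ ε₁ := min_le_left _ _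
      have m6 : min ε₁ ε₂ ≤ ε₂ := min_le_right _ _
      have m7 : 0 < min (min x₀ ε) (min ε₁ ε₂) := by positivity
      linarith
  have key : ∀ s : ℝ, 0 < s → s < r → A s = (s : ℂ) ^ (K + K') * h1 s := by
    intro s hs0 hsr
    have hn : ‖(s : ℂ)‖ = s := by
      rw [Complex.norm_real, Real.norm_eq_abs, abs_of_pos hs0]
    have hre : 0 < ((s : ℝ) : ℂ).re := by simpa using hs0
    rw [hAO s hre (by rw [hn]; linarith) (by rw [hn]; linarith)]
    congr 1
    set u : ℝ := (s / x₀) ^ 2 with hu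
    have hsx : s / x₀ < 1 := by
      rw [div_lt_one hx]
      linarith
    have hsx0 : 0 < s / x₀ := div_pos hs0 hx
    have hu0 : 0 < u := by positivity
    have hu1 : u < 1 := by
      rw [hu]
      nlinarith
    set y : ℝ := x₀ * Real.sqrt (1 - u) with hy
    have hy2 : y ^ 2 = x₀ ^ 2 - s ^ 2 := by
      rw [hy, mul_pow, Real.sq_sqrt (by linarith), hu]
      field_simp
    have hs1 : Real.sqrt (1 - u) < 1 := by
      rw [Real.sqrt_lt' one_pos]
      linarith
    have hs2 : 1 - u ≤ Real.sqrt (1 - u) := by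
      apply Real.le_sqrt_of_sq_le
      nlinarith
    have hy1 : y < x₀ := by
      rw [hy]
      nlinarith
    have hxu : x₀ * u = s * (s / x₀) := by
      rw [hu]
      field_simp
    have hy3 : x₀ - ε < y := by
      have h3 : x₀ * (1 - u) ≤ y := mul_le_mul_of_nonneg_left hs2 hx.le
      have h4 : s * (s / x₀) < s * 1 := mul_lt_mul_of_pos_left hsx hs0
      nlinarith
    have hsq : Real.sqrt (x₀ ^ 2 - y ^ 2) = s := by
      rw [hy2, show x₀ ^ 2 - (x₀ ^ 2 - s ^ 2) = s ^ 2 by ring, Real.sqrt_sq hs0.le]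
    have hws : w s = y := by
      simp only [hw]
      have e1 : (1 - ((s : ℂ) / x₀) ^ 2) = ((1 - u : ℝ) : ℂ) := by
        rw [hu]
        push_cast
        ring
      have e2 : (1 / 2 : ℂ) = ((1 / 2 : ℝ) : ℂ) := by
        push_cast
        ring
      rw [e1, e2, ← Complex.ofReal_cpow (by linarith), ← Real.sqrt_eq_rpow, hy]
      push_cast
      ring
    have h5 := h y hy3 hy1
    rw [hsq] at h5
    rw [hh]
    simp only
    rw [hws]
    linear_combination h5
  have hB : AnalyticAt ℂ (fun q : ℂ => q ^ (K + K') * h1 q) 0 := (analyticAt_id.pow (K + K')).mul hh1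
  have hfreq : ∃ᶠ q in 𝓝[≠] (0 : ℂ), A q = q ^ (K + K') * h1 q := by
    rw [Filter.Frequently]
    intro hcon
    rw [eventually_nhdsWithin_iff, Metric.eventually_nhds_iff] at hcon
    obtain ⟨δ, hδ, hδ'⟩ := hcon
    set s : ℝ := min δ r / 2 with hs
    have m1 : min δ r ≤ δ := min_le_left _ _
    have m2 : min δ r ≤ r := min_le_right _ _
    have m3 : 0 < min δ r := by positivity
    have hs0 : 0 < s := by positivity
    have hn : ‖(s : ℂ)‖ = s := by
      rw [Complex.norm_real, Real.norm_eq_abs, abs_of_pos hs0]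
    apply hδ' (y := (s : ℂ))
    · rw [dist_zero_right, hn]
      linarith
    · simp only [Set.mem_compl_iff, Set.mem_singleton_iff]
      exact_mod_cast hs0.ne'
    · exact key s hs0 (by linarith)
  have hev := (hA.frequently_eq_iff_eventually_eq hB).1 hfreq
  rw [Metric.eventually_nhds_iff] at hev
  obtain ⟨δ, hδ, hev'⟩ := hev
  have hA0 : ∀ q : ℂ, ‖q‖ < δ → A q = 0 := by
    intro q hq
    have g1 := hev' (y := q) (by rwa [dist_zero_right])
    have g2 := hev' (y := -q) (by rwa [dist_zero_right, norm_neg])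
    have g3 : h1 (-q) = h1 q := by
      rw [hh]
      simp only
      rw [hwe]
    rw [hAneg, g3, neg_pow q, mul_assoc, ← g1] at g2
    have g4 : ((-1 : ℂ) ^ (K + K')) ≠ 0 := pow_ne_zero _ (by norm_num)
    have g5 : (-1 : ℂ) ^ (K + K') * A q = 0 := by
      linear_combination (-(1 / 2 : ℂ)) * g2
    rcases mul_eq_zero.1 g5 with g6 | g6
    · exact absurd g6 g4
    · exact g6
  have hOO : ∀ q : ℂ, 0 < q.re → ‖q‖ < δ → ‖q‖ < ε₁ → ‖q‖ < ε₂ → O q = O' q := by
    intro q hq h0 h1 h2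
    have hq0 : q ≠ 0 := by
      rintro rfl
      simp at hq
    have g1 := hAO q hq h1 h2
    rw [hA0 q h0] at g1
    rcases mul_eq_zero.1 g1.symm with g2 | g2
    · exact absurd g2 (pow_ne_zero _ hq0)
    · exact sub_eq_zero.1 g2
  have hopen : IsOpen {q : ℂ | 0 < q.re} := isOpen_lt continuous_const Complex.continuous_re
  have hpre : IsPreconnected {q : ℂ | 0 < q.re} := (convex_halfSpace_re_gt 0).isPreconnected
  set s : ℝ := min δ r / 2 with hs
  have m1 : min δ r ≤ δ := min_le_left _ _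
  have m2 : min δ r ≤ r := min_le_right _ _
  have m3 : 0 < min δ r := by positivity
  have hs0 : 0 < s := by positivity
  have hn : ‖(s : ℂ)‖ = s := by
    rw [Complex.norm_real, Real.norm_eq_abs, abs_of_pos hs0]
  have hsm : (s : ℂ) ∈ {q : ℂ | 0 < q.re} := by
    show 0 < ((s : ℝ) : ℂ).re
    simpa using hs0
  have hloc : O =ᶠ[𝓝 (s : ℂ)] O' := by
    have v1 : ∀ᶠ q in 𝓝 (s : ℂ), q ∈ {q : ℂ | 0 < q.re} := hopen.mem_nhds hsm
    have v2 : ∀ᶠ q in 𝓝 (s : ℂ), ‖q‖ < min δ r := by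
      apply (continuous_norm.tendsto (s : ℂ)).eventually_lt_const
      rw [hn]
      linarith
    filter_upwards [v1, v2] with q hq1 hq2
    exact hOO q hq1 (by linarith) (by linarith) (by linarith)
  exact fun q hq => (hO.diff.analyticOnNhd hopen).eqOn_of_preconnected_of_eventuallyEq
    (hO'.diff.analyticOnNhd hopen) hpre hsm hloc hq

end Pool.Agent.TWO
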