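import Pool.Agent.TWO.Defs

set_option autoImplicit false

open PowerSeries Finset MeasureTheory Filter Topology

namespace Pool.Agent.TWO

private theorem sep_recur (ξ : ℝ) (M : ℕ) : ∃ k j : ℤ, (M : ℤ) ≤ k ∧
    |(k : ℝ) * ξ - j| ≤ 1 / (M + 1 : ℝ) := by
  obtain ⟨j, k, hk, -, h⟩ := Real.exists_int_int_abs_mul_sub_le ξ (n := (M + 1) ^ 2) (by positivity)
  refine ⟨(M + 1) * k, (M + 1) * j, ?_, ?_⟩
  · nlinarith [Int.natCast_nonneg M]
  · push_cast at h ⊢
    have e : ((M : ℝ) + 1) * k * ξ - (M + 1) * j = (M + 1) * (k * ξ - j) := by ring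
    have h1 : (0 : ℝ) < (M : ℝ) + 1 := by positivity
    rw [e, abs_mul, abs_of_pos h1]
    calc ((M : ℝ) + 1) * |(k : ℝ) * ξ - j| ≤ (M + 1) * (1 / ((M + 1) ^ 2 + 1)) :=
          mul_le_mul_of_nonneg_left h h1.le
      _ ≤ 1 / (M + 1) := by
          rw [mul_one_div, div_le_div_iff₀ (by positivity) h1]
          nlinarith

private theorem sep_top {K : ℕ} {c T T' : ℝ} (hT : 0 < T) (hT' : 0 < T') {f f' : ℕ → ℝ → ℂ}
    (hf : ∀ k, Continuous (f k)) (hf' : ∀ k, Continuous (f' k)) (hp : ∀ k t, f k (t + T) = f k t)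
    (hp' : ∀ k t, f' k (t + T') = f' k t)
    (h : ∀ t : ℝ, ∑ k ∈ range (K + 1), ((c : ℂ) + Complex.I * t) ^ k * (f k t - f' k t) = 0)
    (t : ℝ) : f K t = f' K t := by
  have hb : ∀ k, ∃ B : ℝ, ∀ t, ‖f k t - f' k t‖ ≤ B := by
    intro k
    have h1 : Function.Periodic (f k) T := hp k
    have h2 : Function.Periodic (f' k) T' := hp' k
    obtain ⟨B, hB⟩ := (h1.isBounded_of_continuous hT.ne' (hf k)).exists_norm_le
    obtain ⟨B', hB'⟩ := (h2.isBounded_of_continuous hT'.ne' (hf' k)).exists_norm_le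
    refine ⟨B + B', fun t => (norm_sub_le _ _).trans (add_le_add (hB _ ⟨t, rfl⟩)
      (hB' _ ⟨t, rfl⟩))⟩
  choose B hB using hb
  have hB0 : ∀ k, 0 ≤ B k := fun k => (norm_nonneg _).trans (hB k 0)
  have hg : ∀ s : ℝ, 1 ≤ s → s * ‖f K s - f' K s‖ ≤ ∑ k ∈ range K, B k := by
    intro s hs
    set z : ℂ := (c : ℂ) + Complex.I * s with hz
    have him : z.im = s := by simp [hz]
    have hzs : s ≤ ‖z‖ := by
      calc s = |z.im| := by rw [him, abs_of_nonneg (by linarith)]
        _ ≤ ‖z‖ := Complex.abs_im_le_norm z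
    have hz1 : 1 ≤ ‖z‖ := hs.trans hzs
    have h1 := h s
    rw [Finset.sum_range_succ, ← hz] at h1
    have h2 : z ^ K * (f K s - f' K s) = -∑ k ∈ range K, z ^ k * (f k s - f' k s) := by
      linear_combination h1
    have h3 : ‖z‖ ^ K * (‖z‖ * ‖f K s - f' K s‖) ≤ ‖z‖ ^ K * ∑ k ∈ range K, B k := by
      calc ‖z‖ ^ K * (‖z‖ * ‖f K s - f' K s‖) = ‖z‖ * ‖z ^ K * (f K s - f' K s)‖ := by
            rw [norm_mul, norm_pow]; ring
        _ = ‖z‖ * ‖∑ k ∈ range K, z ^ k * (f k s - f' k s)‖ := by rw [h2, norm_neg]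
        _ ≤ ‖z‖ * ∑ k ∈ range K, ‖z ^ k * (f k s - f' k s)‖ :=
            mul_le_mul_of_nonneg_left (norm_sum_le _ _) (norm_nonneg _)
        _ ≤ ∑ k ∈ range K, ‖z‖ ^ K * B k := by
            rw [Finset.mul_sum]
            refine Finset.sum_le_sum fun k hk => ?_
            rw [norm_mul, norm_pow, ← mul_assoc, ← pow_succ']
            exact mul_le_mul (pow_le_pow_right₀ hz1 (Finset.mem_range.mp hk)) (hB k s)
              (norm_nonneg _) (by positivity)
        _ = ‖z‖ ^ K * ∑ k ∈ range K, B k := by rw [Finset.mul_sum]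
    have h4 := le_of_mul_le_mul_left h3 (by positivity)
    exact (mul_le_mul_of_nonneg_right hzs (norm_nonneg _)).trans h4
  choose kk jj hk hj using sep_recur (T / T')
  set S := ∑ k ∈ range K, B k with hS
  have hS0 : 0 ≤ S := Finset.sum_nonneg fun k _ => hB0 k
  -- the points
  set η : ℕ → ℝ := fun M => (kk M : ℝ) * T - jj M * T' with hη
  have hη0 : Tendsto η atTop (𝓝 0) := by
    have h1 : ∀ M : ℕ, |η M| ≤ T' * (1 / ((M : ℝ) + 1)) := by
      intro M
      have e : η M = T' * ((kk M : ℝ) * (T / T') - jj M) := by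
        simp only [hη]; field_simp
      rw [e, abs_mul, abs_of_pos hT']
      exact mul_le_mul_of_nonneg_left (hj M) hT'.le
    have h2 : Tendsto (fun M : ℕ => T' * (1 / ((M : ℝ) + 1))) atTop (𝓝 0) := by
      have := (tendsto_one_div_add_atTop_nhds_zero_nat (𝕜 := ℝ)).const_mul T'
      simpa using this
    exact squeeze_zero_norm h1 h2
  have hpf : ∀ M : ℕ, f K (t + kk M * T) = f K t := by
    intro M
    have h1 : Function.Periodic (f K) T := hp K
    exact (h1.int_mul (kk M)) t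
  have hpf' : ∀ M : ℕ, f' K (t + kk M * T) = f' K (t + η M) := by
    intro M
    have h1 : Function.Periodic (f' K) T' := hp' K
    have e : t + kk M * T = (t + η M) + jj M * T' := by simp only [hη]; ring
    rw [e]
    exact (h1.int_mul (jj M)) (t + η M)
  have hlim : Tendsto (fun M : ℕ => f K (t + kk M * T) - f' K (t + kk M * T)) atTop
      (𝓝 (f K t - f' K t)) := by
    simp only [hpf, hpf']
    refine tendsto_const_nhds.sub ?_
    have h1 : Tendsto (fun M => t + η M) atTop (𝓝 (t + 0)) := tendsto_const_nhds.add hη0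
    rw [add_zero] at h1
    exact ((hf' K).tendsto t).comp h1
  have hs : Tendsto (fun M : ℕ => t + kk M * T) atTop atTop := by
    refine tendsto_atTop_add_const_left _ _ ?_
    refine Tendsto.atTop_mul_const hT ?_
    refine tendsto_atTop_mono (f := fun M : ℕ => (M : ℝ)) (fun M => ?_) tendsto_natCast_atTop_atTop
    exact_mod_cast hk M
  have hlim0 : Tendsto (fun M : ℕ => f K (t + kk M * T) - f' K (t + kk M * T)) atTop (𝓝 0) := by
    have h1 : Tendsto (fun M : ℕ => S / (t + kk M * T)) atTop (𝓝 0) :=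
      tendsto_const_nhds.div_atTop hs
    refine squeeze_zero_norm' ?_ h1
    filter_upwards [hs.eventually_ge_atTop 1] with M hM
    rw [le_div_iff₀ (by linarith), mul_comm]
    exact hg _ hM
  have := tendsto_nhds_unique hlim hlim0
  exact sub_eq_zero.mp this

theorem sep {K : ℕ} {c T T' : ℝ} (hc : 0 < c) (hT : 0 < T) (hT' : 0 < T') {f f' : ℕ → ℝ → ℂ}
    (hf : ∀ k, Continuous (f k)) (hf' : ∀ k, Continuous (f' k)) (hp : ∀ k t, f k (t + T) = f k t)
    (hp' : ∀ k t, f' k (t + T') = f' k t)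
    (h : ∀ t : ℝ, ∑ k ∈ range K, ((c : ℂ) + Complex.I * t) ^ k * (f k t - f' k t) = 0) :
    ∀ k < K, ∀ t, f k t = f' k t := by
  clear hc
  induction K with
  | zero => intro k hk; exact absurd hk (Nat.not_lt_zero k)
  | succ K ih =>
    have htop := sep_top hT hT' hf hf' hp hp' h
    have h' : ∀ t : ℝ, ∑ k ∈ range K, ((c : ℂ) + Complex.I * t) ^ k * (f k t - f' k t) = 0 := by
      intro t
      have := h t
      rw [Finset.sum_range_succ, htop t, sub_self, mul_zero, add_zero] at this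
      exact this
    intro k hk t
    rcases Nat.lt_succ_iff_lt_or_eq.mp hk with h1 | h1
    · exact ih h' k h1 t
    · subst h1; exact htop t

end Pool.Agent.TWO
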