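import Pool.Agent.TWO.Defs
import Pool.Agent.TWO.C4

set_option autoImplicit false

open PowerSeries Finset MeasureTheory Filter Topology

namespace Pool.Agent.TWO

private theorem c5_re_im (q : ℂ) : ((q.re : ℝ) : ℂ) + Complex.I * (q.im : ℝ) = q := by
  rw [mul_comm]
  exact Complex.re_add_im q

private theorem c5_re (c t : ℝ) : ((c : ℂ) + Complex.I * t).re = c := by simp

theorem top_eq {O O' E E' : ℂ → ℂ} {n : ℕ} {T T' : ℝ} (h : HasTop O E n T) (h' : HasTop O' E' n T')
    (hO : ∀ q : ℂ, 0 < q.re → O q = O' q) : ∀ q : ℂ, 0 < q.re → E q = E' q := by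
  intro q hq
  obtain ⟨F, hF1, hF2, hF3, hF4⟩ := h.2 q.re hq
  obtain ⟨F', hF1', hF2', hF3', hF4'⟩ := h'.2 q.re hq
  have key := sep (K := n + 1) hq h.1 h'.1 hF1 hF1' hF2 hF2' (fun t => by
    have e1 := hF3 t
    have e2 := hF3' t
    have e3 : O ((q.re : ℂ) + Complex.I * t) = O' ((q.re : ℂ) + Complex.I * t) := by
      apply hO
      rw [c5_re]
      exact hq
    rw [e3, e2] at e1
    have : ∑ k ∈ range (n + 1), ((q.re : ℂ) + Complex.I * t) ^ k * (F k t - F' k t) =
        ∑ k ∈ range (n + 1), ((q.re : ℂ) + Complex.I * t) ^ k * F k t -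
        ∑ k ∈ range (n + 1), ((q.re : ℂ) + Complex.I * t) ^ k * F' k t := by
      rw [← Finset.sum_sub_distrib]
      exact Finset.sum_congr rfl fun k _ => by ring
    rw [this, ← e1, sub_self]) 0 (Nat.succ_pos n) q.im
  rw [hF4, hF4', c5_re_im] at key
  exact key

theorem top_lt {O O' E E' : ℂ → ℂ} {n n' : ℕ} {T T' : ℝ} (h : HasTop O E n T)
    (h' : HasTop O' E' n' T') (hO : ∀ q : ℂ, 0 < q.re → O q = O' q) (hn : n' < n) :
    ∀ q : ℂ, 0 < q.re → E q = 0 := by
  intro q hq
  obtain ⟨F, hF1, hF2, hF3, hF4⟩ := h.2 q.re hq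
  obtain ⟨F', hF1', hF2', hF3', hF4'⟩ := h'.2 q.re hq
  obtain ⟨m, rfl⟩ : ∃ m, n = n' + (m + 1) := ⟨n - n' - 1, by omega⟩
  set G : ℕ → ℝ → ℂ := fun k => if m + 1 ≤ k then F' (k - (m + 1)) else fun _ => 0 with hG
  have key := sep (K := n' + (m + 1) + 1) (f := F) (f' := G) hq h.1 h'.1 hF1
    (fun k => by
      by_cases hk : m + 1 ≤ k
      · simp only [hG, if_pos hk]; exact hF1' _
      · simp only [hG, if_neg hk]; exact continuous_const)
    hF2
    (fun k t => by
      by_cases hk : m + 1 ≤ k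
      · simp only [hG, if_pos hk]; exact hF2' _ _
      · simp only [hG, if_neg hk])
    (fun t => by
      have e1 := hF3 t
      have e2 := hF3' t
      have e3 : O ((q.re : ℂ) + Complex.I * t) = O' ((q.re : ℂ) + Complex.I * t) := by
        apply hO
        rw [c5_re]
        exact hq
      have e4 : ∑ k ∈ range (n' + (m + 1) + 1), ((q.re : ℂ) + Complex.I * t) ^ k * G k t =
          ((q.re : ℂ) + Complex.I * t) ^ (m + 1) *
            ∑ k ∈ range (n' + 1), ((q.re : ℂ) + Complex.I * t) ^ k * F' k t := by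
        rw [show n' + (m + 1) + 1 = (m + 1) + (n' + 1) by ring, Finset.sum_range_add]
        have z : ∑ x ∈ range (m + 1), ((q.re : ℂ) + Complex.I * t) ^ x * G x t = 0 := by
          apply Finset.sum_eq_zero
          intro k hk
          rw [Finset.mem_range] at hk
          simp only [hG, if_neg (not_le.mpr hk), mul_zero]
        rw [z, zero_add, Finset.mul_sum]
        apply Finset.sum_congr rfl
        intro k _
        simp only [hG, if_pos (Nat.le_add_right (m + 1) k), Nat.add_sub_cancel_left]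
        rw [pow_add]
        ring
      have : ∑ k ∈ range (n' + (m + 1) + 1), ((q.re : ℂ) + Complex.I * t) ^ k * (F k t - G k t) =
          ∑ k ∈ range (n' + (m + 1) + 1), ((q.re : ℂ) + Complex.I * t) ^ k * F k t -
          ∑ k ∈ range (n' + (m + 1) + 1), ((q.re : ℂ) + Complex.I * t) ^ k * G k t := by
        rw [← Finset.sum_sub_distrib]
        exact Finset.sum_congr rfl fun k _ => by ring
      rw [this, e4, ← e1, ← e2, e3, pow_add]
      ring) 0 (Nat.succ_pos _) q.im
  have h0 : G 0 q.im = 0 := by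
    simp [hG]
  rw [hF4, h0, c5_re_im] at key
  exact key

theorem HasTop.add {O O' E E' : ℂ → ℂ} {n : ℕ} {T : ℝ} (h : HasTop O E n T)
    (h' : HasTop O' E' n T) : HasTop (fun q => O q + O' q) (fun q => E q + E' q) n T := by
  refine ⟨h.1, fun c hc => ?_⟩
  obtain ⟨F, hF1, hF2, hF3, hF4⟩ := h.2 c hc
  obtain ⟨F', hF1', hF2', hF3', hF4'⟩ := h'.2 c hc
  refine ⟨fun k t => F k t + F' k t, fun k => (hF1 k).add (hF1' k), fun k t => ?_, fun t => ?_,
    fun t => ?_⟩
  · simp only [hF2, hF2']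
  · simp only
    rw [mul_add, hF3, hF3', ← Finset.sum_add_distrib]
    exact Finset.sum_congr rfl fun k _ => by ring
  · simp only [hF4, hF4']

theorem HasTop.const_mul {O E : ℂ → ℂ} {n : ℕ} {T : ℝ} (h : HasTop O E n T) (c : ℂ) :
    HasTop (fun q => c * O q) (fun q => c * E q) n T := by
  refine ⟨h.1, fun c' hc' => ?_⟩
  obtain ⟨F, hF1, hF2, hF3, hF4⟩ := h.2 c' hc'
  refine ⟨fun k t => c * F k t, fun k => continuous_const.mul (hF1 k), fun k t => ?_, fun t => ?_,
    fun t => ?_⟩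
  · simp only [hF2]
  · simp only
    rw [mul_left_comm, hF3, Finset.mul_sum]
    exact Finset.sum_congr rfl fun k _ => by ring
  · simp only [hF4]

private theorem c5_ne {q : ℂ} (hq : 0 < q.re) : q ≠ 0 := by
  rintro rfl
  simp at hq

theorem OddPart.add {O O' : ℂ → ℂ} (h : OddPart O) (h' : OddPart O') :
    OddPart (fun q => O q + O' q) := by
  refine ⟨h.diff.add h'.diff, ?_⟩
  obtain ⟨G, K, hG, ε, hε, hO⟩ := h.near
  obtain ⟨G', K', hG', ε', hε', hO'⟩ := h'.near
  refine ⟨fun q => G q * q ^ K' + G' q * q ^ K, K + K', ?_, min ε ε', lt_min hε hε', ?_⟩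
  · exact (hG.mul (analyticAt_id.pow K')).add (hG'.mul (analyticAt_id.pow K))
  · intro q hq hn
    have hq0 := c5_ne hq
    have hq1 : (-q) ≠ 0 := neg_ne_zero.mpr hq0
    simp only
    rw [hO q hq (lt_of_lt_of_le hn (min_le_left _ _)),
      hO' q hq (lt_of_lt_of_le hn (min_le_right _ _))]
    have e1 : (G q * q ^ K' + G' q * q ^ K) / q ^ (K + K') = G q / q ^ K + G' q / q ^ K' := by
      rw [pow_add]
      field_simp
    have e2 : (G (-q) * (-q) ^ K' + G' (-q) * (-q) ^ K) / (-q) ^ (K + K') =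
        G (-q) / (-q) ^ K + G' (-q) / (-q) ^ K' := by
      have a1 : (-q) ^ K ≠ 0 := pow_ne_zero _ hq1
      have a2 : (-q) ^ K' ≠ 0 := pow_ne_zero _ hq1
      rw [pow_add]
      generalize (-q) ^ K = u at *
      generalize (-q) ^ K' = v at *
      field_simp
    rw [e1, e2]
    ring

theorem OddPart.const_mul {O : ℂ → ℂ} (h : OddPart O) (c : ℂ) : OddPart (fun q => c * O q) := by
  refine ⟨h.diff.const_mul c, ?_⟩
  obtain ⟨G, K, hG, ε, hε, hO⟩ := h.near
  refine ⟨fun q => c * G q, K, analyticAt_const.mul hG, ε, hε, fun q hq hn => ?_⟩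
  simp only
  rw [hO q hq hn]
  ring

end Pool.Agent.TWO
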