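import Pool.Agent.TWO.Defs
import Pool.Agent.TWO.C1

set_option autoImplicit false

open PowerSeries Finset MeasureTheory Filter Topology

namespace Pool.Agent.TWO

private theorem po_an {f : ℂ → ℂ} {x : ℂ} (h : AnalyticAt ℂ f x) (n : ℕ) :
    AnalyticAt ℂ (iteratedDeriv n f) x := by
  rw [iteratedDeriv_eq_iterate]
  exact h.iterated_deriv n

theorem piece_odd {ρ σ x₀ : ℝ} (hσ : 0 < σ) (hx : 0 < x₀) (d : ℕ) (A : ℕ → ℂ) {f : ℂ → ℂ}
    (h0 : AnalyticAt ℂ f (ρ * x₀)) (hf : ∀ x : ℂ, x.im ≠ 0 → AnalyticAt ℂ f x) :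
    OddPart (fun q => Lf d A x₀ (NN f ρ σ ((x₀ : ℂ) ^ 2 - q ^ 2))) := by
  obtain ⟨cf, -, hcf⟩ := iter_NN ρ σ x₀ hx
  have han1 : ∀ q : ℂ, 0 < q.re → AnalyticAt ℂ f (ρ * x₀ + Complex.I * σ * q) := by
    intro q hq
    refine hf _ ?_
    have : ((ρ : ℂ) * x₀ + Complex.I * σ * q).im = σ * q.re := by simp
    rw [this]
    positivity
  have han2 : ∀ q : ℂ, 0 < q.re → AnalyticAt ℂ f (ρ * x₀ - Complex.I * σ * q) := by
    intro q hq
    refine hf _ ?_
    have : ((ρ : ℂ) * x₀ - Complex.I * σ * q).im = -(σ * q.re) := by simp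
    rw [this]
    have : 0 < σ * q.re := by positivity
    linarith
  have hO : ∀ q : ℂ, 0 < q.re → Lf d A x₀ (NN f ρ σ ((x₀ : ℂ) ^ 2 - q ^ 2)) =
      ∑ m ∈ range d, A m * ((-1) ^ m / (m.factorial : ℂ)) *
        ∑ k ∈ range (2 * m + 2), ∑ i ∈ range (m + 1), cf m k i *
          (q⁻¹ ^ k * iteratedDeriv i f (ρ * x₀ + Complex.I * σ * q) -
            (-q)⁻¹ ^ k * iteratedDeriv i f (ρ * x₀ - Complex.I * σ * q)) := by
    intro q hq
    unfold Lf
    refine Finset.sum_congr rfl fun m _ => ?_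
    rw [hcf f q hq (han1 q hq) (han2 q hq) m]
  refine ⟨?_, ?_⟩
  · have hre : ∀ q ∈ {q : ℂ | 0 < q.re}, q ≠ 0 := by
      rintro q hq rfl
      simp at hq
    intro q hq
    have hopen : IsOpen {q : ℂ | 0 < q.re} := isOpen_lt continuous_const Complex.continuous_re
    have hev : (fun q => Lf d A x₀ (NN f ρ σ ((x₀ : ℂ) ^ 2 - q ^ 2))) =ᶠ[𝓝 q] fun q =>
        ∑ m ∈ range d, A m * ((-1) ^ m / (m.factorial : ℂ)) *
        ∑ k ∈ range (2 * m + 2), ∑ i ∈ range (m + 1), cf m k i *
          (q⁻¹ ^ k * iteratedDeriv i f (ρ * x₀ + Complex.I * σ * q) -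
            (-q)⁻¹ ^ k * iteratedDeriv i f (ρ * x₀ - Complex.I * σ * q)) := by
      filter_upwards [hopen.mem_nhds hq] with p hp using hO p hp
    refine (DifferentiableAt.congr_of_eventuallyEq ?_ hev).differentiableWithinAt
    have hq0 := hre q hq
    have d1 : ∀ i, DifferentiableAt ℂ (fun q : ℂ => iteratedDeriv i f (ρ * x₀ + Complex.I * σ * q)) q
        := by
      intro i
      have h1 : AnalyticAt ℂ (iteratedDeriv i f) (ρ * x₀ + Complex.I * σ * q) :=
        po_an (han1 q hq) i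
      have h2 : DifferentiableAt ℂ (fun q : ℂ => (ρ : ℂ) * x₀ + Complex.I * σ * q) q := by fun_prop
      exact DifferentiableAt.comp (g := iteratedDeriv i f) q h1.differentiableAt h2
    have d2 : ∀ i, DifferentiableAt ℂ (fun q : ℂ => iteratedDeriv i f (ρ * x₀ - Complex.I * σ * q)) q
        := by
      intro i
      have h1 : AnalyticAt ℂ (iteratedDeriv i f) (ρ * x₀ - Complex.I * σ * q) :=
        po_an (han2 q hq) i
      have h2 : DifferentiableAt ℂ (fun q : ℂ => (ρ : ℂ) * x₀ - Complex.I * σ * q) q := by fun_prop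
      exact DifferentiableAt.comp (g := iteratedDeriv i f) q h1.differentiableAt h2
    have d3 : DifferentiableAt ℂ (fun q : ℂ => q⁻¹) q := differentiableAt_inv hq0
    have d4 : DifferentiableAt ℂ (fun q : ℂ => (-q)⁻¹) q :=
      (differentiableAt_id.neg).inv (neg_ne_zero.mpr hq0)
    refine DifferentiableAt.fun_sum fun m _ => DifferentiableAt.const_mul ?_ _
    refine DifferentiableAt.fun_sum fun k _ => DifferentiableAt.fun_sum fun i _ =>
      DifferentiableAt.const_mul ?_ _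
    exact ((d3.pow k).mul (d1 i)).sub ((d4.pow k).mul (d2 i))
  · refine ⟨fun q => ∑ m ∈ range d, A m * ((-1) ^ m / (m.factorial : ℂ)) *
        ∑ k ∈ range (2 * m + 2), ∑ i ∈ range (m + 1), cf m k i *
          (q ^ (2 * d - k) * iteratedDeriv i f (ρ * x₀ + Complex.I * σ * q)), 2 * d, ?_, 1,
          one_pos, ?_⟩
    · refine Finset.analyticAt_fun_sum _ fun m _ => analyticAt_const.mul ?_
      refine Finset.analyticAt_fun_sum _ fun k _ => Finset.analyticAt_fun_sum _ fun i _ =>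
        analyticAt_const.mul ?_
      refine (analyticAt_id.pow _).mul ?_
      have h1 : AnalyticAt ℂ (iteratedDeriv i f) ((fun q : ℂ => (ρ : ℂ) * x₀ + Complex.I * σ * q) 0)
          := by
        simpa using po_an h0 i
      have h2 : AnalyticAt ℂ (fun q : ℂ => (ρ : ℂ) * x₀ + Complex.I * σ * q) 0 := by fun_prop
      exact AnalyticAt.comp (g := iteratedDeriv i f) h1 h2
    · intro q hq _
      have hq0 : q ≠ 0 := by rintro rfl; simp at hq
      rw [hO q hq]
      simp only [Finset.sum_div, ← Finset.sum_sub_distrib]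
      refine Finset.sum_congr rfl fun m hm => ?_
      rw [mul_div_assoc, mul_div_assoc, ← mul_sub]
      congr 1
      simp only [Finset.sum_div, ← Finset.sum_sub_distrib]
      refine Finset.sum_congr rfl fun k hk => Finset.sum_congr rfl fun i _ => ?_
      rw [mul_div_assoc (cf m k i), mul_div_assoc (cf m k i), ← mul_sub]
      congr 1
      have hk' : k ≤ 2 * d := by
        have := Finset.mem_range.mp hm
        have := Finset.mem_range.mp hk
        omega
      have e1 : ∀ p : ℂ, p ≠ 0 → p⁻¹ ^ k = p ^ (2 * d - k) / p ^ (2 * d) := by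
        intro p hp
        rw [inv_pow, eq_div_iff (pow_ne_zero _ hp), inv_mul_eq_iff_eq_mul₀ (pow_ne_zero _ hp),
          ← pow_add]
        congr 1; omega
      rw [e1 q hq0, e1 (-q) (neg_ne_zero.mpr hq0)]
      have e2 : (ρ : ℂ) * x₀ + Complex.I * σ * (-q) = ρ * x₀ - Complex.I * σ * q := by ring
      rw [e2]
      ring

end Pool.Agent.TWO
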