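import Pool.Agent.TWO.Defs
import Pool.Agent.TWO.C1

set_option autoImplicit false

open PowerSeries Finset MeasureTheory Filter Topology

namespace Pool.Agent.TWO

/-- the coefficient functions -/
private noncomputable def c7F (cf : ℕ → ℕ → ℕ → ℂ) (a : ℕ → ℂ) (f : ℂ → ℂ) (ρ σ x₀ c : ℝ)
    (d k : ℕ) (t : ℝ) : ℂ :=
  ∑ j ∈ range d, if k < 2 * j + 2 then ∑ i ∈ range (j + 1), a j * cf j k i *
    (iteratedDeriv i f (ρ * x₀ + Complex.I * σ * (c + Complex.I * t)) -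
      (-1) ^ k * iteratedDeriv i f (ρ * x₀ - Complex.I * σ * (c + Complex.I * t))) else 0

private theorem c7_im_plus (ρ σ x₀ c t : ℝ) :
    ((ρ : ℂ) * x₀ + Complex.I * σ * (c + Complex.I * t)).im = σ * c := by
  simp [Complex.add_im, Complex.mul_im, Complex.mul_re]

private theorem c7_im_minus (ρ σ x₀ c t : ℝ) :
    ((ρ : ℂ) * x₀ - Complex.I * σ * (c + Complex.I * t)).im = -(σ * c) := by
  simp [Complex.sub_im, Complex.mul_im, Complex.mul_re]

private theorem c7_per {f : ℂ → ℂ} {s : ℂ} (hp : ∀ x : ℂ, f (x + s) = f x) (i : ℕ) (x : ℂ) :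
    iteratedDeriv i f (x + s) = iteratedDeriv i f x := by
  have h := congrFun (iteratedDeriv_comp_add_const i f s) x
  rw [← h]
  congr 1
  funext z
  exact hp z

private theorem c7_cont {ρ σ x₀ c : ℝ} (hσ : 0 < σ) (hc : 0 < c) {f : ℂ → ℂ}
    (hf : ∀ x : ℂ, x.im ≠ 0 → AnalyticAt ℂ f x) (cf : ℕ → ℕ → ℕ → ℂ) (a : ℕ → ℂ) (d k : ℕ) :
    Continuous (c7F cf a f ρ σ x₀ c d k) := by
  have hσc : 0 < σ * c := mul_pos hσ hc
  have h1 : ∀ i, Continuous fun t : ℝ =>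
      iteratedDeriv i f (ρ * x₀ + Complex.I * σ * (c + Complex.I * t)) := by
    intro i
    rw [continuous_iff_continuousAt]
    intro t
    have h2 : AnalyticAt ℂ (iteratedDeriv i f) (ρ * x₀ + Complex.I * σ * (c + Complex.I * t)) := by
      rw [iteratedDeriv_eq_iterate]
      apply AnalyticAt.iterated_deriv
      apply hf
      rw [c7_im_plus]
      exact hσc.ne'
    exact ContinuousAt.comp (f := fun t : ℝ =>
      ((ρ : ℂ) * x₀ + Complex.I * σ * (c + Complex.I * t))) h2.continuousAt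
      (by fun_prop)
  have h2 : ∀ i, Continuous fun t : ℝ =>
      iteratedDeriv i f (ρ * x₀ - Complex.I * σ * (c + Complex.I * t)) := by
    intro i
    rw [continuous_iff_continuousAt]
    intro t
    have h2 : AnalyticAt ℂ (iteratedDeriv i f) (ρ * x₀ - Complex.I * σ * (c + Complex.I * t)) := by
      rw [iteratedDeriv_eq_iterate]
      apply AnalyticAt.iterated_deriv
      apply hf
      rw [c7_im_minus]
      exact neg_ne_zero.2 hσc.ne'
    exact ContinuousAt.comp (f := fun t : ℝ =>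
      ((ρ : ℂ) * x₀ - Complex.I * σ * (c + Complex.I * t))) h2.continuousAt
      (by fun_prop)
  unfold c7F
  refine continuous_finsetSum _ fun j _ => ?_
  by_cases hk : k < 2 * j + 2
  · simp only [hk, if_true]
    refine continuous_finsetSum _ fun i _ => ?_
    exact continuous_const.mul ((h1 i).sub (continuous_const.mul (h2 i)))
  · simp only [hk, if_false]
    exact continuous_const

private theorem c7_periodic {ρ σ x₀ c T : ℝ} {f : ℂ → ℂ}
    (hp : ∀ x : ℂ, f (x + σ * T) = f x) (cf : ℕ → ℕ → ℕ → ℂ) (a : ℕ → ℂ) (d k : ℕ) (t : ℝ) :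
    c7F cf a f ρ σ x₀ c d k (t + T) = c7F cf a f ρ σ x₀ c d k t := by
  have h1 : ∀ i, iteratedDeriv i f (ρ * x₀ + Complex.I * σ * (c + Complex.I * ((t + T : ℝ) : ℂ))) =
      iteratedDeriv i f (ρ * x₀ + Complex.I * σ * (c + Complex.I * t)) := by
    intro i
    rw [← c7_per hp i (ρ * x₀ + Complex.I * σ * (c + Complex.I * ((t + T : ℝ) : ℂ)))]
    congr 1
    push_cast
    linear_combination (σ : ℂ) * T * Complex.I_mul_I
  have h2 : ∀ i, iteratedDeriv i f (ρ * x₀ - Complex.I * σ * (c + Complex.I * ((t + T : ℝ) : ℂ))) =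
      iteratedDeriv i f (ρ * x₀ - Complex.I * σ * (c + Complex.I * t)) := by
    intro i
    rw [← c7_per hp i (ρ * x₀ - Complex.I * σ * (c + Complex.I * t))]
    congr 1
    push_cast
    linear_combination (-(σ : ℂ)) * T * Complex.I_mul_I
  unfold c7F
  simp only [h1, h2]

private theorem c7_sum {ρ σ x₀ : ℝ} (hσ : 0 < σ) {d n : ℕ} (hn : 2 * d - 1 ≤ n)
    (A : ℕ → ℂ) {f : ℂ → ℂ} (hf : ∀ x : ℂ, x.im ≠ 0 → AnalyticAt ℂ f x) {cf : ℕ → ℕ → ℕ → ℂ}
    (hcf : ∀ (f : ℂ → ℂ) (q : ℂ), 0 < q.re → AnalyticAt ℂ f (ρ * x₀ + Complex.I * σ * q) →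
      AnalyticAt ℂ f (ρ * x₀ - Complex.I * σ * q) → ∀ m,
      iteratedDeriv m (NN f ρ σ ((x₀ : ℂ) ^ 2 - q ^ 2)) x₀ =
        ∑ k ∈ range (2 * m + 2), ∑ i ∈ range (m + 1), cf m k i *
          (q⁻¹ ^ k * iteratedDeriv i f (ρ * x₀ + Complex.I * σ * q) -
            (-q)⁻¹ ^ k * iteratedDeriv i f (ρ * x₀ - Complex.I * σ * q)))
    {c : ℝ} (hc : 0 < c) (t : ℝ) :
    ((c : ℂ) + Complex.I * t) ^ n *
        Lf d A x₀ (NN f ρ σ ((x₀ : ℂ) ^ 2 - ((c : ℂ) + Complex.I * t) ^ 2)) =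
      ∑ m ∈ range (n + 1), ((c : ℂ) + Complex.I * t) ^ m *
        c7F cf (fun j => A j * ((-1) ^ j / (j.factorial : ℂ))) f ρ σ x₀ c d (n - m) t := by
  set q : ℂ := (c : ℂ) + Complex.I * t with hq
  have hre : q.re = c := by simp [hq]
  have hre' : 0 < q.re := by rw [hre]; exact hc
  have hq0 : q ≠ 0 := by
    intro h
    rw [h, Complex.zero_re] at hre'
    exact lt_irrefl _ hre'
  have hσc : 0 < σ * c := mul_pos hσ hc
  have ha1 : AnalyticAt ℂ f (ρ * x₀ + Complex.I * σ * q) := by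
    apply hf
    rw [hq, c7_im_plus]
    exact hσc.ne'
  have ha2 : AnalyticAt ℂ f (ρ * x₀ - Complex.I * σ * q) := by
    apply hf
    rw [hq, c7_im_minus]
    exact neg_ne_zero.2 hσc.ne'
  have hmain := hcf f q hre' ha1 ha2
  set a : ℕ → ℂ := fun j => A j * ((-1) ^ j / (j.factorial : ℂ)) with ha
  -- the terms
  set S : ℕ → ℕ → ℂ := fun j k => ∑ i ∈ range (j + 1), a j * cf j k i *
    (iteratedDeriv i f (ρ * x₀ + Complex.I * σ * q) -
      (-1) ^ k * iteratedDeriv i f (ρ * x₀ - Complex.I * σ * q)) with hS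
  have hF : ∀ k, c7F cf a f ρ σ x₀ c d k t = ∑ j ∈ range d, if k < 2 * j + 2 then S j k else 0 :=
    fun k => rfl
  have hL : q ^ n * Lf d A x₀ (NN f ρ σ ((x₀ : ℂ) ^ 2 - q ^ 2)) =
      ∑ j ∈ range d, ∑ k ∈ range (2 * j + 2), q ^ (n - k) * S j k := by
    unfold Lf
    rw [Finset.mul_sum]
    refine Finset.sum_congr rfl fun j hj => ?_
    have hj' := Finset.mem_range.1 hj
    rw [hmain j, Finset.mul_sum, Finset.mul_sum]
    refine Finset.sum_congr rfl fun k hk => ?_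
    have hk' := Finset.mem_range.1 hk
    have hkn : k ≤ n := by omega
    have h1 : q ^ n * q⁻¹ ^ k = q ^ (n - k) := by
      rw [inv_pow, ← div_eq_mul_inv, div_eq_iff (pow_ne_zero _ hq0), ← pow_add,
        Nat.sub_add_cancel hkn]
    have h2 : (-q)⁻¹ ^ k = (-1) ^ k * q⁻¹ ^ k := by
      rw [inv_neg, neg_pow]
    simp only [hS]
    rw [Finset.mul_sum, Finset.mul_sum, Finset.mul_sum]
    refine Finset.sum_congr rfl fun i _ => ?_
    rw [h2, ← h1]
    simp only [ha]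
    ring
  rw [hL]
  have hR : ∀ j ∈ range d, ∑ k ∈ range (2 * j + 2), q ^ (n - k) * S j k =
      ∑ k ∈ range (n + 1), q ^ (n - k) * (if k < 2 * j + 2 then S j k else 0) := by
    intro j hj
    have hj' := Finset.mem_range.1 hj
    have h1 : range (2 * j + 2) ⊆ range (n + 1) := by
      intro k hk
      rw [Finset.mem_range] at hk ⊢
      omega
    rw [← Finset.sum_subset h1]
    · refine Finset.sum_congr rfl fun k hk => ?_
      rw [if_pos (Finset.mem_range.1 hk)]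
    · intro k _ hk
      rw [Finset.mem_range] at hk
      rw [if_neg hk, mul_zero]
  rw [Finset.sum_congr rfl hR, Finset.sum_comm]
  rw [← Finset.sum_range_reflect (fun m => q ^ m * c7F cf a f ρ σ x₀ c d (n - m) t) (n + 1)]
  refine Finset.sum_congr rfl fun k hk => ?_
  have hk' := Finset.mem_range.1 hk
  have e1 : n + 1 - 1 - k = n - k := by omega
  have e2 : n - (n - k) = k := by omega
  rw [e1, e2, hF k, Finset.mul_sum]

theorem piece_top {ρ σ x₀ T : ℝ} (hσ : 0 < σ) (hx : 0 < x₀) (hT : 0 < T) {d : ℕ} (hd : 1 ≤ d)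
    (A : ℕ → ℂ) {f : ℂ → ℂ} (hf : ∀ x : ℂ, x.im ≠ 0 → AnalyticAt ℂ f x)
    (hp : ∀ x : ℂ, f (x + σ * T) = f x) :
    HasTop (fun q => Lf d A x₀ (NN f ρ σ ((x₀ : ℂ) ^ 2 - q ^ 2)))
      (fun q => A (d - 1) * (((2 * d - 3).doubleFactorial : ℂ) * (x₀ : ℂ) ^ (d - 1) /
        ((d - 1).factorial : ℂ)) * (f (ρ * x₀ + Complex.I * σ * q) +
          f (ρ * x₀ - Complex.I * σ * q))) (2 * d - 1) T := by
  obtain ⟨cf, hcf1, hcf2⟩ := iter_NN ρ σ x₀ hx
  refine ⟨hT, fun c hc => ⟨fun m => c7F cf (fun j => A j * ((-1) ^ j / (j.factorial : ℂ))) f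
    ρ σ x₀ c d (2 * d - 1 - m), fun m => c7_cont hσ hc hf cf _ d _,
    fun m t => c7_periodic hp cf _ d _ t, fun t => c7_sum hσ le_rfl A hf hcf2 hc t, fun t => ?_⟩⟩
  obtain ⟨e, rfl⟩ : ∃ e, d = e + 1 := ⟨d - 1, by omega⟩
  have e1 : 2 * (e + 1) - 1 - 0 = 2 * e + 1 := by omega
  have e2 : 2 * (e + 1) - 3 = 2 * e - 1 := by omega
  have e3 : e + 1 - 1 = e := by omega
  simp only [e1, e2, e3]
  unfold c7F
  rw [Finset.sum_range_succ, Finset.sum_eq_zero, zero_add, if_pos (by omega),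
    Finset.sum_range_succ', Finset.sum_eq_zero, zero_add]
  · rw [hcf1 e 0, if_pos rfl, iteratedDeriv_zero]
    have h1 : ((-1 : ℂ)) ^ (2 * e + 1) = -1 := by
      rw [pow_succ, pow_mul]
      norm_num
    have h2 : ((-1 : ℂ)) ^ e * (-1) ^ e = 1 := by
      rw [← mul_pow]
      norm_num
    rw [h1]
    linear_combination (A e * (((2 * e - 1).doubleFactorial : ℂ) * (x₀ : ℂ) ^ e /
        (e.factorial : ℂ)) * (f (ρ * x₀ + Complex.I * σ * (c + Complex.I * t)) +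
          f (ρ * x₀ - Complex.I * σ * (c + Complex.I * t)))) * h2
  · intro i _
    rw [hcf1 e (i + 1), if_neg (Nat.succ_ne_zero i), mul_zero, zero_mul]
  · intro j hj
    have hj' := Finset.mem_range.1 hj
    rw [if_neg (by omega)]

theorem piece_top_lt {ρ σ x₀ T : ℝ} (hσ : 0 < σ) (hx : 0 < x₀) (hT : 0 < T) {d n : ℕ}
    (hd : 2 * d - 1 < n) (A : ℕ → ℂ) {f : ℂ → ℂ} (hf : ∀ x : ℂ, x.im ≠ 0 → AnalyticAt ℂ f x)
    (hp : ∀ x : ℂ, f (x + σ * T) = f x) :
    HasTop (fun q => Lf d A x₀ (NN f ρ σ ((x₀ : ℂ) ^ 2 - q ^ 2))) (fun _ => 0) n T := by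
  obtain ⟨cf, hcf1, hcf2⟩ := iter_NN ρ σ x₀ hx
  refine ⟨hT, fun c hc => ⟨fun m => c7F cf (fun j => A j * ((-1) ^ j / (j.factorial : ℂ))) f
    ρ σ x₀ c d (n - m), fun m => c7_cont hσ hc hf cf _ d _,
    fun m t => c7_periodic hp cf _ d _ t, fun t => c7_sum hσ hd.le A hf hcf2 hc t, fun t => ?_⟩⟩
  show c7F cf (fun j => A j * ((-1) ^ j / (j.factorial : ℂ))) f ρ σ x₀ c d (n - 0) t = 0
  unfold c7F
  refine Finset.sum_eq_zero fun j hj => ?_
  have hj' := Finset.mem_range.1 hj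
  rw [if_neg (by omega)]

end Pool.Agent.TWO
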