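import Pool.Agent.TWO.Defs
import Pool.Agent.TWO.B8
import Pool.Agent.TWO.C2
import Pool.Agent.TWO.C5
import Pool.Agent.TWO.C6
import Pool.Agent.TWO.C7
import Pool.Agent.TWO.A5
import Pool.Agent.TWO.A4

set_option autoImplicit false

open PowerSeries Finset MeasureTheory Filter Topology

namespace Pool.Agent.TWO

private lemma c8_sin {L : ℝ} (hL : 0 < L) {x : ℂ} (hx : x.im ≠ 0) :
    Complex.sin (L * x / 2) ≠ 0 := by
  intro h0
  obtain ⟨k, hk⟩ := Complex.sin_eq_zero_iff.mp h0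
  have h1 := congrArg Complex.im hk
  have e1 : (L * x / 2 : ℂ).im = L * x.im / 2 := by
    have : (L * x / 2 : ℂ) = ((L / 2 : ℝ) : ℂ) * x := by push_cast; ring
    rw [this, Complex.im_ofReal_mul]
    ring
  have e2 : ((k : ℂ) * (Real.pi : ℂ)).im = 0 := by
    simp
  rw [e1, e2] at h1
  have : L * x.im ≠ 0 := mul_ne_zero hL.ne' hx
  apply this
  linarith

private lemma c8_an_im {X : Finset ℕ} (hX : IsLeaf X) {L : ℝ} (hL : 0 < L) (x : ℂ)
    (hx : x.im ≠ 0) : AnalyticAt ℂ (fun x : ℂ => U X (L * x)) x := by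
  have h1 : AnalyticAt ℂ (U X) (L * x) := U_analytic hX (Or.inr (c8_sin hL hx))
  have h2 : AnalyticAt ℂ (fun x : ℂ => (L : ℂ) * x) x := analyticAt_const.mul analyticAt_id
  exact h1.comp h2

private lemma c8_an_re {X : Finset ℕ} (hX : IsLeaf X) {L : ℝ} (s : ℝ) (hs : |L * s| < 2 * Real.pi) :
    AnalyticAt ℂ (fun x : ℂ => U X (L * x)) (s : ℂ) := by
  have h1 : AnalyticAt ℂ (U X) ((L : ℂ) * (s : ℂ)) := by
    apply U_analytic hX
    left
    rw [← Complex.ofReal_mul, Complex.norm_real]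
    exact hs
  have h2 : AnalyticAt ℂ (fun x : ℂ => (L : ℂ) * x) (s : ℂ) := analyticAt_const.mul analyticAt_id
  exact h1.comp h2

private lemma c8_per {X : Finset ℕ} (hX : IsLeaf X) {L σ T : ℝ} (m : ℕ)
    (h : L * (σ * T) = 4 * Real.pi * Pr X * m) (x : ℂ) :
    U X (L * (x + σ * T)) = U X (L * x) := by
  have h1 : (L : ℂ) * (x + σ * T) = L * x + 4 * Real.pi * Pr X * m := by
    have h2 : (L : ℂ) * (σ * T) = 4 * Real.pi * Pr X * m := by exact_mod_cast h
    rw [mul_add, h2]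
  rw [h1, U_periodic hX]

private lemma c8_lf_zero (A : ℕ → ℂ) (x₀ : ℝ) (φ : ℂ → ℂ) : Lf 0 A x₀ φ = 0 := by
  simp [Lf]

private lemma c8_Pr_nat (X : Finset ℕ) : Pr X = ((∏ p ∈ X, p : ℕ) : ℝ) := by
  simp [Pr]

private lemma c8_kap (d : ℕ) (a β : ℝ) (ha : 0 < a) :
    (2 * Real.pi : ℂ) * (((β * (2 / Real.sqrt a) ^ d : ℝ) : ℂ) *
      (((2 * d - 3).doubleFactorial : ℂ) * ((2 * Real.pi / Real.sqrt a : ℝ) : ℂ) ^ (d - 1) /
        ((d - 1).factorial : ℂ))) =
      kap d (2 * Real.pi / Real.sqrt a) * β := by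
  have hs : 0 < Real.sqrt a := Real.sqrt_pos.mpr ha
  have h1 : 2 * Real.pi / Real.sqrt a / Real.pi = 2 / Real.sqrt a := by
    have := Real.pi_pos
    field_simp
  unfold kap
  rw [h1]
  push_cast
  ring

theorem main_local {t : TD} (h : t.Ok) : ∃ (O P : ℂ → ℂ) (T : ℝ), OddPart O ∧
    HasTop O (fun q => kap (dg t.X) t.x0 * (t.xi (2 * Real.pi * t.mu + Complex.I * t.om * q) +
      t.xi (2 * Real.pi * t.mu - Complex.I * t.om * q))) (2 * dg t.X - 1) T ∧
    AnalyticAt ℂ P t.x0 ∧ ∃ ε > 0, ∀ y : ℝ, t.x0 - ε < y → y < t.x0 →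
      gI (fun x => U t.X (Real.sqrt t.a * x)) (fun x => U t.Y (Real.sqrt t.b * x)) t.rho t.sg y =
        P y + O (Real.sqrt (t.x0 ^ 2 - y ^ 2)) := by
  classical
  obtain ⟨ha, hc, hρ0, hρ1, hσ, hρσ, hcr, hx0, hom, hmu, hmu1, hbρ, hom2⟩ := ok_facts h
  have hπ := Real.pi_pos
  have hsa : 0 < Real.sqrt t.a := Real.sqrt_pos.mpr ha
  have hsb : 0 < Real.sqrt t.b := Real.sqrt_pos.mpr h.b_pos
  set T : ℝ := 4 * Real.pi * (Pr t.X * Pr t.Y) / (Real.sqrt t.b * t.sg) with hTdef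
  have hcc : 0 < Pr t.X * Pr t.Y := hc
  have hT : 0 < T := by positivity
  have hX := h.X
  have hY := h.Y
  have hdX : 1 ≤ dg t.X := by
    have := hX.card
    unfold dg
    omega
  have hdY : 1 ≤ dg t.Y := by
    have := hY.card
    unfold dg
    omega
  -- the function of the second node
  have hbT : Real.sqrt t.b * (t.sg * T) = 4 * Real.pi * (Pr t.X * Pr t.Y) := by
    rw [hTdef]
    field_simp
  have hgper : ∀ x : ℂ, U t.Y (Real.sqrt t.b * (x + t.sg * T)) = U t.Y (Real.sqrt t.b * x) := by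
    apply c8_per hY (∏ p ∈ t.X, p)
    rw [hbT, c8_Pr_nat t.X]
    ring
  have hg0 : AnalyticAt ℂ (fun x : ℂ => U t.Y (Real.sqrt t.b * x)) (t.rho * t.x0 : ℂ) := by
    rw [← Complex.ofReal_mul]
    apply c8_an_re hY
    rw [hbρ, abs_of_pos (by positivity)]
    nlinarith
  have hgim : ∀ x : ℂ, x.im ≠ 0 → AnalyticAt ℂ (fun x : ℂ => U t.Y (Real.sqrt t.b * x)) x :=
    fun x hx => c8_an_im hY hsb x hx
  -- principal part of the first node
  obtain ⟨A, r, hf, hA⟩ := prof_top hX hsa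
  have hx0def : t.x0 = 2 * Real.pi / Real.sqrt t.a := rfl
  rw [← hx0def] at hf
  have hodd1 := OddPart.const_mul (piece_odd hσ hx0 (dg t.X) A hg0 hgim) (2 * Real.pi : ℂ)
  have htop1 := HasTop.const_mul (piece_top (ρ := t.rho) hσ hx0 hT hdX A hgim hgper)
    (2 * Real.pi : ℂ)
  have hval : ∀ (Y : Finset ℕ) (q : ℂ), U Y (Real.sqrt t.b * (t.rho * t.x0 + Complex.I * t.sg * q)) =
        U Y (2 * Real.pi * t.mu + Complex.I * t.om * q) ∧
      U Y (Real.sqrt t.b * (t.rho * t.x0 - Complex.I * t.sg * q)) =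
        U Y (2 * Real.pi * t.mu - Complex.I * t.om * q) := by
    intro Y q
    have e1 : (Real.sqrt t.b : ℂ) * (t.rho * t.x0) = 2 * Real.pi * t.mu := by exact_mod_cast hbρ
    have e2 : (t.om : ℂ) = Real.sqrt t.b * t.sg := by
      rw [TD.om]; push_cast; ring
    constructor
    · congr 1
      rw [mul_add, e1, e2]; ring
    · congr 1
      rw [mul_sub, e1, e2]; ring
  have hE1 : ∀ q : ℂ, (2 * Real.pi : ℂ) * (A (dg t.X - 1) *
      (((2 * dg t.X - 3).doubleFactorial : ℂ) * (t.x0 : ℂ) ^ (dg t.X - 1) /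
        ((dg t.X - 1).factorial : ℂ)) *
        (U t.Y (Real.sqrt t.b * (t.rho * t.x0 + Complex.I * t.sg * q)) +
          U t.Y (Real.sqrt t.b * (t.rho * t.x0 - Complex.I * t.sg * q)))) =
      kap (dg t.X) t.x0 * (be t.X * U t.Y (2 * Real.pi * t.mu + Complex.I * t.om * q) +
        be t.X * U t.Y (2 * Real.pi * t.mu - Complex.I * t.om * q)) := by
    intro q
    rw [(hval t.Y q).1, (hval t.Y q).2, hA]
    have := c8_kap (dg t.X) t.a (be t.X) ha
    rw [← hx0def] at this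
    rw [← mul_add (be t.X : ℂ), ← mul_assoc (kap (dg t.X) t.x0 : ℂ), ← this]
    ring
  rcases h.le.lt_or_eq with hlt | heq
  · -- b < a
    have hne : ¬ (t.a = t.b ∧ t.X.card = t.Y.card) := fun hh => hlt.ne hh.1.symm
    have hreg : Real.sqrt t.b * t.x0 < 2 * Real.pi := by
      have h1 : Real.sqrt t.b < Real.sqrt t.a := Real.sqrt_lt_sqrt h.b_pos.le hlt
      have h2 : Real.sqrt t.a * t.x0 = 2 * Real.pi := by
        rw [hx0def]; field_simp
      rw [← h2]
      exact mul_lt_mul_of_pos_right h1 hx0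
    have hg := prof_reg hY hsb hx0 hreg
    obtain ⟨P, hP, ε, hε, hloc⟩ := local_form hρ0 hσ hρσ hx0 hf hg
    refine ⟨fun q => 2 * Real.pi * Lf (dg t.X) A t.x0
      (NN (fun x : ℂ => U t.Y (Real.sqrt t.b * x)) t.rho t.sg ((t.x0 : ℂ) ^ 2 - q ^ 2)),
      P, T, hodd1, ?_, hP, min ε t.x0, lt_min hε hx0, ?_⟩
    · convert htop1 using 2 with q
      rw [hE1 q]
      simp only [TD.xi, if_neg hne]
    · intro y hy1 hy2
      have hy3 : t.x0 - ε < y := by
        have := min_le_left ε t.x0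
        linarith
      have hy0 : 0 < y := by
        have := min_le_right ε t.x0
        linarith
      have hq : ((t.x0 : ℂ)) ^ 2 - ((Real.sqrt (t.x0 ^ 2 - y ^ 2) : ℝ) : ℂ) ^ 2 = (y : ℂ) ^ 2 := by
        have h1 : Real.sqrt (t.x0 ^ 2 - y ^ 2) ^ 2 = t.x0 ^ 2 - y ^ 2 := by
          apply Real.sq_sqrt
          nlinarith
        have h2 : ((Real.sqrt (t.x0 ^ 2 - y ^ 2) : ℝ) : ℂ) ^ 2 = (t.x0 : ℂ) ^ 2 - (y : ℂ) ^ 2 := by
          exact_mod_cast h1
        rw [h2]; ring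
      rw [hloc y hy3 hy2, c8_lf_zero]
      simp only [hq]
      ring
  · -- b = a
    have hab : t.a = t.b := heq.symm
    obtain ⟨B, r', hg, hB⟩ := prof_top hY hsb
    have hx0b : 2 * Real.pi / Real.sqrt t.b = t.x0 := by rw [hx0def, hab]
    rw [hx0b] at hg
    obtain ⟨P, hP, ε, hε, hloc⟩ := local_form hρ0 hσ hρσ hx0 hf hg
    have hfper : ∀ x : ℂ, U t.X (Real.sqrt t.a * (x + t.sg * T)) = U t.X (Real.sqrt t.a * x) := by
      apply c8_per hX (∏ p ∈ t.Y, p)
      rw [hab, hbT, c8_Pr_nat t.Y]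
      ring
    have hf0 : AnalyticAt ℂ (fun x : ℂ => U t.X (Real.sqrt t.a * x)) (t.rho * t.x0 : ℂ) := by
      rw [← Complex.ofReal_mul]
      apply c8_an_re hX
      rw [hab, hbρ, abs_of_pos (by positivity)]
      nlinarith
    have hfim : ∀ x : ℂ, x.im ≠ 0 → AnalyticAt ℂ (fun x : ℂ => U t.X (Real.sqrt t.a * x)) x :=
      fun x hx => c8_an_im hX hsa x hx
    have hodd2 := OddPart.const_mul (piece_odd hσ hx0 (dg t.Y) B hf0 hfim) (2 * Real.pi : ℂ)
    refine ⟨fun q => 2 * Real.pi * Lf (dg t.X) A t.x0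
      (NN (fun x : ℂ => U t.Y (Real.sqrt t.b * x)) t.rho t.sg ((t.x0 : ℂ) ^ 2 - q ^ 2)) +
      2 * Real.pi * Lf (dg t.Y) B t.x0
      (NN (fun x : ℂ => U t.X (Real.sqrt t.a * x)) t.rho t.sg ((t.x0 : ℂ) ^ 2 - q ^ 2)),
      P, T, hodd1.add hodd2, ?_, hP, min ε t.x0, lt_min hε hx0, ?_⟩
    · by_cases hcard : t.X.card = t.Y.card
      · have hd : dg t.Y = dg t.X := by unfold dg; rw [hcard]
        have hcond : t.a = t.b ∧ t.X.card = t.Y.card := ⟨hab, hcard⟩
        have htop2 := HasTop.const_mul (piece_top (ρ := t.rho) hσ hx0 hT hdY B hfim hfper)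
          (2 * Real.pi : ℂ)
        rw [hd] at htop2
        rw [hd]
        have hE2 : ∀ q : ℂ, (2 * Real.pi : ℂ) * (B (dg t.X - 1) *
            (((2 * dg t.X - 3).doubleFactorial : ℂ) * (t.x0 : ℂ) ^ (dg t.X - 1) /
              ((dg t.X - 1).factorial : ℂ)) *
              (U t.X (Real.sqrt t.a * (t.rho * t.x0 + Complex.I * t.sg * q)) +
                U t.X (Real.sqrt t.a * (t.rho * t.x0 - Complex.I * t.sg * q)))) =
            kap (dg t.X) t.x0 * (be t.Y * U t.X (2 * Real.pi * t.mu + Complex.I * t.om * q) +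
              be t.Y * U t.X (2 * Real.pi * t.mu - Complex.I * t.om * q)) := by
          intro q
          rw [hd] at hB
          rw [hab, (hval t.X q).1, (hval t.X q).2, hB]
          have := c8_kap (dg t.X) t.b (be t.Y) h.b_pos
          rw [hx0b] at this
          rw [← mul_add (be t.Y : ℂ), ← mul_assoc (kap (dg t.X) t.x0 : ℂ), ← this]
          ring
        convert htop1.add htop2 using 2 with q
        rw [hE1 q, hE2 q]
        simp only [TD.xi, if_pos hcond]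
        ring
      · have hne : ¬ (t.a = t.b ∧ t.X.card = t.Y.card) := fun hh => hcard hh.2
        have hlt : 2 * dg t.Y - 1 < 2 * dg t.X - 1 := by
          have h1 := h.tie hab
          have h2 := hX.card
          have h3 := hY.card
          unfold dg
          omega
        have htop2 := HasTop.const_mul (piece_top_lt (ρ := t.rho) hσ hx0 hT hlt B hfim hfper)
          (2 * Real.pi : ℂ)
        convert htop1.add htop2 using 2 with q
        rw [hE1 q]
        simp only [TD.xi, if_neg hne]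
        ring
    · intro y hy1 hy2
      have hy3 : t.x0 - ε < y := by
        have := min_le_left ε t.x0
        linarith
      have hy0 : 0 < y := by
        have := min_le_right ε t.x0
        linarith
      have hq : ((t.x0 : ℂ)) ^ 2 - ((Real.sqrt (t.x0 ^ 2 - y ^ 2) : ℝ) : ℂ) ^ 2 = (y : ℂ) ^ 2 := by
        have h1 : Real.sqrt (t.x0 ^ 2 - y ^ 2) ^ 2 = t.x0 ^ 2 - y ^ 2 := by
          apply Real.sq_sqrt
          nlinarith
        have h2 : ((Real.sqrt (t.x0 ^ 2 - y ^ 2) : ℝ) : ℂ) ^ 2 = (t.x0 : ℂ) ^ 2 - (y : ℂ) ^ 2 := by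
          exact_mod_cast h1
        rw [h2]; ring
      rw [hloc y hy3 hy2]
      simp only [hq]
      ring

end Pool.Agent.TWO
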