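import Pool.Agent.TWO.Defs
import Pool.Agent.TWO.A3
import Pool.Agent.TWO.A4

set_option autoImplicit false

open PowerSeries Finset MeasureTheory Filter Topology

namespace Pool.Agent.TWO

private theorem d1_w (ω : ℝ) (hω : 0 < ω) :
    Tendsto (fun ε : ℝ => (Complex.I * (ω * ε) / 2 : ℂ) / Complex.sin (Complex.I * (ω * ε) / 2))
      (𝓝[>] 0) (𝓝 1) := by
  have h1 : Tendsto (fun w : ℂ => Complex.sin w / w) (𝓝[≠] 0) (𝓝 1) := by
    have h2 := hasDerivAt_iff_tendsto_slope.mp (Complex.hasDerivAt_sin 0)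
    rw [Complex.cos_zero] at h2
    refine h2.congr fun w => ?_
    rw [slope_def_field, Complex.sin_zero, sub_zero, sub_zero]
  have h3 : Tendsto (fun ε : ℝ => (Complex.I * (ω * ε) / 2 : ℂ)) (𝓝[>] 0) (𝓝[≠] 0) := by
    rw [tendsto_nhdsWithin_iff]
    constructor
    · have h4 : Continuous fun ε : ℝ => (Complex.I * (ω * ε) / 2 : ℂ) := by fun_prop
      have h5 := (h4.tendsto 0).mono_left (nhdsWithin_le_nhds (s := Set.Ioi (0 : ℝ)))
      simpa using h5
    · filter_upwards [self_mem_nhdsWithin] with ε hε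
      have hε' : (ε : ℂ) ≠ 0 := by
        have : (0 : ℝ) < ε := hε
        exact_mod_cast this.ne'
      have hω' : (ω : ℂ) ≠ 0 := by exact_mod_cast hω.ne'
      simp [hε', hω', Complex.I_ne_zero]
  have h6 := (h1.comp h3).inv₀ one_ne_zero
  rw [inv_one] at h6
  refine h6.congr fun ε => ?_
  simp only [Function.comp_apply, inv_div]

theorem U_lim_pole {Y : Finset ℕ} (hY : IsLeaf Y) {ω : ℝ} (hω : 0 < ω) {n : ℕ} (hn : 1 ≤ n) :
    Tendsto (fun ε : ℝ => (-(Complex.I * ε)) ^ dg Y * U Y (2 * Real.pi * n + Complex.I * (ω * ε)))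
      (𝓝[>] 0) (𝓝 (((2 / ω) ^ dg Y * co Y n : ℝ) : ℂ)) := by
  have _ := hY
  have _ := hn
  have h1 := d1_w ω hω
  have hω' : (ω : ℂ) ≠ 0 := by exact_mod_cast hω.ne'
  have h2 : Tendsto (fun ε : ℝ => ∏ p ∈ Y, Complex.sin
      ((2 * Real.pi * n + Complex.I * (ω * ε)) / (2 * p))) (𝓝[>] 0)
      (𝓝 (∏ p ∈ Y, Complex.sin (Real.pi * n / p))) := by
    refine tendsto_finsetProd Y fun p _ => ?_
    have h4 : Continuous fun ε : ℝ =>
        Complex.sin ((2 * Real.pi * n + Complex.I * (ω * ε)) / (2 * p)) := by fun_prop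
    have h5 := (h4.tendsto 0).mono_left (nhdsWithin_le_nhds (s := Set.Ioi (0 : ℝ)))
    have h6 : ((2 * Real.pi * n + Complex.I * (ω * ((0 : ℝ) : ℂ))) / (2 * p) : ℂ) =
        Real.pi * n / p := by
      rw [Complex.ofReal_zero, mul_zero, mul_zero, add_zero, mul_assoc,
        mul_div_mul_left _ _ (by norm_num : (2 : ℂ) ≠ 0)]
    rw [h6] at h5
    exact h5
  have h3 := ((h1.const_mul ((-1) ^ (n + 1) * (2 / (ω : ℂ)))).pow (dg Y)).mul h2
  have h7 : (((-1) ^ (n + 1) * (2 / (ω : ℂ)) * 1) ^ dg Y *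
      ∏ p ∈ Y, Complex.sin (Real.pi * n / p)) = (((2 / ω) ^ dg Y * co Y n : ℝ) : ℂ) := by
    unfold co
    push_cast
    rw [mul_one, mul_pow, ← pow_mul, mul_comm (n + 1) (dg Y)]
    ring
  rw [h7] at h3
  refine h3.congr fun ε => ?_
  have h8 : Complex.sin ((2 * Real.pi * n + Complex.I * (ω * ε)) / 2) =
      (-1) ^ n * Complex.sin (Complex.I * (ω * ε) / 2) := by
    have h10 := Complex.sin_antiperiodic.add_nat_mul_eq (x := Complex.I * (ω * ε) / 2) n
    rw [← h10]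
    congr 1
    ring
  have h9 : ((-1 : ℂ) ^ n)⁻¹ = (-1) ^ n := by
    rw [← inv_pow]
    norm_num
  have hkey : (-1) ^ (n + 1) * (2 / (ω : ℂ)) *
      ((Complex.I * (ω * ε) / 2) / Complex.sin (Complex.I * (ω * ε) / 2)) =
      -(Complex.I * (ε : ℂ)) / ((-1) ^ n * Complex.sin (Complex.I * (ω * ε) / 2)) := by
    generalize Complex.sin (Complex.I * (ω * ε) / 2) = s
    rw [div_eq_mul_inv (-(Complex.I * (ε : ℂ))), mul_inv, h9, pow_succ]
    have h11 : (2 / (ω : ℂ)) * (Complex.I * (ω * ε) / 2 / s) = Complex.I * ε * s⁻¹ := by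
      rw [div_eq_mul_inv _ s]
      field_simp
    rw [mul_assoc ((-1) ^ n * -1 : ℂ), h11]
    ring
  unfold U
  rw [h8, hkey, div_pow]
  ring

theorem U_lim_reg {Y : Finset ℕ} (hY : IsLeaf Y) {ω z₀ : ℝ} (hω : 0 < ω)
    (hz : -(2 * Real.pi) < z₀) (hz' : ∀ n : ℕ, 1 ≤ n → z₀ ≠ 2 * Real.pi * n) {k : ℕ} (hk : 1 ≤ k) :
    Tendsto (fun ε : ℝ => (-(Complex.I * ε)) ^ k * U Y (z₀ + Complex.I * (ω * ε)))
      (𝓝[>] 0) (𝓝 0) := by
  have _ := hω
  have hcond : ‖(z₀ : ℂ)‖ < 2 * Real.pi ∨ Complex.sin ((z₀ : ℂ) / 2) ≠ 0 := by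
    by_cases h1 : z₀ < 2 * Real.pi
    · left
      rw [Complex.norm_real, Real.norm_eq_abs, abs_lt]
      exact ⟨hz, h1⟩
    · right
      intro h2
      rw [Complex.sin_eq_zero_iff] at h2
      obtain ⟨m, hm⟩ := h2
      have h3 : z₀ = 2 * Real.pi * m := by
        have h4 : ((z₀ : ℝ) : ℂ) = ((2 * Real.pi * m : ℝ) : ℂ) := by
          push_cast
          linear_combination 2 * hm
        exact_mod_cast h4
      push Not at h1
      have hm1 : (1 : ℝ) ≤ m := by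
        by_contra h5
        push Not at h5
        have h6 : 2 * Real.pi * m < 2 * Real.pi * 1 :=
          mul_lt_mul_of_pos_left h5 (by positivity)
        linarith
      have hm2 : (1 : ℤ) ≤ m := by exact_mod_cast hm1
      obtain ⟨n, hn⟩ : ∃ n : ℕ, m = n := ⟨m.toNat, by omega⟩
      refine hz' n (by omega) ?_
      rw [h3, hn]
      push_cast
      ring
  have h1 : ContinuousAt (U Y) z₀ := (U_analytic hY hcond).continuousAt
  have h2 : Tendsto (fun ε : ℝ => (z₀ + Complex.I * (ω * ε) : ℂ)) (𝓝[>] 0) (𝓝 (z₀ : ℂ)) := by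
    have h4 : Continuous fun ε : ℝ => (z₀ + Complex.I * (ω * ε) : ℂ) := by fun_prop
    have h5 := (h4.tendsto 0).mono_left (nhdsWithin_le_nhds (s := Set.Ioi (0 : ℝ)))
    simpa using h5
  have h3 : Tendsto (fun ε : ℝ => (-(Complex.I * ε) : ℂ) ^ k) (𝓝[>] 0) (𝓝 0) := by
    have h4 : Continuous fun ε : ℝ => (-(Complex.I * ε) : ℂ) ^ k := by fun_prop
    have h5 := (h4.tendsto 0).mono_left (nhdsWithin_le_nhds (s := Set.Ioi (0 : ℝ)))
    have h6 : (-(Complex.I * ((0 : ℝ) : ℂ)) : ℂ) ^ k = 0 := by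
      rw [Complex.ofReal_zero, mul_zero, neg_zero, zero_pow (by omega)]
    rw [h6] at h5
    exact h5
  have h4 := h3.mul (h1.tendsto.comp h2)
  rw [zero_mul] at h4
  exact h4

end Pool.Agent.TWO
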