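import Pool.Agent.TWO.Defs
import Pool.Agent.TWO.D1
import Pool.Agent.TWO.A4
import Pool.Agent.TWO.A5

set_option autoImplicit false

open PowerSeries Finset MeasureTheory Filter Topology

namespace Pool.Agent.TWO

private theorem d3_dg {X Y : Finset ℕ} (h : X.card = Y.card) : dg X = dg Y := by
  unfold dg
  rw [h]

theorem xi_lim_pole {t : TD} (h : t.Ok) {n : ℕ} (hn : 1 ≤ n) :
    Tendsto (fun ε : ℝ => (-(Complex.I * ε)) ^ dg t.Y *
      t.xi (2 * Real.pi * n + Complex.I * (t.om * ε)))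
      (𝓝[>] 0) (𝓝 (((2 / t.om) ^ dg t.Y * t.co n : ℝ) : ℂ)) := by
  obtain ⟨-, -, -, -, -, -, -, -, hω, -⟩ := ok_facts h
  have hY := U_lim_pole h.Y hω hn
  have hX := U_lim_pole h.X hω hn
  by_cases hc : t.a = t.b ∧ t.X.card = t.Y.card
  · rw [d3_dg hc.2] at hX
    have h1 := (hY.const_mul (be t.X : ℂ)).add (hX.const_mul (be t.Y : ℂ))
    have e : (((2 / t.om) ^ dg t.Y * t.co n : ℝ) : ℂ) =
        (be t.X : ℂ) * (((2 / t.om) ^ dg t.Y * co t.Y n : ℝ) : ℂ) +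
        (be t.Y : ℂ) * (((2 / t.om) ^ dg t.Y * co t.X n : ℝ) : ℂ) := by
      unfold TD.co
      rw [if_pos hc]
      push_cast
      ring
    rw [e]
    refine h1.congr fun ε => ?_
    unfold TD.xi
    rw [if_pos hc]
    ring
  · have h1 := hY.const_mul (be t.X : ℂ)
    have e : (((2 / t.om) ^ dg t.Y * t.co n : ℝ) : ℂ) =
        (be t.X : ℂ) * (((2 / t.om) ^ dg t.Y * co t.Y n : ℝ) : ℂ) := by
      unfold TD.co
      rw [if_neg hc]
      push_cast
      ring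
    rw [e]
    refine h1.congr fun ε => ?_
    unfold TD.xi
    rw [if_neg hc]
    ring

theorem xi_lim_reg {t : TD} (h : t.Ok) {z₀ : ℝ} (hz : -(2 * Real.pi) < z₀)
    (hz' : ∀ n : ℕ, 1 ≤ n → z₀ ≠ 2 * Real.pi * n) {k : ℕ} (hk : 1 ≤ k) :
    Tendsto (fun ε : ℝ => (-(Complex.I * ε)) ^ k * t.xi (z₀ + Complex.I * (t.om * ε)))
      (𝓝[>] 0) (𝓝 0) := by
  obtain ⟨-, -, -, -, -, -, -, -, hω, -⟩ := ok_facts h
  have hY := U_lim_reg h.Y hω hz hz' hk
  have hX := U_lim_reg h.X hω hz hz' hk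
  by_cases hc : t.a = t.b ∧ t.X.card = t.Y.card
  · have h1 := (hY.const_mul (be t.X : ℂ)).add (hX.const_mul (be t.Y : ℂ))
    rw [mul_zero, mul_zero, add_zero] at h1
    refine h1.congr fun ε => ?_
    unfold TD.xi
    rw [if_pos hc]
    ring
  · have h1 := hY.const_mul (be t.X : ℂ)
    rw [mul_zero] at h1
    refine h1.congr fun ε => ?_
    unfold TD.xi
    rw [if_neg hc]
    ring

theorem xi_odd {t : TD} (h : t.Ok) (z : ℂ) : t.xi (-z) = -t.xi z := by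
  unfold TD.xi
  split_ifs
  · rw [U_odd h.Y, U_odd h.X]
    ring
  · rw [U_odd h.Y]
    ring

end Pool.Agent.TWO
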