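import Pool.Agent.TWO.Defs
import Pool.Agent.TWO.A5

set_option autoImplicit false

open PowerSeries Finset MeasureTheory Filter Topology

namespace Pool.Agent.TWO

private noncomputable def d2_f (q : ℕ) : ℝ := 2 * Real.cos (Real.pi / q)

private noncomputable def d2_P (Y : Finset ℕ) : ℝ := ∏ q ∈ Y, d2_f q

private theorem d2_mono {q r : ℕ} (hq : 1 ≤ q) (hqr : q ≤ r) : d2_f q ≤ d2_f r := by
  unfold d2_f
  have h1 : (1 : ℝ) ≤ q := by exact_mod_cast hq
  have h2 : (q : ℝ) ≤ r := by exact_mod_cast hqr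
  have h3 : Real.pi / r ≤ Real.pi / q :=
    div_le_div_of_nonneg_left Real.pi_pos.le (by linarith) h2
  have h4 : Real.cos (Real.pi / q) ≤ Real.cos (Real.pi / r) := by
    apply Real.cos_le_cos_of_nonneg_of_le_pi
    · exact div_nonneg Real.pi_pos.le (by linarith)
    · rw [div_le_iff₀ (by linarith)]
      nlinarith [Real.pi_pos]
    · exact h3
  linarith

private theorem d2_three : d2_f 3 = 1 := by
  unfold d2_f
  norm_num [Real.cos_pi_div_three]

private theorem d2_one_le {q : ℕ} (hq : 3 ≤ q) : 1 ≤ d2_f q := by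
  rw [← d2_three]
  exact d2_mono (by norm_num) hq

private theorem d2_four {q : ℕ} (hq : 4 ≤ q) : Real.sqrt 2 ≤ d2_f q := by
  have h1 : d2_f 4 = Real.sqrt 2 := by
    unfold d2_f
    norm_num [Real.cos_pi_div_four]
    ring
  rw [← h1]
  exact d2_mono (by norm_num) hq

private theorem d2_five {q : ℕ} (hq : 5 ≤ q) : (1 + Real.sqrt 5) / 2 ≤ d2_f q := by
  have h1 : d2_f 5 = (1 + Real.sqrt 5) / 2 := by
    unfold d2_f
    norm_num [Real.cos_pi_div_five]
    ring
  rw [← h1]
  exact d2_mono (by norm_num) hq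

private theorem d2_lt_two {q : ℕ} (hq : 2 ≤ q) : d2_f q < 2 := by
  unfold d2_f
  have h1 : (2 : ℝ) ≤ q := by exact_mod_cast hq
  have h4 : Real.cos (Real.pi / q) < Real.cos 0 := by
    apply Real.cos_lt_cos_of_nonneg_of_le_pi le_rfl
    · rw [div_le_iff₀ (by linarith)]
      nlinarith [Real.pi_pos]
    · exact div_pos Real.pi_pos (by linarith)
  rw [Real.cos_zero] at h4
  linarith

private theorem d2_sq2 : (1.41 : ℝ) < Real.sqrt 2 := by
  rw [Real.lt_sqrt (by norm_num)]
  norm_num

private theorem d2_sq5 : (2.23 : ℝ) < Real.sqrt 5 := by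
  rw [Real.lt_sqrt (by norm_num)]
  norm_num

private theorem d2_prod_one_le {S : Finset ℕ} (hS : ∀ q ∈ S, 3 ≤ q) : 1 ≤ d2_P S := by
  unfold d2_P
  induction S using Finset.induction_on with
  | empty => simp
  | insert a S ha ih =>
    rw [prod_insert ha]
    have h1 := d2_one_le (hS a (mem_insert_self a S))
    have h2 := ih (fun q hq => hS q (mem_insert_of_mem hq))
    nlinarith

private theorem d2_P_cases {Y : Finset ℕ} (hY : IsLeaf Y) :
    d2_P Y = 0 ∨ (1 < d2_P Y ∧ d2_P Y ≠ 2) := by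
  by_cases h2 : 2 ∈ Y
  · left
    unfold d2_P
    refine prod_eq_zero h2 ?_
    unfold d2_f
    norm_num [Real.cos_pi_div_two]
  right
  have h3 : ∀ q ∈ Y, 3 ≤ q := by
    intro q hq
    have := hY.two_le q hq
    rcases Nat.lt_or_ge q 3 with h | h
    · exact absurd (by rwa [show q = 2 by omega] at hq) h2
    · exact h
  have hsq := d2_sq2
  -- two elements at least 4
  by_cases hcase : 3 ∈ Y ∧ Y.card = 2
  · obtain ⟨h3Y, hc⟩ := hcase
    have hc1 : (Y.erase 3).card = 1 := by
      rw [card_erase_of_mem h3Y, hc]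
    obtain ⟨q, hq⟩ := card_eq_one.mp hc1
    have hqm : q ∈ Y.erase 3 := by rw [hq]; exact mem_singleton_self q
    rw [mem_erase] at hqm
    have hq4 : 4 ≤ q := by
      have := h3 q hqm.2
      have := hqm.1
      omega
    have hP : d2_P Y = d2_f q := by
      unfold d2_P
      rw [← mul_prod_erase Y _ h3Y, hq, prod_singleton, d2_three, one_mul]
    rw [hP]
    have h5 := d2_four hq4
    have h6 := d2_lt_two (by omega : 2 ≤ q)
    exact ⟨by linarith, h6.ne⟩
  · have hc2 : 1 < (Y.erase 3).card := by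
      by_cases h3Y : 3 ∈ Y
      · rw [card_erase_of_mem h3Y]
        have := hY.card
        have : Y.card ≠ 2 := fun h => hcase ⟨h3Y, h⟩
        omega
      · rw [erase_eq_of_notMem h3Y]
        have := hY.card
        omega
    obtain ⟨a, ha, b, hb, hab⟩ := one_lt_card.mp hc2
    rw [mem_erase] at ha hb
    have ha4 : 4 ≤ a := by
      have := h3 a ha.2
      have := ha.1
      omega
    have hb4 : 4 ≤ b := by
      have := h3 b hb.2
      have := hb.1
      omega
    have hbe : b ∈ Y.erase a := mem_erase.mpr ⟨hab.symm, hb.2⟩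
    have hP : d2_P Y = d2_f a * (d2_f b * d2_P ((Y.erase a).erase b)) := by
      unfold d2_P
      rw [mul_prod_erase _ _ hbe, mul_prod_erase _ _ ha.2]
    have hR : 1 ≤ d2_P ((Y.erase a).erase b) :=
      d2_prod_one_le fun q hq => h3 q (mem_of_mem_erase (mem_of_mem_erase hq))
    have hs5 := d2_sq5
    have key : 2 < d2_f a * d2_f b := by
      rcases Nat.lt_or_ge a 5 with h5 | h5
      · have e1 := d2_four ha4
        have e2 := d2_five (by omega : 5 ≤ b)
        nlinarith
      · have e1 := d2_five h5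
        have e2 := d2_four hb4
        nlinarith
    have hlt : 2 < d2_P Y := by
      rw [hP, ← mul_assoc]
      nlinarith
    exact ⟨by linarith, hlt.ne'⟩

private theorem d2_be_pos {Y : Finset ℕ} (hY : IsLeaf Y) : 0 < be Y := by
  unfold be
  refine prod_pos fun q hq => ?_
  have h1 : (2 : ℝ) ≤ q := by exact_mod_cast hY.two_le q hq
  apply Real.sin_pos_of_pos_of_lt_pi
  · exact div_pos Real.pi_pos (by linarith)
  · rw [div_lt_iff₀ (by linarith)]
    nlinarith [Real.pi_pos]

private theorem d2_co_one (Y : Finset ℕ) : co Y 1 = be Y := by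
  unfold co be
  have h1 : (-1 : ℝ) ^ (dg Y * (1 + 1)) = 1 := by
    rw [mul_comm, pow_mul]
    norm_num
  rw [h1, one_mul]
  refine prod_congr rfl fun q _ => ?_
  rw [Nat.cast_one, mul_one]

private theorem d2_co_two (Y : Finset ℕ) : co Y 2 = (-1) ^ dg Y * (be Y * d2_P Y) := by
  unfold co be d2_P
  have h1 : (-1 : ℝ) ^ (dg Y * (2 + 1)) = (-1) ^ dg Y := by
    rw [mul_comm, pow_mul]
    norm_num
  rw [h1, ← prod_mul_distrib]
  congr 1
  refine prod_congr rfl fun q _ => ?_
  unfold d2_f
  have h2 : Real.pi * ((2 : ℕ) : ℝ) / q = 2 * (Real.pi / q) := by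
    push_cast
    ring
  rw [h2, Real.sin_two_mul]
  ring

theorem co_one {t : TD} (h : t.Ok) : 0 < t.co 1 := by
  have hX := d2_be_pos h.X
  have hY := d2_be_pos h.Y
  unfold TD.co
  rw [d2_co_one, d2_co_one]
  split_ifs
  · positivity
  · positivity

theorem co_two {t : TD} (h : t.Ok) : t.co 2 ≠ t.co 1 ∧ t.co 2 ≠ -t.co 1 := by
  have hX := d2_be_pos h.X
  have hY := d2_be_pos h.Y
  have hPX := d2_P_cases h.X
  have hPY := d2_P_cases h.Y
  have hXY : be t.X * be t.Y ≠ 0 := (mul_pos hX hY).ne'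
  have hgen : ∀ (s v w : ℝ), (s = 1 ∨ s = -1) → 0 ≤ v → v ≠ w → 0 < w →
      be t.X * be t.Y * (s * v) ≠ be t.X * be t.Y * w ∧
      be t.X * be t.Y * (s * v) ≠ -(be t.X * be t.Y * w) := by
    intro s v w hs hv hvw hw
    constructor
    · intro h1
      have h2 := mul_left_cancel₀ hXY h1
      rcases hs with rfl | rfl
      · exact hvw (by linarith)
      · linarith
    · intro h1
      rw [← mul_neg] at h1
      have h2 := mul_left_cancel₀ hXY h1
      rcases hs with rfl | rfl
      · linarith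
      · exact hvw (by linarith)
  have hsgn : ∀ n : ℕ, ((-1 : ℝ) ^ n = 1 ∨ (-1 : ℝ) ^ n = -1) := fun n => neg_one_pow_eq_or ℝ n
  unfold TD.co
  rw [d2_co_one, d2_co_one, d2_co_two, d2_co_two]
  split_ifs with hc
  · have hdg : dg t.Y = dg t.X := by
      unfold dg
      rw [hc.2]
    have e1 : be t.X * ((-1) ^ dg t.Y * (be t.Y * d2_P t.Y)) +
        be t.Y * ((-1) ^ dg t.X * (be t.X * d2_P t.X)) =
        be t.X * be t.Y * ((-1) ^ dg t.X * (d2_P t.Y + d2_P t.X)) := by
      rw [hdg]
      ring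
    have e2 : be t.X * be t.Y + be t.Y * be t.X = be t.X * be t.Y * 2 := by ring
    rw [e1, e2]
    refine hgen _ _ _ (hsgn _) ?_ ?_ (by norm_num)
    · rcases hPX with h1 | h1 <;> rcases hPY with h2 | h2
      · rw [h1, h2]; norm_num
      · linarith [h2.1]
      · linarith [h1.1]
      · linarith [h1.1, h2.1]
    · rcases hPX with h1 | h1 <;> rcases hPY with h2 | h2
      · rw [h1, h2]; norm_num
      · rw [h1, add_zero]; exact h2.2
      · rw [h2, zero_add]; exact h1.2
      · have := h1.1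
        have := h2.1
        intro h3
        linarith
  · have e1 : be t.X * ((-1) ^ dg t.Y * (be t.Y * d2_P t.Y)) =
        be t.X * be t.Y * ((-1) ^ dg t.Y * d2_P t.Y) := by ring
    have e2 : be t.X * be t.Y = be t.X * be t.Y * 1 := by ring
    rw [e1]
    conv_rhs => rw [e2]
    have hmain := hgen ((-1) ^ dg t.Y) (d2_P t.Y) 1 (hsgn _) ?_ ?_ (by norm_num)
    · rw [mul_one] at hmain
      rw [mul_one]
      exact hmain
    · rcases hPY with h2 | h2
      · rw [h2]
      · linarith [h2.1]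
    · rcases hPY with h2 | h2
      · rw [h2]; norm_num
      · exact h2.1.ne'

end Pool.Agent.TWO
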