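import Pool.Agent.TWO.Defs
import Pool.Agent.TWO.D2
import Pool.Agent.TWO.D3
import Pool.Agent.TWO.A5

set_option autoImplicit false

open PowerSeries Finset MeasureTheory Filter Topology

namespace Pool.Agent.TWO

open scoped Classical in
private noncomputable def d4_cx (t : TD) (x : ℝ) : ℝ :=
  if ∃ n : ℕ, 1 ≤ n ∧ x = n then t.co ⌊x⌋₊ else 0

private theorem d4_cx_nat (t : TD) {x : ℝ} {n : ℕ} (hn : 1 ≤ n) (hx : x = n) :
    d4_cx t x = t.co n := by
  unfold d4_cx
  rw [if_pos ⟨n, hn, hx⟩, hx, Nat.floor_natCast]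

private theorem d4_cx_zero (t : TD) {x : ℝ} (h : ∀ n : ℕ, 1 ≤ n → x ≠ n) : d4_cx t x = 0 := by
  unfold d4_cx
  rw [if_neg]
  rintro ⟨n, hn, hx⟩
  exact h n hn hx

private theorem d4_cx_lt (t : TD) {x : ℝ} (h : x < 1) : d4_cx t x = 0 := by
  apply d4_cx_zero
  intro n hn hx
  have : (1 : ℝ) ≤ n := by exact_mod_cast hn
  linarith

private theorem d4_cx_between (t : TD) {x : ℝ} {m : ℕ} (h : (m : ℝ) < x) (h' : x < m + 1) :
    d4_cx t x = 0 := by
  apply d4_cx_zero
  intro n _ hx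
  rw [hx] at h h'
  have h1 : m < n := by exact_mod_cast h
  have h2 : n < m + 1 := by exact_mod_cast h'
  omega

private theorem d4_dg {t : TD} (h : t.Ok) : 1 ≤ dg t.Y := by
  have := h.Y.card
  unfold dg
  omega

private theorem d4_lim {t : TD} (h : t.Ok) {x : ℝ} (hx : -1 < x) :
    Tendsto (fun ε : ℝ => (-(Complex.I * ε)) ^ dg t.Y *
      t.xi (((2 * Real.pi * x : ℝ) : ℂ) + Complex.I * (t.om * ε)))
      (𝓝[>] 0) (𝓝 (((2 / t.om) ^ dg t.Y * d4_cx t x : ℝ) : ℂ)) := by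
  by_cases hn : ∃ n : ℕ, 1 ≤ n ∧ x = n
  · obtain ⟨n, hn, hxn⟩ := hn
    rw [d4_cx_nat t hn hxn, hxn]
    have := xi_lim_pole h hn
    simpa using this
  · have hn' : ∀ n : ℕ, 1 ≤ n → x ≠ n := fun n h1 h2 => hn ⟨n, h1, h2⟩
    rw [d4_cx_zero t hn', mul_zero, Complex.ofReal_zero]
    have hpi := Real.pi_pos
    apply xi_lim_reg h _ _ (d4_dg h)
    · nlinarith
    · intro n h1 h2
      apply hn' n h1
      have h3 : 2 * Real.pi ≠ 0 := by positivity
      exact mul_left_cancel₀ h3 h2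

private noncomputable def d4_F (t : TD) (P : ℝ) : ℝ :=
  (2 / t.om) ^ dg t.Y * (d4_cx t (t.om * P + t.mu) - d4_cx t (t.om * P - t.mu))

private theorem d4_limE {t : TD} (h : t.Ok) {P : ℝ} (hP : 0 < P) :
    Tendsto (fun ε : ℝ => (-(Complex.I * ε)) ^ dg t.Y *
      (t.xi (t.om * (((2 * Real.pi * P : ℝ) : ℂ) + Complex.I * ε) + 2 * Real.pi * t.mu) -
      t.xi (t.om * (((2 * Real.pi * P : ℝ) : ℂ) + Complex.I * ε) - 2 * Real.pi * t.mu)))
      (𝓝[>] 0) (𝓝 ((d4_F t P : ℝ) : ℂ)) := by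
  obtain ⟨-, -, -, -, -, -, -, -, hom, hmu, hmu1, -, -⟩ := ok_facts h
  have hoP : 0 < t.om * P := mul_pos hom hP
  have h1 := d4_lim h (x := t.om * P + t.mu) (by linarith)
  have h2 := d4_lim h (x := t.om * P - t.mu) (by linarith)
  have h3 := h1.sub h2
  have hF : (d4_F t P : ℝ) = (2 / t.om) ^ dg t.Y * d4_cx t (t.om * P + t.mu) -
      (2 / t.om) ^ dg t.Y * d4_cx t (t.om * P - t.mu) := by
    unfold d4_F
    ring
  rw [hF, Complex.ofReal_sub]
  refine h3.congr ?_
  intro ε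
  rw [← mul_sub]
  congr 3
  · push_cast
    ring
  · push_cast
    ring

/-- The equality of the functions of the first singularity. -/
private def d4_Eq (t t' : TD) : Prop :=
  ∀ z : ℂ, 0 < z.im → t.xi (t.om * z + 2 * Real.pi * t.mu) -
      t.xi (t.om * z - 2 * Real.pi * t.mu) = t'.xi (t'.om * z + 2 * Real.pi * t'.mu) -
      t'.xi (t'.om * z - 2 * Real.pi * t'.mu)

private theorem d4_Eq.symm {t t' : TD} (h : d4_Eq t t') : d4_Eq t' t :=
  fun z hz => (h z hz).symm

private theorem d4_F_one {t : TD} (h : t.Ok) : d4_F t ((1 - t.mu) / t.om) =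
    (2 / t.om) ^ dg t.Y * t.co 1 := by
  obtain ⟨-, -, -, -, -, -, -, -, hom, hmu, hmu1, -, -⟩ := ok_facts h
  unfold d4_F
  have h1 : t.om * ((1 - t.mu) / t.om) = 1 - t.mu := by field_simp
  rw [h1, d4_cx_nat t (n := 1) le_rfl (by push_cast; ring), d4_cx_lt t (by linarith), sub_zero]

private theorem d4_F_one_pos {t : TD} (h : t.Ok) : 0 < d4_F t ((1 - t.mu) / t.om) := by
  obtain ⟨-, -, -, -, -, -, -, -, hom, hmu, hmu1, -, -⟩ := ok_facts h
  rw [d4_F_one h]
  exact mul_pos (pow_pos (by positivity) _) (co_one h)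

private theorem d4_eps : Tendsto (fun ε : ℝ => -(Complex.I * ε)) (𝓝[>] (0 : ℝ)) (𝓝 0) := by
  have : Continuous (fun ε : ℝ => -(Complex.I * (ε : ℂ))) := by fun_prop
  have h1 := this.tendsto 0
  simp only [Complex.ofReal_zero, mul_zero, neg_zero] at h1
  exact h1.mono_left nhdsWithin_le_nhds

private theorem d4_dg_le {t t' : TD} (h : t.Ok) (h' : t'.Ok) (hE : d4_Eq t t') :
    dg t.Y ≤ dg t'.Y := by
  obtain ⟨-, -, -, -, -, -, -, -, hom, hmu, hmu1, -, -⟩ := ok_facts h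
  by_contra hlt
  push Not at hlt
  have hP : 0 < (1 - t.mu) / t.om := div_pos (by linarith) hom
  have h1 := d4_limE h hP
  have h2 := d4_limE h' hP
  have h3 : Tendsto (fun ε : ℝ => (-(Complex.I * ε)) ^ (dg t.Y - dg t'.Y)) (𝓝[>] (0 : ℝ))
      (𝓝 0) := by
    have := d4_eps.pow (dg t.Y - dg t'.Y)
    rwa [zero_pow (by omega)] at this
  have h4 := h3.mul h2
  rw [zero_mul] at h4
  have h5 : ((d4_F t ((1 - t.mu) / t.om) : ℝ) : ℂ) = 0 := by
    apply tendsto_nhds_unique h1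
    refine h4.congr' ?_
    filter_upwards [self_mem_nhdsWithin] with ε hε
    rw [← mul_assoc, ← pow_add, Nat.sub_add_cancel hlt.le]
    congr 1
    apply (hE _ _).symm
    simpa using hε
  have h6 := d4_F_one_pos h
  rw [Complex.ofReal_eq_zero] at h5
  linarith

private theorem d4_F_eq {t t' : TD} (h : t.Ok) (h' : t'.Ok) (hE : d4_Eq t t')
    (hd : dg t.Y = dg t'.Y) {P : ℝ} (hP : 0 < P) : d4_F t P = d4_F t' P := by
  have h1 := d4_limE h hP
  have h2 := d4_limE h' hP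
  have h5 : ((d4_F t P : ℝ) : ℂ) = ((d4_F t' P : ℝ) : ℂ) := by
    apply tendsto_nhds_unique h1
    refine h2.congr' ?_
    filter_upwards [self_mem_nhdsWithin] with ε hε
    rw [hd]
    congr 1
    apply (hE _ _).symm
    simpa using hε
  exact_mod_cast h5

private theorem d4_first_le {t t' : TD} (h : t.Ok) (h' : t'.Ok) (hE : d4_Eq t t')
    (hd : dg t.Y = dg t'.Y) : (1 - t'.mu) / t'.om ≤ (1 - t.mu) / t.om := by
  obtain ⟨-, -, -, -, -, -, -, -, hom, hmu, hmu1, -, -⟩ := ok_facts h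
  obtain ⟨-, -, -, -, -, -, -, -, hom', hmu', hmu1', -, -⟩ := ok_facts h'
  by_contra hlt
  push Not at hlt
  have hP : 0 < (1 - t.mu) / t.om := div_pos (by linarith) hom
  have h1 := d4_F_eq h h' hE hd hP
  have h2 := d4_F_one_pos h
  have h3 : t'.om * ((1 - t.mu) / t.om) < 1 - t'.mu := by
    rw [lt_div_iff₀ hom'] at hlt
    linarith
  have h4 : d4_F t' ((1 - t.mu) / t.om) = 0 := by
    unfold d4_F
    rw [d4_cx_lt t' (by linarith), d4_cx_lt t' (by linarith)]
    ring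
  rw [h1, h4] at h2
  exact lt_irrefl _ h2

private theorem d4_om_le {t t' : TD} (h : t.Ok) (h' : t'.Ok) (hE : d4_Eq t t')
    (hd : dg t.Y = dg t'.Y) : t'.om ≤ t.om := by
  obtain ⟨-, -, -, -, -, -, -, -, hom, hmu, hmu1, -, -⟩ := ok_facts h
  obtain ⟨-, -, -, -, -, -, -, -, hom', hmu', hmu1', -, -⟩ := ok_facts h'
  by_contra hlt
  push Not at hlt
  have hfirst : (1 - t.mu) / t.om = (1 - t'.mu) / t'.om :=
    le_antisymm (d4_first_le h' h hE.symm hd.symm) (d4_first_le h h' hE hd)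
  have hP1 : 0 < (1 - t.mu) / t.om := div_pos (by linarith) hom
  have hcoef : (2 / t.om) ^ dg t.Y * t.co 1 = (2 / t'.om) ^ dg t'.Y * t'.co 1 := by
    rw [← d4_F_one h, ← d4_F_one h', ← hfirst]
    exact d4_F_eq h h' hE hd hP1
  have hmm : t'.mu < t.mu := by
    have e1 : 1 - t.mu = t.om * ((1 - t.mu) / t.om) := by field_simp
    have e2 : 1 - t'.mu = t'.om * ((1 - t.mu) / t.om) := by rw [hfirst]; field_simp
    have e3 := mul_lt_mul_of_pos_right hlt hP1
    linarith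
  set P : ℝ := (1 + t'.mu) / t'.om with hPdef
  have hP : 0 < P := div_pos (by linarith) hom'
  have hF := d4_F_eq h h' hE hd hP
  have ho'P : t'.om * P = 1 + t'.mu := by rw [hPdef]; field_simp
  have hPP : P = (1 - t.mu) / t.om + 2 * t'.mu / t'.om := by
    rw [hfirst, hPdef]
    field_simp
    ring
  have hoP : t.om * P = 1 - t.mu + 2 * t'.mu * (t.om / t'.om) := by
    rw [hPP]
    field_simp
  set s : ℝ := t.om / t'.om with hs
  have hs0 : 0 < s := div_pos hom hom'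
  have hs1 : s < 1 := by rw [hs, div_lt_one hom']; exact hlt
  have hms : t'.mu * s < t.mu := by nlinarith
  have hms0 : 0 < t'.mu * s := mul_pos hmu' hs0
  have hF1 : d4_F t P = (2 / t.om) ^ dg t.Y * d4_cx t (1 + 2 * (t'.mu * s)) := by
    unfold d4_F
    rw [hoP, d4_cx_lt t (x := 1 - t.mu + 2 * t'.mu * s - t.mu) (by nlinarith), sub_zero]
    congr 2
    ring
  have hF2 : d4_F t' P = (2 / t'.om) ^ dg t'.Y * (d4_cx t' (1 + 2 * t'.mu) - t'.co 1) := by
    unfold d4_F
    rw [ho'P, d4_cx_nat t' (x := 1 + t'.mu - t'.mu) (n := 1) le_rfl (by push_cast; ring)]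
    congr 3
    ring
  have hpw : 0 < (2 / t.om) ^ dg t.Y := pow_pos (by positivity) _
  have hpw' : 0 < (2 / t'.om) ^ dg t'.Y := pow_pos (by positivity) _
  by_cases hn : 1 + 2 * (t'.mu * s) = 2
  · -- the second pole of the first function
    have hmu2 : 1 / 2 < t'.mu := by nlinarith
    have hz : d4_cx t' (1 + 2 * t'.mu) = 0 :=
      d4_cx_between t' (m := 2) (by push_cast; linarith) (by push_cast; linarith)
    rw [hz, zero_sub] at hF2
    rw [d4_cx_nat t (n := 2) (by norm_num) (by push_cast; exact hn)] at hF1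
    rw [hF1, hF2] at hF
    apply (co_two h).2
    apply mul_left_cancel₀ hpw.ne'
    rw [hF]
    rw [mul_neg, mul_neg, hcoef]
  · have hz : d4_cx t (1 + 2 * (t'.mu * s)) = 0 := by
      rcases lt_or_gt_of_ne hn with h1 | h1
      · exact d4_cx_between t (m := 1) (by push_cast; linarith) (by push_cast; linarith)
      · exact d4_cx_between t (m := 2) (by push_cast; linarith) (by push_cast; linarith)
    rw [hz, mul_zero] at hF1
    rw [hF1, hF2] at hF
    have hz2 : d4_cx t' (1 + 2 * t'.mu) - t'.co 1 = 0 := by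
      rcases mul_eq_zero.mp hF.symm with h1 | h1
      · exact absurd h1 hpw'.ne'
      · exact h1
    by_cases hn2 : 1 + 2 * t'.mu = 2
    · rw [d4_cx_nat t' (n := 2) (by norm_num) (by push_cast; exact hn2)] at hz2
      exact (co_two h').1 (sub_eq_zero.mp hz2)
    · have hz3 : d4_cx t' (1 + 2 * t'.mu) = 0 := by
        rcases lt_or_gt_of_ne hn2 with h1 | h1
        · exact d4_cx_between t' (m := 1) (by push_cast; linarith) (by push_cast; linarith)
        · exact d4_cx_between t' (m := 2) (by push_cast; linarith) (by push_cast; linarith)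
      rw [hz3, zero_sub, neg_eq_zero] at hz2
      exact absurd hz2 (co_one h').ne'

theorem decode {t t' : TD} (h : t.Ok) (h' : t'.Ok)
    (hE : ∀ z : ℂ, 0 < z.im → t.xi (t.om * z + 2 * Real.pi * t.mu) -
      t.xi (t.om * z - 2 * Real.pi * t.mu) = t'.xi (t'.om * z + 2 * Real.pi * t'.mu) -
      t'.xi (t'.om * z - 2 * Real.pi * t'.mu)) :
    dg t.Y = dg t'.Y ∧ t.om = t'.om ∧ t.mu = t'.mu := by
  have hE' : d4_Eq t t' := hE
  obtain ⟨-, -, -, -, -, -, -, -, hom, hmu, hmu1, -, -⟩ := ok_facts h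
  have hd : dg t.Y = dg t'.Y := le_antisymm (d4_dg_le h h' hE') (d4_dg_le h' h hE'.symm)
  have ho : t.om = t'.om := le_antisymm (d4_om_le h' h hE'.symm hd.symm) (d4_om_le h h' hE' hd)
  refine ⟨hd, ho, ?_⟩
  have hfirst : (1 - t.mu) / t.om = (1 - t'.mu) / t'.om :=
    le_antisymm (d4_first_le h' h hE'.symm hd.symm) (d4_first_le h h' hE' hd)
  rw [← ho] at hfirst
  have h1 : 1 - t.mu = 1 - t'.mu := by
    have := congrArg (fun x => x * t.om) hfirst
    simpa [div_mul_cancel₀ _ hom.ne'] using this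
  linarith

theorem xi_ne_zero {t : TD} (h : t.Ok) : ∃ z : ℂ, 0 < z.im ∧
    t.xi (t.om * z + 2 * Real.pi * t.mu) - t.xi (t.om * z - 2 * Real.pi * t.mu) ≠ 0 := by
  obtain ⟨-, -, -, -, -, -, -, -, hom, hmu, hmu1, -, -⟩ := ok_facts h
  by_contra hcon
  push Not at hcon
  have hP : 0 < (1 - t.mu) / t.om := div_pos (by linarith) hom
  have h1 := d4_limE h hP
  have h2 : ((d4_F t ((1 - t.mu) / t.om) : ℝ) : ℂ) = 0 := by
    apply tendsto_nhds_unique h1
    refine (tendsto_const_nhds (x := (0 : ℂ))).congr' ?_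
    filter_upwards [self_mem_nhdsWithin] with ε hε
    rw [hcon _ (by simpa using hε), mul_zero]
  have h3 := d4_F_one_pos h
  rw [Complex.ofReal_eq_zero] at h2
  linarith

end Pool.Agent.TWO
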