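import Pool.Agent.TWO.Defs

set_option autoImplicit false

open PowerSeries Finset MeasureTheory Filter Topology

namespace Pool.Agent.TWO

private theorem D5_sum_lt {S : Finset ℕ} {d N : ℕ} (hS : IsLeaf S) (hc : S.card = d + 1)
    (hN : 0 < N) (hdvd : ∀ q ∈ S, q ∣ N) : (∑ q ∈ S, N / q) + 1 ≤ N * d := by
  have hd : 1 ≤ d := by
    have := hS.card
    omega
  have h1 : ∀ q ∈ S, ((N / q : ℕ) : ℝ) ≤ (N : ℝ) * (1 / 3 + if q = 2 then 1 / 6 else 0) := by
    intro q hq
    have hq2 := hS.two_le q hq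
    have hq0 : (q : ℝ) ≠ 0 := by positivity
    rw [Nat.cast_div (hdvd q hq) hq0, div_eq_mul_inv]
    apply mul_le_mul_of_nonneg_left _ (Nat.cast_nonneg N)
    split_ifs with h
    · rw [h]
      norm_num
    · have h3 : 3 ≤ q := by omega
      rw [add_zero, ← one_div]
      apply one_div_le_one_div_of_le (by norm_num)
      exact_mod_cast h3
  have h2 : ∑ q ∈ S, ((N / q : ℕ) : ℝ) < (N : ℝ) * d := by
    calc ∑ q ∈ S, ((N / q : ℕ) : ℝ)
        ≤ ∑ q ∈ S, (N : ℝ) * (1 / 3 + if q = 2 then 1 / 6 else 0) := Finset.sum_le_sum h1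
      _ = N * (((d : ℝ) + 1) * (1 / 3) + if 2 ∈ S then 1 / 6 else 0) := by
        rw [← Finset.mul_sum, Finset.sum_add_distrib, Finset.sum_const, hc, Finset.sum_ite_eq',
          nsmul_eq_mul]
        push_cast
        rfl
      _ < N * d := by
        apply mul_lt_mul_of_pos_left _ (by exact_mod_cast hN)
        have hd' : (1 : ℝ) ≤ d := by exact_mod_cast hd
        split_ifs <;> linarith
  have h3 : ((∑ q ∈ S, N / q : ℕ) : ℝ) < ((N * d : ℕ) : ℝ) := by
    rw [Nat.cast_sum, Nat.cast_mul]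
    exact h2
  exact_mod_cast h3

private noncomputable def D5_P (d N : ℕ) (S : Finset ℕ) : Polynomial ℂ :=
  Polynomial.X ^ (N * d - 1 - ∑ q ∈ S, N / q) * ∏ q ∈ S, (Polynomial.X ^ (2 * (N / q)) - 1)

private theorem D5_sin {N q : ℕ} (hN : 0 < N) (hq : q ∣ N) (z : ℂ) :
    Complex.exp (Complex.I * z / (2 * N)) ^ (2 * (N / q)) - 1 =
      Complex.exp (Complex.I * z / (2 * N)) ^ (N / q) * (2 * Complex.I * Complex.sin (z / (2 * q))) := by
  have hq0 : (q : ℂ) ≠ 0 := by
    have : 0 < q := Nat.pos_of_dvd_of_pos hq hN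
    exact_mod_cast this.ne'
  have hN0 : (N : ℂ) ≠ 0 := by exact_mod_cast hN.ne'
  have h1 : Complex.exp (Complex.I * z / (2 * N)) ^ (N / q) = Complex.exp (z / (2 * q) * Complex.I) := by
    rw [← Complex.exp_nat_mul, Nat.cast_div hq hq0]
    congr 1
    field_simp
  have h2 : Complex.exp (z / (2 * q) * Complex.I) * Complex.exp (-(z / (2 * q)) * Complex.I) = 1 := by
    rw [← Complex.exp_add]
    rw [neg_mul, add_neg_cancel, Complex.exp_zero]
  have h3 := Complex.two_sin (z / (2 * q))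
  rw [mul_comm 2 (N / q), pow_mul, h1]
  linear_combination (-Complex.I * Complex.exp (z / (2 * q) * Complex.I)) * h3 +
    (Complex.exp (z / (2 * q) * Complex.I) * Complex.exp (z / (2 * q) * Complex.I) -
      Complex.exp (z / (2 * q) * Complex.I) * Complex.exp (-(z / (2 * q)) * Complex.I)) *
      Complex.I_sq + h2

private theorem D5_eval {S : Finset ℕ} {d N : ℕ} (hS : IsLeaf S) (hc : S.card = d + 1)
    (hN : 0 < N) (hdvd : ∀ q ∈ S, q ∣ N) (z : ℂ) :
    (D5_P d N S).eval (Complex.exp (Complex.I * z / (2 * N))) =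
      Complex.exp (Complex.I * z / (2 * N)) ^ (N * d - 1) * ((2 * Complex.I) ^ (d + 1) *
        ∏ q ∈ S, Complex.sin (z / (2 * q))) := by
  have hlt := D5_sum_lt hS hc hN hdvd
  unfold D5_P
  rw [Polynomial.eval_mul, Polynomial.eval_pow, Polynomial.eval_X, Polynomial.eval_prod]
  have h1 : ∀ q ∈ S, (Polynomial.X ^ (2 * (N / q)) - 1 : Polynomial ℂ).eval
      (Complex.exp (Complex.I * z / (2 * N))) = Complex.exp (Complex.I * z / (2 * N)) ^ (N / q) *
        (2 * Complex.I * Complex.sin (z / (2 * q))) := by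
    intro q hq
    rw [← D5_sin hN (hdvd q hq) z]
    simp
  rw [Finset.prod_congr rfl h1, Finset.prod_mul_distrib, Finset.prod_pow_eq_pow_sum,
    Finset.prod_mul_distrib, Finset.prod_const, hc, ← mul_assoc, ← pow_add]
  congr 2
  omega

private theorem D5_deg {S : Finset ℕ} {d N : ℕ} (hS : IsLeaf S) (hc : S.card = d + 1)
    (hN : 0 < N) (hdvd : ∀ q ∈ S, q ∣ N) : (D5_P d N S).natDegree ≤ 2 * N * d - 1 := by
  have hlt := D5_sum_lt hS hc hN hdvd
  have h1 : (∏ q ∈ S, (Polynomial.X ^ (2 * (N / q)) - 1 : Polynomial ℂ)).natDegree ≤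
      ∑ q ∈ S, 2 * (N / q) := by
    refine (Polynomial.natDegree_prod_le _ _).trans (Finset.sum_le_sum fun q _ => ?_)
    refine (Polynomial.natDegree_sub_le _ _).trans ?_
    simp
  rw [← Finset.mul_sum] at h1
  unfold D5_P
  refine Polynomial.natDegree_mul_le.trans ?_
  rw [Polynomial.natDegree_X_pow]
  have h2 : 2 * N * d = 2 * (N * d) := by ring
  rw [h2]
  omega

private theorem D5_num {S : Finset ℕ} {d N e : ℕ} (hS : IsLeaf S) (hc : S.card = d + 1)
    (hN : 0 < N) (hdvd : ∀ q ∈ S, q ∣ N) (he : 2 * N ∣ e + 1) {T : Finset ℕ} (hT : T ⊆ S) :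
    e ≠ N * d - 1 - (∑ q ∈ S, N / q) + ∑ q ∈ T, 2 * (N / q) := by
  intro h0
  have hlt := D5_sum_lt hS hc hN hdvd
  obtain ⟨p, hp⟩ : S.Nonempty := by
    rw [← Finset.card_pos]
    omega
  set m : ℕ := ∏ q ∈ S.erase p, q with hm
  -- every other term is divisible
  have h1 : ∀ q ∈ S.erase p, (N : ℤ) ∣ (m : ℤ) * ((N / q : ℕ) : ℤ) := by
    intro q hq
    have h2 : q ∣ m := Finset.dvd_prod_of_mem _ hq
    have h3 : N = q * (N / q) := (Nat.mul_div_cancel' (hdvd q (Finset.mem_of_mem_erase hq))).symm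
    have h4 : N ∣ m * (N / q) := by
      conv_lhs => rw [h3]
      exact mul_dvd_mul_right h2 _
    exact_mod_cast h4
  have hsum : (e : ℤ) + 1 = N * d + ∑ q ∈ S, (if q ∈ T then 1 else -1) * ((N / q : ℕ) : ℤ) := by
    have h2 : ∑ q ∈ S, (if q ∈ T then 1 else -1) * ((N / q : ℕ) : ℤ) =
        ∑ q ∈ T, 2 * ((N / q : ℕ) : ℤ) - ∑ q ∈ S, ((N / q : ℕ) : ℤ) := by
      rw [← Finset.sum_filter_add_sum_filter_not S (fun q => q ∈ T)
        (fun q => (if q ∈ T then 1 else -1) * ((N / q : ℕ) : ℤ)),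
        ← Finset.sum_filter_add_sum_filter_not S (fun q => q ∈ T) (fun q => ((N / q : ℕ) : ℤ))]
      have h3 : S.filter (fun q => q ∈ T) = T := by
        ext x
        simp only [Finset.mem_filter]
        exact ⟨fun h => h.2, fun h => ⟨hT h, h⟩⟩
      have h4 : ∑ q ∈ S.filter (fun q => q ∈ T), (if q ∈ T then 1 else -1) * ((N / q : ℕ) : ℤ) =
          ∑ q ∈ T, ((N / q : ℕ) : ℤ) := by
        rw [h3]
        refine Finset.sum_congr rfl fun q hq => ?_
        rw [if_pos hq, one_mul]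
      have h5 : ∑ q ∈ S.filter (fun q => ¬ q ∈ T), (if q ∈ T then 1 else -1) * ((N / q : ℕ) : ℤ) =
          -∑ q ∈ S.filter (fun q => ¬ q ∈ T), ((N / q : ℕ) : ℤ) := by
        rw [← Finset.sum_neg_distrib]
        refine Finset.sum_congr rfl fun q hq => ?_
        rw [if_neg (Finset.mem_filter.1 hq).2]
        ring
      rw [h4, h5, h3, ← Finset.mul_sum]
      ring
    rw [h2]
    have h6 : e + 1 + ∑ q ∈ S, N / q = N * d + ∑ q ∈ T, 2 * (N / q) := by omega
    have c1 : ((∑ q ∈ S, N / q : ℕ) : ℤ) = ∑ q ∈ S, ((N / q : ℕ) : ℤ) := Nat.cast_sum _ _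
    have c2 : ((∑ q ∈ T, 2 * (N / q) : ℕ) : ℤ) = ∑ q ∈ T, 2 * ((N / q : ℕ) : ℤ) := by
      rw [Nat.cast_sum]
      refine Finset.sum_congr rfl fun q _ => ?_
      rw [Nat.cast_mul]
      rfl
    have h7 : ((e + 1 + ∑ q ∈ S, N / q : ℕ) : ℤ) = ((N * d + ∑ q ∈ T, 2 * (N / q) : ℕ) : ℤ) := by
      rw [h6]
    rw [Nat.cast_add, Nat.cast_add, Nat.cast_add, c1, c2, Nat.cast_mul, Nat.cast_one] at h7
    linarith
  have h8 : (N : ℤ) ∣ (m : ℤ) * ((if p ∈ T then 1 else -1) * ((N / p : ℕ) : ℤ)) := by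
    have h9 : (m : ℤ) * ((if p ∈ T then 1 else -1) * ((N / p : ℕ) : ℤ)) =
        m * ((e : ℤ) + 1) - N * (m * d) -
          ∑ q ∈ S.erase p, (if q ∈ T then 1 else -1) * ((m : ℤ) * ((N / q : ℕ) : ℤ)) := by
      rw [hsum, ← Finset.add_sum_erase S _ hp]
      rw [mul_add, mul_add, Finset.mul_sum]
      have h10 : ∑ q ∈ S.erase p, (m : ℤ) * ((if q ∈ T then 1 else -1) * ((N / q : ℕ) : ℤ)) =
          ∑ q ∈ S.erase p, (if q ∈ T then 1 else -1) * ((m : ℤ) * ((N / q : ℕ) : ℤ)) :=
        Finset.sum_congr rfl fun q _ => by ring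
      rw [h10]
      ring
    rw [h9]
    refine dvd_sub (dvd_sub ?_ (dvd_mul_right _ _)) (Finset.dvd_sum fun q hq => ?_)
    · have h11 : N ∣ e + 1 := (Dvd.intro_left 2 rfl).trans he
      have h12 : (N : ℤ) ∣ (e : ℤ) + 1 := by exact_mod_cast h11
      exact h12.mul_left _
    · exact (h1 q hq).mul_left _
  have h13 : N ∣ m * (N / p) := by
    split_ifs at h8
    · rw [one_mul] at h8
      exact_mod_cast h8
    · rw [neg_one_mul, mul_neg, dvd_neg] at h8
      exact_mod_cast h8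
  have hNp : N = p * (N / p) := (Nat.mul_div_cancel' (hdvd p hp)).symm
  have hNp0 : 0 < N / p := by
    rcases Nat.eq_zero_or_pos (N / p) with h | h
    · rw [h, mul_zero] at hNp
      omega
    · exact h
  have h14 : p ∣ m := by
    apply Nat.dvd_of_mul_dvd_mul_right hNp0
    rw [← hNp]
    exact h13
  have h15 : Nat.Coprime p m := by
    rw [hm]
    apply Nat.Coprime.prod_right
    intro q hq
    have h16 := Finset.mem_erase.1 hq
    exact hS.coprime p hp q h16.2 (fun h => h16.1 h.symm)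
  have h17 := Nat.Coprime.eq_one_of_dvd h15 h14
  have h18 := hS.two_le p hp
  omega

private theorem D5_coeff {S : Finset ℕ} {d N e : ℕ} (hS : IsLeaf S) (hc : S.card = d + 1)
    (hN : 0 < N) (hdvd : ∀ q ∈ S, q ∣ N) (he : 2 * N ∣ e + 1) : (D5_P d N S).coeff e = 0 := by
  unfold D5_P
  have h1 : ∏ q ∈ S, (Polynomial.X ^ (2 * (N / q)) - 1 : Polynomial ℂ) =
      ∑ T ∈ S.powerset, Polynomial.X ^ (∑ q ∈ T, 2 * (N / q)) *
        Polynomial.C ((-1 : ℂ) ^ (S \ T).card) := by
    simp only [sub_eq_add_neg]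
    rw [Finset.prod_add]
    refine Finset.sum_congr rfl fun T _ => ?_
    rw [Finset.prod_pow_eq_pow_sum, Finset.prod_const]
    simp
  rw [h1, Finset.mul_sum, Polynomial.finsetSum_coeff]
  refine Finset.sum_eq_zero fun T hT => ?_
  rw [← mul_assoc, ← pow_add, Polynomial.coeff_mul_C, Polynomial.coeff_X_pow,
    if_neg (D5_num hS hc hN hdvd he (Finset.mem_powerset.1 hT)), zero_mul]

theorem trig_zero {ι : Type} {s : Finset ι} {c : ι → ℂ} {S : ι → Finset ℕ} {d : ℕ}
    (hS : ∀ i ∈ s, IsLeaf (S i) ∧ (S i).card = d + 1) {τ : ℝ} (h0 : 0 < τ) (h1 : τ < 4 * Real.pi)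
    (h : ∀ z : ℂ, (∑ i ∈ s, c i * ∏ q ∈ S i, Complex.sin ((z + τ) / (2 * q))) *
      Complex.sin (z / 2) ^ d = (∑ i ∈ s, c i * ∏ q ∈ S i, Complex.sin (z / (2 * q))) *
      Complex.sin ((z + τ) / 2) ^ d) :
    ∀ z : ℂ, ∑ i ∈ s, c i * ∏ q ∈ S i, Complex.sin (z / (2 * q)) = 0 := by
  classical
  set N : ℕ := ∏ i ∈ s, ∏ q ∈ S i, q with hNdef
  have hdvd : ∀ i ∈ s, ∀ q ∈ S i, q ∣ N := fun i hi q hq =>
    (Finset.dvd_prod_of_mem (fun q => q) hq).trans (Finset.dvd_prod_of_mem (fun i => ∏ q ∈ S i, q) hi)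
  have hN : 0 < N := by
    refine Finset.prod_pos fun i hi => Finset.prod_pos fun q hq => ?_
    have := (hS i hi).1.two_le q hq
    omega
  have hN0 : (N : ℂ) ≠ 0 := by exact_mod_cast hN.ne'
  rcases s.eq_empty_or_nonempty with hs | hs
  · intro z
    rw [hs, Finset.sum_empty]
  have hd : 1 ≤ d := by
    obtain ⟨i, hi⟩ := hs
    have h2 := (hS i hi).1.card
    have h3 := (hS i hi).2
    omega
  have hNd : 0 < N * d := Nat.mul_pos hN hd
  set P : Polynomial ℂ := ∑ i ∈ s, Polynomial.C (c i) * D5_P d N (S i) with hP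
  have hdeg : P.natDegree ≤ 2 * N * d - 1 := by
    rw [hP]
    refine Polynomial.natDegree_sum_le_of_forall_le _ _ fun i hi => ?_
    exact (Polynomial.natDegree_C_mul_le _ _).trans (D5_deg (hS i hi).1 (hS i hi).2 hN (hdvd i hi))
  have heval : ∀ z : ℂ, P.eval (Complex.exp (Complex.I * z / (2 * N))) =
      Complex.exp (Complex.I * z / (2 * N)) ^ (N * d - 1) * ((2 * Complex.I) ^ (d + 1) *
        ∑ i ∈ s, c i * ∏ q ∈ S i, Complex.sin (z / (2 * q))) := by
    intro z
    rw [hP, Polynomial.eval_finsetSum, Finset.mul_sum, Finset.mul_sum]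
    refine Finset.sum_congr rfl fun i hi => ?_
    rw [Polynomial.eval_mul, Polynomial.eval_C, D5_eval (hS i hi).1 (hS i hi).2 hN (hdvd i hi)]
    ring
  -- it is enough that the polynomial vanishes
  suffices hP0 : P = 0 by
    intro z
    have h2 := heval z
    rw [hP0, Polynomial.eval_zero] at h2
    have h3 : Complex.exp (Complex.I * z / (2 * N)) ^ (N * d - 1) ≠ 0 :=
      pow_ne_zero _ (Complex.exp_ne_zero _)
    have h4 : (2 * Complex.I) ^ (d + 1) ≠ 0 :=
      pow_ne_zero _ (mul_ne_zero two_ne_zero Complex.I_ne_zero)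
    rcases mul_eq_zero.1 h2.symm with h5 | h5
    · exact absurd h5 h3
    · rcases mul_eq_zero.1 h5 with h6 | h6
      · exact absurd h6 h4
      · exact h6
  set ζ : ℂ := Complex.exp (Complex.I * τ / (2 * N)) with hζ
  have hζ0 : ζ ≠ 0 := Complex.exp_ne_zero _
  -- the identity of polynomials
  have hid : Polynomial.C ζ * P.comp (Polynomial.C ζ * Polynomial.X) *
      (Polynomial.X ^ (2 * N) - 1) ^ d =
      P * (Polynomial.C (ζ ^ (2 * N)) * Polynomial.X ^ (2 * N) - 1) ^ d := by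
    apply Polynomial.eq_of_infinite_eval_eq
    refine Set.Infinite.mono ?_ (Set.finite_singleton (0 : ℂ)).infinite_compl
    intro w hw
    have hw0 : w ≠ 0 := hw
    obtain ⟨z, hz⟩ : ∃ z : ℂ, Complex.exp (Complex.I * z / (2 * N)) = w := by
      refine ⟨2 * N * Complex.log w / Complex.I, ?_⟩
      have h2 : Complex.I * (2 * N * Complex.log w / Complex.I) / (2 * N) = Complex.log w := by
        field_simp
      rw [h2, Complex.exp_log hw0]
    have hzw : Complex.exp (Complex.I * (z + τ) / (2 * N)) = ζ * w := by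
      rw [hζ, ← hz, ← Complex.exp_add]
      congr 1
      ring
    have e1 := heval z
    have e2 := heval (z + τ)
    have e3 := D5_sin hN (one_dvd N) z
    have e4 := D5_sin hN (one_dvd N) (z + τ)
    rw [hz] at e1 e3
    rw [hzw] at e2 e4
    rw [Nat.div_one, Nat.cast_one, mul_one] at e3 e4
    have e5 := h z
    show Polynomial.eval w _ = Polynomial.eval w _
    simp only [Polynomial.eval_mul, Polynomial.eval_C, Polynomial.eval_comp, Polynomial.eval_pow,
      Polynomial.eval_sub, Polynomial.eval_X, Polynomial.eval_one]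
    rw [← mul_pow ζ w (2 * N), e1, e2, e3, e4]
    have e6 : ζ ^ (N * d) = ζ * ζ ^ (N * d - 1) := by
      rw [← pow_succ']
      congr 1
      omega
    have e7 : (ζ * w) ^ N = ζ ^ N * w ^ N := mul_pow _ _ _
    simp only [mul_pow, ← pow_mul, e6]
    linear_combination (ζ * ζ ^ (N * d - 1) * w ^ (N * d - 1) * w ^ (N * d) *
      2 ^ (d + 1) * Complex.I ^ (d + 1) * 2 ^ d * Complex.I ^ d) * e5
  have hXne : (Polynomial.X ^ (2 * N) - 1 : Polynomial ℂ) ≠ 0 := by
    have : (Polynomial.X ^ (2 * N) - Polynomial.C 1 : Polynomial ℂ) ≠ 0 :=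
      Polynomial.X_pow_sub_C_ne_zero (by omega) 1
    simpa using this
  by_cases hz1 : ζ ^ (2 * N) = 1
  · -- the case τ = 2 π
    have hexp : ζ ^ (2 * N) = Complex.exp (Complex.I * τ) := by
      rw [hζ, ← Complex.exp_nat_mul]
      congr 1
      push_cast
      field_simp
    rw [hexp, Complex.exp_eq_one_iff] at hz1
    obtain ⟨n, hn⟩ := hz1
    have hτ : τ = n * (2 * Real.pi) := by
      have h2 : Complex.I * ((τ : ℂ) - n * (2 * Real.pi)) = 0 := by
        linear_combination hn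
      have h3 := (mul_eq_zero.1 h2).resolve_left Complex.I_ne_zero
      have h4 : (τ : ℂ) = ((n * (2 * Real.pi) : ℝ) : ℂ) := by
        push_cast
        linear_combination h3
      exact_mod_cast h4
    have hn1 : n = 1 := by
      have hpi := Real.pi_pos
      have h2 : (0 : ℝ) < n := by
        by_contra h3
        rw [not_lt] at h3
        have : (n : ℝ) * (2 * Real.pi) ≤ 0 := mul_nonpos_of_nonpos_of_nonneg h3 (by positivity)
        linarith
      have h3 : (n : ℝ) < 2 := by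
        by_contra h4
        rw [not_lt] at h4
        have : 2 * (2 * Real.pi) ≤ (n : ℝ) * (2 * Real.pi) :=
          mul_le_mul_of_nonneg_right h4 (by positivity)
        linarith
      have h4 : 0 < n := by exact_mod_cast h2
      have h5 : n < 2 := by exact_mod_cast h3
      omega
    have hprim : IsPrimitiveRoot ζ (2 * N) := by
      have h2 := Complex.isPrimitiveRoot_exp (2 * N) (by omega)
      have h3 : ζ = Complex.exp (2 * Real.pi * Complex.I / ((2 * N : ℕ) : ℂ)) := by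
        rw [hζ, hτ, hn1]
        congr 1
        push_cast
        ring
      rw [h3]
      exact h2
    have hζN : ζ ^ (2 * N) = 1 := hprim.pow_eq_one
    rw [hζN, Polynomial.C_1, one_mul] at hid
    have hid2 : Polynomial.C ζ * P.comp (Polynomial.C ζ * Polynomial.X) = P :=
      mul_right_cancel₀ (pow_ne_zero _ hXne) hid
    ext e
    rw [Polynomial.coeff_zero]
    by_cases he : 2 * N ∣ e + 1
    · rw [hP, Polynomial.finsetSum_coeff]
      refine Finset.sum_eq_zero fun i hi => ?_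
      rw [Polynomial.coeff_C_mul, D5_coeff (hS i hi).1 (hS i hi).2 hN (hdvd i hi) he, mul_zero]
    · have h2 := congrArg (fun p => Polynomial.coeff p e) hid2
      simp only [Polynomial.coeff_C_mul, Polynomial.comp_C_mul_X_coeff] at h2
      have h3 : P.coeff e * (ζ ^ (e + 1) - 1) = 0 := by
        rw [pow_succ]
        linear_combination h2
      rcases mul_eq_zero.1 h3 with h4 | h4
      · exact h4
      · exact absurd (hprim.dvd_of_pow_eq_one (e + 1) (by linear_combination h4)) he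
  · -- the other case
    have hcop : IsCoprime ((Polynomial.X ^ (2 * N) - 1 : Polynomial ℂ) ^ d)
        ((Polynomial.C (ζ ^ (2 * N)) * Polynomial.X ^ (2 * N) - 1) ^ d) := by
      apply IsCoprime.pow
      have hne : ζ ^ (2 * N) - 1 ≠ 0 := sub_ne_zero.2 hz1
      refine ⟨-Polynomial.C (ζ ^ (2 * N) / (ζ ^ (2 * N) - 1)), Polynomial.C (1 / (ζ ^ (2 * N) - 1)), ?_⟩
      have h2 : Polynomial.C (ζ ^ (2 * N) / (ζ ^ (2 * N) - 1)) =
          Polynomial.C (ζ ^ (2 * N)) * Polynomial.C (1 / (ζ ^ (2 * N) - 1)) := by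
        rw [← Polynomial.C_mul, mul_one_div]
      have h3 : (Polynomial.C (ζ ^ (2 * N)) - 1) * Polynomial.C (1 / (ζ ^ (2 * N) - 1)) = 1 := by
        rw [← Polynomial.C_1, ← Polynomial.C_sub, ← Polynomial.C_mul, mul_one_div_cancel hne]
      rw [h2]
      linear_combination h3
    have hdv : (Polynomial.X ^ (2 * N) - 1 : Polynomial ℂ) ^ d ∣ P := by
      apply hcop.dvd_of_dvd_mul_right
      rw [← hid]
      exact dvd_mul_left _ _
    apply Polynomial.eq_zero_of_dvd_of_natDegree_lt hdv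
    have h4 : ((Polynomial.X ^ (2 * N) - 1 : Polynomial ℂ) ^ d).natDegree = d * (2 * N) := by
      rw [Polynomial.natDegree_pow]
      congr 1
      have := Polynomial.natDegree_X_pow_sub_C (n := 2 * N) (r := (1 : ℂ))
      simpa using this
    rw [h4]
    have h5 : d * (2 * N) = 2 * (N * d) := by ring
    have h6 : 2 * N * d = 2 * (N * d) := by ring
    rw [h6] at hdeg
    omega

end Pool.Agent.TWO
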