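import Pool.Agent.TWO.Defs
import Pool.Agent.TWO.D5
import Pool.Agent.TWO.A5

set_option autoImplicit false

open PowerSeries Finset MeasureTheory Filter Topology

namespace Pool.Agent.TWO

open scoped Classical in
private noncomputable def d7_c (t : TD) : ℝ :=
  if t.a = t.b ∧ t.X.card = t.Y.card then be t.Y else 0

open scoped Classical in
private noncomputable def d7_S (t : TD) : Finset ℕ :=
  if t.a = t.b ∧ t.X.card = t.Y.card then t.X else t.Y

private theorem d7_lam (t : TD) (z : ℂ) : t.lam z =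
    be t.X * ∏ q ∈ t.Y, Complex.sin (z / (2 * q)) +
      d7_c t * ∏ q ∈ d7_S t, Complex.sin (z / (2 * q)) := by
  unfold TD.lam d7_c d7_S
  split_ifs with h
  · rfl
  · simp

private theorem d7_xi (t : TD) (z : ℂ) :
    t.xi z = t.lam z / Complex.sin (z / 2) ^ dg t.Y := by
  unfold TD.xi TD.lam U
  split_ifs with h
  · have hd : dg t.X = dg t.Y := by
      unfold dg
      rw [h.2]
    rw [hd, add_div, mul_div_assoc, mul_div_assoc]
  · rw [mul_div_assoc]

private theorem d7_card {X : Finset ℕ} (hX : IsLeaf X) : X.card = dg X + 1 := by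
  have := hX.card
  unfold dg
  omega

private theorem d7_leaf {t : TD} (h : t.Ok) : IsLeaf (d7_S t) ∧ (d7_S t).card = dg t.Y + 1 := by
  unfold d7_S
  split_ifs with h1
  · exact ⟨h.X, by rw [h1.2]; exact d7_card h.Y⟩
  · exact ⟨h.Y, d7_card h.Y⟩

private theorem d7_sin {w : ℂ} (hw : 0 < w.im) : Complex.sin (w / 2) ≠ 0 := by
  intro h0
  rw [Complex.sin_eq_zero_iff] at h0
  obtain ⟨k, hk⟩ := h0
  have h1 : w = ((2 * (k * Real.pi) : ℝ) : ℂ) := by
    push_cast
    linear_combination 2 * hk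
  have h2 := congrArg Complex.im h1
  rw [Complex.ofReal_im] at h2
  exact hw.ne' h2

private theorem d7_diff (t : TD) (τ : ℂ) : Differentiable ℂ fun z => t.lam (z + τ) := by
  simp only [d7_lam]
  fun_prop

theorem lam_eq {t t' : TD} (h : t.Ok) (h' : t'.Ok) (hY : dg t.Y = dg t'.Y) (hω : t.om = t'.om)
    (hμ : t.mu = t'.mu)
    (hE : ∀ z : ℂ, 0 < z.im → t.xi (t.om * z + 2 * Real.pi * t.mu) -
      t.xi (t.om * z - 2 * Real.pi * t.mu) = t'.xi (t'.om * z + 2 * Real.pi * t'.mu) -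
      t'.xi (t'.om * z - 2 * Real.pi * t'.mu)) : ∀ z, t.lam z = t'.lam z := by
  obtain ⟨-, -, -, -, -, -, -, -, hom, hmu0, hmu1, -, -⟩ := ok_facts h
  have hpi := Real.pi_pos
  set τ : ℝ := 4 * Real.pi * t.mu with hτ
  have hτ0 : 0 < τ := by positivity
  have hτ1 : τ < 4 * Real.pi := by
    rw [hτ]
    have := mul_lt_mul_of_pos_left hmu1 (by positivity : (0 : ℝ) < 4 * Real.pi)
    linarith
  -- the relation on the upper half plane
  have hup : ∀ w : ℂ, 0 < w.im →
      (t.lam (w + τ) - t'.lam (w + τ)) * Complex.sin (w / 2) ^ dg t.Y =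
      (t.lam w - t'.lam w) * Complex.sin ((w + τ) / 2) ^ dg t.Y := by
    intro w hw
    have hom' : (t.om : ℂ) ≠ 0 := Complex.ofReal_ne_zero.2 hom.ne'
    have hz : 0 < ((w + (2 * Real.pi * t.mu : ℝ)) / (t.om : ℂ)).im := by
      rw [Complex.div_ofReal_im, Complex.add_im, Complex.ofReal_im, add_zero]
      exact div_pos hw hom
    have h1 := hE _ hz
    rw [← hω, ← hμ] at h1
    have e1 : (t.om : ℂ) * ((w + (2 * Real.pi * t.mu : ℝ)) / (t.om : ℂ)) + 2 * Real.pi * t.mu =
        w + τ := by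
      rw [mul_div_cancel₀ _ hom', hτ]
      push_cast
      ring
    have e2 : (t.om : ℂ) * ((w + (2 * Real.pi * t.mu : ℝ)) / (t.om : ℂ)) - 2 * Real.pi * t.mu =
        w := by
      rw [mul_div_cancel₀ _ hom']
      push_cast
      ring
    rw [e1, e2, d7_xi, d7_xi, d7_xi, d7_xi, ← hY] at h1
    have hs1 : Complex.sin (w / 2) ^ dg t.Y ≠ 0 := pow_ne_zero _ (d7_sin hw)
    have hw2 : 0 < (w + (τ : ℂ)).im := by
      rw [Complex.add_im, Complex.ofReal_im, add_zero]
      exact hw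
    have hs2 : Complex.sin ((w + τ) / 2) ^ dg t.Y ≠ 0 := pow_ne_zero _ (d7_sin hw2)
    rw [← sub_eq_zero] at h1 ⊢
    have h3 : (t.lam (w + τ) - t'.lam (w + τ)) * Complex.sin (w / 2) ^ dg t.Y -
        (t.lam w - t'.lam w) * Complex.sin ((w + τ) / 2) ^ dg t.Y =
        (t.lam (w + τ) / Complex.sin ((w + τ) / 2) ^ dg t.Y -
          t.lam w / Complex.sin (w / 2) ^ dg t.Y -
          (t'.lam (w + τ) / Complex.sin ((w + τ) / 2) ^ dg t.Y -
          t'.lam w / Complex.sin (w / 2) ^ dg t.Y)) *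
          (Complex.sin ((w + τ) / 2) ^ dg t.Y * Complex.sin (w / 2) ^ dg t.Y) := by
      field_simp
      ring
    rw [h3, h1, zero_mul]
  -- the relation everywhere
  have hall : (fun w : ℂ => (t.lam (w + τ) - t'.lam (w + τ)) * Complex.sin (w / 2) ^ dg t.Y) =
      fun w => (t.lam w - t'.lam w) * Complex.sin ((w + τ) / 2) ^ dg t.Y := by
    have hd1 : Differentiable ℂ
        (fun w : ℂ => (t.lam (w + τ) - t'.lam (w + τ)) * Complex.sin (w / 2) ^ dg t.Y) := by
      refine ((d7_diff t τ).sub (d7_diff t' τ)).mul ?_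
      fun_prop
    have hd2 : Differentiable ℂ
        (fun w : ℂ => (t.lam w - t'.lam w) * Complex.sin ((w + τ) / 2) ^ dg t.Y) := by
      have h1 := d7_diff t 0
      have h2 := d7_diff t' 0
      simp only [add_zero] at h1 h2
      refine (h1.sub h2).mul ?_
      fun_prop
    refine AnalyticOnNhd.eq_of_eventuallyEq (z₀ := Complex.I) (fun z _ => hd1.analyticAt z)
      (fun z _ => hd2.analyticAt z) ?_
    have hopen : IsOpen {w : ℂ | 0 < w.im} := isOpen_lt continuous_const Complex.continuous_im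
    filter_upwards [hopen.mem_nhds (by simp : Complex.I ∈ {w : ℂ | 0 < w.im})] with w hw
    exact hup w hw
  -- the application of `trig_zero`
  have hl := d7_leaf h
  have hl' := d7_leaf h'
  have hsum : ∀ z : ℂ, ∑ i : Fin 4, (![(be t.X : ℂ), (d7_c t : ℂ), -(be t'.X : ℂ),
      -(d7_c t' : ℂ)] i) * ∏ q ∈ ![t.Y, d7_S t, t'.Y, d7_S t'] i, Complex.sin (z / (2 * q)) =
      t.lam z - t'.lam z := by
    intro z
    rw [Fin.sum_univ_four, d7_lam t, d7_lam t']
    simp only [Matrix.cons_val]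
    ring
  have hfin := trig_zero (s := (Finset.univ : Finset (Fin 4)))
    (c := ![(be t.X : ℂ), (d7_c t : ℂ), -(be t'.X : ℂ), -(d7_c t' : ℂ)])
    (S := ![t.Y, d7_S t, t'.Y, d7_S t']) (d := dg t.Y) (by
      intro i _
      fin_cases i
      · exact ⟨h.Y, d7_card h.Y⟩
      · exact hl
      · exact ⟨h'.Y, by rw [hY]; exact d7_card h'.Y⟩
      · exact ⟨hl'.1, by rw [hY]; exact hl'.2⟩) hτ0 hτ1 (by
      intro z
      rw [hsum, hsum]
      exact congrFun hall z)
  intro z
  have h1 := hfin z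
  rw [hsum] at h1
  exact sub_eq_zero.1 h1

end Pool.Agent.TWO
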