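import Pool.Agent.TWO.Defs
import Pool.Agent.H99.Spl.Sine
import Pool.Agent.TWO.A3

set_option autoImplicit false

open PowerSeries Finset MeasureTheory Filter Topology

namespace Pool.Agent.TWO

private theorem D6_sin_zero {q m : ℕ} (hq : 2 ≤ q) :
    Complex.sin ((2 * Real.pi * m : ℂ) / (2 * q)) = 0 ↔ q ∣ m := by
  have hq0 : (q : ℂ) ≠ 0 := by
    have : q ≠ 0 := by omega
    exact_mod_cast this
  have hpi : (Real.pi : ℂ) ≠ 0 := by exact_mod_cast Real.pi_ne_zero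
  rw [Complex.sin_eq_zero_iff]
  constructor
  · rintro ⟨k, hk⟩
    have h1 : (m : ℂ) = k * q := by
      field_simp at hk
      linear_combination hk
    have h2 : (m : ℤ) = k * q := by exact_mod_cast h1
    have h3 : (q : ℤ) ∣ m := ⟨k, by rw [h2]; ring⟩
    exact_mod_cast h3
  · rintro ⟨k, rfl⟩
    refine ⟨k, ?_⟩
    push_cast
    field_simp

private theorem D6_zero_iff {Y : Finset ℕ} (hY : IsLeaf Y) {s : ℂ} (hs : s ≠ 0) (m : ℕ) :
    s * ∏ q ∈ Y, Complex.sin ((2 * Real.pi * m : ℂ) / (2 * q)) = 0 ↔ ∃ q ∈ Y, q ∣ m := by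
  rw [mul_eq_zero, Finset.prod_eq_zero_iff]
  constructor
  · rintro (h | ⟨q, hq, h⟩)
    · exact absurd h hs
    · exact ⟨q, hq, (D6_sin_zero (hY.two_le q hq)).1 h⟩
  · rintro ⟨q, hq, h⟩
    exact Or.inr ⟨q, hq, (D6_sin_zero (hY.two_le q hq)).2 h⟩

private theorem D6_subset {Y Y' : Finset ℕ} (hY : IsLeaf Y)
    (h1 : ∀ m : ℕ, (∃ q ∈ Y, q ∣ m) → ∃ q ∈ Y', q ∣ m)
    (h2 : ∀ m : ℕ, (∃ q ∈ Y', q ∣ m) → ∃ q ∈ Y, q ∣ m) : Y ⊆ Y' := by
  intro q hq
  obtain ⟨q', hq', hd⟩ := h1 q ⟨q, hq, dvd_rfl⟩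
  obtain ⟨q'', hq'', hd'⟩ := h2 q' ⟨q', hq', dvd_rfl⟩
  have h3 : q'' = q := by
    by_contra hne
    have h4 := hY.coprime q'' hq'' q hq hne
    have h5 : q'' ∣ q := hd'.trans hd
    have h6 : q'' = 1 := Nat.Coprime.eq_one_of_dvd h4 h5
    have h7 := hY.two_le q'' hq''
    omega
  subst h3
  have h4 : q' = q'' := Nat.dvd_antisymm hd hd'
  rw [← h4]
  exact hq'

theorem leaf_of_sin {Y Y' : Finset ℕ} (hY : IsLeaf Y) (hY' : IsLeaf Y') {s s' : ℂ} (hs : s ≠ 0)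
    (hs' : s' ≠ 0) (h : ∀ z : ℂ, s * ∏ q ∈ Y, Complex.sin (z / (2 * q)) =
      s' * ∏ q ∈ Y', Complex.sin (z / (2 * q))) : Y = Y' := by
  have h1 : ∀ m : ℕ, (∃ q ∈ Y, q ∣ m) ↔ ∃ q ∈ Y', q ∣ m := by
    intro m
    rw [← D6_zero_iff hY hs m, ← D6_zero_iff hY' hs' m, h]
  exact Finset.Subset.antisymm (D6_subset hY (fun m => (h1 m).1) fun m => (h1 m).2)
    (D6_subset hY' (fun m => (h1 m).2) fun m => (h1 m).1)

private theorem D6_Pr_ne {Y : Finset ℕ} (hY : IsLeaf Y) : Pr Y ≠ 0 := by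
  unfold Pr
  rw [Finset.prod_ne_zero_iff]
  intro p hp
  have := hY.two_le p hp
  have h : p ≠ 0 := by omega
  exact_mod_cast h

private theorem D6_hasSum {Y : Finset ℕ} (hY : IsLeaf Y) (s : ℝ) {x : ℂ}
    (hx : ‖x‖ < 2 * Real.pi) :
    HasSum (fun i => (((-1) ^ i * (s * coeff i (nd Y)) : ℝ) : ℂ) * x ^ (2 * i + 1))
      ((s * (2 * Pr Y) : ℝ) * U Y x) := by
  have h1 := (U_hasSum hY hx).mul_left (((s * (2 * Pr Y) : ℝ)) : ℂ)
  refine h1.congr_fun ?_
  intro i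
  have h2 : (Pr Y : ℂ) ≠ 0 := by exact_mod_cast D6_Pr_ne hY
  push_cast
  field_simp

private theorem D6_entire (Y : Finset ℕ) (c : ℂ) :
    AnalyticOnNhd ℂ (fun z : ℂ => c * ∏ q ∈ Y, Complex.sin (z / (2 * q))) Set.univ := by
  have h : Differentiable ℂ (fun z : ℂ => c * ∏ q ∈ Y, Complex.sin (z / (2 * q))) := by
    apply Differentiable.const_mul
    apply Differentiable.fun_finsetProd
    intro q _
    exact Complex.differentiable_sin.comp (differentiable_id.div_const _)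
  exact fun z _ => h.analyticAt z

theorem leaf_of_nd {Y Y' : Finset ℕ} (hY : IsLeaf Y) (hY' : IsLeaf Y') (hd : dg Y = dg Y')
    {s s' : ℝ} (hs : s ≠ 0) (hs' : s' ≠ 0) (h : ∀ i, s * coeff i (nd Y) = s' * coeff i (nd Y')) :
    Y = Y' := by
  have hpi : (3 : ℝ) < Real.pi := Real.pi_gt_three
  have hP := D6_Pr_ne hY
  have hP' := D6_Pr_ne hY'
  have hc : ((s * (2 * Pr Y) : ℝ) : ℂ) ≠ 0 := by
    have : s * (2 * Pr Y) ≠ 0 := mul_ne_zero hs (mul_ne_zero two_ne_zero hP)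
    exact_mod_cast this
  have hc' : ((s' * (2 * Pr Y') : ℝ) : ℂ) ≠ 0 := by
    have : s' * (2 * Pr Y') ≠ 0 := mul_ne_zero hs' (mul_ne_zero two_ne_zero hP')
    exact_mod_cast this
  have hev : (fun z : ℂ => ((s * (2 * Pr Y) : ℝ) : ℂ) * ∏ q ∈ Y, Complex.sin (z / (2 * q))) =ᶠ[𝓝 1]
      (fun z : ℂ => ((s' * (2 * Pr Y') : ℝ) : ℂ) * ∏ q ∈ Y', Complex.sin (z / (2 * q))) := by
    filter_upwards [Metric.ball_mem_nhds (1 : ℂ) one_pos] with x hx
    rw [Metric.mem_ball, dist_eq_norm] at hx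
    have hx0 : x ≠ 0 := by
      rintro rfl
      simp at hx
    have hx2 : ‖x‖ < 2 * Real.pi := by
      have h1 : ‖x‖ ≤ ‖x - 1‖ + ‖(1 : ℂ)‖ := by
        have := norm_add_le (x - 1) 1
        simpa using this
      rw [norm_one] at h1
      linarith
    have hsin : Complex.sin (x / 2) ≠ 0 := by
      rw [Complex.sin_ne_zero_iff]
      intro k hk
      have h1 : x = 2 * (k * Real.pi) := by rw [← hk]; ring
      rcases eq_or_ne k 0 with h0 | h0
      · rw [h0] at h1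
        apply hx0
        rw [h1]
        simp
      · have h2 : ‖x‖ = 2 * (|(k : ℝ)| * Real.pi) := by
          rw [h1, norm_mul, norm_mul]
          simp [abs_of_pos Real.pi_pos]
        have h3 : (1 : ℝ) ≤ |(k : ℝ)| := by
          have := Int.one_le_abs h0
          exact_mod_cast this
        rw [h2] at hx2
        nlinarith
    have h1 := D6_hasSum hY s hx2
    have h2 := D6_hasSum hY' s' hx2
    simp only [h] at h1
    have h3 := h1.unique h2
    unfold U at h3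
    rw [hd] at h3
    have h4 : Complex.sin (x / 2) ^ dg Y' ≠ 0 := pow_ne_zero _ hsin
    rw [← mul_div_assoc, ← mul_div_assoc, div_left_inj' h4] at h3
    exact h3
  have hfun := AnalyticOnNhd.eq_of_eventuallyEq (D6_entire Y _) (D6_entire Y' _) hev
  exact leaf_of_sin hY hY' hc hc' fun z => congrFun hfun z

end Pool.Agent.TWO
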