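import Pool.Agent.TWO.Defs
import Pool.Agent.TWO.D6
import Pool.Agent.TWO.A3
import Pool.Agent.TWO.A5

set_option autoImplicit false

open PowerSeries Finset MeasureTheory Filter Topology

namespace Pool.Agent.TWO

private theorem D8_be_ne {X : Finset ℕ} (hX : IsLeaf X) : be X ≠ 0 := by
  unfold be
  apply (Finset.prod_pos _).ne'
  intro p hp
  have h2 : (2 : ℝ) ≤ (p : ℝ) := by exact_mod_cast hX.two_le p hp
  apply Real.sin_pos_of_pos_of_lt_pi
  · exact div_pos Real.pi_pos (by linarith)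
  · rw [div_lt_iff₀ (by linarith)]
    nlinarith [Real.pi_pos]

private theorem D8_card {X X' : Finset ℕ} (hX : IsLeaf X) (hX' : IsLeaf X') (h : dg X = dg X') :
    X.card = X'.card := by
  have h1 := hX.card
  have h2 := hX'.card
  unfold dg at h
  omega

theorem leaves_single {t t' : TD} (h : t.Ok) (h' : t'.Ok) (ha : t.a = t'.a) (hb : t.b = t'.b)
    (hc : t.c = t'.c) (hX : dg t.X = dg t'.X) (hY : dg t.Y = dg t'.Y) (hs : t.ser = t'.ser)
    (hl : ∀ z, t.lam z = t'.lam z) (hn : ¬ (t.a = t.b ∧ t.X.card = t.Y.card)) :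
    t.X = t'.X ∧ t.Y = t'.Y := by
  have hcX := D8_card h.X h'.X hX
  have hcY := D8_card h.Y h'.Y hY
  have hn' : ¬ (t'.a = t'.b ∧ t'.X.card = t'.Y.card) := by
    rw [← ha, ← hb, ← hcX, ← hcY]
    exact hn
  have hYY : t.Y = t'.Y := by
    apply leaf_of_sin h.Y h'.Y (s := ((be t.X : ℝ) : ℂ)) (s' := ((be t'.X : ℝ) : ℂ))
    · exact_mod_cast D8_be_ne h.X
    · exact_mod_cast D8_be_ne h'.X
    · intro z
      have h1 := hl z
      unfold TD.lam at h1
      rw [if_neg hn, if_neg hn'] at h1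
      exact h1
  obtain ⟨ha0, hc0, -⟩ := ok_facts h
  have hB : H99.Spl.Bf t.a t.c t.b (fun i => coeff i (nd t.X) - coeff i (nd t'.X))
      (fun i => coeff i (nd t.Y)) = 0 := by
    ext n
    unfold H99.Spl.Bf
    rw [PowerSeries.coeff_mk, map_zero]
    have h1 := congrArg (coeff n) hs
    unfold TD.ser at h1
    rw [PowerSeries.coeff_mk, PowerSeries.coeff_mk, ← ha, ← hb, ← hc, ← hYY] at h1
    have h2 : ∑ x ∈ antidiagonal n, (coeff x.1 (nd t.X) - coeff x.1 (nd t'.X)) *
        coeff x.2 (nd t.Y) * H99.Spl.Mom t.a t.c t.b x.1 x.2 =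
        2 * t.c * (∑ x ∈ antidiagonal n, coeff x.1 (nd t.X) * coeff x.2 (nd t.Y) *
          (H99.Spl.Mom t.a t.c t.b x.1 x.2 / (2 * t.c)) -
        ∑ x ∈ antidiagonal n, coeff x.1 (nd t'.X) * coeff x.2 (nd t.Y) *
          (H99.Spl.Mom t.a t.c t.b x.1 x.2 / (2 * t.c))) := by
      rw [← Finset.sum_sub_distrib, Finset.mul_sum]
      refine Finset.sum_congr rfl fun x _ => ?_
      field_simp
    rw [h2, h1, sub_self, mul_zero]
  have hXX : t.X = t'.X := by
    rcases H99.Spl.bf_eq_zero ha0 hc0 h.b_pos hB with h3 | h3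
    · apply leaf_of_nd h.X h'.X hX (s := 1) (s' := 1) one_ne_zero one_ne_zero
      intro i
      have h4 := congrFun h3 i
      simp only [Pi.zero_apply] at h4
      linarith
    · exfalso
      have h4 := congrFun h3 0
      simp only [Pi.zero_apply] at h4
      rw [nd_zero] at h4
      exact one_ne_zero h4
  exact ⟨hXX, hYY⟩

end Pool.Agent.TWO
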