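import Pool.Agent.TWO.Defs
import Pool.Agent.TWO.D6
import Pool.Agent.TWO.A3
import Pool.Agent.TWO.A5

set_option autoImplicit false

open PowerSeries Finset MeasureTheory Filter Topology

namespace Pool.Agent.TWO

private theorem d9_uniq {c : ℕ → ℂ} {R : ℝ} (hR : 0 < R)
    (h : ∀ x : ℂ, ‖x‖ < R → HasSum (fun i => c i * x ^ (2 * i + 1)) 0) : ∀ i, c i = 0 := by
  classical
  set e : ℕ → ℂ := fun n => if n % 2 = 1 then c (n / 2) else 0 with he
  have h1 : HasFPowerSeriesAt (0 : ℂ → ℂ) (FormalMultilinearSeries.ofScalars ℂ e) 0 := by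
    rw [hasFPowerSeriesAt_iff]
    have h2 : Metric.ball (0 : ℂ) R ∈ 𝓝 (0 : ℂ) := Metric.ball_mem_nhds _ hR
    filter_upwards [h2] with z hz
    have hz' : ‖z‖ < R := by simpa using hz
    have hinj : Function.Injective (fun i : ℕ => 2 * i + 1) := by
      intro i j hij
      simp only at hij
      omega
    have h3 := h z hz'
    have h4 : (fun i => c i * z ^ (2 * i + 1)) =
        (fun n => z ^ n • (FormalMultilinearSeries.ofScalars ℂ e).coeff n) ∘
          (fun i : ℕ => 2 * i + 1) := by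
      funext i
      simp only [Function.comp, FormalMultilinearSeries.coeff_ofScalars, he, smul_eq_mul]
      rw [if_pos (by omega), show (2 * i + 1) / 2 = i by omega]
      ring
    rw [h4, hinj.hasSum_iff] at h3
    · simpa using h3
    · intro n hn
      simp only [FormalMultilinearSeries.coeff_ofScalars, he, smul_eq_mul]
      rw [if_neg, mul_zero]
      intro h5
      apply hn
      exact ⟨n / 2, by simp only; omega⟩
  have h2 := h1.eq_zero
  intro i
  have h3 : (FormalMultilinearSeries.ofScalars ℂ e).coeff (2 * i + 1) = 0 := by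
    rw [h2]
    rfl
  rw [FormalMultilinearSeries.coeff_ofScalars] at h3
  simp only [he] at h3
  rw [if_pos (by omega), show (2 * i + 1) / 2 = i by omega] at h3
  exact h3

private theorem d9_be_pos {X : Finset ℕ} (hX : IsLeaf X) : 0 < be X := by
  unfold be
  refine Finset.prod_pos fun p hp => ?_
  have h1 := hX.two_le p hp
  have h2 : (2 : ℝ) ≤ p := by exact_mod_cast h1
  refine Real.sin_pos_of_pos_of_lt_pi (by positivity) ?_
  rw [div_lt_iff₀ (by linarith)]
  nlinarith [Real.pi_pos]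

private theorem d9_Pr_pos {X : Finset ℕ} (hX : IsLeaf X) : 0 < Pr X := by
  unfold Pr
  refine Finset.prod_pos fun p hp => ?_
  have h1 := hX.two_le p hp
  have h2 : (2 : ℝ) ≤ p := by exact_mod_cast h1
  linarith

private theorem d9_lam2pi {t : TD} (hn : t.a = t.b ∧ t.X.card = t.Y.card) :
    t.lam ((2 * Real.pi : ℝ) : ℂ) = ((2 * (be t.X * be t.Y) : ℝ) : ℂ) := by
  have h1 : ∀ q : ℕ, Complex.sin (((2 * Real.pi : ℝ) : ℂ) / (2 * q)) =
      ((Real.sin (Real.pi / q) : ℝ) : ℂ) := by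
    intro q
    rw [Complex.ofReal_sin]
    congr 1
    push_cast
    rw [mul_div_mul_left _ _ (two_ne_zero)]
  unfold TD.lam
  rw [if_pos hn]
  simp only [h1]
  rw [← Complex.ofReal_prod, ← Complex.ofReal_prod]
  have h2 : ∏ q ∈ t.Y, Real.sin (Real.pi / q) = be t.Y := rfl
  have h3 : ∏ q ∈ t.X, Real.sin (Real.pi / q) = be t.X := rfl
  rw [h2, h3]
  push_cast
  ring

private theorem d9_sum {t : TD} (h : t.Ok) (hn : t.a = t.b ∧ t.X.card = t.Y.card) {x : ℂ}
    (hx : ‖x‖ < 2 * Real.pi) :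
    HasSum (fun i => (((-1) ^ i * (be t.X * (coeff i (nd t.Y) / (2 * Pr t.Y)) +
      be t.Y * (coeff i (nd t.X) / (2 * Pr t.X))) : ℝ) : ℂ) * x ^ (2 * i + 1))
      (t.lam x / Complex.sin (x / 2) ^ dg t.X) := by
  have hd : dg t.Y = dg t.X := by unfold dg; rw [hn.2]
  have h1 := (U_hasSum h.Y hx).mul_left ((be t.X : ℝ) : ℂ)
  have h2 := (U_hasSum h.X hx).mul_left ((be t.Y : ℝ) : ℂ)
  have h3 := h1.add h2
  have h4 : ((be t.X : ℝ) : ℂ) * U t.Y x + ((be t.Y : ℝ) : ℂ) * U t.X x =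
      t.lam x / Complex.sin (x / 2) ^ dg t.X := by
    unfold U TD.lam
    rw [if_pos hn, hd]
    ring
  rw [h4] at h3
  have h5 : (fun i => (((-1) ^ i * (be t.X * (coeff i (nd t.Y) / (2 * Pr t.Y)) +
      be t.Y * (coeff i (nd t.X) / (2 * Pr t.X))) : ℝ) : ℂ) * x ^ (2 * i + 1)) =
      fun i => ((be t.X : ℝ) : ℂ) *
        ((((-1) ^ i * coeff i (nd t.Y) / (2 * Pr t.Y) : ℝ) : ℂ) * x ^ (2 * i + 1)) +
        ((be t.Y : ℝ) : ℂ) *
        ((((-1) ^ i * coeff i (nd t.X) / (2 * Pr t.X) : ℝ) : ℂ) * x ^ (2 * i + 1)) := by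
    funext i
    push_cast
    ring
  rw [h5]
  exact h3

theorem leaves_double {t t' : TD} (h : t.Ok) (h' : t'.Ok) (ha : t.a = t'.a) (hb : t.b = t'.b)
    (hc : t.c = t'.c) (hX : dg t.X = dg t'.X) (hY : dg t.Y = dg t'.Y) (hs : t.ser = t'.ser)
    (hl : ∀ z, t.lam z = t'.lam z) (hn : t.a = t.b ∧ t.X.card = t.Y.card) :
    (t.X = t'.X ∧ t.Y = t'.Y) ∨ (t.X = t'.Y ∧ t.Y = t'.X) := by
  have hdg : dg t.X = dg t.Y := by unfold dg; rw [hn.2]
  have hn' : t'.a = t'.b ∧ t'.X.card = t'.Y.card := by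
    refine ⟨by rw [← ha, ← hb]; exact hn.1, ?_⟩
    have h1 : dg t'.X = dg t'.Y := by rw [← hX, ← hY, hdg]
    unfold dg at h1
    have h2 := h'.X.card
    have h3 := h'.Y.card
    omega
  obtain ⟨ha0, hc0, -⟩ := ok_facts h
  have bX := d9_be_pos h.X
  have bY := d9_be_pos h.Y
  have bX' := d9_be_pos h'.X
  have bY' := d9_be_pos h'.Y
  have pX := d9_Pr_pos h.X
  have pY := d9_Pr_pos h.Y
  have pX' := d9_Pr_pos h'.X
  have pY' := d9_Pr_pos h'.Y
  have hbe : be t.X * be t.Y = be t'.X * be t'.Y := by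
    have h1 := hl ((2 * Real.pi : ℝ) : ℂ)
    rw [d9_lam2pi hn, d9_lam2pi hn', Complex.ofReal_inj] at h1
    linarith
  -- the sums of the coefficients
  have hco : ∀ i, be t.X * (coeff i (nd t.Y) / (2 * Pr t.Y)) +
      be t.Y * (coeff i (nd t.X) / (2 * Pr t.X)) =
      be t'.X * (coeff i (nd t'.Y) / (2 * Pr t'.Y)) +
      be t'.Y * (coeff i (nd t'.X) / (2 * Pr t'.X)) := by
    have h1 : ∀ i, (((-1) ^ i * (be t.X * (coeff i (nd t.Y) / (2 * Pr t.Y)) +
      be t.Y * (coeff i (nd t.X) / (2 * Pr t.X))) : ℝ) : ℂ) -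
      (((-1) ^ i * (be t'.X * (coeff i (nd t'.Y) / (2 * Pr t'.Y)) +
      be t'.Y * (coeff i (nd t'.X) / (2 * Pr t'.X))) : ℝ) : ℂ) = 0 := by
      refine d9_uniq (R := 2 * Real.pi) (by positivity) fun x hx => ?_
      have h2 := (d9_sum h hn hx).sub (d9_sum h' hn' hx)
      rw [hl, hX, sub_self] at h2
      have h5 : (fun i => ((((-1) ^ i * (be t.X * (coeff i (nd t.Y) / (2 * Pr t.Y)) +
        be t.Y * (coeff i (nd t.X) / (2 * Pr t.X))) : ℝ) : ℂ) -
        (((-1) ^ i * (be t'.X * (coeff i (nd t'.Y) / (2 * Pr t'.Y)) +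
        be t'.Y * (coeff i (nd t'.X) / (2 * Pr t'.X))) : ℝ) : ℂ)) * x ^ (2 * i + 1)) =
        fun i => (((-1) ^ i * (be t.X * (coeff i (nd t.Y) / (2 * Pr t.Y)) +
        be t.Y * (coeff i (nd t.X) / (2 * Pr t.X))) : ℝ) : ℂ) * x ^ (2 * i + 1) -
        (((-1) ^ i * (be t'.X * (coeff i (nd t'.Y) / (2 * Pr t'.Y)) +
        be t'.Y * (coeff i (nd t'.X) / (2 * Pr t'.X))) : ℝ) : ℂ) * x ^ (2 * i + 1) := by
        funext i
        rw [sub_mul]
      rw [h5]
      exact h2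
    intro i
    have h2 := h1 i
    rw [← Complex.ofReal_sub, Complex.ofReal_eq_zero, ← mul_sub] at h2
    rcases mul_eq_zero.1 h2 with h3 | h3
    · exact absurd h3 (pow_ne_zero _ (by norm_num))
    · linarith
  set f : ℕ → ℝ := fun i => coeff i (nd t.X) / (2 * Pr t.X * be t.X) with hf
  set g : ℕ → ℝ := fun i => coeff i (nd t.Y) / (2 * Pr t.Y * be t.Y) with hg
  set f' : ℕ → ℝ := fun i => coeff i (nd t'.X) / (2 * Pr t'.X * be t'.X) with hf'
  set g' : ℕ → ℝ := fun i => coeff i (nd t'.Y) / (2 * Pr t'.Y * be t'.Y) with hg'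
  have h1 : ∀ i, f i + g i = f' i + g' i := by
    intro i
    have h2 := hco i
    have h3 : f i + g i = (be t.X * (coeff i (nd t.Y) / (2 * Pr t.Y)) +
      be t.Y * (coeff i (nd t.X) / (2 * Pr t.X))) / (be t.X * be t.Y) := by
      simp only [hf, hg]
      field_simp
      ring
    have h4 : f' i + g' i = (be t'.X * (coeff i (nd t'.Y) / (2 * Pr t'.Y)) +
      be t'.Y * (coeff i (nd t'.X) / (2 * Pr t'.X))) / (be t'.X * be t'.Y) := by
      simp only [hf', hg']
      field_simp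
      ring
    rw [h3, h4, h2, hbe]
  have hba : t.b = t.a := hn.1.symm
  have hba' : t'.b = t.a := by rw [← hb, hba]
  have hgen : ∀ (s : TD), 0 < be s.X → 0 < be s.Y → 0 < Pr s.X → 0 < Pr s.Y → s.a = t.a →
      s.b = t.a → s.c = t.c → H99.Spl.Bf t.a t.c t.a
        (fun i => coeff i (nd s.X) / (2 * Pr s.X * be s.X))
        (fun i => coeff i (nd s.Y) / (2 * Pr s.Y * be s.Y)) =
      C (1 / (2 * (be s.X * be s.Y))) * s.ser := by
    intro s b1 b2 p1 p2 e1 e2 e3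
    ext n
    unfold H99.Spl.Bf TD.ser
    rw [coeff_C_mul, coeff_mk, coeff_mk, mul_sum]
    refine sum_congr rfl fun x _ => ?_
    rw [e1, e2, e3]
    have e4 : t.c = Pr s.X * Pr s.Y := by rw [← e3]; rfl
    rw [show (2 * t.c) = 2 * (Pr s.X * Pr s.Y) by rw [e4]]
    field_simp
  have h2 : H99.Spl.Bf t.a t.c t.a f g = H99.Spl.Bf t.a t.c t.a f' g' := by
    have h3 := hgen t bX bY pX pY rfl hba rfl
    have h4 := hgen t' bX' bY' pX' pY' ha.symm hba' hc.symm
    simp only [hf, hg, hf', hg']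
    rw [h3, h4, hs, hbe]
  have key : ∀ {A B : Finset ℕ}, IsLeaf A → IsLeaf B → dg A = dg B → 0 < be A → 0 < be B →
      0 < Pr A → 0 < Pr B →
      (fun i => coeff i (nd A) / (2 * Pr A * be A)) =
        (fun i => coeff i (nd B) / (2 * Pr B * be B)) → A = B := by
    intro A B hA hB hd b1 b2 p1 p2 he
    refine leaf_of_nd hA hB hd (s := (2 * Pr A * be A)⁻¹) (s' := (2 * Pr B * be B)⁻¹)
      (by positivity) (by positivity) fun i => ?_
    have h3 := congrFun he i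
    rw [inv_mul_eq_div, inv_mul_eq_div]
    exact h3
  have hdg' : dg t'.X = dg t'.Y := by rw [← hX, ← hY, hdg]
  rcases H99.Spl.bf_tie ha0 hc0 h1 h2 with ⟨k1, k2⟩ | ⟨k1, k2⟩
  · left
    exact ⟨key h.X h'.X hX bX bX' pX pX' k1, key h.Y h'.Y hY bY bY' pY pY' k2⟩
  · right
    exact ⟨key h.X h'.Y (hX.trans hdg') bX bY' pX pY' k1,
      key h.Y h'.X (hY.trans hdg'.symm) bY bX' pY pX' k2⟩

end Pool.Agent.TWO
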