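import Pool.Agent.TWO.Defs
import Pool.Agent.TWO.A6
import Pool.Agent.TWO.C8
import Pool.Agent.TWO.C3
import Pool.Agent.TWO.C5
import Pool.Agent.TWO.D4
import Pool.Agent.TWO.D3
import Pool.Agent.TWO.D7
import Pool.Agent.TWO.D8
import Pool.Agent.TWO.D9
import Pool.Agent.TWO.A5

set_option autoImplicit false

open PowerSeries Finset MeasureTheory Filter Topology

namespace Pool.Agent.TWO

private theorem d10_dg {X : Finset ℕ} (h : IsLeaf X) : 1 ≤ dg X := by
  have := h.card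
  unfold dg
  omega

private theorem d10_x0 {t t' : TD} (ha : t.a = t'.a) : t.x0 = t'.x0 := by
  unfold TD.x0
  rw [ha]

private theorem d10_E {t : TD} (h : t.Ok) (q : ℂ) :
    t.xi (2 * Real.pi * t.mu + Complex.I * t.om * q) +
      t.xi (2 * Real.pi * t.mu - Complex.I * t.om * q) =
    t.xi (t.om * (Complex.I * q) + 2 * Real.pi * t.mu) -
      t.xi (t.om * (Complex.I * q) - 2 * Real.pi * t.mu) := by
  have h1 := xi_odd h (t.om * (Complex.I * q) - 2 * Real.pi * t.mu)
  have e1 : (2 * Real.pi * t.mu - Complex.I * t.om * q : ℂ) =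
      -(t.om * (Complex.I * q) - 2 * Real.pi * t.mu) := by ring
  have e2 : (2 * Real.pi * t.mu + Complex.I * t.om * q : ℂ) =
      t.om * (Complex.I * q) + 2 * Real.pi * t.mu := by ring
  rw [e1, e2, h1]
  ring

private theorem d10_kap {d : ℕ} {x : ℝ} (hx : 0 < x) : ((kap d x : ℝ) : ℂ) ≠ 0 := by
  have h1 : 0 < kap d x := by
    unfold kap
    have : 0 < (2 * d - 3).doubleFactorial := Nat.doubleFactorial_pos _
    have h2 : (0 : ℝ) < ((2 * d - 3).doubleFactorial : ℝ) := by exact_mod_cast this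
    positivity
  exact_mod_cast h1.ne'

private theorem d10_main {t t' : TD} (h : t.Ok) (h' : t'.Ok) (ha : t.a = t'.a)
    (hs : t.ser = t'.ser) : dg t.X = dg t'.X ∧ ∀ z : ℂ, 0 < z.im →
      t.xi (t.om * z + 2 * Real.pi * t.mu) - t.xi (t.om * z - 2 * Real.pi * t.mu) =
      t'.xi (t'.om * z + 2 * Real.pi * t'.mu) - t'.xi (t'.om * z - 2 * Real.pi * t'.mu) := by
  obtain ⟨O, P, T, h1, h2, h3, ε, hε, h4⟩ := main_local h
  obtain ⟨O', P', T', h1', h2', h3', ε', hε', h4'⟩ := main_local h'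
  have hx := d10_x0 ha
  have hx0 : 0 < t.x0 := (ok_facts h).2.2.2.2.2.2.2.1
  rw [← hx] at h2' h3' h4'
  have hg : ∀ y : ℝ, 0 ≤ y → y < t.x0 →
      gI (fun x => U t.X (Real.sqrt t.a * x)) (fun x => U t.Y (Real.sqrt t.b * x)) t.rho t.sg y =
      gI (fun x => U t'.X (Real.sqrt t'.a * x)) (fun x => U t'.Y (Real.sqrt t'.b * x)) t'.rho
        t'.sg y := by
    intro y hy hy'
    have e1 := gI_hasSum h hy hy'
    have e2 := gI_hasSum h' hy (hx ▸ hy')
    rw [← hs] at e2
    exact e1.unique e2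
  have hO : ∀ q : ℂ, 0 < q.re → O q = O' q := by
    refine odd_unique hx0 h1 h1' h3 h3' (ε := min (min ε ε') t.x0)
      (lt_min (lt_min hε hε') hx0) fun y hy hy' => ?_
    have m1 : min (min ε ε') t.x0 ≤ ε := (min_le_left _ _).trans (min_le_left _ _)
    have m2 : min (min ε ε') t.x0 ≤ ε' := (min_le_left _ _).trans (min_le_right _ _)
    have m3 : min (min ε ε') t.x0 ≤ t.x0 := min_le_right _ _
    rw [← h4 y (by linarith) hy', ← h4' y (by linarith) hy']
    exact hg y (by linarith) hy'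
  have hd := d10_dg h.X
  have hd' := d10_dg h'.X
  have key : ∀ {s s' : TD}, s.Ok → s'.Ok → ∀ {x x' : ℝ}, 0 < x → ∀ {Q Q' : ℂ → ℂ} {S S' : ℝ},
      HasTop Q (fun q => kap (dg s.X) x * (s.xi (2 * Real.pi * s.mu + Complex.I * s.om * q) +
        s.xi (2 * Real.pi * s.mu - Complex.I * s.om * q))) (2 * dg s.X - 1) S →
      HasTop Q' (fun q => kap (dg s'.X) x' * (s'.xi (2 * Real.pi * s'.mu +
        Complex.I * s'.om * q) + s'.xi (2 * Real.pi * s'.mu - Complex.I * s'.om * q)))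
        (2 * dg s'.X - 1) S' →
      (∀ q : ℂ, 0 < q.re → Q q = Q' q) → dg s'.X < dg s.X → False := by
    intro s s' hs1 hs2 x x' hxs Q Q' S S' k1 k2 k3 k4
    have hd := d10_dg hs1.X
    have hd' := d10_dg hs2.X
    have k5 := top_lt k1 k2 k3 (by omega)
    obtain ⟨z, hz, hz'⟩ := xi_ne_zero hs1
    apply hz'
    have k6 := k5 (-(Complex.I * z)) (by simpa using hz)
    rcases mul_eq_zero.1 k6 with k7 | k7
    · exact absurd k7 (d10_kap hxs)
    · rw [d10_E hs1] at k7
      have e : Complex.I * -(Complex.I * z) = z := by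
        linear_combination (-z) * Complex.I_mul_I
      rw [e] at k7
      exact k7
  have hdd : dg t.X = dg t'.X := by
    rcases lt_trichotomy (dg t.X) (dg t'.X) with hlt | heq | hgt
    · exact (key h' h hx0 h2' h2 (fun q hq => (hO q hq).symm) hlt).elim
    · exact heq
    · exact (key h h' hx0 h2 h2' hO hgt).elim
  refine ⟨hdd, fun z hz => ?_⟩
  rw [← hdd] at h2'
  have k6 := top_eq h2 h2' hO (-(Complex.I * z)) (by simpa using hz)
  have k7 := mul_left_cancel₀ (d10_kap hx0) k6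
  rw [d10_E h, d10_E h'] at k7
  have e : Complex.I * -(Complex.I * z) = z := by
    linear_combination (-z) * Complex.I_mul_I
  rw [e] at k7
  exact k7

theorem two_sep {t t' : TD} (h : t.Ok) (h' : t'.Ok) (ha : t.a = t'.a) (hs : t.ser = t'.ser) :
    t.b = t'.b ∧ ((t.X = t'.X ∧ t.Y = t'.Y) ∨ (t.a = t.b ∧ t.X = t'.Y ∧ t.Y = t'.X)) := by
  obtain ⟨hX, hE⟩ := d10_main h h' ha hs
  obtain ⟨hY, hω, hμ⟩ := decode h h' hE
  obtain ⟨f1, f2, f3, f4, f5, f6, f7, f8, f9, f10, f11, f12, f13⟩ := ok_facts h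
  obtain ⟨g1, g2, g3, g4, g5, g6, g7, g8, g9, g10, g11, g12, g13⟩ := ok_facts h'
  have hc : t.c = t'.c := by
    have hμ' := hμ
    unfold TD.mu at hμ'
    rw [← ha] at hμ'
    exact (div_left_inj' f1.ne').1 hμ'
  have hb : t.b = t'.b := by
    rw [hω, g13, hc, ha] at f13
    linarith
  have hl := lam_eq h h' hY hω hμ hE
  refine ⟨hb, ?_⟩
  by_cases hn : t.a = t.b ∧ t.X.card = t.Y.card
  · rcases leaves_double h h' ha hb hc hX hY hs hl hn with h1 | h1
    · exact Or.inl h1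
    · exact Or.inr ⟨hn.1, h1⟩
  · exact Or.inl (leaves_single h h' ha hb hc hX hY hs hl hn)

end Pool.Agent.TWO
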