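import Pool.Agent.SLR.Definite

/-!
# The same splice diagram
-/

set_option autoImplicit false

namespace Pool.Agent.TWO

open Pool.Agent.OHG

/-- The two diagrams have the same leaves and, up to the signs, the same weights of the edges. -/
def Same (P P' : Prime) : Prop :=
  ∃ e : Fin (P.n + 1) ≃ Fin (P'.n + 1), (∀ v, P'.D.leaf (e v) = P.D.leaf v) ∧
    ∀ v w, |P'.D.wt (e v) (e w)| = |P.D.wt v w|

end Pool.Agent.TWO
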