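import Pool.Agent.OHT.Defs
import Pool.Agent.TWO.Same
import Pool.Agent.H99.Spl.NoZD

/-!
# The Ohtsuki series of the homology sphere links of surface singularities with two nodes
-/

set_option autoImplicit false

open PowerSeries Finset MeasureTheory

namespace Pool.Agent.TWO

/-- The set of the weights of the leaves at a node with one edge. -/
structure IsLeaf (X : Finset ℕ) : Prop where
  card : 2 ≤ X.card
  two_le : ∀ k ∈ X, 2 ≤ k
  coprime : ∀ k ∈ X, ∀ l ∈ X, k ≠ l → Nat.Coprime k l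

/-- The order of the poles of the function of a node with one edge. -/
def dg (X : Finset ℕ) : ℕ := X.card - 1

/-- The function of a node with one edge. -/
noncomputable def U (X : Finset ℕ) (x : ℂ) : ℂ :=
  (∏ p ∈ X, Complex.sin (x / (2 * p))) / Complex.sin (x / 2) ^ dg X

/-- The power series of a node with one edge. -/
noncomputable def nd (X : Finset ℕ) : ℝ⟦X⟧ :=
  (∏ k ∈ X, OHT.sinhc k) * ((OHT.sinhc 1)⁻¹) ^ dg X

/-- The product of the values `sin (π / p)`. -/
noncomputable def be (X : Finset ℕ) : ℝ := ∏ p ∈ X, Real.sin (Real.pi / p)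

/-- The product of the weights. -/
noncomputable def Pr (X : Finset ℕ) : ℝ := ∏ p ∈ X, (p : ℝ)

/-- A diagram with two nodes: the sets of the weights of the leaves, and the linking numbers
`a = ℓ_vv` and `b = ℓ_ww` of the nodes. -/
structure TD where
  X : Finset ℕ
  Y : Finset ℕ
  a : ℝ
  b : ℝ

namespace TD

/-- The linking number `ℓ_vw`. -/
noncomputable def c (t : TD) : ℝ := Pr t.X * Pr t.Y

/-- A positive definite diagram with its nodes in the right order. -/
structure Ok (t : TD) : Prop where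
  X : IsLeaf t.X
  Y : IsLeaf t.Y
  b_pos : 0 < t.b
  det : t.c ^ 2 < t.a * t.b
  le : t.b ≤ t.a
  tie : t.a = t.b → t.Y.card ≤ t.X.card

noncomputable def rho (t : TD) : ℝ := t.c / Real.sqrt (t.a * t.b)

noncomputable def sg (t : TD) : ℝ := Real.sqrt (1 - t.rho ^ 2)

noncomputable def x0 (t : TD) : ℝ := 2 * Real.pi / Real.sqrt t.a

noncomputable def om (t : TD) : ℝ := Real.sqrt t.b * t.sg

noncomputable def mu (t : TD) : ℝ := t.c / t.a

/-- The formal Gaussian integral of the diagram. -/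
noncomputable def ser (t : TD) : ℝ⟦X⟧ :=
  PowerSeries.mk fun n => ∑ x ∈ antidiagonal n, coeff x.1 (nd t.X) * coeff x.2 (nd t.Y) *
    (H99.Spl.Mom t.a t.c t.b x.1 x.2 / (2 * t.c))

open scoped Classical in
/-- The function of the first singularity. -/
noncomputable def xi (t : TD) (z : ℂ) : ℂ :=
  if t.a = t.b ∧ t.X.card = t.Y.card then be t.X * U t.Y z + be t.Y * U t.X z
  else be t.X * U t.Y z

end TD

/-- The circular mean of the product of two functions. -/
noncomputable def gI (f g : ℂ → ℂ) (ρ σ : ℝ) (y : ℂ) : ℂ :=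
  ∫ θ in (0 : ℝ)..2 * Real.pi, f (y * Real.cos θ) * g (y * (ρ * Real.cos θ + σ * Real.sin θ))

/-- The function `√(Z ^ 2 - s)`. -/
noncomputable def eta (s Z : ℂ) : ℂ := Z * (1 - s / Z ^ 2) ^ (1 / 2 : ℂ)

/-- The sum of `f` over the two points of the circle with the given abscissa `Z`. -/
noncomputable def NN (f : ℂ → ℂ) (ρ σ : ℝ) (s Z : ℂ) : ℂ :=
  (f (ρ * Z + Complex.I * σ * eta s Z) + f (ρ * Z - Complex.I * σ * eta s Z)) / eta s Z

/-- The linear functional of a principal part at `x₀`. -/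
noncomputable def Lf (d : ℕ) (A : ℕ → ℂ) (x₀ : ℝ) (φ : ℂ → ℂ) : ℂ :=
  ∑ j ∈ range d, A j * ((-1) ^ j / (j.factorial : ℂ)) * iteratedDeriv j φ x₀

/-- `f` is odd and meromorphic near the disc of radius `x₀`, its only poles are `± x₀`, and `A` is
its principal part at `x₀`. -/
structure Prof (x₀ : ℝ) (d : ℕ) (A : ℕ → ℂ) (r f : ℂ → ℂ) : Prop where
  odd : ∀ x, r (-x) = -r x
  form : ∃ R : ℝ, x₀ < R ∧ DifferentiableOn ℂ r (Metric.ball 0 R) ∧
    ∀ x ∈ Metric.ball (0 : ℂ) R, x ≠ x₀ → x ≠ -x₀ →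
      f x = r x + ∑ j ∈ range d, A j * (((x₀ : ℂ) - x)⁻¹ ^ (j + 1) - ((x₀ : ℂ) + x)⁻¹ ^ (j + 1))

/-- A holomorphic function on the right half plane which continues to an odd meromorphic function
near `0`. -/
structure OddPart (O : ℂ → ℂ) : Prop where
  diff : DifferentiableOn ℂ O {q | 0 < q.re}
  near : ∃ (G : ℂ → ℂ) (K : ℕ), AnalyticAt ℂ G 0 ∧ ∃ ε > 0, ∀ q : ℂ, 0 < q.re → ‖q‖ < ε →
    O q = G q / q ^ K - G (-q) / (-q) ^ K

/-- `q ^ n O(q)` is a polynomial in `q` whose coefficients are periodic on the vertical lines, with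
the period `T`, and `E` is its constant coefficient. -/
def HasTop (O E : ℂ → ℂ) (n : ℕ) (T : ℝ) : Prop :=
  0 < T ∧ ∀ c : ℝ, 0 < c → ∃ F : ℕ → ℝ → ℂ, (∀ k, Continuous (F k)) ∧
    (∀ k t, F k (t + T) = F k t) ∧
    (∀ t : ℝ, ((c : ℂ) + Complex.I * t) ^ n * O (c + Complex.I * t) =
      ∑ k ∈ range (n + 1), ((c : ℂ) + Complex.I * t) ^ k * F k t) ∧
    ∀ t : ℝ, F 0 t = E (c + Complex.I * t)

/-- The numerical factor of the first singularity. -/
noncomputable def kap (d : ℕ) (x₀ : ℝ) : ℝ :=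
  2 * Real.pi * (x₀ / Real.pi) ^ d / (d - 1).factorial * ((2 * d - 3).doubleFactorial : ℝ) *
    x₀ ^ (d - 1)

/-- The coefficient at the pole `2 π n`. -/
noncomputable def co (Y : Finset ℕ) (n : ℕ) : ℝ :=
  (-1) ^ (dg Y * (n + 1)) * ∏ q ∈ Y, Real.sin (Real.pi * n / q)

open scoped Classical in
/-- The coefficient at the pole `2 π n`. -/
noncomputable def TD.co (t : TD) (n : ℕ) : ℝ :=
  if t.a = t.b ∧ t.X.card = t.Y.card then be t.X * TWO.co t.Y n + be t.Y * TWO.co t.X n
  else be t.X * TWO.co t.Y n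

open scoped Classical in
/-- The numerator of the function of the first singularity. -/
noncomputable def TD.lam (t : TD) (z : ℂ) : ℂ :=
  if t.a = t.b ∧ t.X.card = t.Y.card then
    be t.X * ∏ q ∈ t.Y, Complex.sin (z / (2 * q)) + be t.Y * ∏ q ∈ t.X, Complex.sin (z / (2 * q))
  else be t.X * ∏ q ∈ t.Y, Complex.sin (z / (2 * q))

end Pool.Agent.TWO
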