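import Pool.Agent.TWO.Defs
import Pool.Agent.SLR.L5
import Pool.Agent.TWO.A1

set_option autoImplicit false

open PowerSeries Finset MeasureTheory Filter Topology

namespace Pool.Agent.TWO

section part

open Pool.Agent.SLR Pool.Agent.OHG Pool.Agent.GPC

private theorem e1_lap {V : Type} [Fintype V] [DecidableEq V] (D : Data V) :
    lapM (lkm D) = OHG.lap D := by
  unfold lapM OHG.lap lkm
  rfl

private theorem e1_part {s : ℤ} (hs : s = 1 ∨ s = -1) {P : Prime} (hP : Definite s P) :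
    ∃ D' : OHT.Data (Fin (P.n + 1)), D'.IsSplice ∧ (∀ v, D'.leaf v = P.D.leaf v) ∧
      (∀ v w, (D'.lk v w : ℤ) = |P.D.lk v w|) ∧
      OHT.part D' = rescale (s : ℝ) (part P.D) := by
  obtain ⟨ε, hε, hpos⟩ := lk_sign hs hP
  obtain ⟨D', h1, h2, h3, h4⟩ := normal_form hs hP
  refine ⟨D', h1, h2, h4, ?_⟩
  have habs : ∀ v w, (D'.lk v w : ℝ) = (s : ℝ) * (ε v : ℝ) * (ε w : ℝ) * (P.D.lk v w : ℝ) := by
    intro v w
    have e1 : |P.D.lk v w| = s * ε v * ε w * P.D.lk v w := by
      have e2 : |s * ε v * ε w * P.D.lk v w| = |P.D.lk v w| := by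
        rw [abs_mul, abs_mul, abs_mul]
        have a1 : |s| = 1 := by rcases hs with rfl | rfl <;> simp
        have a2 : ∀ v, |ε v| = 1 := fun v => by rcases hε v with h | h <;> rw [h] <;> simp
        rw [a1, a2, a2, one_mul, one_mul, one_mul]
      rw [← e2, abs_of_pos (hpos v w)]
    have e3 := (h4 v w).trans e1
    exact_mod_cast e3
  ext n
  rw [coeff_rescale]
  unfold OHT.part OHG.part
  rw [coeff_mk, coeff_mk, Finset.mul_sum]
  refine Finset.sum_congr rfl fun j hj => ?_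
  have hj' : ∑ v, j v = n := (Finset.mem_piAntidiag.1 hj).1
  have hnode : ∀ v, OHT.node D' v = OHG.node P.D v := by
    intro v
    unfold OHT.node OHG.node
    rw [h2 v, h3 v]
    rfl
  have hmom : OHT.moment D' j = (s : ℝ) ^ n * OHG.moment P.D j := by
    rw [wick h1 j]
    unfold OHG.moment
    have e4 : (Matrix.of fun v w => (D'.lk v w : ℝ)) =
        Matrix.of fun v w => (s : ℝ) * (ε v : ℝ) * (ε w : ℝ) * (lkm P.D) v w := by
      ext v w
      exact habs v w
    rw [e4, lapM_sign (lkm P.D) (fun v => (ε v : ℝ)) (fun v => by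
      rcases hε v with h | h <;> rw [h] <;> simp) (s : ℝ), e1_lap, hj', mul_div_assoc]
  rw [hmom, Finset.prod_congr rfl fun v _ => by rw [hnode v]]
  ring

end part

section two

variable {V : Type} [Fintype V] [DecidableEq V] {D : OHT.Data V}

private theorem e1_wt (h : D.IsSplice) {v w : V} (hvw : v ≠ w) (hall : ∀ u, u = v ∨ u = w) :
    D.wt v w ≠ 0 := by
  obtain ⟨p⟩ := h.tree.connected.preconnected v w
  cases p with
  | nil => exact absurd rfl hvw
  | @cons _ u _ hadj _ =>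
    rcases hall u with rfl | rfl
    · exact absurd hadj (D.graph.loopless.irrefl _)
    · rw [OHT.Data.graph, SimpleGraph.fromRel_adj] at hadj
      rcases hadj.2 with h1 | h1
      · exact h1
      · exact h.symm _ _ h1

private theorem e1_nbr (h : D.IsSplice) {v w : V} (hvw : v ≠ w) (hall : ∀ u, u = v ∨ u = w) :
    D.nbr v = {w} := by
  ext x
  rw [OHT.Data.nbr, mem_filter, mem_singleton]
  constructor
  · rintro ⟨-, hx⟩
    rcases hall x with rfl | rfl
    · exact absurd (h.irrefl _) hx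
    · rfl
  · rintro rfl
    exact ⟨mem_univ _, e1_wt h hvw hall⟩

private theorem e1_c (h : D.IsSplice) {v w : V} (hvw : v ≠ w) (hall : ∀ u, u = v ∨ u = w) :
    (D.lk v w : ℝ) = Pr (D.leaf v) * Pr (D.leaf w) := by
  have hon : ∀ u, D.On v w u := by
    intro u
    unfold OHT.Data.On
    rcases hall u with rfl | rfl
    · simp
    · simp
  have huniv : (univ : Finset V) = {v, w} := by
    ext u
    simp only [mem_univ, mem_insert, mem_singleton, true_iff]
    exact hall u
  unfold OHT.Data.lk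
  rw [filter_true_of_mem fun u _ => hon u]
  have h1 : ∀ u, ((D.nbr u).filter fun x => ¬ D.On v w x) = ∅ := fun u =>
    filter_false_of_mem fun x _ hx => hx (hon x)
  simp only [h1, prod_empty, mul_one]
  rw [huniv, prod_pair hvw]
  unfold Pr
  push_cast
  rfl

private theorem e1_val (h : D.IsSplice) {v w : V} (hvw : v ≠ w) (hall : ∀ u, u = v ∨ u = w) :
    D.val v = (D.leaf v).card + 1 := by
  unfold OHT.Data.val
  rw [e1_nbr h hvw hall, card_singleton]

private theorem e1_leaf (h : D.IsSplice) {v w : V} (hvw : v ≠ w) (hall : ∀ u, u = v ∨ u = w) :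
    IsLeaf (D.leaf v) where
  card := by
    have h1 := h.three_le v
    rw [e1_val h hvw hall] at h1
    omega
  two_le := h.two_le v
  coprime := h.coprime_leaf v

private theorem e1_det (h : D.IsSplice) {v w : V} (hvw : v ≠ w) (hall : ∀ u, u = v ∨ u = w) :
    (D.lk v w : ℝ) ^ 2 < (D.lk v v : ℝ) * (D.lk w w : ℝ) := by
  have hw : w ∈ D.nbr v := by
    rw [e1_nbr h hvw hall, mem_singleton]
  have h1 := OHT.lk_adj h hw
  have h2 := h.edge_det v w hw
  have h3 := OHT.lk_pos h v w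
  have h4 : D.lk v w ^ 2 < D.lk v v * D.lk w w := by
    rw [h1, sq]
    exact Nat.mul_lt_mul_of_pos_left h2 h3
  exact_mod_cast h4

private theorem e1_node (h : D.IsSplice) {v w : V} (hvw : v ≠ w) (hall : ∀ u, u = v ∨ u = w) :
    OHT.node D v = nd (D.leaf v) := by
  unfold OHT.node nd dg
  rw [e1_val h hvw hall]
  rfl

/-- the diagram with the nodes in a given order -/
private noncomputable def e1_t (D : OHT.Data V) (v w : V) : TD :=
  ⟨D.leaf v, D.leaf w, D.lk v v, D.lk w w⟩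

private theorem e1_ok (h : D.IsSplice) {v w : V} (hvw : v ≠ w) (hall : ∀ u, u = v ∨ u = w)
    (hle : D.lk w w ≤ D.lk v v)
    (htie : D.lk w w = D.lk v v → (D.leaf w).card ≤ (D.leaf v).card) : (e1_t D v w).Ok where
  X := e1_leaf h hvw hall
  Y := e1_leaf h hvw.symm fun u => (hall u).symm
  b_pos := by
    show (0 : ℝ) < (D.lk w w : ℝ)
    exact_mod_cast OHT.lk_pos h w w
  det := by
    have h1 := e1_det h hvw hall
    rw [e1_c h hvw hall] at h1
    exact h1
  le := by
    show (D.lk w w : ℝ) ≤ (D.lk v v : ℝ)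
    exact_mod_cast hle
  tie := by
    intro h1
    have h2 : (D.lk v v : ℝ) = (D.lk w w : ℝ) := h1
    exact htie (by exact_mod_cast h2.symm)

end two

private theorem e1_ser {D : OHT.Data (Fin 2)} (h : D.IsSplice) :
    (e1_t D 0 1).ser = OHT.part D ∧ (e1_t D 1 0).ser = OHT.part D := by
  have h01 : (0 : Fin 2) ≠ 1 := by decide
  have hall : ∀ u : Fin 2, u = 0 ∨ u = 1 := by decide
  have hall' : ∀ u : Fin 2, u = 1 ∨ u = 0 := by decide
  have hc := e1_c h h01 hall
  have n0 := e1_node h h01 hall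
  have n1 := e1_node h h01.symm hall'
  constructor
  · ext n
    unfold TD.ser OHT.part
    rw [coeff_mk, coeff_mk]
    refine Finset.sum_nbij' (fun x => ![x.1, x.2]) (fun j => (j 0, j 1)) ?_ ?_ ?_ ?_ ?_
    · intro x hx
      rw [HasAntidiagonal.mem_antidiagonal] at hx
      rw [mem_piAntidiag]
      exact ⟨by simpa [Fin.sum_univ_two] using hx, fun _ _ => mem_univ _⟩
    · intro j hj
      rw [mem_piAntidiag] at hj
      rw [HasAntidiagonal.mem_antidiagonal]
      simpa [Fin.sum_univ_two] using hj.1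
    · intro x _
      simp
    · intro j _
      funext i
      fin_cases i <;> simp
    · intro x _
      rw [moment_two h, Fin.prod_univ_two, n0, n1, hc]
      rfl
  · ext n
    unfold TD.ser OHT.part
    rw [coeff_mk, coeff_mk]
    refine Finset.sum_nbij' (fun x => ![x.2, x.1]) (fun j => (j 1, j 0)) ?_ ?_ ?_ ?_ ?_
    · intro x hx
      rw [HasAntidiagonal.mem_antidiagonal] at hx
      rw [mem_piAntidiag]
      exact ⟨by simpa [Fin.sum_univ_two, add_comm] using hx, fun _ _ => mem_univ _⟩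
    · intro j hj
      rw [mem_piAntidiag] at hj
      rw [HasAntidiagonal.mem_antidiagonal]
      simpa [Fin.sum_univ_two, add_comm] using hj.1
    · intro x _
      simp
    · intro j _
      funext i
      fin_cases i <;> simp
    · intro x _
      rw [moment_two h, Fin.prod_univ_two, n0, n1, hc, H99.Spl.mom_symm]
      show coeff x.1 (nd (D.leaf 1)) * coeff x.2 (nd (D.leaf 0)) *
        (H99.Spl.Mom (D.lk 0 0) (Pr (D.leaf 1) * Pr (D.leaf 0)) (D.lk 1 1) x.2 x.1 /
          (2 * (Pr (D.leaf 1) * Pr (D.leaf 0)))) =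
        coeff x.2 (nd (D.leaf 0)) * coeff x.1 (nd (D.leaf 1)) *
        (H99.Spl.Mom (D.lk 0 0) (Pr (D.leaf 0) * Pr (D.leaf 1)) (D.lk 1 1) x.2 x.1 /
          (2 * (Pr (D.leaf 0) * Pr (D.leaf 1))))
      rw [mul_comm (Pr (D.leaf 1))]
      ring

private theorem e1_main {n : ℕ} (hn : n = 1) {D : OHT.Data (Fin (n + 1))} (h : D.IsSplice) :
    ∃ (t : TD) (v w : Fin (n + 1)), t.Ok ∧ v ≠ w ∧ (∀ u, u = v ∨ u = w) ∧ t.X = D.leaf v ∧
      t.Y = D.leaf w ∧ t.a = (D.lk v v : ℝ) ∧ t.b = (D.lk w w : ℝ) ∧ t.ser = OHT.part D := by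
  subst hn
  have h01 : (0 : Fin 2) ≠ 1 := by decide
  have hall : ∀ u : Fin 2, u = 0 ∨ u = 1 := by decide
  have hall' : ∀ u : Fin 2, u = 1 ∨ u = 0 := by decide
  by_cases hc : D.lk 1 1 ≤ D.lk 0 0 ∧ (D.lk 1 1 = D.lk 0 0 → (D.leaf 1).card ≤ (D.leaf 0).card)
  · exact ⟨e1_t D 0 1, 0, 1, e1_ok h h01 hall hc.1 hc.2, h01, hall, rfl, rfl, rfl, rfl,
      (e1_ser h).1⟩
  · refine ⟨e1_t D 1 0, 1, 0, e1_ok h h01.symm hall' ?_ ?_, h01.symm, hall', rfl, rfl, rfl, rfl,
      (e1_ser h).2⟩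
    · by_contra h1
      exact hc ⟨by omega, fun h2 => by omega⟩
    · intro h1
      by_contra h2
      exact hc ⟨by omega, fun _ => by omega⟩

theorem exists_td {s : ℤ} (hs : s = 1 ∨ s = -1) {P : OHG.Prime} (hn : P.n = 1)
    (hP : SLR.Definite s P) : ∃ (t : TD) (v w : Fin (P.n + 1)), t.Ok ∧ v ≠ w ∧
      (∀ u, u = v ∨ u = w) ∧ t.X = P.D.leaf v ∧ t.Y = P.D.leaf w ∧
      t.a = ((|P.D.lk v v| : ℤ) : ℝ) ∧ t.b = ((|P.D.lk w w| : ℤ) : ℝ) ∧
      t.ser = rescale (s : ℝ) (OHG.part P.D) := by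
  obtain ⟨D', h1, h2, h4, h5⟩ := e1_part hs hP
  obtain ⟨t, v, w, ht, hvw, hall, hX, hY, ha, hb, hser⟩ := e1_main hn h1
  refine ⟨t, v, w, ht, hvw, hall, by rw [hX, h2], by rw [hY, h2], ?_, ?_, by rw [hser, h5]⟩
  · rw [ha, ← h4]
    push_cast
    rfl
  · rw [hb, ← h4]
    push_cast
    rfl

end Pool.Agent.TWO
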