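import Pool.Agent.TWO.Defs
import Pool.Agent.SLR.L5

set_option autoImplicit false

open PowerSeries Finset MeasureTheory Filter Topology

namespace Pool.Agent.TWO

private theorem e2_adj {V : Type} [Fintype V] [DecidableEq V] {D : OHG.Data V} (h : D.IsGraph)
    {v w : V} (hvw : v ≠ w) (hall : ∀ u, u = v ∨ u = w) : D.graph.Adj v w := by
  obtain ⟨p⟩ := h.tree.connected.preconnected v w
  cases p with
  | nil => exact absurd rfl hvw
  | @cons _ u _ hadj _ =>
    rcases hall u with rfl | rfl
    · exact absurd hadj (D.graph.loopless.irrefl _)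
    · exact hadj

private theorem e2_nbr {V : Type} [Fintype V] [DecidableEq V] {D : OHG.Data V} (h : D.IsGraph)
    {v w : V} (hvw : v ≠ w) (hall : ∀ u, u = v ∨ u = w) : D.nbr v = {w} := by
  ext x
  rw [OHG.mem_nbr, mem_singleton]
  constructor
  · intro hx
    rcases hall x with rfl | rfl
    · exact absurd rfl hx.ne
    · rfl
  · rintro rfl
    exact e2_adj h hvw hall

private theorem e2_lk {V : Type} [Fintype V] [DecidableEq V] {D : OHG.Data V} (h : D.IsGraph)
    {v w : V} (hvw : v ≠ w) (hall : ∀ u, u = v ∨ u = w) :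
    |D.lk v v| = (∏ k ∈ D.leaf v, (k : ℤ)) * |D.wt v w| := by
  rw [OHG.lk_self h, e2_nbr h hvw hall, prod_singleton, abs_mul, abs_mul]
  have h1 : |D.sgn v| = 1 := by
    rcases h.sign v with h1 | h1 <;> rw [h1] <;> simp
  rw [h1, one_mul, abs_of_nonneg (prod_nonneg fun k _ => Int.natCast_nonneg k)]

private theorem e2_wt {V V' : Type} [Fintype V] [DecidableEq V] [Fintype V'] [DecidableEq V']
    {D : OHG.Data V} (h : D.IsGraph) {D' : OHG.Data V'} (h' : D'.IsGraph) {v w : V} {v' w' : V'}
    (hvw : v ≠ w) (hall : ∀ u, u = v ∨ u = w) (hvw' : v' ≠ w') (hall' : ∀ u, u = v' ∨ u = w')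
    (hv : D.leaf v = D'.leaf v') (hl : |D.lk v v| = |D'.lk v' v'|) :
    |D'.wt v' w'| = |D.wt v w| := by
  rw [e2_lk h hvw hall, e2_lk h' hvw' hall', ← hv] at hl
  have h0 : (∏ k ∈ D.leaf v, (k : ℤ)) ≠ 0 := by
    refine prod_ne_zero_iff.2 fun k hk => ?_
    have := h.two_le v k hk
    exact_mod_cast (by omega : k ≠ 0)
  exact (mul_left_cancel₀ h0 hl).symm

private theorem e2_self {V : Type} [Fintype V] [DecidableEq V] {D : OHG.Data V} (h : D.IsGraph)
    (v : V) : D.wt v v = 0 :=
  h.off v v fun hm => (OHG.mem_nbr.1 hm).ne rfl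

theorem same_of {s : ℤ} (hs : s = 1 ∨ s = -1) {P P' : OHG.Prime} (hn : P.n = 1) (hn' : P'.n = 1)
    (hP : SLR.Definite s P) (hP' : SLR.Definite s P') {v w : Fin (P.n + 1)}
    {v' w' : Fin (P'.n + 1)} (hvw : v ≠ w) (hvw' : v' ≠ w')
    (hv : P.D.leaf v = P'.D.leaf v') (hw : P.D.leaf w = P'.D.leaf w')
    (hlv : |P.D.lk v v| = |P'.D.lk v' v'|) (hlw : |P.D.lk w w| = |P'.D.lk w' w'|) :
    Same P P' := by
  have hall : ∀ u : Fin (P.n + 1), u = v ∨ u = w := by
    intro u
    have h1 : v.val ≠ w.val := fun h => hvw (Fin.ext h)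
    have h2 : u.val = v.val ∨ u.val = w.val := by omega
    exact h2.imp Fin.ext Fin.ext
  have hall' : ∀ u : Fin (P'.n + 1), u = v' ∨ u = w' := by
    intro u
    have h1 : v'.val ≠ w'.val := fun h => hvw' (Fin.ext h)
    have h2 : u.val = v'.val ∨ u.val = w'.val := by omega
    exact h2.imp Fin.ext Fin.ext
  have h := P.isGraph
  have h' := P'.isGraph
  have e1 := e2_wt h h' hvw hall hvw' hall' hv hlv
  have e2 := e2_wt h h' hvw.symm (fun u => (hall u).symm) hvw'.symm (fun u => (hall' u).symm)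
    hw hlw
  let e : Fin (P.n + 1) ≃ Fin (P'.n + 1) :=
    { toFun := fun u => if u = v then v' else w'
      invFun := fun u => if u = v' then v else w
      left_inv := fun u => by
        rcases hall u with rfl | rfl
        · simp
        · simp [hvw.symm, hvw'.symm]
      right_inv := fun u => by
        rcases hall' u with rfl | rfl
        · simp
        · simp [hvw.symm, hvw'.symm] }
  have ev : e v = v' := if_pos rfl
  have ew : e w = w' := if_neg hvw.symm
  refine ⟨e, fun u => ?_, fun u x => ?_⟩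
  · rcases hall u with rfl | rfl
    · rw [ev, hv]
    · rw [ew, hw]
  · rcases hall u with rfl | rfl <;> rcases hall x with rfl | rfl
    · rw [ev, e2_self h, e2_self h']
    · rw [ev, ew, e1]
    · rw [ev, ew, e2]
    · rw [ew, e2_self h, e2_self h']

end Pool.Agent.TWO
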