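import Pool.Agent.TWO.Defs
import Pool.Agent.SLR.All
import Pool.Agent.GPC.All
import Pool.Agent.TWO.D10
import Pool.Agent.TWO.E1
import Pool.Agent.TWO.E2

set_option autoImplicit false

open PowerSeries Finset MeasureTheory Filter Topology

namespace Pool.Agent.TWO

private theorem e3_sinh : OHG.sinhcHalf * OHG.sinhcHalf⁻¹ = 1 := by
  refine PowerSeries.mul_inv_cancel _ ?_
  rw [← coeff_zero_eq_constantCoeff_apply, OHG.sinhcHalf, coeff_mk]
  simp

private theorem e3_exp (κ : ℝ) : rescale κ (exp ℝ) ≠ 0 := by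
  intro h12
  have h13 := congrArg (coeff 0) h12
  rw [coeff_rescale, coeff_exp, map_zero] at h13
  simp at h13

theorem part_of_series {κ : ℝ} {P P' : OHG.Prime}
    (h : OHG.series κ {P} = OHG.series κ {P'}) : OHG.part P.D = OHG.part P'.D := by
  unfold OHG.series at h
  rw [Multiset.map_singleton, Multiset.map_singleton, Multiset.prod_singleton,
    Multiset.prod_singleton] at h
  have h1 := mul_left_cancel₀ (e3_exp κ) h
  have h2 : (OHG.sinhcHalf⁻¹ : ℝ⟦X⟧) ≠ 0 := by
    intro h0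
    have h3 := e3_sinh
    rw [h0, mul_zero] at h3
    exact zero_ne_one h3
  exact mul_left_cancel₀ h2 h1

private theorem e3_le {P P' : OHG.Prime} {t t' : TD} {v w : Fin (P.n + 1)}
    {v' : Fin (P'.n + 1)} (hok : t.Ok) (hu : ∀ u, u = v ∨ u = w)
    (ha : t.a = ((|P.D.lk v v| : ℤ) : ℝ)) (hb : t.b = ((|P.D.lk w w| : ℤ) : ℝ))
    (ha' : t'.a = ((|P'.D.lk v' v'| : ℤ) : ℝ))
    (hm : ∀ C : ℤ, (∀ u, |P.D.lk u u| ≤ C) → ∀ u, |P'.D.lk u u| ≤ C) : t'.a ≤ t.a := by
  have h1 : ∀ u, |P.D.lk u u| ≤ |P.D.lk v v| := by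
    intro u
    rcases hu u with rfl | rfl
    · exact le_rfl
    · have h2 := hok.le
      rw [ha, hb] at h2
      exact_mod_cast h2
  have h3 := hm _ h1 v'
  rw [ha, ha']
  exact_mod_cast h3

theorem small_links {s : ℤ} (hs : s = 1 ∨ s = -1) {κ κ' : ℝ} {P : OHG.Prime} (hn : P.n ≤ 1)
    (hP : SLR.Definite s P) {M' : Multiset OHG.Prime}
    (h : OHG.series κ {P} = OHG.series κ' M') : ∃ P' : OHG.Prime, M' = {P'} ∧ Same P P' := by
  obtain ⟨h1, h2, h3, -, h5⟩ := GPC.determined κ κ' {P} M' h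
  rw [Multiset.card_singleton] at h1
  obtain ⟨P', rfl⟩ := Multiset.card_eq_one.1 h1.symm
  refine ⟨P', rfl, ?_⟩
  rw [Multiset.map_singleton, Multiset.map_singleton, Multiset.sum_singleton,
    Multiset.sum_singleton] at h2
  by_cases h0 : P.n = 0
  · have h6 := h5 (fun Q hQ => by
      rw [Multiset.mem_singleton] at hQ
      rw [hQ]
      exact h0)
    rw [Multiset.singleton_inj] at h6
    subst h6
    exact ⟨Equiv.refl _, fun _ => rfl, fun _ _ => rfl⟩
  · have hn1 : P.n = 1 := by omega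
    have hn2 : P'.n = 1 := by omega
    subst h3
    obtain ⟨r1, r2⟩ := SLR.recognised hs h (fun Q hQ => by
      rw [Multiset.mem_singleton] at hQ
      rw [hQ]
      exact hP)
    have hP' : SLR.Definite s P' := r1 P' (Multiset.mem_singleton_self _)
    have hpart := part_of_series h
    obtain ⟨t, v, w, k1, k2, k3, k4, k5, k6, k7, k8⟩ := exists_td hs hn1 hP
    obtain ⟨t', v', w', k1', k2', k3', k4', k5', k6', k7', k8'⟩ := exists_td hs hn2 hP'
    have hm : ∀ C : ℤ, (∀ u, |P.D.lk u u| ≤ C) ↔ ∀ u, |P'.D.lk u u| ≤ C := by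
      intro C
      have := r2 C
      simpa using this
    have ha : t.a = t'.a := le_antisymm
      (e3_le k1' k3' k6' k7' k6 fun C => (hm C).2) (e3_le k1 k3 k6 k7 k6' fun C => (hm C).1)
    have hser : t.ser = t'.ser := by
      rw [k8, k8', hpart]
    obtain ⟨hb, h7⟩ := two_sep k1 k1' ha hser
    have hlv : |P.D.lk v v| = |P'.D.lk v' v'| := by
      rw [k6, k6'] at ha
      exact_mod_cast ha
    have hlw : |P.D.lk w w| = |P'.D.lk w' w'| := by
      rw [k7, k7'] at hb
      exact_mod_cast hb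
    rcases h7 with ⟨e1, e2⟩ | ⟨e0, e1, e2⟩
    · exact same_of hs hn1 hn2 hP hP' k2 k2' (by rw [← k4, ← k4', e1]) (by rw [← k5, ← k5', e2])
        hlv hlw
    · have e3 : |P.D.lk v v| = |P.D.lk w w| := by
        rw [k6, k7] at e0
        exact_mod_cast e0
      exact same_of hs hn1 hn2 hP hP' (v' := w') (w' := v') k2 k2'.symm
        (by rw [← k4, ← k5', e1]) (by rw [← k5, ← k4', e2]) (by rw [e3, hlw]) (by rw [← e3, hlv])

end Pool.Agent.TWO
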