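import Pool.Agent.TWO.All
import Pool.Agent.SLR.L1
import Pool.Agent.GSP.Defs

/-!
# Definite diagrams with the same leaves and absolute values of the weights are isomorphic
-/

set_option autoImplicit false

open Finset

namespace Pool.Agent.TWO

open Pool.Agent.OHG Pool.Agent.SLR Pool.Agent.GSP

private theorem pos_lk {s : ℤ} (hs : s = 1 ∨ s = -1) {P : Prime} (hP : Definite s P)
    (v : Fin (P.n + 1)) : 0 < s * P.D.lk v v := by
  obtain ⟨ε, h1, h2⟩ := lk_sign hs hP
  have h3 := h2 v v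
  rcases h1 v with h4 | h4 <;> rw [h4] at h3 <;> linarith

private theorem wt_ne {P : Prime} {s : ℤ} (hs : s = 1 ∨ s = -1) (hP : Definite s P)
    {v w : Fin (P.n + 1)} (h : w ∈ P.D.nbr v) : P.D.wt v w ≠ 0 := by
  intro h0
  have h1 := pos_lk hs hP v
  rw [lk_self P.isGraph, prod_eq_zero h h0, mul_zero, mul_zero] at h1
  exact lt_irrefl _ h1

private theorem mem_iff {P : Prime} {s : ℤ} (hs : s = 1 ∨ s = -1) (hP : Definite s P)
    (v w : Fin (P.n + 1)) : w ∈ P.D.nbr v ↔ P.D.wt v w ≠ 0 :=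
  ⟨wt_ne hs hP, fun h => by
    by_contra h0
    exact h (P.isGraph.off v w h0)⟩

/-- Definite diagrams with the same leaves and absolute values of the weights are isomorphic. -/
theorem iso_of_same {s : ℤ} (hs : s = 1 ∨ s = -1) {P P' : Prime} (hP : Definite s P)
    (hP' : Definite s P') (h : Same P P') : Iso P P' := by
  classical
  obtain ⟨e, h1, h2⟩ := h
  have hm : ∀ v w, e w ∈ P'.D.nbr (e v) ↔ w ∈ P.D.nbr v := by
    intro v w
    rw [mem_iff hs hP', mem_iff hs hP, ← abs_ne_zero, h2, abs_ne_zero]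
  let η : Fin (P.n + 1) → Fin (P.n + 1) → ℤ := fun v w =>
    if P'.D.wt (e v) (e w) = P.D.wt v w then 1 else -1
  have hη : ∀ v w, η v w = 1 ∨ η v w = -1 := by
    intro v w
    simp only [η]
    split_ifs
    · exact Or.inl rfl
    · exact Or.inr rfl
  have hw : ∀ v w, P'.D.wt (e v) (e w) = η v w * P.D.wt v w := by
    intro v w
    simp only [η]
    split_ifs with h3
    · rw [h3, one_mul]
    · rcases abs_eq_abs.1 (h2 v w) with h4 | h4
      · exact absurd h4 h3
      · rw [h4]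
        ring
  refine ⟨e, η, fun v w => ?_, h1, hη, hw, fun v => ?_⟩
  · rw [← mem_nbr, ← mem_nbr, hm]
  · have hn : P'.D.nbr (e v) = (P.D.nbr v).map e.toEmbedding := by
      ext x
      rw [mem_map_equiv, ← hm, Equiv.apply_symm_apply]
    have h3 := pos_lk hs hP v
    have h4 := pos_lk hs hP' (e v)
    have h5 : P'.D.lk (e v) (e v) = P'.D.sgn (e v) * (∏ k ∈ P.D.leaf v, (k : ℤ)) *
        ((∏ w ∈ P.D.nbr v, η v w) * ∏ w ∈ P.D.nbr v, P.D.wt v w) := by
      rw [lk_self P'.isGraph, h1, hn, prod_map, ← prod_mul_distrib]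
      congr 1
      exact prod_congr rfl fun w _ => hw v w
    have h6 := lk_self P.isGraph v
    have hpe : (∏ w ∈ P.D.nbr v, η v w) = 1 ∨ (∏ w ∈ P.D.nbr v, η v w) = -1 := by
      refine prod_induction _ (fun x : ℤ => x = 1 ∨ x = -1) ?_ (Or.inl rfl) fun w _ => hη v w
      rintro a b (rfl | rfl) (rfl | rfl) <;> simp
    rw [h5] at h4
    rw [h6] at h3
    set L := ∏ k ∈ P.D.leaf v, (k : ℤ)
    set W := ∏ w ∈ P.D.nbr v, P.D.wt v w
    rcases P.isGraph.sign v with h7 | h7 <;> rcases P'.isGraph.sign (e v) with h8 | h8 <;>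
      rcases hpe with h9 | h9 <;> rw [h7] at h3 ⊢ <;> rw [h8, h9] at h4 <;> rw [h8, h9] <;>
      first
        | (norm_num; done)
        | (exfalso; linarith)

end Pool.Agent.TWO
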